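import Pool.Agent.Lib.MP_813db1_ag.VH.S8.StL

/-! The algebra of a complex structure which is compatible with a symplectic form. -/

namespace Pool.Agent.Lib.MP_813db1_ag.VH.S8

open Pool.Agent.Lib.MP_813db1_ag.HS
open Complex Matrix
open scoped ComplexOrder

namespace AlgA

section rl

variable {α β γ : Type}

theorem map_mul' [Fintype β] (A : Matrix α β ℂ) (B : Matrix β γ ℂ) :
    (A * B).map star = A.map star * B.map star := Matrix.map_mul (f := starRingEnd ℂ)

theorem rl_mul [Fintype β] {A : Matrix α β ℂ} {B : Matrix β γ ℂ} (hA : Rl A) (hB : Rl B) :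
    Rl (A * B) := by rw [Rl, map_mul', hA, hB]

theorem rl_tr {A : Matrix α β ℂ} (h : Rl A) : Rl Aᵀ := congrArg transpose h

theorem rl_ct {A : Matrix α β ℂ} (h : Rl A) : Aᴴ = Aᵀ := rl_tr h

theorem rl_inv [Fintype α] [DecidableEq α] {A : Mat α} (h : Rl A) : Rl A⁻¹ := by
  have e : A⁻¹ᴴ = A⁻¹ᵀ := by rw [conjTranspose_nonsing_inv, rl_ct h, transpose_nonsing_inv]
  exact congrArg transpose e

theorem rl_neg {A : Matrix α β ℂ} (h : Rl A) : Rl (-A) := by
  ext i j
  exact (star_neg _).trans (congrArg Neg.neg (congrFun₂ h i j))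

theorem parts {A B : Matrix α β ℂ} (hA : Rl A) (hB : Rl B) (h : A - I • B = 0) :
    A = 0 ∧ B = 0 := by
  have key : ∀ i j, A i j = 0 ∧ B i j = 0 := fun i j => by
    have h1 : A i j - I * B i j = 0 := congrFun₂ h i j
    have h2 := congrArg star h1
    have a : star (A i j) = A i j := congrFun₂ hA i j
    have b : star (B i j) = B i j := congrFun₂ hB i j
    rw [star_sub, star_mul', a, b, star_I, star_zero] at h2
    exact ⟨by linear_combination (h1 + h2) / 2,
      by linear_combination I * (h1 - h2) / 2 + B i j * I_mul_I⟩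
  exact ⟨Matrix.ext fun i j => (key i j).1, Matrix.ext fun i j => (key i j).2⟩

theorem rv_iv {a b : V α} (ha : star a = a) (hb : star b = b) :
    cv (rv (a + I • b)) = a ∧ cv (iv (a + I • b)) = b := by
  have a1 : ∀ i, (a i).im = 0 := fun i => conj_eq_iff_im.1 (congrFun ha i)
  have b1 : ∀ i, (b i).im = 0 := fun i => conj_eq_iff_im.1 (congrFun hb i)
  constructor <;> funext i <;> apply Complex.ext <;> simp [cv, rv, iv, a1, b1]

end rl

variable {r σ : Type} [Fintype r] [DecidableEq r] [Fintype σ] [DecidableEq σ] {Q H : Mat r}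
  {L : Matrix r σ ℂ}

theorem sym (h : Sg Q H) : Hᵀ = H := (rl_ct h.re).symm.trans h.pos.1

theorem unit {A : Mat r} (h : A.PosDef) : IsUnit A.det := h.det_pos.ne'.isUnit

theorem hj (h : Sg Q H) : H * jM Q H = Q := mul_nonsing_inv_cancel_left _ _ (unit h.pos)

theorem qj (h : Sg Q H) : Q * jM Q H = -H := by
  have e : H * jM Q H * jM Q H = -H := by rw [Matrix.mul_assoc, h.sq, mul_neg, mul_one]
  rwa [hj h] at e

theorem detQ (h : Sg Q H) : Q.det ≠ 0 := by
  have e := congrArg det (show Q * -jM Q H = H by rw [mul_neg, qj h, neg_neg])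
  rw [det_mul] at e
  exact left_ne_zero_of_mul (e ▸ h.pos.det_pos.ne')

omit [DecidableEq r] [DecidableEq σ] in
theorem pd_mul {B : Matrix r σ ℂ} (h : H.PosDef) (hB : Rl B) (hi : ∀ v, B *ᵥ v = 0 → v = 0) :
    (Bᵀ * H * B).PosDef := by
  rw [← rl_ct hB]
  refine h.conjTranspose_mul_mul_same fun u v e => sub_eq_zero.1 (hi _ ?_)
  rw [mulVec_sub, e, sub_self]

omit [DecidableEq σ] in
theorem mu (l : Lag Q L) (h : Sg Q H) : (muM L H).PosDef := pd_mul h.pos l.reL l.inj

omit [DecidableEq σ] in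
theorem reMu (l : Lag Q L) (h : Sg Q H) : Rl (muM L H) := rl_mul (rl_mul (rl_tr l.reL) h.re) l.reL

omit [DecidableEq σ] in
theorem reJ (l : Lag Q L) (h : Sg Q H) : Rl (jM Q H) := rl_mul (rl_inv h.re) l.reQ

/-- the coordinates of the orthogonal projection. -/
noncomputable def W (L : Matrix r σ ℂ) (H : Mat r) : Matrix σ r ℂ := (muM L H)⁻¹ * Lᵀ * H

theorem reW (l : Lag Q L) (h : Sg Q H) : Rl (W L H) :=
  rl_mul (rl_mul (rl_inv (reMu l h)) (rl_tr l.reL)) h.re

theorem wj (h : Sg Q H) : W L H * jM Q H = (muM L H)⁻¹ * Lᵀ * Q := by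
  rw [W, Matrix.mul_assoc, hj h]

theorem z_eq (h : Sg Q H) : zM Q L H = W L H - I • (W L H * jM Q H) := by
  rw [wj h, zM, W, Matrix.mul_sub, Matrix.mul_smul]

theorem wl (l : Lag Q L) (h : Sg Q H) : W L H * L = 1 := by
  rw [W, Matrix.mul_assoc, Matrix.mul_assoc, ← Matrix.mul_assoc Lᵀ]
  exact nonsing_inv_mul _ (unit (mu l h))

theorem wjl (l : Lag Q L) (h : Sg Q H) : W L H * jM Q H * L = 0 := by
  rw [wj h, Matrix.mul_assoc, Matrix.mul_assoc, ← Matrix.mul_assoc Lᵀ, l.iso, Matrix.mul_zero]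

omit [Fintype σ] [DecidableEq σ] in
theorem wjj (h : Sg Q H) (A : Matrix σ r ℂ) : A * jM Q H * jM Q H = -A := by
  rw [Matrix.mul_assoc, h.sq, Matrix.mul_neg, Matrix.mul_one]

/-- the space is the sum of the Lagrangian subspace and of its image. -/
theorem key (l : Lag Q L) (h : Sg Q H) :
    L * W L H - jM Q H * L * (W L H * jM Q H) = 1 := by
  have e : r ≃ σ ⊕ σ := Fintype.equivOfCardEq (by rw [Fintype.card_sum, l.card, two_mul])
  have h1 := (fromCols_mul_fromRows_eq_one_comm e L (jM Q H * L) (W L H)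
    (-(W L H * jM Q H))).2 (by
      rw [fromRows_mul_fromCols, wl l h, ← Matrix.mul_assoc, wjl l h, Matrix.neg_mul, wjl l h,
        neg_zero, Matrix.neg_mul, ← Matrix.mul_assoc, wjj h, Matrix.neg_mul, neg_neg, wl l h,
        fromBlocks_one])
  rwa [fromCols_mul_fromRows, Matrix.mul_neg, ← sub_eq_add_neg] at h1

theorem zl (l : Lag Q L) (h : Sg Q H) : zM Q L H * L = 1 := by
  rw [z_eq h, Matrix.sub_mul, Matrix.smul_mul, wl l h, wjl l h, smul_zero, sub_zero]

theorem zj (h : Sg Q H) : zM Q L H * jM Q H = I • zM Q L H := by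
  rw [z_eq h, Matrix.sub_mul, Matrix.smul_mul, wjj h, smul_sub, smul_smul, I_mul_I, smul_neg,
    neg_smul, one_smul]
  abel

theorem eig (l : Lag Q L) (h : Sg Q H) {τ : Type} {Y : Matrix τ r ℂ} (e : Y * jM Q H = I • Y) :
    Y = Y * L * zM Q L H := by
  have h1 := congrArg (Y * ·) (key l h)
  simp only [Matrix.mul_sub, Matrix.mul_one] at h1
  rw [← Matrix.mul_assoc Y (jM Q H * L), ← Matrix.mul_assoc Y (jM Q H), e, Matrix.smul_mul,
    Matrix.smul_mul, ← Matrix.mul_assoc] at h1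
  rw [z_eq h, Matrix.mul_sub, Matrix.mul_smul, h1]

theorem muz (l : Lag Q L) (h : Sg Q H) :
    (muM L H)⁻¹ = (I / 2) • (zM Q L H * Q⁻¹ * (zM Q L H)ᴴ) := by
  have u := (detQ h).isUnit
  have e1 : (H - I • Q)ᴴ = H - I • Q := by
    rw [conjTranspose_sub, conjTranspose_smul, h.pos.1, rl_ct l.reQ, l.alt, star_I, neg_smul_neg]
  have e2 : Q⁻¹ * (H - I • Q) = -jM Q H - I • 1 := by
    rw [Matrix.mul_sub, Matrix.mul_smul, nonsing_inv_mul _ u, ← neg_neg H, ← qj h, Matrix.mul_neg,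
      nonsing_inv_mul_cancel_left _ _ u, qj h, neg_neg]
  have e3 : (zM Q L H)ᴴ = (H - I • Q) * (L * (muM L H)⁻¹) := by
    rw [zM, conjTranspose_mul, conjTranspose_mul, e1, rl_ct (rl_tr l.reL), transpose_transpose,
      (mu l h).inv.1]
  rw [e3, Matrix.mul_assoc, ← Matrix.mul_assoc Q⁻¹, e2, ← Matrix.mul_assoc, Matrix.mul_sub,
    Matrix.mul_neg, zj h, Matrix.mul_smul, Matrix.mul_one, ← Matrix.mul_assoc, Matrix.sub_mul,
    Matrix.neg_mul, Matrix.smul_mul, zl l h, Matrix.sub_mul, Matrix.neg_mul, Matrix.smul_mul,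
    Matrix.one_mul, ← neg_smul, ← sub_smul, smul_smul,
    show I / 2 * (-I - I) = 1 by linear_combination -I_mul_I, one_smul]

theorem eqv (l : Lag Q L) (h : Sg Q H) {ρ ρ' : Mat r} (hρ : Rl ρ) (h1 : ρ' * ρ = 1)
    (h2 : ρᵀ * Q * ρ = Q) :
    Sg Q (ρ'ᵀ * H * ρ') ∧ jM Q (ρ'ᵀ * H * ρ') = ρ * jM Q H * ρ' := by
  have h3 : ρ * ρ' = 1 := mul_eq_one_comm.1 h1
  have h4 : Rl ρ' := inv_eq_left_inv h1 ▸ rl_inv hρ
  have h5 : (ρ'ᵀ * H * ρ')⁻¹ = ρ * H⁻¹ * ρᵀ := inv_eq_right_inv (by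
    rw [Matrix.mul_assoc ρ, ← Matrix.mul_assoc, Matrix.mul_assoc _ ρ', h1, Matrix.mul_one,
      Matrix.mul_assoc, mul_nonsing_inv_cancel_left _ _ (unit h.pos), ← transpose_mul, h3,
      transpose_one])
  have h6 : ρᵀ * Q = Q * ρ' := by
    conv_rhs => rw [← h2, Matrix.mul_assoc, h3, Matrix.mul_one]
  have h7 : jM Q (ρ'ᵀ * H * ρ') = ρ * jM Q H * ρ' := by
    rw [jM, jM, h5, Matrix.mul_assoc, h6]
    simp only [Matrix.mul_assoc]
  refine ⟨⟨rl_mul (rl_mul (rl_tr h4) h.re) h4, pd_mul h.pos h4 fun v hv => ?_, ?_⟩, h7⟩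
  · rw [← one_mulVec v, ← h3, ← mulVec_mulVec, hv, mulVec_zero]
  · rw [h7]
    calc _ = ρ * (jM Q H * (ρ' * ρ) * jM Q H) * ρ' := by simp only [Matrix.mul_assoc]
      _ = -1 := by rw [h1, Matrix.mul_one, h.sq, mul_neg, mul_one, neg_mul, h3]

theorem eqv2 (l : Lag Q L) (h : Sg Q H) {H' ρ : Mat r} (h' : Sg Q H') (hρ : Rl ρ)
    (h2 : ρ * Q⁻¹ * ρᵀ = Q⁻¹) (e : zM Q L H' * ρ = zM Q L H' * ρ * L * zM Q L H) :
    (zM Q L H' * ρ * L).det ≠ 0 ∧ muM L H = pull (zM Q L H' * ρ * L) (muM L H') := by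
  have e1 : (muM L H')⁻¹ = zM Q L H' * ρ * L * (muM L H)⁻¹ * (zM Q L H' * ρ * L)ᴴ := by
    have a : zM Q L H' * Q⁻¹ * (zM Q L H')ᴴ = zM Q L H' * ρ * Q⁻¹ * (zM Q L H' * ρ)ᴴ := by
      conv_lhs => rw [← h2]
      simp only [conjTranspose_mul, rl_ct hρ, Matrix.mul_assoc]
    rw [muz l h', muz l h, a, Matrix.mul_smul, Matrix.smul_mul]
    conv_lhs => rw [e]
    simp only [conjTranspose_mul, Matrix.mul_assoc]
  generalize zM Q L H' * ρ * L = Y at e1
  have e2 : muM L H' * Y * (muM L H)⁻¹ * Yᴴ = 1 := by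
    rw [Matrix.mul_assoc, Matrix.mul_assoc, ← Matrix.mul_assoc Y, ← e1]
    exact mul_nonsing_inv _ (unit (mu l h'))
  have e3 : Yᴴ * muM L H' * Y = muM L H := by
    have a := congrArg (· * muM L H) (mul_eq_one_comm.1 e2)
    simp only [Matrix.mul_assoc, nonsing_inv_mul _ (unit (mu l h)), Matrix.mul_one,
      Matrix.one_mul] at a
    rwa [Matrix.mul_assoc]
  refine ⟨fun n => (mu l h).det_pos.ne' (by rw [← e3, det_mul, n, mul_zero]), ?_⟩
  have e4 := congrArg (fun A : Mat σ => A.map star) e3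
  simp only [map_mul'] at e4
  rw [reMu l h, reMu l h'] at e4
  rw [← e4, pull]
  congr 2
  ext i j
  exact star_star _

end AlgA

open AlgA

theorem algS : AlgS := by
  intro r σ _ _ _ _ Q L H l h
  have k := key l h
  have rW := reW l h
  have rJ := reJ l h
  exact
    { detQ := detQ h
      reJ := rJ
      hj := hj h
      qj := qj h
      jh := by
        conv_lhs => rw [← sym h, ← transpose_mul, sym h, hj h, l.alt]
      trJ := by
        have e := trace_transpose (jM Q H)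
        rw [jM, transpose_mul, l.alt, transpose_nonsing_inv, sym h, Matrix.neg_mul, trace_neg,
          trace_mul_comm] at e
        rw [jM]
        linear_combination -e / 2
      mu := mu l h
      reMu := reMu l h
      zl := zl l h
      zj := zj h
      pe := by
        have e : (1 - I • jM Q H) * jM Q H = I • (1 - I • jM Q H) := by
          rw [Matrix.sub_mul, Matrix.smul_mul, h.sq, smul_sub, smul_smul, I_mul_I, Matrix.one_mul,
            smul_neg, neg_smul, one_smul]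
          abel
        rw [Matrix.mul_sub, Matrix.mul_one, ← Matrix.mul_assoc, ← eig l h e, sub_self]
      xz := fun v => by
        have e : zM Q L H *ᵥ cv v = W L H *ᵥ cv v + I • (-(W L H * jM Q H)) *ᵥ cv v := by
          rw [z_eq h, sub_mulVec, smul_mulVec, neg_mulVec, smul_neg, sub_eq_add_neg]
        have a := rv_iv (by rw [rW.star_mulVec, star_cv] : star (W L H *ᵥ cv v) = _)
          (by rw [(rl_neg (rl_mul rW rJ)).star_mulVec, star_cv] :
            star ((-(W L H * jM Q H)) *ᵥ cv v) = _)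
        rw [xM, e, a.1, a.2, mulVec_mulVec, mulVec_mulVec, ← add_mulVec, Matrix.mul_neg,
          ← sub_eq_add_neg, k, one_mulVec]
      zx := fun z => by
        rw [xM, mulVec_add, mulVec_mulVec, mulVec_mulVec, ← Matrix.mul_assoc, zj h,
          Matrix.smul_mul, zl l h, smul_mulVec, one_mulVec, one_mulVec]
        funext i
        simpa [cv, rv, iv, mul_comm] using re_add_im (z i)
      rx := fun z => by
        rw [xM, star_add, l.reL.star_mulVec, (rl_mul rJ l.reL).star_mulVec, star_cv, star_cv]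
      inj := fun A hA e => by
        rw [z_eq h, Matrix.sub_mul, Matrix.smul_mul] at e
        obtain ⟨a, b⟩ := parts (rl_mul rW hA) (rl_mul (rl_mul rW rJ) hA) e
        rw [← Matrix.one_mul A, ← k, Matrix.sub_mul, Matrix.mul_assoc, a, Matrix.mul_assoc, b,
          Matrix.mul_zero, Matrix.mul_zero, sub_zero]
      muz := muz l h
      eqv := fun ρ ρ' hρ h1 h2 => by
        obtain ⟨a, b⟩ := eqv l h hρ h1 h2
        have c : zM Q L (ρ'ᵀ * H * ρ') * ρ = zM Q L (ρ'ᵀ * H * ρ') * ρ * L * zM Q L H := by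
          refine eig l h ?_
          rw [← Matrix.smul_mul, ← zj a, b]
          simp only [Matrix.mul_assoc, h1, Matrix.mul_one]
        have d : ρ * Q⁻¹ * ρᵀ = Q⁻¹ := (inv_eq_left_inv (by
          have e := congrArg (Q⁻¹ * ·) h2
          simp only [nonsing_inv_mul _ (detQ h).isUnit, ← Matrix.mul_assoc] at e
          have e' := mul_eq_one_comm.1 e
          simpa only [Matrix.mul_assoc] using e')).symm
        exact ⟨a, b, c, eqv2 l h a hρ d c⟩ }

end Pool.Agent.Lib.MP_813db1_ag.VH.S8
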