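import Pool.Agent.Lib.MP_813db1_ag.VH.S8.StL

/-! Representatives of the points of finite order of a torus. -/

namespace Pool.Agent.Lib.MP_813db1_ag.VH.S8

open Filter Topology Set

namespace AvLa

variable {F : Type} [NormedAddCommGroup F] [NormedSpace ℝ F] {Λ : AddSubgroup F} {n : ℕ}

theorem ord {v w : F} (h : (v : F ⧸ Λ) = w) (hv : (n : ℝ) • v ∈ Λ) : (n : ℝ) • w ∈ Λ := by
  have := Λ.add_mem hv (Λ.nsmul_mem (QuotientAddGroup.eq.1 h) n)
  rwa [← Nat.cast_smul_eq_nsmul ℝ, ← smul_add, add_neg_cancel_left] at this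

theorem fin {R : ℝ} (h1 : ∀ T : ℝ, {v ∈ (Λ : Set F) | ‖v‖ ≤ T}.Finite)
    (h2 : ∀ v, ∃ u ∈ Λ, ‖v + u‖ ≤ R) (hn : 0 < n) :
    {q : F ⧸ Λ | (n : ℝ) • q.out ∈ Λ}.Finite := by
  refine ((h1 (n * R)).image fun v => (((n : ℝ)⁻¹ • v : F) : F ⧸ Λ)).subset fun q hq => ?_
  obtain ⟨u, u1, u2⟩ := h2 q.out
  have e : (q.out : F ⧸ Λ) = (q.out + u : F) := QuotientAddGroup.eq.2 (by simpa using u1)
  refine ⟨(n : ℝ) • (q.out + u), ⟨ord e hq, ?_⟩, ?_⟩
  · rw [norm_smul, Real.norm_natCast]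
    exact mul_le_mul_of_nonneg_left u2 n.cast_nonneg
  · beta_reduce
    rw [inv_smul_smul₀ (Nat.cast_ne_zero.2 hn.ne'), ← e, QuotientAddGroup.out_eq']

theorem key {T : Finset (F ⧸ Λ)} (hT : ∀ q, q ∈ T ↔ (n : ℝ) • q.out ∈ Λ) {f : F → ℂ}
    (hf : ∀ v, ∀ u ∈ Λ, f (v + u) = f v) {φ φ' : F → F}
    (h1 : ∀ v w, -v + w ∈ Λ → -φ v + φ w ∈ Λ) (h1' : ∀ v w, -v + w ∈ Λ → -φ' v + φ' w ∈ Λ)
    (h2 : ∀ v, (n : ℝ) • v ∈ Λ → (n : ℝ) • φ v ∈ Λ) (h2' : ∀ v, (n : ℝ) • v ∈ Λ → (n : ℝ) • φ' v ∈ Λ)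
    (h3 : ∀ v, φ' (φ v) = v) (h3' : ∀ v, φ (φ' v) = v) :
    ∑ q ∈ T, f (φ q.out) = ∑ q ∈ T, f q.out := by
  have o : ∀ v : F, -v + (v : F ⧸ Λ).out ∈ Λ := fun v =>
    QuotientAddGroup.eq.1 (QuotientAddGroup.out_eq' _).symm
  refine Finset.sum_nbij' (fun q => (φ q.out : F ⧸ Λ)) (fun q => (φ' q.out : F ⧸ Λ))
    (fun q hq => (hT _).2 (ord (QuotientAddGroup.out_eq' _).symm (h2 _ ((hT q).1 hq))))
    (fun q hq => (hT _).2 (ord (QuotientAddGroup.out_eq' _).symm (h2' _ ((hT q).1 hq))))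
    (fun q _ => ?_) (fun q _ => ?_) fun q _ => ?_
  · rw [← QuotientAddGroup.eq.2 (h1' _ _ (o _)), h3, QuotientAddGroup.out_eq']
  · rw [← QuotientAddGroup.eq.2 (h1 _ _ (o _)), h3', QuotientAddGroup.out_eq']
  · rw [← hf _ _ (o (φ q.out)), add_neg_cancel_left]

end AvLa

open AvLa in
theorem avL : AvL := by
  intro F _ _ Λ R h1 h2
  refine ⟨fun n hn => ?_, fun f hf h t => ?_⟩
  · classical
    have hT : ∀ q, q ∈ (fin h1 h2 hn).toFinset ↔ (n : ℝ) • q.out ∈ Λ := fun _ =>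
      (fin h1 h2 hn).mem_toFinset
    have hs : ∀ g : F → ℂ, ∑ t ∈ (fin h1 h2 hn).toFinset.image Quotient.out, g t =
        ∑ q ∈ (fin h1 h2 hn).toFinset, g q.out := fun g =>
      Finset.sum_image fun _ _ _ _ e => Quotient.out_injective e
    refine ⟨(fin h1 h2 hn).toFinset.image Quotient.out, Finset.Nonempty.image ⟨((0 : F) : F ⧸ Λ),
      (hT _).2 (ord (QuotientAddGroup.out_eq' _).symm (by simp))⟩ _, fun f hf =>
        ⟨fun A A' e e' hA => ?_, fun t₀ ht => ?_⟩⟩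
    · rw [hs fun t => f (A t), hs]
      exact key hT hf (φ' := A')
        (fun v w h => by simpa using (hA _ h).1) (fun v w h => by simpa using (hA _ h).2)
        (fun v h => by simpa using (hA _ h).1) (fun v h => by simpa using (hA _ h).2)
        (fun v => DFunLike.congr_fun e' v) fun v => DFunLike.congr_fun e v
    · rw [hs fun t => f (t + t₀), hs]
      exact key hT hf (φ := fun t => t + t₀) (φ' := fun t => t - t₀)
        (fun v w h => by rwa [show -(v + t₀) + (w + t₀) = -v + w by abel])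
        (fun v w h => by rwa [show -(v - t₀) + (w - t₀) = -v + w by abel])
        (fun v h => by simpa only [smul_add] using Λ.add_mem h ht)
        (fun v h => by simpa only [smul_sub] using Λ.sub_mem h ht)
        (fun v => add_sub_cancel_right v t₀) fun v => sub_add_cancel v t₀
  · choose u u1 u2 using fun n : ℕ => h2 (((n : ℝ) + 1) • t)
    have l : Tendsto (fun n : ℕ => -((n : ℝ) + 1)⁻¹ • u n) atTop (𝓝 t) := by
      refine tendsto_iff_norm_sub_tendsto_zero.2 (squeeze_zero (fun _ => norm_nonneg _)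
        (fun n => ?_) (by simpa using tendsto_one_div_add_atTop_nhds_zero_nat.mul_const R))
      have p : (0 : ℝ) < (n : ℝ) + 1 := by positivity
      have e : -((n : ℝ) + 1)⁻¹ • u n - t = -((n : ℝ) + 1)⁻¹ • (((n : ℝ) + 1) • t + u n) := by
        rw [smul_add, smul_smul, neg_mul, inv_mul_cancel₀ p.ne', neg_smul, neg_smul, one_smul]
        abel
      rw [e, norm_smul, norm_neg, Real.norm_of_nonneg (by positivity)]
      exact mul_le_mul_of_nonneg_left (u2 n) (by positivity)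
    refine tendsto_nhds_unique (hf.tendsto t |>.comp l) (tendsto_const_nhds.congr fun n => ?_)
    refine (h (n + 1) _ n.succ_pos ?_).symm
    rw [smul_smul, Nat.cast_succ, mul_neg, mul_inv_cancel₀ (by positivity), neg_smul, one_smul]
    exact Λ.neg_mem (u1 n)

end Pool.Agent.Lib.MP_813db1_ag.VH.S8
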