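import Pool.Agent.Lib.MP_813db1_ag.VH.S8.StL

/-! Changes of models and translations along the leaves. -/

namespace Pool.Agent.Lib.MP_813db1_ag.VH.S8

open Pool.Agent.Lib.MP_813db1_ag.HS Pool.Agent.Lib.MP_813db1_ag.AS
open MeasureTheory Complex Matrix Filter Topology Set Metric
open scoped ContDiff ComplexOrder

set_option linter.unusedSectionVars false

variable {ι r : Type} [Fintype ι] [DecidableEq ι] [Fintype r] [DecidableEq r]

namespace TrAux

variable {s : Finset ι} {w : V ι}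

theorem an_yp (s : Finset ι) (w : V ι) : AnalyticAt ℂ (yp s) w :=
  analyticAt_pi_iff.2 fun i => (ContinuousLinearMap.proj (R := ℂ) (φ := fun _ : ι => ℂ) i.1).analyticAt w

theorem an_zp (s : Finset ι) (w : V ι) (i : Sg' s) : AnalyticAt ℂ (fun u => zp s u i) w :=
  (ContinuousLinearMap.proj (R := ℂ) (φ := fun _ : ι => ℂ) i.1).analyticAt w

theorem dz_yp {f : V (Ta s) → ℂ} (hf : AnalyticAt ℂ f (yp s w)) (k : ι) :
    dz (fun u => f (yp s u)) k w = fderiv ℂ f (yp s w) (yp s (Pi.single k 1)) := by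
  have h : HasFDerivAt (yp s) (ContinuousLinearMap.pi fun i : Ta s =>
      ContinuousLinearMap.proj (R := ℂ) (φ := fun _ : ι => ℂ) i.1) w :=
    (ContinuousLinearMap.pi fun i : Ta s =>
      ContinuousLinearMap.proj (R := ℂ) (φ := fun _ : ι => ℂ) i.1).hasFDerivAt
  have h2 := hf.differentiableAt.hasFDerivAt.comp w h
  exact (dz_hol h2.differentiableAt k).trans (by rw [h2.fderiv]; rfl)

theorem dz_yp1 {f : V (Ta s) → ℂ} (hf : AnalyticAt ℂ f (yp s w)) (k : Sg' s) :
    dz (fun u => f (yp s u)) k w = 0 := by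
  have e : yp s (Pi.single k.1 1 : V ι) = 0 := funext fun i =>
    Pi.single_eq_of_ne (fun h : i.1 = k.1 => i.2 (h ▸ k.2)) _
  rw [dz_yp hf, e, map_zero]

theorem dz_yp2 {f : V (Ta s) → ℂ} (hf : AnalyticAt ℂ f (yp s w)) (k : Ta s) :
    dz (fun u => f (yp s u)) k w = dz f k (yp s w) := by
  have e : yp s (Pi.single k.1 1 : V ι) = Pi.single k 1 := funext fun i => by
    simp only [yp, Pi.single_apply, Subtype.ext_iff]
  rw [dz_yp hf, e, dz_hol hf.differentiableAt]

theorem anm_df {τ α β : Type} [Fintype τ] [DecidableEq τ] {F : V τ → Matrix α β ℂ} {y : V τ}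
    (h : AnM F y) : DfR F y := fun i j => (h i j).differentiableAt.restrictScalars ℝ

theorem anm_mulc {τ α β γ : Type} [Fintype τ] [Fintype β] {F : V τ → Matrix α β ℂ} {y : V τ}
    (h : AnM F y) (A : Matrix β γ ℂ) : AnM (fun u => F u * A) y := fun i j => by
  simp only [mul_apply]
  exact Finset.analyticAt_fun_sum _ fun k _ => (h i k).mul analyticAt_const

/-- maps which are affine along the leaves. -/
theorem aff {A : V (Ta s) → Mat (Sg' s)} {B : V (Ta s) → Matrix (Sg' s) r ℂ} (c : V r)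
    {φ : V (Ta s) → V (Ta s)} (hA : AnM A (yp s w)) (hB : AnM B (yp s w))
    (hφ : AnalyticAt ℂ φ (yp s w)) {T : V ι → V ι}
    (hT : T =ᶠ[𝓝 w] fun u => glue s (A (yp s u) *ᵥ zp s u + B (yp s u) *ᵥ c) (φ (yp s u))) :
    AnalyticAt ℂ T w ∧ jac T w = bk s (A (yp s w))
      (Matrix.of fun i j => (dR A j (yp s w) *ᵥ zp s w + dR B j (yp s w) *ᵥ c) i) 0
      (jac φ (yp s w)) := by
  have hA' : AnM (fun u => A (yp s u)) w := fun i j => (hA i j).comp (an_yp s w)
  have hB' : AnM (fun u => B (yp s u)) w := fun i j => (hB i j).comp (an_yp s w)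
  have hφ' : ∀ i, AnalyticAt ℂ (fun y => φ y i) (yp s w) := analyticAt_pi_iff.1 hφ
  have hz : DfV (zp s) w := fun i => (an_zp s w i).differentiableAt.restrictScalars ℝ
  have e1 : ∀ i : Sg' s, (fun u => T u i) =ᶠ[𝓝 w]
      fun u => (A (yp s u) *ᵥ zp s u + B (yp s u) *ᵥ c) i := fun i =>
    hT.mono fun u e => (congrFun e i).trans (congrFun (zp_glue s _ _) i)
  have e2 : ∀ i : Ta s, (fun u => T u i) =ᶠ[𝓝 w] fun u => φ (yp s u) i := fun i =>
    hT.mono fun u e => (congrFun e i).trans (congrFun (yp_glue s _ _) i)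
  have an : AnalyticAt ℂ T w := analyticAt_pi_iff.2 fun i => by
    by_cases hi : i ∈ s
    · refine AnalyticAt.congr ?_ (e1 ⟨i, hi⟩).symm
      simp only [Pi.add_apply, mulVec, dotProduct]
      exact (Finset.analyticAt_fun_sum _ fun k _ => (hA' _ k).mul (an_zp s w k)).add
        (Finset.analyticAt_fun_sum _ fun k _ => (hB' _ k).mul analyticAt_const)
    · exact ((hφ' ⟨i, hi⟩).comp (an_yp s w)).congr (e2 ⟨i, hi⟩).symm
  have d1 : ∀ (i : Sg' s) (k : ι), jac T w i k = (dR (fun u => A (yp s u)) k w *ᵥ zp s w +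
      A (yp s w) *ᵥ dV (zp s) k w + dR (fun u => B (yp s u)) k w *ᵥ c) i := fun i k => by
    rw [jac_eq_dz an.differentiableAt, dz_congr (e1 i)]
    refine (congrFun (dV_add ((anm_df hA').mulVec hz) ((anm_df hB').mulVec (DfV.const c)) k)
      i).trans ?_
    rw [dV_mulVec (anm_df hA') hz, dV_mulVec (anm_df hB') (DfV.const c), dV_const, mulVec_zero,
      add_zero]
  have d2 : ∀ (i : Ta s) (k : ι), jac T w i k = dz (fun u => φ (yp s u) i) k w := fun i k => by
    rw [jac_eq_dz an.differentiableAt, dz_congr (e2 i)]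
  refine ⟨an, bk_ext (s := s) (fun i j => ?_) (fun i j => ?_) (fun i j => ?_) fun i j => ?_⟩
  · have a1 : dR (fun u => A (yp s u)) j w = 0 := Matrix.ext fun a b => dz_yp1 (hA a b) j
    have a2 : dR (fun u => B (yp s u)) j w = 0 := Matrix.ext fun a b => dz_yp1 (hB a b) j
    have a3 : dV (zp s) j w = Pi.single j 1 := funext fun a =>
      (dz_coord a.1 j.1 w).trans (by simp only [Pi.single_apply, Subtype.ext_iff])
    rw [d1, bk11, a1, a2, a3, zero_mulVec, zero_mulVec, zero_add, add_zero, mulVec_single_one]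
    rfl
  · have a1 : dR (fun u => A (yp s u)) j w = dR A j (yp s w) :=
      Matrix.ext fun a b => dz_yp2 (hA a b) j
    have a2 : dR (fun u => B (yp s u)) j w = dR B j (yp s w) :=
      Matrix.ext fun a b => dz_yp2 (hB a b) j
    have a3 : dV (zp s) j w = 0 := funext fun a =>
      (dz_coord a.1 j.1 w).trans (if_neg fun h : a.1 = j.1 => j.2 (h ▸ a.2))
    rw [d1, bk12, a1, a2, a3, mulVec_zero, add_zero, of_apply]
  · rw [d2, bk21, dz_yp1 (hφ' i)]
    rfl
  · rw [d2, bk22, dz_yp2 (hφ' i), jac_eq_dz hφ.differentiableAt]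

theorem col {σ τ : Type} [Fintype σ] [Fintype τ] {J : Mat σ} {dJ : τ → Mat σ}
    {dB dZ' dZ : τ → Matrix σ r ℂ} {Z : Matrix σ r ℂ} {ρ : Mat r} (x c : V r) {j : Mat τ}
    (hd : ∀ k, dB k * ρ = dJ k * Z + J * dZ k) (hc : ∀ k, dB k = ∑ l, j l k • dZ' l) :
    (Matrix.of fun i k => (dJ k *ᵥ (Z *ᵥ x) + dB k *ᵥ c) i) +
      (Matrix.of fun i k => -(dZ' k *ᵥ (ρ *ᵥ x + c)) i) * j =
        J * Matrix.of fun i k => -(dZ k *ᵥ x) i := by
  ext i k
  have e1 : dB k *ᵥ (ρ *ᵥ x) = dJ k *ᵥ (Z *ᵥ x) + J *ᵥ (dZ k *ᵥ x) := by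
    rw [mulVec_mulVec, hd, add_mulVec, mulVec_mulVec, mulVec_mulVec]
  have e2 : ((Matrix.of fun i k => -(dZ' k *ᵥ (ρ *ᵥ x + c)) i) * j) i k =
      -(dB k *ᵥ (ρ *ᵥ x + c)) i := by
    rw [hc, sum_mulVec]
    simp only [mul_apply, of_apply, smul_mulVec, Finset.sum_apply, Pi.smul_apply, smul_eq_mul,
      neg_mul, Finset.sum_neg_distrib, mul_comm (j _ _)]
  have e3 : (J * Matrix.of fun i k => -(dZ k *ᵥ x) i) i k = -(J *ᵥ (dZ k *ᵥ x)) i := by
    simp only [mul_apply, of_apply, mul_neg, Finset.sum_neg_distrib]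
    rfl
  rw [Matrix.add_apply, e2, e3, of_apply, mulVec_add, e1]
  simp only [Pi.add_apply]
  ring

theorem pull_bk (A A' : Mat (Sg' s)) (D D' : Mat (Ta s)) :
    pull (bk s A 0 0 D) (bk s A' 0 0 D') = bk s (pull A A') 0 0 (pull D D') := by
  rw [pull, bk_tr, bk_star, bk_mul, bk_mul]
  simp [pull]

variable {Q : Mat r} {L : Matrix r (Sg' s) ℂ} {H : V (Ta s) → Mat r}

theorem xm_glue {y : V (Ta s)} (h : Alg Q L (H y)) {v : V r} (hv : star v = v) :
    xm s Q L H (glue s (zM Q L (H y) *ᵥ v) y) = v := by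
  rw [xm, yp_glue, zp_glue, ← cv_rv hv, h.xz]

theorem shf_eq (h : Alg Q L (H (yp s w))) (t : r → ℝ) : shf s Q L H t w =
    glue s (zM Q L (H (yp s w)) *ᵥ (xm s Q L H w + cv t)) (yp s w) := by
  rw [shf, mulVec_add, xm, h.zx]

theorem xm_shf (h : Alg Q L (H (yp s w))) (t : r → ℝ) :
    xm s Q L H (shf s Q L H t w) = xm s Q L H w + cv t := by
  rw [shf_eq h, xm_glue h (by rw [star_add, star_cv, xm, h.rx])]

end TrAux

open TrAux

theorem trS (hA : AlgS) : TrS ι r := by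
  intro s Q L H H' R R' ρ ρ' c φ w m m' hρ hρ' hQ hc hy hy' hφ ev
  have al : ∀ y ∈ ball (0 : V (Ta s)) R, Alg Q L (H y) := fun y h =>
    hA _ _ Q L _ m.lag (m.sg y h)
  have a := al _ hy
  have a' : Alg Q L (H' (φ (yp s w))) := hA _ _ Q L _ m'.lag (m'.sg _ hy')
  have hB : AnM (fun u => zM Q L (H' (φ u))) (yp s w) := fun i j => (m'.an _ hy' i j).comp hφ
  have hJ : AnM (fun u => zM Q L (H' (φ u)) * ρ * L) (yp s w) := anm_mulc (anm_mulc hB ρ) L
  have key : ∀ᶠ u in 𝓝 (yp s w), u ∈ ball (0 : V (Ta s)) R ∧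
      zM Q L (H' (φ u)) * ρ = zM Q L (H' (φ u)) * ρ * L * zM Q L (H u) := by
    filter_upwards [ev, isOpen_ball.mem_nhds hy] with u e hu
    exact ⟨hu, by rw [e]; exact ((al u hu).eqv ρ ρ' hρ hρ' hQ).2.2.1⟩
  obtain ⟨an, hj⟩ := aff c hJ hB hφ (T := trM s Q L H H' ρ c φ) (by
    filter_upwards [(an_yp s w).continuousAt.eventually key] with u hu
    rw [trM, mulVec_add, mulVec_mulVec, hu.2, ← mulVec_mulVec _ (_ * L), xm, (al _ hu.1).zx,
      ← hu.2])
  have e0 := (a.eqv ρ ρ' hρ hρ' hQ).2.2.2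
  rw [← ev.self_of_nhds] at e0
  have hx : xm s Q L H' (trM s Q L H H' ρ c φ w) = ρ *ᵥ xm s Q L H w + c :=
    xm_glue a' (by rw [star_add, hc, hρ.star_mulVec, xm, a.rx])
  have hyp : yp s (trM s Q L H H' ρ c φ w) = φ (yp s w) := yp_glue s _ _
  refine ⟨an, hx, by rw [hj, bk_det], e0.1, fun t => ?_, fun β β' hβ => ?_⟩
  · have e : yp s (shf s Q L H t w) = yp s w := yp_glue s _ _
    rw [trM, xm_shf a, e, shf_eq (by rw [hyp]; exact a'), hx, hyp, hρ.cv_rv, mulVec_add ρ,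
      add_right_comm]
  · have hd : ∀ j, dR (fun u => zM Q L (H' (φ u))) j (yp s w) * ρ =
        dR (fun u => zM Q L (H' (φ u)) * ρ * L) j (yp s w) * zM Q L (H (yp s w)) +
          zM Q L (H' (φ (yp s w))) * ρ * L * dR (fun u => zM Q L (H u)) j (yp s w) := fun j => by
      rw [← dR_mulc (anm_df hB), ← dR_mul (anm_df hJ) (anm_df (m.an _ hy))]
      exact dR_congr (key.mono fun u h => h.2) j
    have hc : ∀ j, dR (fun u => zM Q L (H' (φ u))) j (yp s w) =
        ∑ l, jac φ (yp s w) l j • dR (fun u => zM Q L (H' u)) l (φ (yp s w)) := fun j =>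
      dR_comp (anm_df (m'.an _ hy')) hφ.differentiableAt j
    have main : tM s Q L H' (trM s Q L H H' ρ c φ w) * jac (trM s Q L H H' ρ c φ) w =
        bk s (zM Q L (H' (φ (yp s w))) * ρ * L) 0 0 (jac φ (yp s w)) * tM s Q L H w := by
      rw [hj, tM, tM, bk_mul, bk_mul, hx, hyp]
      simp only [Matrix.one_mul, Matrix.mul_one, Matrix.zero_mul, Matrix.mul_zero, add_zero,
        zero_add]
      rw [← col (xm s Q L H w) c hd hc, xm, a.zx]
    rw [gM, gM, RepB.pull_pull, main, ← RepB.pull_pull, pull_bk, hyp, ← hβ, e0.2]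
    simp only [pull, Matrix.mul_smul, Matrix.smul_mul]

theorem shfS (hA : AlgS) (hT : TrS ι r) : ShfS ι r := by
  intro s Q L H R m w hy
  have al : ∀ y ∈ ball (0 : V (Ta s)) R, Alg Q L (H y) := fun y h =>
    hA _ _ Q L _ m.lag (m.sg y h)
  have a := al _ hy
  refine ⟨?_, ?_, fun z => ⟨rv (xM Q L (H (yp s w)) (z - zp s w)), ?_⟩, fun t => ?_⟩
  · rw [shf, show cv (0 : r → ℝ) = 0 from funext fun _ => ofReal_zero, mulVec_zero, add_zero,
      glue_zp_yp]
  · refine continuous_pi fun i => ?_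
    by_cases hi : i ∈ s
    · simp only [shf, glue, dif_pos hi, Pi.add_apply, mulVec, dotProduct, cv]
      fun_prop
    · simp only [shf, glue, dif_neg hi]
      exact continuous_const
  · rw [shf, cv_rv (a.rx _), a.zx, add_sub_cancel]
  have ev : trM s Q L H H 1 (cv t) id =ᶠ[𝓝 w] shf s Q L H t := by
    filter_upwards [(an_yp s w).continuousAt.eventually (isOpen_ball.mem_nhds hy)] with u hu
    rw [shf_eq (al _ hu), trM, one_mulVec]
    rfl
  obtain ⟨h1, -, h3, -, -, h6⟩ := hT s Q L H H R R 1 1 (cv t) id w m m (by simp [Rl])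
    (Matrix.mul_one _) (by simp) (star_cv t) hy hy analyticAt_id (Eventually.of_forall fun u => by
      simp)
  have e : ∀ t, yp s (shf s Q L H t w) = yp s w := fun t => yp_glue s _ _
  refine ⟨h1.congr ev, e t, xm_shf a t, ?_, fun t' => ?_, fun β => ?_⟩
  · rw [← jac_congr ev, h3, jac_id, Matrix.mul_one, id, a.zl, det_one, det_one, mul_one]
  · rw [shf_eq (by rw [e]; exact a), e, xm_shf a, shf_eq a, cv_add, add_assoc, add_comm (cv t)]
  · rw [← jac_congr ev, ← ev.self_of_nhds]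
    exact h6 β β (by rw [jac_id]; simp [pull])

end Pool.Agent.Lib.MP_813db1_ag.VH.S8
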