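import Pool.Agent.Lib.MP_813db1_ag.VH.S8.Fb
import Pool.Agent.Lib.MP_813db1_ag.VH.S8.AvL
import Pool.Agent.Lib.MP_813db1_ag.VH.S8.Alg
import Pool.Agent.Lib.MP_813db1_ag.VH.S8.Tr
import Pool.Agent.Lib.MP_813db1_ag.HS.L2

/-! Averages along the leaves, and the resolvent on basic sections. -/

namespace Pool.Agent.Lib.MP_813db1_ag.VH.S8

open Pool.Agent.Lib.MP_813db1_ag.HS Pool.Agent.Lib.MP_813db1_ag.AS
open MeasureTheory Complex Matrix Filter Topology Set Metric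
open scoped ContDiff ComplexOrder

namespace AvA

section pg

variable {G F W : Type} [Group G] [NormedAddCommGroup F] [NormedSpace ℝ F]
  [NormedAddCommGroup W] [NormedSpace ℂ W] [NormedSpace ℝ W] (P : PG G F W)

/-- the lattice of translations. -/
def lat : AddSubgroup F where
  carrier := {v | ∃ γ, P.Fx γ ∧ P.A γ = 1 ∧ P.c γ = v}
  zero_mem' := ⟨1, PG.Fx.one, map_one _, PG.c_one⟩
  add_mem' := by
    rintro _ _ ⟨γ, h1, h2, rfl⟩ ⟨δ, h3, h4, rfl⟩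
    exact ⟨γ * δ, h1.mul h3, by rw [map_mul, h2, h4, one_mul], by rw [P.coc, h2]; rfl⟩
  neg_mem' := by
    rintro _ ⟨γ, h1, h2, rfl⟩
    have e : P.A γ⁻¹ = 1 := by rw [← PG.A_inv_mul (P := P) γ, h2, mul_one]
    exact ⟨γ⁻¹, h1.inv, e, by rw [PG.c_inv, e]; rfl⟩

theorem lat_fin (T : ℝ) : {v ∈ (lat P : Set F) | ‖v‖ ≤ T}.Finite := by
  obtain ⟨k⟩ := P.ne
  refine ((P.disc k k 0 0 T (P.pos k) (P.pos k)).image P.c).subset ?_
  rintro _ ⟨⟨γ, h1, -, rfl⟩, h3⟩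
  exact ⟨γ, ⟨h3, _, mem_closedBall_self le_rfl, _, mem_closedBall_self le_rfl,
    h1 k _ (PG.yc_mem k)⟩, rfl⟩

variable {P} {N : ℕ}

theorem lat_cov (h : P.Lat N) : ∃ R, ∀ v, ∃ u ∈ lat P, ‖v + u‖ ≤ R :=
  h.cpt.imp fun _ hR v => let ⟨γ, h1, h2, h3⟩ := hR v; ⟨_, ⟨γ, h1, h2, rfl⟩, h3⟩

theorem lat_A (h : P.Lat N) (δ : G) : ∀ u ∈ lat P, P.A δ u ∈ lat P := by
  rintro _ ⟨γ, h1, h2, rfl⟩
  refine ⟨δ * γ * δ⁻¹, h.nrm γ δ h1, by rw [map_mul, map_mul, h2, mul_one, PG.A_mul_inv], ?_⟩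
  have e := P.coc δ δ⁻¹
  rw [mul_inv_cancel, PG.c_one] at e
  rw [P.coc, P.coc, map_mul, h2, mul_one, add_right_comm, ← e, zero_add]

end pg

theorem boxL_sum {ι κ : Type} [Fintype ι] [DecidableEq ι] {a : ℕ} {H : V ι → Mat ι} {z : V ι}
    (S : Finset κ) {F : κ → V ι → ℂ} (hF : ∀ j ∈ S, ContDiffAt ℝ 2 (F j) z) :
    boxL a H (fun w => ∑ j ∈ S, F j w) z = ∑ j ∈ S, boxL a H (F j) z := by
  classical
  induction S using Finset.induction_on with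
  | empty => simpa using boxL_zero
  | insert j S hj ih =>
    simp only [Finset.sum_insert hj]
    have h := fun i hi => hF i (Finset.mem_insert_of_mem hi)
    rw [boxL_add (hF j (Finset.mem_insert_self _ _)) (ContDiffAt.sum h), ih h]

theorem uniq {ι X : Type} [Fintype ι] [DecidableEq ι] [TopologicalSpace X] [T2Space X]
    [CompactSpace X] {M : Atl ι X} {h : X → Mat ι} (hh : M.IsK h) {a : ℕ} {η : ℝ} (hη : 0 < η)
    {u : X → ℂ} (hu : M.CkS 2 a u) (e : (fun x => (η : ℂ) * u x - M.box a h u x) = fun _ => 0)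
    (y : X) : u y = 0 := by
  borelize X
  obtain ⟨⟨μ, hμ⟩, hV⟩ := AY.volS' ι X M h hh
  have hv := hV μ hμ
  have := hv.fin
  have := hv.pos
  have d := L2.diss mat AY.greenS hh hh hμ (((AY.repA' ι X M).isK_iff h).1 hh).2 hη.le hu
  have hw := (AY.greenS.cont ι X M h h a u u hh hh).2.2.2
  have c := L2.cont_sq AY.greenS hh hh (L2.ckS_le hu (by norm_num : (0 : WithTop ℕ∞) ≤ 2))
  have n : ∀ x, 0 ≤ ‖u x‖ ^ 2 * wt a h h x := fun x => mul_nonneg (sq_nonneg _) (hw x).le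
  rw [e, L2.ip0_re, L2.ip0_re] at d
  simp only [norm_zero, ne_eq, OfNat.ofNat_ne_zero, not_false_eq_true, zero_pow, zero_mul,
    integral_zero] at d
  have z := le_antisymm (nonpos_of_mul_nonpos_right d (pow_pos hη 2)) (integral_nonneg n)
  have := congrFun ((c.ae_eq_iff_eq μ continuous_zero).1
    ((integral_eq_zero_iff_of_nonneg n (L2.integ c)).1 z)) y
  simpa [(hw y).ne'] using this

end AvA

namespace Fb

open AvA

variable {ι X Y G r : Type} [Fintype ι] [DecidableEq ι] [TopologicalSpace X] [TopologicalSpace Y]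
  [Group G] [MulAction G Y] [Fintype r] [DecidableEq r] {M : Atl ι X} {p : Y → X}
  {E : Dt M p G r} {Q : Mat r} {c : G → V r} {x : Y → V r} {h ξ : X → Mat ι} {s : Finset ι}
  {L : Matrix r (Sg' s) ℂ} {B : Fb E Q c x h s L}

theorem yp_ev {k : B.κ} {w : V ι} (hw : yp s w ∈ B.Bl k) : ∀ᶠ u in 𝓝 w, yp s u ∈ B.Bl k :=
  (continuous_pi fun i => continuous_apply i.1).continuousAt.eventually (isOpen_ball.mem_nhds hw)

theorem pb_per (hP : PbS M) (hT : ShfS ι r) (ok : B.Ok) (hO : B.OvS ok) (a : ℕ) (σ : X → ℂ)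
    {k : B.κ} {w : V ι} (hw : yp s w ∈ B.Bl k) (v : r → ℝ) : ∀ u ∈ lat (B.pg ok),
    pb M a σ (B.Θ k) (B.sh k (v + u) w) = pb M a σ (B.Θ k) (B.sh k v w) := by
  rintro _ ⟨γ, h1, h2, rfl⟩
  have k1 := (hT s Q L _ _ (B.mo k).toMo0 w hw).2.2.2
  have hw' : yp s (B.sh k v w) ∈ B.Bl k := (k1 v).2.1.symm ▸ hw
  obtain ⟨a1, a2, -, a3, -⟩ := (hT s Q L _ _ (B.mo k).toMo0 _ hw').2.2.2 ((B.pg ok).c γ)
  have := (hP.comp (B.Θ k) (B.Θ k) _ _ (B.lh k _ (a2.symm ▸ hw')) a1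
    ((yp_ev hw').mono fun u hu => (hO.per k γ (h1 k) h2 u hu).symm)).1 a σ
  rw [this, a3, one_pow, one_mul, add_comm]
  exact congrArg _ ((k1 _).2.2.2.2.1 v).symm

theorem avS' (hP : PbS M) (hT : ShfS ι r) (ok : B.Ok) (hO : B.OvS ok) (hD : B.DescS ok) :
    B.AvS ok := by
  intro N hN a n hn
  obtain ⟨R, hR⟩ := lat_cov hN
  obtain ⟨S, hS, H⟩ := (avL _ (lat (B.pg ok)) R (lat_fin _) hR).1 n hn
  refine ⟨S, hS, fun σ => ⟨hD a _ fun k l γ w y' hr => ?_, fun γ t₀ h1 h2 h3 k w hw =>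
    (H (fun t => pb M a σ (B.Θ k) (B.sh k t w)) (pb_per hP hT ok hO a σ hw)).2 t₀
      ⟨γ, h1, h2, h3.symm⟩⟩⟩
  obtain ⟨-, b1, -, b2, b3⟩ := hO.tr k l γ w y' hr
  rw [← (H (fun t => pb M a σ (B.Θ l) (B.sh l t (B.tr ok k l γ w)))
    (pb_per hP hT ok hO a σ (b1.symm ▸ hr.2.1))).1 _ _ (PG.A_mul_inv γ) (PG.A_inv_mul γ) fun u hu => ⟨lat_A hN γ u hu, lat_A hN γ⁻¹ u hu⟩, Finset.mul_sum]
  refine Finset.sum_congr rfl fun t _ => ?_
  have e : yp s (B.sh k t w) = yp s w := ((hT s Q L _ _ (B.mo k).toMo0 w hr.1).2.2.2 t).2.1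
  obtain ⟨c1, c2, c3, c4, -⟩ := hO.tr k l γ (B.sh k t w) y' (e.symm ▸ hr)
  rw [(hP.comp _ (B.Θ l) _ _ (B.lh l _ (c2.symm ▸ hr.2.1)) c1 c3).1 a σ, c4, e, ← b2, b3]

theorem resS8' [T2Space X] [CompactSpace X] (hT : ShfS ι r) (hS : E.Spl Q c x h ξ) (ok : B.Ok)
    (hD : B.DiS) (hB : B.BoxS) (hA : B.AvS ok) : B.ResS8 ok := by
  intro N hN a η hη σ hσ hτ
  have sf := fun k => hT s Q L _ _ (B.mo k).toMo0
  have yq : ∀ {k w} t, yp s w ∈ B.Bl k → yp s (B.sh k t w) ∈ B.Bl k := fun {k w} t hw =>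
    ((sf k w hw).2.2.2 t).2.1.symm ▸ hw
  have sm : ∀ {k w} t, yp s w ∈ B.Bl k →
      ContDiffAt ℝ ∞ (fun u => pb M a σ (B.Θ k) (B.sh k t u)) w := fun {k w} t hw =>
    (hD.sm a σ k _ (yq t hw) hσ).comp w (((sf k w hw).2.2.2 t).1.contDiffAt.restrict_scalars ℝ)
  have surj : ∀ u, ∃ k w, yp s w ∈ B.Bl k ∧ B.Θ k w = u := fun u => by
    classical
    by_contra hn
    have := congrFun (hD.ext 0 (Pi.single u 1) 0 fun k w hw => by
      rw [pb, pb, Pi.single_eq_of_ne fun e => hn ⟨k, w, hw, e⟩, Pi.zero_apply]) u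
    simp at this
  have rs : ∀ {τ : X → ℂ} {k w}, yp s w ∈ B.Bl k → M.CkS ∞ a τ →
      pb M a (fun u => (η : ℂ) * τ u - M.box a h τ u) (B.Θ k) w =
        η * pb M a τ (B.Θ k) w - boxL a (B.g k) (pb M a τ (B.Θ k)) w := fun {τ k w} hw hs => by
    rw [← hD.box a τ k w hw hs]
    simp only [pb]
    ring
  obtain ⟨R, hR⟩ := lat_cov hN
  refine ⟨hσ, fun k w t hw => ?_⟩
  refine ((avL _ (lat (B.pg ok)) R (lat_fin _) hR).2 (fun t => pb M a σ (B.Θ k) (B.sh k t w))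
    (continuous_iff_continuousAt.2 fun t => ContinuousAt.comp (f := fun t => B.sh k t w)
      (hD.sm a σ k _ (yq t hw) hσ).continuousAt (sf k w hw).2.1.continuousAt) ?_ t).trans
    (congrArg _ (sf k w hw).1)
  rintro n t₀ hn ⟨γ, h1, h2, h3⟩
  obtain ⟨S, hne, H⟩ := hA N hN a n hn
  obtain ⟨⟨σ', e⟩, H⟩ := H σ
  have e1 : ∀ {k w}, yp s w ∈ B.Bl k → pb M a (fun u => σ' u + -(S.card : ℂ) * σ u) (B.Θ k) =ᶠ[𝓝 w]
      fun u => ∑ t ∈ S, pb M a σ (B.Θ k) (B.sh k t u) + -(S.card : ℂ) * pb M a σ (B.Θ k) u :=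
    fun {k w} hw => (yp_ev hw).mono fun u hu => by
      beta_reduce
      rw [← e k u hu]
      simp only [pb]
      ring
  have su : M.CkS ∞ a fun u => σ' u + -(S.card : ℂ) * σ u := hD.sm' a _ fun u => by
    obtain ⟨k, w, hw, rfl⟩ := surj u
    exact ⟨k, w, hw, rfl, ((ContDiffAt.sum fun t _ => sm t hw).add
      (contDiffAt_const.mul (hD.sm a σ k w hw hσ))).congr_of_eventuallyEq (e1 hw)⟩
  have z := uniq hS.k hη.1 (L2.ckS_le su (by norm_cast)) (hD.ext a _ _ fun k w hw => by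
    have s2 := sm_two (hD.sm a σ k w hw hσ)
    rw [rs hw su, boxL_congr (e1 hw), (e1 hw).self_of_nhds,
      boxL_add (ContDiffAt.sum fun t _ => sm_two (sm t hw)) (contDiffAt_const.mul s2),
      boxL_cmul _ s2, boxL_sum _ fun t _ => sm_two (sm t hw)]
    have e2 : ∑ t ∈ S, ((η : ℂ) * pb M a σ (B.Θ k) (B.sh k t w) -
        boxL a (B.g k) (fun u => pb M a σ (B.Θ k) (B.sh k t u)) w) =
        S.card * (η * pb M a σ (B.Θ k) w - boxL a (B.g k) (pb M a σ (B.Θ k)) w) := by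
      rw [← nsmul_eq_mul, ← Finset.sum_const]
      refine Finset.sum_congr rfl fun t _ => ?_
      rw [hB.1 a k t w _ hw (sm_two (hD.sm a σ k _ (yq t hw) hσ)), ← rs (yq t hw) hσ,
        hτ.2 k w t hw, rs hw hσ]
    rw [Finset.sum_sub_distrib, ← Finset.mul_sum] at e2
    rw [pb, mul_zero]
    linear_combination e2)
  have e3 : ∀ w, yp s w ∈ B.Bl k →
      ∑ t ∈ S, pb M a σ (B.Θ k) (B.sh k t w) = S.card * pb M a σ (B.Θ k) w := fun w hw => by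
    have := (e1 hw).self_of_nhds
    rw [funext z, pb, mul_zero] at this
    linear_combination -this
  refine mul_left_cancel₀ (Nat.cast_ne_zero.2 hne.card_pos.ne' : (S.card : ℂ) ≠ 0) ?_
  rw [← e3 _ (yq t₀ hw), show B.sh k 0 w = w from (sf k w hw).1, ← e3 w hw,
    ← H γ t₀ h1 h2 h3.symm k w hw]
  exact Finset.sum_congr rfl fun t _ => congrArg _ (((sf k w hw).2.2.2 t).2.2.2.2.1 t₀)

theorem avS (hP : PbS M) (ok : B.Ok) (hO : B.OvS ok) (hD : B.DescS ok) : B.AvS ok :=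
  avS' hP (shfS algS (trS algS)) ok hO hD

theorem resS8 [T2Space X] [CompactSpace X] (hS : E.Spl Q c x h ξ) (ok : B.Ok) (hD : B.DiS)
    (hB : B.BoxS) (hA : B.AvS ok) : B.ResS8 ok :=
  resS8' (shfS algS (trS algS)) hS ok hD hB hA

end Fb

end Pool.Agent.Lib.MP_813db1_ag.VH.S8
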