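import Pool.Agent.Lib.MP_813db1_ag.VH.S8.StL
import Pool.Agent.Lib.MP_813db1_ag.HS.Rows
import Pool.Agent.Lib.MP_813db1_ag.HS.RepB1

/-! The metric of the model. -/

namespace Pool.Agent.Lib.MP_813db1_ag.VH.S8

open Pool.Agent.Lib.MP_813db1_ag.HS Pool.Agent.Lib.MP_813db1_ag.AS
open MeasureTheory Complex Matrix Filter Topology Set Metric
open scoped ContDiff ComplexOrder

namespace GmAux

variable {ι : Type} [Fintype ι] [DecidableEq ι] {s : Finset ι} (a : Matrix (Sg' s) (Ta s) ℂ)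
  {m : Mat (Sg' s)} {b : Mat (Ta s)}

theorem det_t : (bk s 1 a 0 1).det = 1 := by rw [bk_det, det_one, det_one, mul_one]

theorem pull_t : pull (bk s 1 a 0 1) (bk s 0 0 0 b) = bk s 0 0 0 b := by
  rw [pull, bk_star]
  simp [bk_tr, bk_mul]

theorem pd (hm : m.PosDef) (hb : b.PosDef) : (pull (bk s 1 a 0 1) (bk s m 0 0 b)).PosDef := by
  have h1 : (fromBlocks m 0 0 b).PosSemidef := by
    have := hb.isUnit.invertible
    have := (hb.fromBlocks₂₂ m 0).2 (by simpa using hm.posSemidef)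
    rwa [conjTranspose_zero] at this
  have h2 : (pull (bk s 1 a 0 1) (bk s m 0 0 b)).PosSemidef :=
    (h1.submatrix (Equiv.sumCompl (· ∈ s)).symm).mul_mul_conjTranspose_same (bk s 1 a 0 1)ᵀ
  rw [h2.posDef_iff_det_ne_zero, RepB.det_pull, det_t, bk_det]
  simpa using ⟨hm.det_pos.ne', hb.det_pos.ne'⟩

theorem re_pos {τ : Type} [Fintype τ] [DecidableEq τ] {A : Mat τ} (h : A.PosDef) : 0 < A.det.re :=
  (pos_iff.1 h.det_pos).1

theorem ex_log {τ : Type} [Fintype τ] [DecidableEq τ] {A : Mat τ} (h : A.PosDef) :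
    (Real.exp (Real.log A.det.re) : ℂ) = A.det := by
  rw [Real.exp_log (re_pos h)]
  exact Complex.ext rfl (pos_iff.1 h.det_pos).2

theorem det_g (hm : m.PosDef) (hb : b.PosDef) : (pull (bk s 1 a 0 1) (bk s m 0 0 b)).det =
    (Real.exp (Real.log m.det.re + Real.log b.det.re) : ℝ) := by
  rw [RepB.det_pull, det_t, bk_det, Real.exp_add, ofReal_mul, ex_log hm, ex_log hb]
  simp

theorem inv_b (hm : m.PosDef) (hb : b.PosDef) : (bk s m 0 0 b)⁻¹ = bk s m⁻¹ 0 0 b⁻¹ :=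
  inv_eq_right_inv (by
    simp [bk_mul, mul_nonsing_inv _ hm.det_pos.ne'.isUnit, mul_nonsing_inv _ hb.det_pos.ne'.isUnit,
      bk_one])

theorem tr_g (hm : m.PosDef) (hb : b.PosDef) (c : Mat (Ta s)) :
    trace (bk s 0 0 0 c * (pull (bk s 1 a 0 1) (bk s m 0 0 b))⁻¹) = trace (c * b⁻¹) := by
  rw [← pull_t a (b := c), RepB.trace_pull (by rw [det_t]; exact one_ne_zero), inv_b hm hb]
  simp [bk_mul, bk_trace]

omit [Fintype ι] in
theorem zp_gl (x : V (Sg' s)) (y : V (Ta s)) : zp s (glue s x y) = x := funext fun i => dif_pos i.2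

omit [Fintype ι] in
theorem yp_gl (x : V (Sg' s)) (y : V (Ta s)) : yp s (glue s x y) = y := funext fun i => dif_neg i.2

theorem vm (A : Mat (Sg' s)) (B : Matrix (Sg' s) (Ta s) ℂ) (D : Mat (Ta s)) (y : V (Ta s)) :
    glue s 0 y ᵥ* bk s A B 0 D = glue s 0 (y ᵥ* D) := by
  rw [← mulVec_transpose, bk_tr, bk_mulVec, zp_gl, yp_gl]
  simp [mulVec_transpose]

theorem sh_g (hm : m.PosDef) (hb : b.PosDef) (y : V (Ta s)) :
    bk s 1 a 0 1 *ᵥ (glue s 0 y ᵥ* (pull (bk s 1 a 0 1) (bk s m 0 0 b))⁻¹) =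
      glue s 0 (y ᵥ* b⁻¹) := by
  have := RepB.vec_pull (J := bk s 1 a 0 1) (by rw [det_t]; exact one_ne_zero) (bk s m 0 0 b)
    (glue s 0 y)
  rw [inv_b hm hb, vm, bk_star, Matrix.map_zero _ (star_zero _), vm] at this
  simpa using this

theorem ip_pull (J B : Mat ι) (u v : V ι) : ipV (pull J B) u v = ipV B (J *ᵥ u) (J *ᵥ v) := by
  rw [ipV_eq, ipV_eq, pull, ← mulVec_mulVec, ← mulVec_mulVec, dotProduct_mulVec, vecMul_transpose]
  congr 2
  funext i
  simp [mulVec, dotProduct]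

theorem ip_b (m : Mat (Sg' s)) (x y : V (Ta s)) :
    ipV (bk s m 0 0 b) (glue s 0 x) (glue s 0 y) = ipV b x y := by
  rw [ipV_eq, ipV_eq, dotProduct_mulVec, vm, dotProduct_mulVec, dotProduct,
    ← Fintype.sum_subtype_add_sum_subtype (· ∈ s), Finset.sum_eq_zero, zero_add]
  · refine Finset.sum_congr (by congr) fun i _ => ?_
    simp only [Pi.star_apply, glue, dif_neg i.2]
  · intro i _
    simp [glue, i.2]

theorem shp_eq (G : V ι → Mat ι) (F : V ι → ℂ) (z : V ι) :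
    shp G F z = (fun j => dzb F j z) ᵥ* (G z)⁻¹ :=
  funext fun _ => Finset.sum_congr rfl fun _ _ => mul_comm _ _

theorem levi_yp {f : V (Ta s) → ℂ} {z : V ι} (h : ContDiffAt ℝ 2 f (yp s z)) :
    levi (fun w => f (yp s w)) z = bk s 0 0 0 (levi f (yp s z)) := by
  rw [RowsH.der2 s h, RowsH.emb, zero_smul, bk]

theorem sm_log {τ : Type} [Fintype τ] [DecidableEq τ] {A : V ι → Mat τ} {z : V ι} (h : SmR A z)
    (hp : (A z).PosDef) : ContDiffAt ℝ ∞ (fun w => Real.log (A w).det.re) z :=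
  (reCLM.contDiff.contDiffAt.comp z h.det).log (re_pos hp).ne'

end GmAux

open GmAux

theorem gmS (hA : AlgS) (ι r : Type) [Fintype ι] [DecidableEq ι] [Fintype r] [DecidableEq r] :
    GmS ι r := by
  intro s Q L H β R h hβ
  have pm : ∀ y ∈ ball (0 : V (Ta s)) R, ((1 / 2 : ℂ) • muM L (H y)).PosDef := fun y hy =>
    (hA _ _ Q L _ h.lag (h.sg y hy)).mu.smul (by norm_num [Complex.pos_iff])
  have dg : ∀ w, yp s w ∈ ball (0 : V (Ta s)) R →
      (gM s Q L H β w).det = (Real.exp (psi s L H β (yp s w)) : ℝ) := fun w hw =>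
    det_g _ (pm _ hw) (hβ.2 _ hw)
  intro w hw
  have s1 : ContDiffAt ℝ ∞ (fun y => Real.log ((1 / 2 : ℂ) • muM L (H y)).det.re) (yp s w) :=
    sm_log ((((SmR.const _).mul (h.sm _ hw)).mul (SmR.const _)).csmul _) (pm _ hw)
  have s2 : ContDiffAt ℝ ∞ (psi s L H β) (yp s w) := s1.add (sm_log (hβ.1.1 _ hw) (hβ.2 _ hw))
  have sh : ∀ f : V (Ta s) → ℂ, DifferentiableAt ℝ f (yp s w) →
      tM s Q L H w *ᵥ shp (gM s Q L H β) (fun u => f (yp s u)) w =
        glue s 0 (shp β f (yp s w)) := fun f hf => by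
    rw [shp_eq, shp_eq, ← sh_g _ (pm _ hw) (hβ.2 _ hw)]
    congr 2
    exact funext fun j => (RowsH.der1 s hf j).2
  refine ⟨pd _ (pm _ hw) (hβ.2 _ hw), dg w hw, s2, s1, ?_, fun f hf => ?_, fun f f' hf hf' => ?_⟩
  · rw [ric, ← levi_yp (f := fun y => (psi s L H β y : ℂ))
      (sm_two (ofRealCLM.contDiff.contDiffAt.comp _ s2))]
    refine congrArg _ (levi_congr ?_)
    filter_upwards [(RowsH.ypL s).continuous.continuousAt.eventually (isOpen_ball.mem_nhds hw)]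
      with u hu
    rw [dg u hu, ofReal_re, Real.log_exp]
  · rw [lapL, levi_yp hf]
    exact tr_g _ (pm _ hw) (hβ.2 _ hw) _
  · constructor
    · rw [show gM s Q L H β w = pull (tM s Q L H w) _ from rfl, ip_pull, sh f hf, sh f' hf', ip_b]
    · rw [← show pull (tM s Q L H w) _ = bk s 0 0 0 (β (yp s w)) from pull_t _, ip_pull, sh f hf,
        sh f' hf', ip_b]

end Pool.Agent.Lib.MP_813db1_ag.VH.S8
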