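import Pool.Agent.Lib.MP_813db1_ag.VH.S8.StL
import Pool.Agent.Lib.MP_813db1_ag.HS.Sub
import Pool.Agent.Lib.MP_813db1_ag.HS.Curv
import Pool.Agent.Lib.MP_813db1_ag.HS.Mat

/-! Curvature of holomorphic subbundles on which the Ricci form is minus the metric. -/

namespace Pool.Agent.Lib.MP_813db1_ag.VH.S8

open Pool.Agent.Lib.MP_813db1_ag.HS
open Complex Matrix Filter Topology Set
open scoped ContDiff ComplexOrder MatrixOrder

open HS.Sub in
theorem sub8S : Sub8S := by
  intro τ _ _ q U H ξ hU hK hξ z hz hli hric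
  have hc : CurvS := curvS mat
  simp only [gram_eq]
  obtain ⟨X, hX⟩ : ∃ X : V τ → Matrix (Fin q) τ ℂ, ∀ w, X w = Matrix.of fun a => ξ a w :=
    ⟨_, fun _ => rfl⟩
  simp only [← hX]
  have hXa : ∀ w ∈ U, ∀ a i, AnalyticAt ℂ (fun w => X w a i) w := fun w hw a i => by
    simp only [hX, Matrix.of_apply]
    exact analyticAt_pi_iff.1 (hξ a w hw) i
  have hpsd : ∀ w ∈ U, (X w * H w * (X w)ᴴ).PosSemidef := fun w hw =>
    (hK.2 w hw).posSemidef.mul_mul_conjTranspose_same _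
  have hUn : ∀ w ∈ U, ∀ᶠ y in 𝓝 w, y ∈ U := fun w hw => hU.mem_nhds hw
  have hM : (X z * H z * (X z)ᴴ).PosDef := by
    refine (hK.2 z hz).mul_mul_conjTranspose_same (Matrix.vecMul_injective_iff.2 ?_)
    rw [hX]
    exact hli
  have dX : ∀ w ∈ U, Df X w := fun w hw a i =>
    (hXa w hw a i).differentiableAt.restrictScalars ℝ
  have dH : ∀ w ∈ U, Df H w := fun w hw i j => (hK.1.1 w hw i j).differentiableAt (by simp)
  have dM' : ∀ w ∈ U, Df (fun w => X w * H w * (X w)ᴴ) w := fun w hw =>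
    ((dX w hw).mul (dH w hw)).mul (dX w hw).ct
  have hX0 : ∀ w ∈ U, ∀ l, DM I X l w = 0 := fun w hw l => by
    ext a i
    exact dd_hol_zero (hXa w hw a i).differentiableAt
  have hX1 : ∀ l a i, AnalyticAt ℂ (fun w => DM (-I) X l w a i) z := fun l a i => by
    have h1 : AnalyticAt ℂ (fun w => fderiv ℂ (fun w => X w a i) w (Pi.single l 1)) z :=
      ((ContinuousLinearMap.apply ℂ ℂ (Pi.single l 1 : V τ)).analyticAt _).comp
        (hXa z hz a i).fderiv
    refine h1.congr ((hUn z hz).mono fun w hw => ?_)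
    exact (dd_hol_one (hXa w hw a i).differentiableAt).symm
  have dX1 : ∀ l, Df (DM (-I) X l) z := fun l a i =>
    (hX1 l a i).differentiableAt.restrictScalars ℝ
  have hX2 : ∀ k l, DM I (DM (-I) X l) k z = 0 := fun k l => by
    ext a i
    exact dd_hol_zero (hX1 l a i).differentiableAt
  have dH1 : ∀ l, Df (DM I H l) z := fun l i j => diff_dd (hK.1.1 z hz i j)
  have sI : star I = -I := by simp
  have sI' : star (-I) = I := by simp
  have hHb : ∀ l, DM I H l z = (DM (-I) H l z)ᴴ := fun l => by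
    rw [← sI, ← DM_ct (dH z hz)]
    exact DM_congr ((hUn z hz).mono fun w hw => (hK.1.2.1 w hw).eq.symm)
  have hb : ∀ w ∈ U, ∀ l, DM I (fun w => X w * H w * (X w)ᴴ) l w =
      X w * DM I H l w * (X w)ᴴ + X w * H w * (DM (-I) X l w)ᴴ := fun w hw l => by
    rw [DM_mul ((dX w hw).mul (dH w hw)) (dX w hw).ct, DM_mul (dX w hw) (dH w hw),
      DM_ct (dX w hw), sI, hX0 w hw, Matrix.zero_mul, zero_add]
  have hdet : (X z * H z * (X z)ᴴ).det ≠ 0 := hM.det_pos.ne'
  have hpd : ∀ᶠ w in 𝓝 z, (X w * H w * (X w)ᴴ).PosDef := by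
    filter_upwards [hUn z hz, (dM' z hz).det.continuousAt.eventually_ne hdet] with w hw h
    exact (hpsd w hw).posDef_iff_isUnit.2 ((isUnit_iff_isUnit_det _).2 (Ne.isUnit h))
  have hlev : ∀ k l, levi (fun w => (Real.log (X w * H w * (X w)ᴴ).det.re : ℂ)) z k l =
      trace ((X z * H z * (X z)ᴴ)⁻¹ * ((DM (-I) X k z + X z * DM (-I) H k z * (H z)⁻¹) *
        (H z - H z * (X z)ᴴ * (X z * H z * (X z)ᴴ)⁻¹ * X z * H z) *
        (DM (-I) X l z + X z * DM (-I) H l z * (H z)⁻¹)ᴴ)) -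
      trace ((X z * H z * (X z)ᴴ)⁻¹ * (X z * (Matrix.of fun i j => curv H z i j k l) * (X z)ᴴ)) := by
    intro k l
    have e1 : dd I (fun w => (Real.log (X w * H w * (X w)ᴴ).det.re : ℂ)) l =ᶠ[𝓝 z] fun w =>
        trace ((X w * DM I H l w * (X w)ᴴ + X w * H w * (DM (-I) X l w)ᴴ) *
          (X w * H w * (X w)ᴴ)⁻¹) := by
      filter_upwards [hUn z hz, hpd] with w hw h
      rw [dd_log (dM' w hw) ((hUn w hw).mono hpsd) h, hb w hw]
    have d1 := ((dX z hz).mul (dH1 l)).mul (dX z hz).ct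
    have d2 := ((dX z hz).mul (dH z hz)).mul (dX1 l).ct
    have e2 : (Matrix.of fun i j => curv H z i j k l) =
        -DM (-I) (DM I H l) k z + DM (-I) H k z * (H z)⁻¹ * (DM (-I) H l z)ᴴ := by
      rw [← hHb]
      ext i j
      simp only [curv, Sub.dz_eq, Sub.dzb_eq, Matrix.of_apply, Matrix.add_apply, Matrix.neg_apply,
        Matrix.mul_apply, Finset.sum_mul, DM]
      congr 1
      exact Finset.sum_congr rfl fun p _ => Finset.sum_congr rfl fun r _ => by ring
    rw [levi, Matrix.of_apply, Sub.dz_eq, Sub.dzb_eq, dd_congr e1,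
      dd_trace ((d1.add d2).mul ((dM' z hz).inv hdet)), DM_mul (d1.add d2) ((dM' z hz).inv hdet),
      DM_inv (dM' z hz) hdet, DM_add d1 d2, DM_mul ((dX z hz).mul (dH1 l)) (dX z hz).ct,
      DM_mul ((dX z hz).mul (dH z hz)) (dX1 l).ct,
      DM_mul ((dX z hz).mul (dH z hz)) (dX z hz).ct, DM_mul (dX z hz) (dH1 l),
      DM_mul (dX z hz) (dH z hz), DM_ct (dX z hz), DM_ct (dX1 l), sI', hX0 z hz, hX2,
      conjTranspose_zero, e2, hHb]
    exact second (hK.2 z hz) _ _ _ _ _ _ _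
  have hsum : ∑ k, ∑ l, trace ((X z * H z * (X z)ᴴ)⁻¹ *
      (X z * (Matrix.of fun i j => curv H z i j k l) * (X z)ᴴ)) * (H z)⁻¹ l k =
      trace ((X z * H z * (X z)ᴴ)⁻¹ * (X z * ric H z * (X z)ᴴ)) := by
    have e : ric H z = ∑ k, ∑ l, (H z)⁻¹ l k • (Matrix.of fun i j => curv H z i j k l) := by
      ext i j
      simp only [Matrix.sum_apply, Matrix.smul_apply, Matrix.of_apply, smul_eq_mul]
      rw [hc.ric_eq τ H U hU hK z hz]
      refine Finset.sum_congr rfl fun k _ => Finset.sum_congr rfl fun l _ => ?_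
      rw [(hc.sym τ H U hU hK z hz i j k l).1, (hc.sym τ H U hU hK z hz k j i l).2.1]
    rw [e]
    simp only [Matrix.sum_mul, Matrix.mul_sum, Matrix.smul_mul, Matrix.mul_smul, trace_sum,
      trace_smul, smul_eq_mul]
    exact Finset.sum_congr rfl fun k _ => Finset.sum_congr rfl fun l _ => mul_comm _ _
  have hS := schur (hK.2 z hz) hM
  have hg := gram (hK.2 z hz).inv.posSemidef hS hM.inv.posSemidef
    fun k => DM (-I) X k z + X z * DM (-I) H k z * (H z)⁻¹
  have h6 : X z * ric H z = -(X z * H z) := by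
    rw [eq_neg_iff_add_eq_zero, ← Matrix.mul_add, hX]
    ext a i
    exact congrFun (hric a) i
  have h7 : trace ((X z * H z * (X z)ᴴ)⁻¹ * (X z * ric H z * (X z)ᴴ)) = -q := by
    rw [h6, Matrix.neg_mul, Matrix.mul_neg, trace_neg, Matrix.nonsing_inv_mul _ (Ne.isUnit hdet),
      trace_one, Fintype.card_fin]
  rw [lapL, trace]
  simp only [diag_apply, Matrix.mul_apply (M := levi _ z), hlev, sub_mul, Finset.sum_sub_distrib]
  rw [hsum, h7, Complex.sub_re, Complex.neg_re, Complex.natCast_re]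
  linarith

end Pool.Agent.Lib.MP_813db1_ag.VH.S8
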