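import Pool.Agent.Lib.MP_813db1_ag.VH.S8.Fb
import Pool.Agent.Lib.MP_813db1_ag.VH.S8.Alg
import Pool.Agent.Lib.MP_813db1_ag.VH.S8.Gm
import Pool.Agent.Lib.MP_813db1_ag.VH.S8.Sub8
import Pool.Agent.Lib.MP_813db1_ag.HS.E.Boch
import Pool.Agent.Lib.MP_813db1_ag.HS.E.Gen
import Pool.Agent.Lib.MP_813db1_ag.HS.E.Coc
import Pool.Agent.Lib.MP_813db1_ag.HS.AYAll
import Pool.Agent.Lib.MP_813db1_ag.HS.Sub_Zero
import Pool.Agent.Lib.MP_caab05_ag.GB.Osg

/-! The Bochner argument in the developed charts. -/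

namespace Pool.Agent.Lib.MP_813db1_ag.VH.S8.Fb

open Pool.Agent.Lib.MP_813db1_ag.HS Pool.Agent.Lib.MP_813db1_ag.AS
open MeasureTheory Complex Matrix Filter Topology Set Metric
open scoped ContDiff ComplexOrder

variable {ι X Y G r : Type} [Fintype ι] [DecidableEq ι] [TopologicalSpace X] [T2Space X]
  [CompactSpace X] [MeasurableSpace X] [BorelSpace X] [TopologicalSpace Y]
  [Group G] [MulAction G Y] [Fintype r] [DecidableEq r] {M : Atl ι X} {p : Y → X}
  {E : Dt M p G r} {Q : Mat r} {c : G → V r} {x : Y → V r} {h ξ : X → Mat ι} {s : Finset ι}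
  {L : Matrix r (Sg' s) ℂ} {B : Fb E Q c x h s L}

theorem bochS8 (hP : PbS M) (hS : E.Spl Q c x h ξ) (ok : B.Ok) (hO : B.OvS ok)
    (hG : B.GenS8 ok) : B.BochS8 ok := by
  intro q η F hF
  have Gn := hG q η F hF
  obtain ⟨⟨μ, hμ⟩, hv⟩ := AY.volS' ι X M h hS.k
  have := (hv μ hμ).fin
  have := (hv μ hμ).pos
  have op : ∀ k, IsOpen {u : V ι | yp s u ∈ B.Bl k} := fun k =>
    isOpen_ball.preimage (BochAux.yp_smooth s).continuous
  obtain ⟨C, hC⟩ := covS ι X M (fun e => ∃ k w, ∀ u ∈ e.target,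
    yp s (u + w) ∈ B.Bl k ∧ e.symm u = B.Θ k (u + w)) fun a => by
      obtain ⟨k, w, h1, rfl⟩ := hO.surj a
      obtain ⟨e, a1, a2, a3, a4⟩ := hP.ctr (B.Θ k) w _ (B.lh k w h1) ((op k).mem_nhds h1)
      exact ⟨e, a1, ⟨k, w, a4⟩, a2, a3⟩
  choose ty w hw using hC
  have an : ∀ k j, AnalyticOnNhd ℂ (η k j) (B.Bl k) := fun k j =>
    MP_caab05_ag.GB.osg _ _ _ _ isOpen_ball (F.hol k j)
  have SB := fun k => sub AY.curvS' mat _ q (B.Bl k) (B.β k) (η k) 0 isOpen_ball (B.mo k).kon (an k)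
  have ym : ∀ a, ∀ z ∈ ball (0 : V ι) (3 * C.r a), yp s (z + w a) ∈ B.Bl (ty a) := fun a z hz =>
    (hw a z (C.ball_sub a (by norm_num) hz)).1
  have aT : ∀ a (z : V ι), AnalyticAt ℂ (fun u => u + w a) z := fun a z =>
    analyticAt_id.add analyticAt_const
  have jT : ∀ a (z : V ι), jac (fun u => u + w a) z = 1 := fun a z => by
    rw [← jac_id z, jac, jac, fderiv_add_const]
    rfl
  have cT : ∀ a, ∀ u ∈ (C.e a).source, ContinuousAt (fun u => C.e a u + w a) u := fun a u hu =>
    ((C.e a).continuousAt hu).add continuousAt_const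
  have eT : ∀ a, ∀ u ∈ (C.e a).source, B.Θ (ty a) (C.e a u + w a) = u := fun a u hu => by
    rw [← (hw a _ ((C.e a).map_source hu)).2, (C.e a).left_inv hu]
  have key := cocS AY.repA' AY.repB' (pou AY.repA' AY.repB') AY.volS' AY.greenS mat ι X M h h μ C
    (fun a z => (BochAux.gr (B.β (ty a) (yp s (z + w a)))
      fun j => η (ty a) j (yp s (z + w a))).det.re) (fun _ => q) hS.k hS.k hμ continuous_const
    (fun a z hz => ⟨ContDiffAt.comp (f := fun z => yp s (z + w a)) z (SB _ _ (ym a z hz)).1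
      ((BochAux.yp_smooth s).contDiffAt.comp z (contDiffAt_id.add contDiffAt_const)),
      (SB _ _ (ym a z hz)).2.1⟩)
    (fun a => by
      have r3 : 0 < 3 * C.r a := by linarith [C.pos a]
      have m : ∀ y ∈ ball (0 : V (Ta s)) (3 * C.r a), y + yp s (w a) ∈ B.Bl (ty a) := fun y hy => by
        have := ym a (glue s 0 y) (mem_ball_zero_iff.2
          ((norm_glue_lt s r3 _ _).2 ⟨by simpa using r3, mem_ball_zero_iff.1 hy⟩))
        rwa [show yp s (glue s 0 y + w a) = yp s (glue s 0 y) + yp s (w a) from rfl,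
          yp_glue] at this
      obtain ⟨y, h1, h2⟩ := (Gn (ty a)).1 (ball (yp s (w a)) (3 * C.r a)) isOpen_ball
        (nonempty_ball.2 r3) fun y hy => by
          simpa using m (y - yp s (w a)) (mem_ball_zero_iff.2 (mem_ball_iff_norm.1 hy))
      refine measure_mono_null (fun z hz => by
        exact ⟨hz.1, fun hl => ((SB _ _ (ym a z hz.1)).2.2 hl).1.ne' hz.2⟩)
        (GenAux.null zero s r3 (fun j y => η (ty a) j (y + yp s (w a)))
          (fun j y hy => AnalyticAt.comp (f := fun y => y + yp s (w a)) (an _ j _ (m y hy))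
            (analyticAt_id.add analyticAt_const))
          (y := y - yp s (w a)) (mem_ball_zero_iff.2 (mem_ball_iff_norm.1 h1))
          (by simpa only [sub_add_cancel] using h2)))
    (fun a b u ha hb ra rb => by
      have ma := ym a _ (mem_ball_zero_iff.2 ra)
      have mb := ym b _ (mem_ball_zero_iff.2 rb)
      obtain ⟨γ, h1, h2⟩ := hO.ex _ _ _ _ ma mb ((eT a u ha).trans (eT b u hb).symm)
      obtain ⟨t1, -, t2, -⟩ := hO.tr _ _ γ _ _ h1
      obtain ⟨T, h3, h4⟩ := F.cov _ _ γ _ _ h1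
      have h5 : Tendsto (fun u' => (B.tr ok (ty a) (ty b) γ (C.e a u' + w a), C.e b u' + w b))
          (𝓝 u) (𝓝 (C.e b u + w b, C.e b u + w b)) :=
        Tendsto.prodMk_nhds (h2 ▸ t1.continuousAt.tendsto.comp (cT a u ha)) (cT b u hb)
      have h7 : Tendsto (fun u' => yp s (C.e a u' + w a)) (𝓝 u) (𝓝 (yp s (C.e a u + w a))) :=
        ((BochAux.yp_smooth s).continuous.tendsto _).comp (cT a u ha)
      refine ⟨T.det ^ 2, by positivity, ?_⟩
      filter_upwards [h5.eventually (hP.ev _ _ (B.lh _ _ mb)).2.2.2.1, (cT a u ha).eventually t2,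
        h7.eventually h4, h7.eventually (PG.loc' (P := B.pg ok) h1).2,
        (C.e a).open_source.mem_nhds ha, (C.e b).open_source.mem_nhds hb] with u' e1 e2 e3 e4 e5 e6
      have e7 : yp s (C.e b u' + w b) = (B.pg ok).rm (ty a) (ty b) γ (yp s (C.e a u' + w a)) := by
        rw [← e1 (e2.symm.trans ((eT a u' e5).trans (eT b u' e6).symm))]
        exact yp_glue _ _ _
      rw [(hO.hol _ _ γ _ _ e4).2.2.2.1, e7]
      exact BochAux.gr_pull _ _ T _ _ fun j => by rw [jac_mulVec, e3])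
    (fun a u ha ra hD => by
      have ma := ym a _ (mem_ball_zero_iff.2 ra)
      have hl : LinearIndependent ℂ fun j => η (ty a) j (yp s (C.e a u + w a)) := by
        by_contra hn
        exact hD (by rw [BochAux.gr_dep _ hn, zero_re])
      have s1 : ContDiffAt ℝ 2 (fun y => (Real.log (BochAux.gr (B.β (ty a) y)
          fun j => η (ty a) j y).det.re : ℂ)) (yp s (C.e a u + w a)) :=
        ofRealCLM.contDiff.contDiffAt.comp _ (((SB _ _ ma).1.log hD).of_le (by norm_cast))
      have hz := (C.e a).map_source ha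
      have e1 : M.repF h (C.e a) (C.e a u) =
          gM s Q L (B.H (ty a)) (B.β (ty a)) (C.e a u + w a) := by
        rw [((hP.rep _ (C.mem a) _ hz (fun z => B.Θ (ty a) (z + w a))
          (((C.e a).open_target.eventually_mem hz).mono fun z hz => (hw a z hz).2)).2
            h).self_of_nhds, (hP.comp (fun z => B.Θ (ty a) (z + w a)) (B.Θ (ty a))
              (fun z => z + w a) _ (B.lh _ _ ma) (aT a _) (Eventually.of_forall fun _ => rfl)).2.1,
          jT, RepA.pull_one]
        exact B.met _ _ ma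
      have e2 := levi_comp (τ := fun z => z + w a) (z := C.e a u)
        (s1.comp _ ((BochAux.yp_smooth s).contDiffAt.of_le (by norm_cast))) (aT a _)
      rw [jT, RepA.pull_one] at e2
      refine (sub8S _ q _ _ _ isOpen_ball (B.mo _).kon (an _) _ ma hl ((Gn _).2 _ ma)).trans_eq
        (congrArg re ?_)
      refine ((gmS algS ι r s Q L _ _ _ (B.mo _).toMo0 (B.mo _).kon _ ma).2.2.2.2.2.1 _
        s1).symm.trans ?_
      rw [lapL, lapL, e1]
      exact congrArg (fun A => trace (A * _)) e2.symm)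
  have e1 : ∀ u, (q : ℝ) * rat h h u = q := fun u => by
    rw [rat, div_self (mat.det ι _ (((AY.repA' ι X M).isK_iff h).1 hS.k |>.2 u)).1.ne', mul_one]
  obtain ⟨k⟩ := ok.ne
  have : Nonempty X := ⟨B.Θ k 0⟩
  simp only [e1, integral_const, smul_eq_mul] at key
  exact absurd key (not_le.2 (mul_pos (measureReal_univ_pos) (by exact_mod_cast F.pos)))

end Pool.Agent.Lib.MP_813db1_ag.VH.S8.Fb
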