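import Pool.Agent.Lib.MP_813db1_ag.VH.S8.Fb
import Pool.Agent.Lib.MP_813db1_ag.VH.S8.Alg
import Pool.Agent.Lib.MP_813db1_ag.VH.S8.Tr
import Pool.Agent.Lib.MP_813db1_ag.VH.S8.Gm
import Pool.Agent.Lib.MP_813db1_ag.HS.AYAll
import Pool.Agent.Lib.MP_813db1_ag.HS.BK
import Pool.Agent.Lib.MP_813db1_ag.HS.FGauge

/-! Basic sections: stability under `box`, holomorphic sections, and the spectral gap. -/

namespace Pool.Agent.Lib.MP_813db1_ag.VH.S8.Fb

open Pool.Agent.Lib.MP_813db1_ag.HS Pool.Agent.Lib.MP_813db1_ag.AS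
open MeasureTheory Complex Matrix Filter Topology Set Metric
open scoped ContDiff ComplexOrder

variable {ι X Y G r : Type} [Fintype ι] [DecidableEq ι] [TopologicalSpace X] [TopologicalSpace Y]
  [Group G] [MulAction G Y] [Fintype r] [DecidableEq r] {M : Atl ι X} {p : Y → X} {E : Dt M p G r}
  {Q : Mat r} {c : G → V r} {x : Y → V r} {h ξ : X → Mat ι} {s : Finset ι}
  {L : Matrix r (Sg' s) ℂ} {B : Fb E Q c x h s L}

namespace BoxAux

theorem ev {k : B.κ} {w : V ι} (hw : yp s w ∈ B.Bl k) : ∀ᶠ u in 𝓝 w, yp s u ∈ B.Bl k :=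
  (RowsH.ypL s).continuous.continuousAt.eventually (isOpen_ball.mem_nhds hw)

theorem sf {k : B.κ} {w : V ι} (hw : yp s w ∈ B.Bl k) :
    B.sh k 0 w = w ∧ Continuous (fun t => B.sh k t w) ∧
    (∀ z, ∃ t, B.sh k t w = glue s z (yp s w)) ∧ ∀ t, AnalyticAt ℂ (B.sh k t) w ∧
      yp s (B.sh k t w) = yp s w ∧
      xm s Q L (B.H k) (B.sh k t w) = xm s Q L (B.H k) w + cv t ∧
      (jac (B.sh k t) w).det = 1 ∧ (∀ t', B.sh k t (B.sh k t' w) = B.sh k (t + t') w) ∧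
      ∀ β, gM s Q L (B.H k) β w =
        pull (jac (B.sh k t) w) (gM s Q L (B.H k) β (B.sh k t w)) :=
  shfS algS (trS algS) s Q L (B.H k) (B.R k) (B.mo k).toMo0 w hw

theorem mem {k : B.κ} {w : V ι} (hw : yp s w ∈ B.Bl k) (t : r → ℝ) : yp s (B.sh k t w) ∈ B.Bl k := by
  rw [((sf hw).2.2.2 t).2.1]
  exact hw

theorem pd {k : B.κ} {w : V ι} (hw : yp s w ∈ B.Bl k) : (B.g k w).PosDef :=
  (gmS algS ι r s Q L _ _ _ (B.mo k).toMo0 (B.mo k).kon w hw).1

theorem surj (hD : B.DiS) (u : X) : ∃ k w, yp s w ∈ B.Bl k ∧ B.Θ k w = u := by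
  classical
  by_contra hn
  have := hD.ext 0 (fun v => if v = u then 1 else 0) 0 fun k w hw => by
    have : B.Θ k w ≠ u := fun e => hn ⟨k, w, hw, e⟩
    simp [pb, this]
  simpa using congrFun this u

omit [Fintype ι] in
theorem glue_self (w : V ι) : glue s (zp s w) (yp s w) = w := by
  funext i
  by_cases hi : i ∈ s <;> simp [glue, zp, yp, hi]

theorem pb_comp {Θ : V ι → X} {T : V ι → V ι} {w : V ι} (hl : Lh M Θ (T w))
    (hT : DifferentiableAt ℂ T w) (e : Θ =ᶠ[𝓝 w] Θ ∘ T) (hd : (jac T w).det = 1) (a : ℕ)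
    (σ : X → ℂ) : pb M a σ Θ (T w) = pb M a σ Θ w := by
  obtain ⟨e', he', hw, ee⟩ := hl
  have e0 : Θ w = Θ (T w) := e.eq_of_nhds
  have e1 : e'.symm (T w) = Θ (T w) := ee.eq_of_nhds
  have h1 := M.hol e' he' _ (M.ch_mem (Θ (T w))) _ (e'.map_target hw) (e1 ▸ M.mem _)
  rw [e'.right_inv hw] at h1
  have h2 : DifferentiableAt ℂ (M.ch (Θ (T w)) ∘ Θ) (T w) :=
    h1.differentiableAt.congr_of_eventuallyEq (ee.symm.fun_comp _)
  rw [pb, pb, e0, jac_congr (e.fun_comp (M.ch (Θ (T w)))), ← Function.comp_assoc, jac_comp h2 hT,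
    det_mul, hd, mul_one]

omit [Fintype ι] in
theorem diff_glue (y : V (Ta s)) : Differentiable ℂ fun z : V (Sg' s) => glue s z y :=
  differentiable_pi.2 fun i => by
    by_cases hi : i ∈ s
    · simpa only [glue, dif_pos hi] using differentiable_apply (𝕜 := ℂ) (⟨i, hi⟩ : Sg' s)
    · simpa only [glue, dif_neg hi] using differentiable_const _

theorem sm_glue (z : V (Sg' s)) : ContDiff ℝ ∞ fun y : V (Ta s) => glue s z y :=
  contDiff_pi.2 fun i => by
    by_cases hi : i ∈ s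
    · simpa only [glue, dif_pos hi] using contDiff_const
    · simpa only [glue, dif_neg hi] using contDiff_apply ℝ ℂ (⟨i, hi⟩ : Ta s)

theorem box1 (hD : B.DiS) (a : ℕ) (k : B.κ) (t : r → ℝ) (w : V ι) (F : V ι → ℂ)
    (hw : yp s w ∈ B.Bl k) (hF : ContDiffAt ℝ 2 F (B.sh k t w)) :
    boxL a (B.g k) (fun u => F (B.sh k t u)) w = boxL a (B.g k) F (B.sh k t w) := by
  obtain ⟨h1, -, -, h2, -⟩ := (sf hw).2.2.2 t
  have := RepB.box_loc (a := a) (H := B.g k) (H' := B.g k) (F := fun u => F (B.sh k t u)) (F' := F)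
    h1 (by rw [h2]; exact one_ne_zero)
    (fun i j => (hD.gsm k _ (mem hw t) i j).of_le FG.two_le) (GmAux.re_pos (pd (mem hw t))).ne' hF
    ((ev hw).mono fun u hu => by rw [((sf hu).2.2.2 t).2.2.2.1, one_pow, one_mul])
    ((ev hw).mono fun u hu => ((sf hu).2.2.2 t).2.2.2.2.2 _)
  rwa [h2, one_pow, one_mul] at this

/-- basic sections are functions of the transversal coordinate. -/
theorem basic {a : ℕ} {σ : X → ℂ} (hσ : σ ∈ B.SB a) {k : B.κ} {w : V ι} (hw : yp s w ∈ B.Bl k) :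
    pb M a σ (B.Θ k) =ᶠ[𝓝 w] fun u => pb M a σ (B.Θ k) (glue s (zp s w) (yp s u)) :=
  (ev hw).mono fun u hu => by
    obtain ⟨t, ht⟩ := (sf hu).2.2.1 (zp s w)
    exact (hσ.2 k u t hu).symm.trans (congrArg _ ht)

theorem shp_congr {H : V ι → Mat ι} {F F' : V ι → ℂ} {w : V ι} (e : F =ᶠ[𝓝 w] F') :
    shp H F w = shp H F' w := by
  funext i
  simp only [shp, dzb_congr e]

end BoxAux

open BoxAux

theorem boxS (_ok : B.Ok) (hD : B.DiS) : B.BoxS := by
  refine ⟨box1 hD, fun a σ hσ => ⟨hD.sm' a _ fun u => ?_, fun k w t hw => ?_⟩⟩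
  · obtain ⟨k, w, hw, e⟩ := surj hD u
    exact ⟨k, w, hw, e, (BK.cd_box a (hD.gsm k w hw) (pd hw) (hD.sm a σ k w hw hσ.1)
      ).congr_of_eventuallyEq ((ev hw).mono fun u hu => hD.box a σ k u hu hσ.1)⟩
  · rw [hD.box a σ k _ (mem hw t) hσ.1, hD.box a σ k w hw hσ.1,
      ← box1 hD a k t w _ hw ((hD.sm a σ k _ (mem hw t) hσ.1).of_le FG.two_le)]
    exact boxL_congr ((ev hw).mono fun u hu => hσ.2 k u t hu)

theorem holB (ok : B.Ok) (hO : B.OvS ok) (hD : B.DiS) : B.HolB ok := by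
  intro N hN a σ h1 h2
  refine ⟨h1, fun k w t hw => ?_⟩
  obtain ⟨h0, hc, hz, ht⟩ := sf hw
  have c1 : Continuous fun t => pb M a σ (B.Θ k) (B.sh k t w) :=
    continuous_iff_continuousAt.2 fun t =>
      ContinuousAt.comp (f := fun t => B.sh k t w) (hD.sm a σ k _ (mem hw t) h1).continuousAt
        hc.continuousAt
  obtain ⟨R, hR⟩ := hN.cpt
  obtain ⟨C, hC⟩ := (isCompact_closedBall (0 : r → ℝ) R).exists_bound_of_continuousOn
    c1.continuousOn
  have bd : ∀ t, ‖pb M a σ (B.Θ k) (B.sh k t w)‖ ≤ C := fun t => by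
    obtain ⟨γ, g1, g2, g3⟩ := hR t
    have := hC _ (mem_closedBall_zero_iff.2 g3)
    have hu := mem hw t
    obtain ⟨a1, -, -, a2, -⟩ := (sf hu).2.2.2 ((B.pg ok).c γ)
    rwa [add_comm, ← (ht _).2.2.2.2.1 t, pb_comp (Θ := B.Θ k) (B.lh k _ (mem hu _))
      a1.differentiableAt ((ev hu).mono fun u hu' => (hO.per k γ (g1 k) g2 u hu').symm) a2] at this
  have dF : Differentiable ℂ fun z => pb M a σ (B.Θ k) (glue s z (yp s w)) := fun z =>
    DifferentiableAt.comp (f := fun z => glue s z (yp s w)) z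
      (hD.hol a σ k _ (by rw [GmAux.yp_gl]; exact hw) h2) (diff_glue _ z)
  have bF : Bornology.IsBounded (range fun z => pb M a σ (B.Θ k) (glue s z (yp s w))) :=
    isBounded_iff_forall_norm_le.2 ⟨C, by
      rintro _ ⟨z, rfl⟩
      obtain ⟨t, e⟩ := hz z
      simpa only [e] using bd t⟩
  have := dF.apply_eq_apply_of_bounded bF (zp s (B.sh k t w)) (zp s w)
  rwa [glue_self, ← (ht t).2.1, glue_self] at this

theorem gapS [T2Space X] [CompactSpace X] [MeasurableSpace X] [BorelSpace X]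
    (hS : E.Spl Q c x h ξ) (hD : B.DiS) : B.GapS := by
  intro μ hμ b σ hσ
  have hh := hS.k
  have := ((AY.volS' ι X M h hh).2 μ hμ).fin
  have h1 : M.CkS 1 (b + 1) σ := fun e he z hz => (hσ.1 e he z hz).of_le (by norm_cast)
  obtain ⟨-, c1, -, hw⟩ := AY.greenS.cont ι X M h h (b + 1) σ σ hh hh
  have e1 := reCLM.integral_comp_comm
    (Green.intg (μ := μ) (c1 h1 h1 h fun e he => (hh e he).1.1))
  simp only [reCLM_apply] at e1
  have e2 : ∀ u, (ipV (h u) (M.shpX (b + 1) h σ u) (M.shpX (b + 1) h σ u) *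
      (wt (b + 1) h h u : ℝ)).re = nV (-M.ricF h u) (M.shpX (b + 1) h σ u) * wt (b + 1) h h u := by
    intro u
    obtain ⟨k, w, hk, rfl⟩ := surj hD u
    have d : DifferentiableAt ℝ (fun y => pb M (b + 1) σ (B.Θ k) (glue s (zp s w) y)) (yp s w) :=
      DifferentiableAt.comp (g := pb M (b + 1) σ (B.Θ k)) (f := fun y => glue s (zp s w) y) (yp s w)
        (by rw [glue_self]; exact (hD.sm _ σ k w hk hσ.1).differentiableAt (by simp))
        ((sm_glue _).differentiable (by simp) _)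
    obtain ⟨q1, q2⟩ := (gmS algS ι r s Q L _ _ _ (B.mo k).toMo0 (B.mo k).kon w hk).2.2.2.2.2.2
      _ _ d d
    have i1 := hD.ip1 (b + 1) σ σ k w h hk hσ.1 hσ.1
    have i2 := hD.ip1 (b + 1) σ σ k w (fun u => -M.ricF h u) hk hσ.1 hσ.1
    rw [hD.ric k w hk, shp_congr (basic hσ hk)] at i2
    rw [show pbF M h (B.Θ k) w = _ from B.met k w hk, shp_congr (basic hσ hk)] at i1
    rw [nV, ← re_mul_ofReal, i1, i2]
    exact congrArg (fun z : ℂ => (z * _).re) (q1.trans q2.symm)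
  rw [HS.bk AY.repA' AY.repB' AY.divS' AY.curvS' mat AY.volS' AY.greenS ι X M h h μ b σ hh hh hμ hσ.1,
    Atl.ip1, ← e1]
  simp only [e2]
  exact le_add_of_nonneg_left (integral_nonneg fun u => mul_nonneg
    (FG.nV_dbar mat ((hh _ (M.ch_mem u)).2 _ ((M.ch u).map_source (M.mem u))) _ 0).2 (hw u).le)

end Pool.Agent.Lib.MP_813db1_ag.VH.S8.Fb
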