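import Pool.Agent.Lib.MP_813db1_ag.VH.S8.StL
import Pool.Agent.Lib.MP_813db1_ag.HS.RepA1

/-! Section 8: calculus of pull backs. -/

namespace Pool.Agent.Lib.MP_813db1_ag.VH.S8

open Pool.Agent.Lib.MP_813db1_ag.HS Pool.Agent.Lib.MP_813db1_ag.AS
open MeasureTheory Complex Matrix Filter Topology Set Metric
open scoped ContDiff ComplexOrder

namespace PbA

variable {ι X : Type} [Fintype ι] [DecidableEq ι] [TopologicalSpace X] (M : Atl ι X)

theorem jac_add (T : V ι → V ι) (w : V ι) : jac (fun u => T (u + w)) 0 = jac T w := by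
  ext p i
  simp [jac, fderiv_comp_add_right]

theorem tj_eq {e : Ch ι X} {u : V ι} (hu : u ∈ e.target) {Θ : V ι → X} (h : e.symm =ᶠ[𝓝 u] Θ) :
    tj e (M.ch (e.symm u)) (e.symm u) = jac (M.ch (Θ u) ∘ Θ) u := by
  rw [tj, e.right_inv hu, h.eq_of_nhds]
  exact jac_congr (h.fun_comp _)

omit [DecidableEq ι] in
theorem an_ch {e : Ch ι X} (he : e ∈ M.A) {u : V ι} (hu : u ∈ e.target) {Θ : V ι → X}
    (h : e.symm =ᶠ[𝓝 u] Θ) : AnalyticAt ℂ (M.ch (Θ u) ∘ Θ) u := by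
  have h1 := M.hol e he _ (M.ch_mem (e.symm u)) _ (e.map_target hu) (M.mem _)
  rw [e.right_inv hu, h.eq_of_nhds] at h1
  exact h1.congr (h.fun_comp _)

/-- a centered chart whose inverse factors through a local biholomorphism. -/
theorem nc {e : Ch ι X} (he : e ∈ M.A) {T : V ι → V ι} {w : V ι} (hw : T w ∈ e.target)
    (hT : AnalyticAt ℂ T w) (hd : (jac T w).det ≠ 0) {O : Set (V ι)} (hO : O ∈ 𝓝 w) :
    ∃ e' ∈ M.A, e.symm (T w) ∈ e'.source ∧ e' (e.symm (T w)) = 0 ∧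
      ∀ u ∈ e'.target, u + w ∈ O ∧ e'.symm u = e.symm (T (u + w)) := by
  have hc : AnalyticAt ℂ (fun u : V ι => u + w) 0 := analyticAt_id.add analyticAt_const
  have hO' : (fun u : V ι => u + w) ⁻¹' O ∈ 𝓝 (0 : V ι) :=
    hc.continuousAt.preimage_mem_nhds (by rwa [zero_add])
  obtain ⟨e', he', h1, h2, h3, h4, h5⟩ := RepA.newChart M e he _ (e.map_target hw)
    (fun u => T (u + w)) _ (hT.comp_of_eq hc (zero_add w))
    (by rw [zero_add, e.right_inv hw]) (by rwa [jac_add]) hO'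
  refine ⟨e', he', h1, h2, fun u hu => ⟨h3 hu, ?_⟩⟩
  rw [← (h5 u hu).1, e.left_inv (h4 (e'.map_target hu))]

theorem lh_comp {Θ Θ' : V ι → X} {T : V ι → V ι} {w : V ι} (hL : Lh M Θ' (T w))
    (hT : AnalyticAt ℂ T w) (h : Θ =ᶠ[𝓝 w] Θ' ∘ T) (hd : (jac T w).det ≠ 0) : Lh M Θ w := by
  obtain ⟨e, he, hw, hΘ⟩ := hL
  obtain ⟨e', he', h1, h2, h3⟩ := nc M he hw hT hd (h.and (hT.continuousAt.eventually hΘ))
  have h0 : (0 : V ι) ∈ e'.target := h2 ▸ e'.map_source h1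
  let f := (Homeomorph.addRight w).toOpenPartialHomeomorph
  have hs : ∀ v, f.symm v = v - w := fun v => (sub_eq_add_neg v w).symm
  have hm : e'.trans f ∈ M.A := RepA.trans_mem M he' f
    (fun z _ => analyticAt_id.add analyticAt_const)
    fun z _ => (funext hs : ⇑f.symm = fun v => v - w) ▸ analyticAt_id.sub analyticAt_const
  have ht : w ∈ (e'.trans f).target := ⟨mem_univ _, by
    rw [mem_preimage, hs, sub_self]
    exact h0⟩
  refine ⟨_, hm, ht, ?_⟩
  filter_upwards [(e'.trans f).open_target.mem_nhds ht] with v hv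
  have h4 := h3 _ hv.2
  rw [hs, sub_add_cancel] at h4
  change e'.symm (f.symm v) = Θ v
  rw [hs, h4.2, h4.1.2, h4.1.1, Function.comp_apply]

theorem jac_ch {Θ Θ' : V ι → X} {T : V ι → V ι} {w : V ι} (hL : Lh M Θ' (T w))
    (hT : AnalyticAt ℂ T w) (h : Θ =ᶠ[𝓝 w] Θ' ∘ T) :
    jac (M.ch (Θ w) ∘ Θ) w = jac (M.ch (Θ' (T w)) ∘ Θ') (T w) * jac T w := by
  obtain ⟨e, he, hw, hΘ⟩ := hL
  rw [← jac_comp (an_ch M he hw hΘ).differentiableAt hT.differentiableAt, h.eq_of_nhds]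
  exact jac_congr (h.fun_comp _)

end PbA

open PbA in
theorem pbS {ι X : Type} [Fintype ι] [DecidableEq ι] [TopologicalSpace X] (M : Atl ι X) :
    PbS M where
  rep e _ w hw Θ h := by
    have h1 := (e.open_target.eventually_mem hw).and h.eventuallyEq_nhds
    refine ⟨fun a σ => h1.mono fun u hu => ?_, fun B => h1.mono fun u hu => ?_⟩
    · rw [Atl.rep, pb, tj_eq M hu.1 hu.2, hu.2.eq_of_nhds]
    · rw [Atl.repF, pbF, tj_eq M hu.1 hu.2, hu.2.eq_of_nhds]
  ev Θ w hL := by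
    obtain ⟨e, he, hw, h⟩ := hL
    have h1 := e.open_target.eventually_mem hw
    refine ⟨(h1.and h.eventuallyEq_nhds).mono fun u hu => ⟨e, he, hu.1, hu.2⟩,
      (e.continuousAt_symm hw).congr h, ?_, ?_, ?_⟩
    · rw [← map_congr h, ← h.eq_of_nhds]
      exact e.symm.map_nhds_eq hw
    · rw [nhds_prod_eq]
      refine ((h1.and h).prod_mk (h1.and h)).mono fun q hq hΘ => ?_
      exact e.symm.injOn hq.1.1 hq.2.1 (hq.1.2.trans (hΘ.trans hq.2.2.symm))
    · rw [← tj_eq M hw h]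
      exact RepA.tj_det M e he _ (M.ch_mem _) _ (e.map_target hw) (M.mem _)
  comp Θ Θ' T w hL hT h := by
    refine ⟨fun a σ => ?_, fun B => ?_, lh_comp M hL hT h⟩
    · rw [pb, pb, jac_ch M hL hT h, det_mul, h.eq_of_nhds, Function.comp_apply]
      ring
    · rw [pbF, pbF, jac_ch M hL hT h, RepA.pull_mul, h.eq_of_nhds, Function.comp_apply]
  ctr Θ w O hL hO := by
    obtain ⟨e, he, hw, h⟩ := hL
    obtain ⟨e', he', h1, h2, h3⟩ := nc M he (T := id) hw analyticAt_id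
      (by rw [jac_id, det_one]; exact one_ne_zero) (inter_mem hO h)
    rw [id, h.eq_of_nhds] at h1 h2
    exact ⟨e', he', h1, h2, fun u hu => ⟨(h3 u hu).1.1, (h3 u hu).2.trans (h3 u hu).1.2⟩⟩

end Pool.Agent.Lib.MP_813db1_ag.VH.S8
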