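import Pool.Agent.Lib.MP_813db1_ag.VH.S8.Fb
import Pool.Agent.Lib.MP_813db1_ag.VH.S8.Gm
import Pool.Agent.Lib.MP_813db1_ag.VH.S8.Alg
import Pool.Agent.Lib.MP_813db1_ag.VH.S8.Pb
import Pool.Agent.Lib.MP_813db1_ag.HS.AYAll

/-! The dictionary between the manifold and the developed charts; descent of sections. -/

namespace Pool.Agent.Lib.MP_813db1_ag.VH.S8.Fb

open Pool.Agent.Lib.MP_813db1_ag.HS Pool.Agent.Lib.MP_813db1_ag.AS
open MeasureTheory Complex Matrix Filter Topology Set Metric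
open scoped ContDiff ComplexOrder

variable {ι X Y G r : Type} [Fintype ι] [DecidableEq ι] [TopologicalSpace X] [TopologicalSpace Y]
  [Group G] [MulAction G Y] [Fintype r] [DecidableEq r] {M : Atl ι X} {p : Y → X}
  {E : Dt M p G r} {Q : Mat r} {c : G → V r} {x : Y → V r} {h ξ : X → Mat ι} {s : Finset ι}
  {L : Matrix r (Sg' s) ℂ} {B : Fb E Q c x h s L}

namespace DiA

/-- the transversal balls are open conditions. -/
theorem near {k : B.κ} {w : V ι} (hw : yp s w ∈ B.Bl k) : ∀ᶠ u in 𝓝 w, yp s u ∈ B.Bl k :=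
  (show Continuous (yp s) from continuous_pi fun i => continuous_apply i.1).continuousAt.eventually
    (isOpen_ball.mem_nhds hw)

/-- a developed chart is locally a chart. -/
theorem chart (hP : PbS M) {k : B.κ} {w : V ι} (hw : yp s w ∈ B.Bl k) : ∃ e ∈ M.A,
    B.Θ k w ∈ e.source ∧ e (B.Θ k w) = w ∧ (∀ a σ, M.rep a σ e =ᶠ[𝓝 w] pb M a σ (B.Θ k)) ∧
    (∀ F, M.repF F e =ᶠ[𝓝 w] pbF M F (B.Θ k)) ∧ M.repF h e =ᶠ[𝓝 w] B.g k := by
  obtain ⟨e, he, h1, h2⟩ := B.lh k w hw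
  obtain ⟨h3, h4⟩ := hP.rep e he w h1 (B.Θ k) h2
  have h5 : e.symm w = B.Θ k w := h2.eq_of_nhds
  exact ⟨e, he, h5 ▸ e.map_target h1, h5 ▸ e.right_inv h1, h3, h4,
    (h4 h).trans ((near hw).mono fun u hu => B.met k u hu)⟩

theorem lg_ev {H H' : V ι → Mat ι} {z : V ι} (e : H =ᶠ[𝓝 z] H') : lg H =ᶠ[𝓝 z] lg H' :=
  e.mono fun u hu => by rw [lg, lg, hu]

theorem shp_ev {H H' : V ι → Mat ι} {F F' : V ι → ℂ} {z : V ι} (e : H z = H' z)
    (e' : F =ᶠ[𝓝 z] F') : shp H F z = shp H' F' z := by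
  funext i
  simp only [shp, e, dzb_congr e']

/-- the weight in a chart. -/
theorem wt_eq {T A : Mat ι} {ψ : ℝ} (a : ℕ) (hA : A.PosDef) (hT : T.det ≠ 0)
    (e : (pull T A).det = (Real.exp ψ : ℝ)) : ((A.det.re / A.det.re / A.det.re ^ a : ℝ) : ℂ) =
      T.det ^ a * star (T.det ^ a) * (Real.exp (-a * ψ) : ℝ) := by
  have d0 := (RepB.pos_det hA).ne'
  have n0 := norm_ne_zero_iff.2 hT
  have e1 : Real.exp ψ = ‖T.det‖ ^ 2 * A.det.re := by
    rw [← ofReal_re (Real.exp ψ), ← e, RepB.det_pull, re_ofReal_mul]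
  rw [star_pow, ← mul_pow, star_def, mul_conj', neg_mul, Real.exp_neg, Real.exp_nat_mul, e1,
    ← ofReal_pow, ← ofReal_pow, ← ofReal_mul, mul_pow]
  congr 1
  field_simp

end DiA

open DiA

theorem diS (hS : E.Spl Q c x h ξ) (ok : B.Ok) (hO : B.OvS ok) : B.DiS := by
  have hP := pbS M
  have hA := AY.repA' ι X M
  have hB := AY.repB' ι X M
  have two : (2 : WithTop ℕ∞) ≤ ∞ := WithTop.coe_le_coe.2 (le_top (a := (2 : ℕ∞)))
  have gm := fun k w (hw : yp s w ∈ B.Bl k) =>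
    gmS algS ι r s Q L (B.H k) (B.β k) (B.R k) (B.mo k).toMo0 (B.mo k).kon w hw
  have wt' : ∀ (a : ℕ) k w, yp s w ∈ B.Bl k → ∀ e ∈ M.A, B.Θ k w ∈ e.source → e (B.Θ k w) = w →
      M.repF h e =ᶠ[𝓝 w] B.g k → ((wt a h h (B.Θ k w) : ℝ) : ℂ) =
        (tj e (M.ch (B.Θ k w)) (B.Θ k w)).det ^ a *
          star ((tj e (M.ch (B.Θ k w)) (B.Θ k w)).det ^ a) *
            (Real.exp (-a * B.ψ k (yp s w)) : ℝ) := fun a k w hw e he h1 h2 h5 =>
    wt_eq a (((hA.isK_iff h).1 hS.k).2 _) (hA.tj_det e he _ (M.ch_mem _) _ h1 (M.mem _))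
      (by rw [← RepB.repF_pt h h1, h2, h5.eq_of_nhds]; exact (gm k w hw).2.1)
  refine ⟨fun a σ k w hw hσ => ?_, fun a σ hσ => hA.ckS_loc ⊤ a σ fun u => ?_,
    fun a σ k w hw hσ => ?_, fun a σ σ' e => funext fun u => ?_, fun k w hw i j => ?_,
    fun a σ k w hw hσ => ?_, fun a σ τ k w hw => ?_, fun a σ τ k w F hw hσ hτ => ?_,
    fun k w hw => ?_⟩
  · obtain ⟨e, he, h1, h2, h3, -⟩ := chart hP hw
    exact (hσ e he w (h2 ▸ e.map_source h1)).congr_of_eventuallyEq (h3 a σ).symm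
  · obtain ⟨k, w, hw, rfl, h0⟩ := hσ u
    obtain ⟨e, he, h1, h2, h3, -⟩ := chart hP hw
    exact ⟨e, he, h1, h2.symm ▸ h0.congr_of_eventuallyEq (h3 a σ)⟩
  · obtain ⟨e, he, h1, h2, h3, -⟩ := chart hP hw
    exact ((hσ e he).differentiableAt
      (e.open_target.mem_nhds (h2 ▸ e.map_source h1))).congr_of_eventuallyEq (h3 a σ).symm
  · obtain ⟨k, w, hw, rfl⟩ := hO.surj u
    exact mul_left_cancel₀ (pow_ne_zero a (hP.ev _ w (B.lh k w hw)).2.2.2.2) (e k w hw)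
  · obtain ⟨e, he, h1, h2, -, -, h5⟩ := chart hP hw
    exact ((hS.k e he).1.1 w (h2 ▸ e.map_source h1) i j).congr_of_eventuallyEq
      (h5.mono fun u hu => (congrFun (congrFun hu i) j).symm)
  · obtain ⟨e, he, h1, h2, h3, -, h5⟩ := chart hP hw
    have := hB.box_rep a h σ hS.k e he _ h1 ((hσ e he _ (e.map_source h1)).of_le two)
    rw [h2, (h3 _ _).eq_of_nhds, boxL_congr (h3 a σ)] at this
    simp only [this, boxL, lapL, h5.eq_of_nhds, dz_congr (lg_ev h5)]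
  · obtain ⟨e, he, h1, h2, h3, -, h5⟩ := chart hP hw
    rw [wt' a k w hw e he h1 h2 h5, ← (h3 a σ).eq_of_nhds, ← (h3 a τ).eq_of_nhds,
      ← congrArg (M.rep a σ e) h2, ← congrArg (M.rep a τ e) h2, RepB.rep_pt a σ h1,
      RepB.rep_pt a τ h1, star_mul']
    ring
  · obtain ⟨e, he, h1, h2, h3, h4, h5⟩ := chart hP hw
    have sh := fun σ (hσ : M.CkS ∞ a σ) => hB.shp_rep a h σ e he _ h1
      ((hσ e he _ (e.map_source h1)).differentiableAt (by simp))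
    simp only [h2, fun σ => shp_ev h5.eq_of_nhds (h3 a σ)] at sh
    rw [wt' a k w hw e he h1 h2 h5, ← (h4 F).eq_of_nhds, ← congrArg (M.repF F e) h2,
      RepB.repF_pt F h1, GmAux.ip_pull, sh σ hσ, sh τ hτ, Dt.ipV_smul_left, Dt.ipV_smul_right]
    ring
  · obtain ⟨e, he, h1, h2, -, h4, h5⟩ := chart hP hw
    have := hB.ric_rep h hS.k e he w (h2 ▸ e.map_source h1)
    rw [(h4 _).eq_of_nhds, show ric _ w = ric (B.g k) w from
      congrArg Neg.neg (levi_congr (lg_ev h5))] at this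
    rw [pbF, RepB.pull_neg, ← (B.mo k).lev _ hw, neg_eq_iff_eq_neg, ← (gm k w hw).2.2.2.2.1]
    exact this

theorem descS (ok : B.Ok) (hO : B.OvS ok) : B.DescS ok := by
  have hP := pbS M
  intro a F hF
  choose k w hw e using hO.surj
  refine ⟨fun u => F (k u) (w u) / (jac (M.ch u ∘ B.Θ (k u)) (w u)).det ^ a, fun l v hv => ?_⟩
  obtain ⟨γ, h1, h2⟩ := hO.ex l _ v _ hv (hw _) (e (B.Θ l v)).symm
  obtain ⟨h3, -, h4, -⟩ := hO.tr l _ γ v _ h1
  have h5 := B.lh _ _ (hw (B.Θ l v))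
  have h6 := (hP.ev _ _ h5).2.2.2.2
  rw [(hP.comp _ _ _ v (h2.symm ▸ h5) h3 h4).1, hF l _ γ v _ h1, h2, pb, e]
  change (jac (M.ch (B.Θ _ _) ∘ B.Θ _) _).det ≠ 0 at h6
  rw [e] at h6
  rw [mul_div_cancel₀ _ (pow_ne_zero a h6)]

end Pool.Agent.Lib.MP_813db1_ag.VH.S8.Fb
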