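import Pool.Agent.Lib.MP_813db1_ag.VH.S8.Fb
import Pool.Agent.Lib.MP_813db1_ag.VH.S8.Alg
import Pool.Agent.Lib.MP_813db1_ag.VH.S8.Pb

/-! Sections with support in a tube. -/

namespace Pool.Agent.Lib.MP_813db1_ag.VH.S8.Fb

open Pool.Agent.Lib.MP_813db1_ag.HS Pool.Agent.Lib.MP_813db1_ag.AS
open MeasureTheory Complex Matrix Filter Topology Set Metric
open scoped ContDiff ComplexOrder

variable {ι X Y G r : Type} [Fintype ι] [DecidableEq ι] [TopologicalSpace X] [TopologicalSpace Y]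
  [Group G] [MulAction G Y] [Fintype r] [DecidableEq r] {M : Atl ι X} {p : Y → X}
  {E : Dt M p G r} {Q : Mat r} {c : G → V r} {x : Y → V r} {h ξ : X → Mat ι} {s : Finset ι}
  {L : Matrix r (Sg' s) ℂ} {B : Fb E Q c x h s L}

namespace ExtA

theorem rL_one {A : Mat r} (hA : Rl A) (h1 : rL A = 1) : A = 1 := by
  ext i j
  have e := hA.cv_rv (Pi.single j 1)
  have e1 : cv (Pi.single j 1 : r → ℝ) = Pi.single j 1 := by
    funext m
    by_cases hm : m = j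
    · subst hm; simp [cv]
    · simp [cv, hm]
  rw [← rL_apply, h1, one_apply_eq_self, e1] at e
  have e2 := congrFun e i
  rw [mulVec_single_one] at e2
  rw [one_apply, ← Pi.single_apply j (1 : ℂ) i, e2]
  rfl

theorem lh' (k : B.κ) {w : V ι} (hw : yp s w ∈ B.Bl k) : Lh M (B.Θ k) w := B.lh k w hw

theorem alg (hA : AlgS) {k : B.κ} {y : V (Ta s)} (hy : y ∈ B.Bl k) : Alg Q L (B.H k y) :=
  hA _ _ Q L _ (B.mo k).lag ((B.mo k).sg y hy)

omit [Fintype ι] [DecidableEq ι] in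
theorem c_yp : Continuous (yp s) := continuous_pi fun _ => continuous_apply _

theorem s_yp : ContDiff ℝ ∞ (yp s) := contDiff_pi.2 fun _ => contDiff_apply ℝ ℂ _

theorem det1 (hA : AlgS) (hS : E.Spl Q c x h ξ) (ok : B.Ok) (hO : B.OvS ok) {N a : ℕ}
    (hN : (B.pg ok).Lat N) (ha : N ∣ a) {γ : G} (hγ : (B.pg ok).Fx γ) {k : B.κ} {w : V ι}
    (hw : yp s w ∈ B.Bl k) : (jac (B.tr ok k k γ) w).det ^ a = 1 := by
  have hr : B.Rel k k γ (yp s w) (yp s w) := hγ k _ hw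
  have e1 : (B.pg ok).rm k k γ =ᶠ[𝓝 (yp s w)] id :=
    (isOpen_ball.eventually_mem hw).mono fun u hu => PG.rm_eq (P := B.pg ok) (hγ k u hu)
  rw [(hO.tr k k γ w _ hr).2.2.2.1, jac_congr e1, jac_id, det_one, mul_one]
  have hH := (hO.hol k k γ _ _ hr).2.1
  have hl := alg hA hw
  have e2 := (hl.eqv (E.ρ γ) (E.ρ γ⁻¹) (E.reR γ) (by rw [← map_mul, inv_mul_cancel, map_one])
    (hS.pol.inv γ)).2.2.1
  rw [← hH] at e2
  have e3 : ∀ n : ℕ, zM Q L (B.H k (yp s w)) * E.ρ γ ^ n =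
      (zM Q L (B.H k (yp s w)) * E.ρ γ * L) ^ n * zM Q L (B.H k (yp s w)) := by
    intro n
    induction n with
    | zero => rw [pow_zero, pow_zero, Matrix.mul_one, Matrix.one_mul]
    | succ n ih => rw [pow_succ, ← Matrix.mul_assoc, ih, pow_succ, Matrix.mul_assoc _ _ (E.ρ γ),
        e2, ← Matrix.mul_assoc, ← e2]
  have e4 : E.ρ γ ^ N = 1 := by
    rw [← map_pow]
    refine rL_one (E.reR _) ?_
    have := hN.ord γ hγ
    rw [← map_pow] at this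
    exact this
  have e5 := congrArg (· * L) (e3 N)
  simp only [e4, Matrix.mul_one, Matrix.mul_assoc _ _ L, hl.zl] at e5
  obtain ⟨n, rfl⟩ := ha
  rw [pow_mul, ← det_pow, Matrix.mul_assoc, ← e5, det_one, one_pow]

/-- the point of the model with given affine and transversal coordinates. -/
noncomputable def pt (k : B.κ) (t : (r → ℝ) × V (Ta s)) : V ι :=
  glue s (zM Q L (B.H k t.2) *ᵥ cv t.1) t.2

theorem c_pt {k : B.κ} {t : (r → ℝ) × V (Ta s)} (ht : t.2 ∈ B.Bl k) : ContinuousAt (pt k) t := by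
  refine continuousAt_pi.2 fun i => ?_
  by_cases hi : i ∈ s
  · simp only [pt, glue, dif_pos hi, mulVec, dotProduct, cv]
    refine tendsto_finsetSum _ fun j _ => ContinuousAt.mul ?_ (by fun_prop)
    exact ((B.mo k).an _ ht _ _).continuousAt.comp continuousAt_snd
  · simp only [pt, glue, dif_neg hi]
    fun_prop

theorem tube_cpt (hA : AlgS) (hP : PbS M) (ok : B.Ok) (hO : B.OvS ok) {N : ℕ}
    (hN : (B.pg ok).Lat N) {k : B.κ} {K : Set (V (Ta s))} (hK : IsCompact K) (hs : K ⊆ B.Bl k) :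
    IsCompact (B.Θ k '' {w | yp s w ∈ K}) := by
  obtain ⟨R, hR⟩ := hN.cpt
  have e : B.Θ k '' {w | yp s w ∈ K} = (B.Θ k ∘ pt k) '' (closedBall 0 R ×ˢ K) := by
    refine Subset.antisymm ?_ ?_
    · rintro _ ⟨w, hw, rfl⟩
      obtain ⟨γ, h1, h2, h3⟩ := hR (rv (xm s Q L (B.H k) w))
      refine ⟨(_, yp s w), ⟨mem_closedBall_zero_iff.2 h3, hw⟩, ?_⟩
      rw [← hO.per k γ (h1 k) h2 w (hs hw), Function.comp_apply, pt, sh, shf, cv_add, mulVec_add,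
        xm, cv_rv ((alg hA (hs hw)).rx _), (alg hA (hs hw)).zx]
    · rintro _ ⟨t, ht, rfl⟩
      refine ⟨pt k t, ?_, rfl⟩
      rw [mem_ofPred_eq, pt, yp_glue]
      exact ht.2
  rw [e]
  refine ((isCompact_closedBall _ _).prod hK).image_of_continuousOn fun t ht => ?_
  have h1 : yp s (pt k t) ∈ B.Bl k := by
    rw [pt, yp_glue]
    exact hs ht.2
  exact ((hP.ev _ _ (lh' k h1)).2.1.comp (c_pt (hs ht.2))).continuousWithinAt

theorem pb_tr (hP : PbS M) (ok : B.Ok) (hO : B.OvS ok) {k l : B.κ} {γ : G} {w : V ι}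
    {y' : V (Ta s)} (hr : B.Rel k l γ (yp s w) y') (a : ℕ) (σ : X → ℂ) :
    pb M a σ (B.Θ k) w = (jac (B.tr ok k l γ) w).det ^ a * pb M a σ (B.Θ l) (B.tr ok k l γ w) := by
  obtain ⟨h1, h2, h3, -⟩ := hO.tr k l γ w y' hr
  exact (hP.comp _ _ _ w (lh' l (by rw [h2]; exact hr.2.1)) h1 h3).1 a σ

end ExtA

open ExtA in
theorem extS8' [T2Space X] (hA : AlgS) (hP : PbS M) (hS : E.Spl Q c x h ξ) (ok : B.Ok)
    (hO : B.OvS ok) (hD : B.DiS) : B.ExtS8 ok := by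
  intro N hN k y₀ ρ hT a ha f hf hs
  change B.κ at k
  have hb : ball y₀ ρ ⊆ B.Bl k := ball_subset_closedBall.trans hT.2.1
  classical
  obtain ⟨σ, h1, h2⟩ : ∃ σ : X → ℂ, (∀ u, (∃ w, yp s w ∈ ball y₀ ρ ∧ B.Θ k w = u) →
      ∃ w, yp s w ∈ ball y₀ ρ ∧ B.Θ k w = u ∧
        σ u = f (yp s w) / (jac (M.ch u ∘ B.Θ k) w).det ^ a) ∧
      ∀ u, ¬ (∃ w, yp s w ∈ ball y₀ ρ ∧ B.Θ k w = u) → σ u = 0 :=
    ⟨fun u => if hu : ∃ w, yp s w ∈ ball y₀ ρ ∧ B.Θ k w = u then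
      f (yp s hu.choose) / (jac (M.ch u ∘ B.Θ k) hu.choose).det ^ a else 0,
      fun u hu => ⟨hu.choose, hu.choose_spec.1, hu.choose_spec.2, dif_pos hu⟩,
      fun u hu => dif_neg hu⟩
  have hv : ∀ w, yp s w ∈ ball y₀ ρ → pb M a σ (B.Θ k) w = f (yp s w) := by
    intro w hw
    obtain ⟨w', k1, k2, k3⟩ := h1 _ ⟨w, hw, rfl⟩
    obtain ⟨γ, k4, k5⟩ := hO.ex k k w w' (hb hw) (hb k1) k2.symm
    have k6 := hT.2.2 γ _ hw _ k1 k4
    rw [pb_tr hP ok hO k4, det1 hA hS ok hO hN ha k6 (hb hw), one_mul, k5, pb, k2, k3,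
      ok.uniq (k6 k _ (hb hw)) k4, ← k2,
      mul_div_cancel₀ _ (pow_ne_zero a (hP.ev _ _ (lh' k (hb k1))).2.2.2.2)]
  have hz : ∀ u, (∀ w, yp s w ∈ tsupport f → B.Θ k w ≠ u) → ∀ᶠ u' in 𝓝 u, σ u' = 0 := by
    intro u hu
    have k1 : IsCompact (tsupport f) :=
      isCompact_of_isClosed_isBounded (isClosed_tsupport f) (isBounded_ball.subset hs)
    have k2 := (tube_cpt hA hP ok hO hN k1 (hs.trans hb)).isClosed.isOpen_compl
    refine (k2.eventually_mem (x := u) fun ⟨w, k3, k4⟩ => hu w k3 k4).mono fun u' hu' => ?_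
    by_cases k5 : ∃ w, yp s w ∈ ball y₀ ρ ∧ B.Θ k w = u'
    · obtain ⟨w, -, k6, k7⟩ := h1 _ k5
      rw [k7, image_eq_zero_of_notMem_tsupport fun k8 => hu' ⟨w, k8, k6⟩, zero_div]
    · exact h2 _ k5
  have hE : ∀ l w w₁, yp s w ∈ B.Bl l → yp s w₁ = yp s w →
      (∃ w', yp s w' ∈ ball y₀ ρ ∧ B.Θ k w' = B.Θ l w) →
      pb M a σ (B.Θ l) w₁ = pb M a σ (B.Θ l) w := by
    rintro l w w₁ hw e ⟨w', k1, k2⟩
    obtain ⟨γ, k4, -⟩ := hO.ex l k w w' hw (hb k1) k2.symm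
    have k5 : B.Rel l k γ (yp s w₁) (yp s w') := by rw [e]; exact k4
    obtain ⟨-, k6, -, k7, -⟩ := hO.tr l k γ w _ k4
    obtain ⟨-, k8, -, k9, -⟩ := hO.tr l k γ w₁ _ k5
    rw [pb_tr hP ok hO k4, pb_tr hP ok hO k5, k7, k9, hv _ (by rw [k8]; exact k1),
      hv _ (by rw [k6]; exact k1), k6, k8, e]
  refine ⟨σ, ⟨hD.sm' a σ fun u => ?_, fun l w t hw => ?_⟩, hv, hz⟩
  · by_cases k5 : ∃ w, yp s w ∈ ball y₀ ρ ∧ B.Θ k w = u
    · obtain ⟨w, k1, k2⟩ := k5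
      refine ⟨k, w, hb k1, k2, (hf.comp s_yp).contDiffAt.congr_of_eventuallyEq ?_⟩
      exact ((c_yp (s := s)).continuousAt.eventually (isOpen_ball.eventually_mem k1)).mono hv
    · obtain ⟨l, w, k1, k2⟩ := hO.surj u
      refine ⟨l, w, k1, k2, (contDiffAt_const (c := (0 : ℂ))).congr_of_eventuallyEq ?_⟩
      have k3 := hz u fun w' k4 k6 => k5 ⟨w', hs k4, k6⟩
      rw [← k2] at k3
      exact ((hP.ev _ _ (lh' l k1)).2.1.eventually k3).mono fun v hv => by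
        rw [pb, hv, mul_zero]
  · have e : yp s (B.sh l t w) = yp s w := yp_glue _ _ _
    by_cases k1 : ∃ w', yp s w' ∈ ball y₀ ρ ∧ B.Θ k w' = B.Θ l w
    · exact hE l w _ hw e k1
    by_cases k2 : ∃ w', yp s w' ∈ ball y₀ ρ ∧ B.Θ k w' = B.Θ l (B.sh l t w)
    · exact (hE l _ w (by rw [e]; exact hw) e.symm k2).symm
    rw [pb, pb, h2 _ k1, h2 _ k2, mul_zero, mul_zero]

theorem extS8 [T2Space X] (hS : E.Spl Q c x h ξ) (ok : B.Ok) (hO : B.OvS ok) (hD : B.DiS) :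
    B.ExtS8 ok := extS8' algS (pbS M) hS ok hO hD

end Pool.Agent.Lib.MP_813db1_ag.VH.S8.Fb
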