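import Pool.Agent.Lib.MP_813db1_ag.VH.S8.StL

/-! Charts develop along the leaves. -/

namespace Pool.Agent.Lib.MP_813db1_ag.VH.S8

open Pool.Agent.Lib.MP_813db1_ag.HS.E (LIso)
open Set Filter Topology Metric

namespace DevA

variable {Y G F W T : Type} [TopologicalSpace Y] [Group G] [MulAction G Y]
  [NormedAddCommGroup F] [NormedSpace ℝ F] [NormedAddCommGroup W] [NormedSpace ℂ W]
  [NormedSpace ℝ W] {P : LP Y G F W T} {f f' : F → Y} {z z' : F} {y y' y'' : W} {γ δ : G}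
  {k l m : P.κ} {U : Set F}

/-- the affine map of `γ`. -/
def af (P : LP Y G F W T) (γ : G) (z : F) : F := P.A γ z + P.c γ

theorem af_cont : Continuous (af P γ) := (P.A γ).continuous.add continuous_const

theorem af_mul (k : P.κ) (z : F) : af P (γ * δ) z = af P γ (af P δ z) := by
  have h := P.eqv (γ * δ) ((P.e k).symm 0)
  rw [mul_smul, P.eqv, P.eqv, map_mul, mul_apply_eq_comp, map_add, add_assoc, add_right_inj] at h
  rw [af, af, af, map_mul, mul_apply_eq_comp, map_add, add_assoc, h]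

theorem af_one (k : P.κ) (z : F) : af P 1 z = z := by
  have h := P.eqv 1 ((P.e k).symm 0)
  rw [one_smul, map_one, one_apply_eq_self, left_eq_add] at h
  rw [af, map_one, h, add_zero, one_apply_eq_self]

theorem mem_tgt : (z, y) ∈ (P.e l).target ↔ z ∈ ball (P.vc l) (P.vr l) ∧ y ∈ ball 0 (P.yr l) := by
  rw [P.tgt]
  rfl

theorem x_symm (h : (z, y) ∈ (P.e l).target) : P.x ((P.e l).symm (z, y)) = z := by
  rw [← P.fst l _ ((P.e l).map_target h), (P.e l).right_inv h]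

/-- near `z` the map `f` parametrises a plaque of the chart `l`, moved by `γ`. -/
def LF (P : LP Y G F W T) (f : F → Y) (z : F) (γ : G) (l : P.κ) : Prop :=
  ∃ y, (af P γ z, y) ∈ (P.e l).target ∧ ∀ᶠ ζ in 𝓝 z, γ • f ζ = (P.e l).symm (af P γ ζ, y)

/-- `f` parametrises a leaf. -/
def LM (P : LP Y G F W T) (f : F → Y) (U : Set F) : Prop := ∀ z ∈ U, ∃ γ l, LF P f z γ l

theorem near (h : (af P γ z, y) ∈ (P.e l).target) : ∀ᶠ ζ in 𝓝 z, (af P γ ζ, y) ∈ (P.e l).target :=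
  (af_cont.prodMk continuous_const).continuousAt.eventually_mem ((P.e l).open_target.mem_nhds h)

theorem LF.src (h : LF P f z γ l) : γ • f z ∈ (P.e l).source := by
  obtain ⟨y, h1, h3⟩ := h
  rw [h3.self_of_nhds]
  exact (P.e l).map_target h1

theorem LF.x (h : LF P f z γ l) : ∀ᶠ ζ in 𝓝 z, P.x (f ζ) = ζ := by
  obtain ⟨y, h1, h3⟩ := h
  filter_upwards [h3, near h1] with ζ a b
  rw [← inv_smul_smul γ (f ζ), P.eqv, a, x_symm b]
  exact (af_mul l ζ).symm.trans (by rw [inv_mul_cancel, af_one l])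

theorem LF.H (h : LF P f z γ l) : ∀ᶠ ζ in 𝓝 z, P.H (f ζ) = P.H (f z) := by
  obtain ⟨y, h1, h3⟩ := h
  filter_upwards [h3, near h1] with ζ a b
  rw [← inv_smul_smul γ (f ζ), ← inv_smul_smul γ (f z), a, h3.self_of_nhds]
  exact P.Hc _ l _ (mem_tgt.1 b).1 _ (mem_tgt.1 h1).1 _ (mem_tgt.1 h1).2

theorem LF.congr (h : LF P f z γ l) (e : f' =ᶠ[𝓝 z] f) : LF P f' z γ l := by
  obtain ⟨y, h1, h3⟩ := h
  exact ⟨y, h1, (h3.and e).mono fun ζ a => by rw [a.2, a.1]⟩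

theorem LM.mot (h : LM P f univ) (δ : G) : LM P (fun ζ => δ⁻¹ • f (af P δ ζ)) univ := by
  intro z _
  obtain ⟨γ, l, y, h1, h3⟩ := h (af P δ z) trivial
  refine ⟨γ * δ, l, y, by rwa [af_mul l], (af_cont.continuousAt.eventually h3).mono fun ζ a => ?_⟩
  rw [mul_smul, smul_inv_smul, af_mul l, a]

theorem LM.H (h : LM P f U) (hU : IsPreconnected U) (hz : z ∈ U) (hz' : z' ∈ U) :
    P.H (f z) = P.H (f z') :=
  hU.induction₂' (fun a b => P.H (f a) = P.H (f b)) (fun a ha => by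
    obtain ⟨γ, l, b⟩ := h a ha
    exact (b.H.mono fun _ c => ⟨c.symm, c⟩).filter_mono nhdsWithin_le_nhds)
    (fun _ _ _ _ _ _ => Eq.trans) hz hz'

theorem glue {κ : Type} (f0 : F → Y) (U : κ → Set F) (f : κ → F → Y) (hU : ∀ i, IsOpen (U i))
    (h : ∀ i, LM P (f i) (U i)) (hc : ∀ i j, ∀ z ∈ U i, z ∈ U j → f i z = f j z) :
    ∃ Φ, LM P Φ (⋃ i, U i) ∧ ∀ i, ∀ z ∈ U i, Φ z = f i z := by
  classical
  have e : ∀ i, ∀ z ∈ U i, (fun z => if k : ∃ i, z ∈ U i then f k.choose z else f0 z) =ᶠ[𝓝 z] f i :=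
    fun i z hz => mem_of_superset ((hU i).mem_nhds hz) fun w hw =>
      (dif_pos ⟨i, hw⟩).trans (hc _ _ w (Exists.choose_spec (⟨i, hw⟩ : ∃ i, w ∈ U i)) hw)
  refine ⟨_, fun z hz => ?_, fun i z hz => (e i z hz).eq_of_nhds⟩
  obtain ⟨i, hi⟩ := mem_iUnion.1 hz
  exact (h i z hi).imp fun _ a => a.imp fun _ a => a.congr (e i z hi)

theorem leb (P : LP Y G F W T) (t : T) : ∃ r > 0, ∀ q, P.H q = t → ∃ (γ : G) (l : P.κ),
    γ • q ∈ (P.e l).source ∧ ∀ v ∈ ball (P.x q) r, af P γ v ∈ ball (P.vc l) (P.vr l) := by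
  have := P.fin
  obtain ⟨θ, hθ, h1⟩ := P.cov
  obtain ⟨C, h2⟩ := P.bd t
  obtain ⟨μ, m1, m0⟩ := ((eventually_all.2 fun k => (ge_mem_nhds (P.vpos k) :
    ∀ᶠ μ in 𝓝 (0 : ℝ), μ ≤ P.vr k)).filter_mono (nhdsWithin_le_nhds (s := Ioi 0)) |>.and
    self_mem_nhdsWithin).exists
  have c0 : 0 < max C 1 := by positivity
  refine ⟨(1 - θ) * μ / max C 1, div_pos (mul_pos (sub_pos.2 hθ) m0) c0, fun q hq => ?_⟩
  obtain ⟨γ, l, a1, a2, -⟩ := h1 q
  refine ⟨γ, l, a1, fun v hv => ?_⟩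
  rw [P.fst l _ a1, P.eqv] at a2
  have a3 : dist (af P γ v) (P.A γ (P.x q) + P.c γ) ≤ max C 1 * dist v (P.x q) := by
    rw [af, dist_add_right, dist_eq_norm, dist_eq_norm, ← map_sub]
    exact (P.A γ).le_of_opNorm_le ((h2 q γ l hq a1).trans (le_max_left _ _)) _
  have a4 := (lt_div_iff₀' c0).1 (mem_ball.1 hv)
  have a5 := mul_le_mul_of_nonneg_left (m1 l) (sub_pos.2 hθ).le
  exact (dist_triangle _ (P.A γ (P.x q) + P.c γ) _).trans_lt (by linarith)

variable [ContinuousConstSMul G Y]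

theorem LF.cont (h : LF P f z γ l) : ContinuousAt f z := by
  obtain ⟨y, h1, h3⟩ := h
  exact ((((P.e l).continuousAt_symm h1).comp (f := fun ζ => (af P γ ζ, y))
    (af_cont.continuousAt.prodMk continuousAt_const)).const_smul γ⁻¹).congr
    (h3.mono fun ζ a => inv_smul_eq_iff.2 a.symm)

theorem LF.chg (h : LF P f z γ l) (h' : δ • f z ∈ (P.e m).source) : LF P f z δ m := by
  obtain ⟨φ, -, e⟩ := P.tr l m (δ * γ⁻¹) _ h.src (by rwa [mul_smul, inv_smul_smul])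
  have c := h.cont
  have hx := h.x
  obtain ⟨y, h1, h3⟩ := h
  have k : ∀ᶠ ζ in 𝓝 z, δ • f ζ ∈ (P.e m).source ∧ P.e m (δ • f ζ) = (af P δ ζ, φ y) := by
    filter_upwards [(c.const_smul γ).eventually e,
      (c.const_smul δ).eventually_mem ((P.e m).open_source.mem_nhds h'), h3, near h1, hx]
      with ζ a1 a2 a3 a4 a5
    simp only [Pi.smul_apply] at a1 a2
    rw [mul_smul, inv_smul_smul, a3, (P.e l).right_inv a4] at a1
    exact ⟨a2, Prod.ext (by rw [P.fst m _ a2, P.eqv, a5]; rfl) a1⟩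
  exact ⟨φ y, k.self_of_nhds.2 ▸ (P.e m).map_source h',
    k.mono fun ζ a => by rw [← a.2, (P.e m).left_inv a.1]⟩

variable [T2Space Y]

theorem ident (h : LM P f U) (h' : LM P f' U) (hU : IsPreconnected U) (hz : z ∈ U)
    (e : f z = f' z) : ∀ z ∈ U, f z = f' z := fun w hw =>
  hU.induction₂' (fun a b => f a = f' a → f b = f' b) (fun a ha => by
    obtain ⟨γ, l, b⟩ := h a ha
    obtain ⟨γ', l', b'⟩ := h' a ha
    refine Eventually.filter_mono nhdsWithin_le_nhds ?_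
    by_cases e0 : f a = f' a
    · obtain ⟨y', b1, b3⟩ := b'.chg (e0 ▸ b.src)
      obtain ⟨y, a1, a3⟩ := b
      obtain rfl : y = y' := congrArg Prod.snd ((P.e l).symm.injOn a1 b1
        (a3.self_of_nhds.symm.trans (e0 ▸ b3.self_of_nhds)))
      exact (a3.and b3).mono fun ζ c => ⟨fun _ => MulAction.injective γ (c.1.trans c.2.symm),
        fun _ => e0⟩
    · exact ((b.cont.prodMk b'.cont).eventually_mem (isClosed_diagonal.isOpen_compl.mem_nhds
        e0)).mono fun ζ c => ⟨fun e => absurd e e0, fun e => absurd e c⟩)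
    (fun _ _ _ _ _ _ a b c => b (a c)) hz hw e

theorem extend {r : ℝ} (r0 : 0 < r) {t : T} (hr : ∀ q, P.H q = t → ∃ (γ : G) (l : P.κ),
    γ • q ∈ (P.e l).source ∧ ∀ v ∈ ball (P.x q) r, af P γ v ∈ ball (P.vc l) (P.vr l)) {c : F}
    {R : ℝ} (R0 : 0 < R) (h : LM P f (ball c R)) (ht : P.H (f c) = t) :
    ∃ Φ, LM P Φ (ball c (R + r)) ∧ Φ c = f c := by
  have loc : ∀ z : ball c R, ∃ Φ, LM P Φ (ball z r) ∧ Φ z = f z := by
    intro z
    obtain ⟨γ, l, l1, l2⟩ := hr (f z)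
      ((h.H (convex_ball _ _).isPreconnected z.2 (mem_ball_self R0)).trans ht)
    obtain ⟨γ', l', a⟩ := h z z.2
    rw [a.x.self_of_nhds] at l2
    obtain ⟨y, a1, a3⟩ := a.chg l1
    exact ⟨fun ζ => γ⁻¹ • (P.e l).symm (af P γ ζ, y), fun w hw => ⟨γ, l, y,
      mem_tgt.2 ⟨l2 w hw, (mem_tgt.1 a1).2⟩, Eventually.of_forall fun _ => smul_inv_smul _ _⟩,
      inv_smul_eq_iff.2 a3.self_of_nhds.symm⟩
  choose Φ hF eF using loc
  have e1 : ∀ z : ball c R, ∀ w ∈ ball (z : F) r ∩ ball c R, Φ z w = f w := fun z =>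
    ident (fun w hw => hF z w hw.1) (fun w hw => h w hw.2)
      ((convex_ball _ _).inter (convex_ball _ _)).isPreconnected ⟨mem_ball_self r0, z.2⟩ (eF z)
  obtain ⟨Θ, g1, g2⟩ := glue f (fun z : ball c R => ball (z : F) r) Φ (fun _ => isOpen_ball) hF (by
    intro z w u hz hw
    have d : dist (z : F) w < r + r := (dist_triangle_left _ _ u).trans_lt (add_lt_add hz hw)
    have m1 : midpoint ℝ (z : F) w ∈ ball (z : F) r := by
      rw [mem_ball, dist_midpoint_left, Real.norm_two]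
      linarith
    have m2 : midpoint ℝ (z : F) w ∈ ball (w : F) r := by
      rw [mem_ball, dist_midpoint_right, Real.norm_two]
      linarith
    have m3 := (convex_ball c R).midpoint_mem z.2 w.2
    exact ident (fun w hw => hF z w hw.1) (fun v hv => hF w v hv.2)
      ((convex_ball _ _).inter (convex_ball _ _)).isPreconnected ⟨m1, m2⟩
      (by rw [e1 z _ ⟨m1, m3⟩, e1 w _ ⟨m2, m3⟩]) u ⟨hz, hw⟩)
  refine ⟨Θ, fun z hz => g1 z ?_, (g2 ⟨c, mem_ball_self R0⟩ c (mem_ball_self r0)).trans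
    (eF ⟨c, mem_ball_self R0⟩)⟩
  obtain ⟨w, w1, w2⟩ := exists_dist_lt_lt r0 R0 hz
  exact mem_iUnion.2 ⟨⟨w, w2⟩, w1⟩

theorem glob (k : P.κ) (hy : y ∈ ball 0 (P.yr k)) :
    ∃ Φ, LM P Φ univ ∧ ∀ z ∈ ball (P.vc k) (P.vr k), Φ z = (P.e k).symm (z, y) := by
  obtain ⟨r, r0, hr⟩ := leb P (P.H ((P.e k).symm (P.vc k, y)))
  have R0 := P.vpos k
  have l0 : LM P (fun z => (P.e k).symm (z, y)) (ball (P.vc k) (P.vr k)) := fun z hz =>
    ⟨1, k, y, mem_tgt.2 ⟨by rwa [af_one k], hy⟩,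
      Eventually.of_forall fun _ => by rw [one_smul, af_one k]⟩
  have st : ∀ n : ℕ, ∃ Φ, LM P Φ (ball (P.vc k) (P.vr k + n * r)) ∧
      Φ (P.vc k) = (P.e k).symm (P.vc k, y) := by
    intro n
    induction n with
    | zero => exact ⟨_, fun z hz => l0 z (by simpa using hz), rfl⟩
    | succ n ih =>
      obtain ⟨Φ, f1, f2⟩ := ih
      obtain ⟨Θ, g1, g2⟩ := extend r0 hr (by positivity) f1 (by rw [f2])
      exact ⟨Θ, by rwa [Nat.cast_succ, add_mul, one_mul, ← add_assoc], g2.trans f2⟩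
  choose Φ f1 f2 using st
  have c0 : ∀ n : ℕ, P.vc k ∈ ball (P.vc k) (P.vr k + n * r) := fun n =>
    mem_ball_self (by positivity)
  obtain ⟨Θ, g1, g2⟩ := glue (Φ 0) _ Φ (fun _ => isOpen_ball) f1 fun i j z hi hj =>
    ident (fun w hw => f1 i w hw.1) (fun w hw => f1 j w hw.2)
      ((convex_ball _ _).inter (convex_ball _ _)).isPreconnected ⟨c0 i, c0 j⟩
      ((f2 i).trans (f2 j).symm) z ⟨hi, hj⟩
  have g3 : LM P Θ univ := fun z _ => g1 z (by
    obtain ⟨n, hn⟩ := exists_nat_gt (dist z (P.vc k) / r)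
    rw [div_lt_iff₀ r0] at hn
    exact mem_iUnion.2 ⟨n, by rw [mem_ball]; linarith⟩)
  exact ⟨Θ, g3, ident (fun z _ => g3 z trivial) l0 (convex_ball _ _).isPreconnected
    (mem_ball_self R0) ((g2 0 _ (c0 0)).trans (f2 0))⟩

variable {Ψ : P.κ → F → W → Y}

/-- one direction of the leaf relation. -/
def R1 (P : LP Y G F W T) (Ψ : P.κ → F → W → Y) (k l : P.κ) (γ : G) (y y' : W) : Prop :=
  ∃ φ, φ y = y' ∧ LIso (P.g k) (P.g l) φ y ∧
    ∀ᶠ w in 𝓝 y, ∀ ζ, Ψ l (af P γ ζ) (φ w) = γ • Ψ k ζ w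

omit [ContinuousConstSMul G Y] [T2Space Y]

theorem R1.refl (k : P.κ) (y : W) : R1 P Ψ k k 1 y y :=
  ⟨_, rfl, LIso.id _ y, Eventually.of_forall fun _ _ => by rw [af_one k, one_smul]⟩

theorem R1.trans (h : R1 P Ψ k l γ y y') (h' : R1 P Ψ l m δ y' y'') : R1 P Ψ k m (δ * γ) y y'' := by
  obtain ⟨φ, rfl, a1, a2⟩ := h
  obtain ⟨ψ, rfl, b1, b2⟩ := h'
  refine ⟨_, rfl, a1.comp b1, ?_⟩
  filter_upwards [a2, a1.cont.eventually b2] with w w1 w2 ζ
  rw [af_mul k, mul_smul, ← w1 ζ]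
  exact w2 _

theorem R1.eq (h : R1 P Ψ k l γ y y') (ζ : F) : Ψ l (af P γ ζ) y' = γ • Ψ k ζ y := by
  obtain ⟨φ, rfl, -, a2⟩ := h
  exact a2.self_of_nhds ζ

variable [ContinuousConstSMul G Y] [T2Space Y]
  (h1 : ∀ k, ∀ y ∈ ball 0 (P.yr k), LM P (fun z => Ψ k z y) univ)
  (h2 : ∀ k z y, (z, y) ∈ (P.e k).target → Ψ k z y = (P.e k).symm (z, y))
include h1 h2

theorem base (a : (z, y) ∈ (P.e k).target) (a' : (z', y') ∈ (P.e l).target)
    (e : γ • Ψ k z y = Ψ l z' y') : R1 P Ψ k l γ y y' := by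
  rw [h2 _ _ _ a, h2 _ _ _ a'] at e
  have s' : γ • (P.e k).symm (z, y) ∈ (P.e l).source := e ▸ (P.e l).map_target a'
  obtain ⟨φ, a1, a2⟩ := P.tr k l γ _ ((P.e k).map_target a) s'
  have c0 : ContinuousAt (fun w : W => (z, w)) y := continuousAt_const.prodMk continuousAt_id
  have c := ((P.e k).continuousAt_symm a).comp (f := fun w : W => (z, w)) c0
  have a3 := a2.self_of_nhds
  rw [(P.e k).right_inv a] at a1 a3
  rw [e, (P.e l).right_inv a'] at a3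
  refine ⟨φ, a3.symm, a1, ?_⟩
  filter_upwards [c.eventually a2, (c.const_smul γ).eventually_mem
    ((P.e l).open_source.mem_nhds s'), c0.eventually_mem ((P.e k).open_target.mem_nhds a)]
    with w p1 p2 p3 ζ
  simp only [Function.comp, Pi.smul_apply] at p1 p2
  rw [(P.e k).right_inv p3] at p1
  have p4 : P.e l (γ • (P.e k).symm (z, w)) = (af P γ z, φ w) :=
    Prod.ext (by rw [P.fst l _ p2, P.eqv, x_symm p3]; rfl) p1
  have p5 := p4 ▸ (P.e l).map_source p2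
  exact inv_smul_eq_iff.1 (ident ((h1 l _ (mem_tgt.1 p5).2).mot γ) (h1 k _ (mem_tgt.1 p3).2)
    (convex_univ (𝕜 := ℝ)).isPreconnected (mem_univ z) (inv_smul_eq_iff.2 (by
      rw [h2 _ _ _ p5, h2 _ _ _ p3, ← p4, (P.e l).left_inv p2])) ζ trivial)

theorem reach (k : P.κ) (hy : y ∈ ball 0 (P.yr k)) (z : F) : ∃ j γ v,
    (af P γ z, v) ∈ (P.e j).target ∧ R1 P Ψ k j γ y v ∧ R1 P Ψ j k γ⁻¹ v y := by
  refine (convex_univ (𝕜 := ℝ)).isPreconnected.subset_of_closure_inter_subset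
    (u := {z | ∃ j γ v, (af P γ z, v) ∈ (P.e j).target ∧ R1 P Ψ k j γ y v ∧ R1 P Ψ j k γ⁻¹ v y})
    (isOpen_iff_mem_nhds.2 fun z ⟨j, γ, v, a, b⟩ => (near a).mono fun _ c => ⟨j, γ, v, c, b⟩)
    ⟨P.vc k, trivial, k, 1, y, mem_tgt.2 ⟨by rw [af_one k]; exact mem_ball_self (P.vpos k), hy⟩,
      R1.refl k y, by rw [inv_one]; exact R1.refl k y⟩ (fun w hw => ?_) (mem_univ z)
  obtain ⟨δ, l, u, b1, b2⟩ := h1 k y hy w trivial
  obtain ⟨w', ⟨j, γ, v, a1, a2, a3⟩, c1, c2⟩ :=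
    ((mem_closure_iff_frequently.1 hw.1).and_eventually (b2.and (near b1))).exists
  have e : (δ * γ⁻¹) • Ψ j (af P γ w') v = Ψ l (af P δ w') u := by
    rw [a2.eq, mul_smul, inv_smul_smul, c1, h2 _ _ _ c2]
  have d1 := a2.trans (base h1 h2 a1 c2 e)
  have d2 := (base h1 h2 c2 a1 (inv_smul_eq_iff.2 e.symm)).trans a3
  rw [inv_mul_cancel_right] at d1
  rw [mul_inv_rev, inv_inv, inv_mul_cancel_left] at d2
  exact ⟨l, δ, u, b1, d1, d2⟩

end DevA

open DevA in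
theorem devS : DevS := by
  intro Y G F W T _ _ _ _ _ _ _ _ _ _ P
  have ex : ∀ k y, ∃ Φ : F → Y, y ∈ ball 0 (P.yr k) → LM P Φ univ ∧
      ∀ z ∈ ball (P.vc k) (P.vr k), Φ z = (P.e k).symm (z, y) := fun k y => by
    by_cases hy : y ∈ ball 0 (P.yr k)
    · exact (glob k hy).imp fun F h _ => h
    · exact ⟨fun z => (P.e k).symm (z, y), fun h => absurd h hy⟩
  choose Φ hF using ex
  obtain ⟨Ψ, hΨ⟩ : ∃ Ψ : P.κ → F → W → Y, ∀ k y, (fun z => Ψ k z y) = Φ k y :=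
    ⟨fun k z y => Φ k y z, fun _ _ => rfl⟩
  have h1 : ∀ k, ∀ y ∈ ball 0 (P.yr k), LM P (fun z => Ψ k z y) univ := fun k y hy =>
    hΨ k y ▸ (hF k y hy).1
  have h2 : ∀ k z y, (z, y) ∈ (P.e k).target → Ψ k z y = (P.e k).symm (z, y) := fun k z y h =>
    (congrFun (hΨ k y) z).trans ((hF k y (mem_tgt.1 h).2).2 z (mem_tgt.1 h).1)
  have hU := (convex_univ (𝕜 := ℝ) (E := F)).isPreconnected
  refine ⟨Ψ, fun k v hv w hw => h2 k v w (mem_tgt.2 ⟨hv, hw⟩), fun k v w hw => ?_,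
    fun k v v' w hw => (h1 k w hw).H hU trivial trivial, fun k p hp => ?_,
    fun k v w hw w' hw' e => ?_, fun k l γ v v' w hw w' hw' e => ?_, fun k v w hw => ?_⟩
  · obtain ⟨γ, l, a⟩ := h1 k w hw v trivial
    exact a.x.self_of_nhds
  · obtain ⟨j, γ, v, a1, ⟨φ, rfl, a2, a3⟩, -⟩ := reach h1 h2 k hp.2 p.1
    have c : ContinuousAt (fun q : F × W => (af P γ q.1, φ q.2)) p :=
      (af_cont.continuousAt.comp continuousAt_fst).prodMk (a2.cont.comp continuousAt_snd)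
    refine (((((P.e j).continuousAt_symm a1).comp
      (f := fun q : F × W => (af P γ q.1, φ q.2)) c).const_smul γ⁻¹).congr ?_).continuousWithinAt
    filter_upwards [c.eventually_mem ((P.e j).open_target.mem_nhds a1),
      continuousAt_snd.eventually a3] with q q1 q2
    exact inv_smul_eq_iff.2 ((h2 j _ _ q1).symm.trans (q2 q.1))
  · have a := mem_tgt.2 ⟨mem_ball_self (P.vpos k), hw⟩
    have a' := mem_tgt.2 ⟨mem_ball_self (P.vpos k), hw'⟩
    exact congrArg Prod.snd ((P.e k).symm.injOn a a' ((h2 _ _ _ a).symm.trans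
      ((ident (h1 k w hw) (h1 k w' hw') hU (mem_univ v) e _ trivial).trans (h2 _ _ _ a'))))
  · obtain ⟨j, α, u, a1, a2, -⟩ := reach h1 h2 k hw v
    obtain ⟨j', α', u', b1, b2, b3⟩ := reach h1 h2 l hw' v'
    have d := (a2.trans (base h1 h2 (γ := α' * γ * α⁻¹) a1 b1 (by
      rw [a2.eq, b2.eq, mul_smul, inv_smul_smul, mul_smul, e]))).trans b3
    rwa [inv_mul_cancel_right, inv_mul_cancel_left] at d
  · obtain ⟨j, γ, u, a1, a2, ψ, rfl, a3, a4⟩ := reach h1 h2 k hw v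
    have e : γ • Ψ k v (ψ u) = (P.e j).symm (af P γ v, u) := by rw [← a2.eq, h2 _ _ _ a1]
    have s : γ • Ψ k v (ψ u) ∈ (P.e j).source := e ▸ (P.e j).map_target a1
    have c0 : ContinuousAt (fun q : Y => γ • q) (Ψ k v (ψ u)) :=
      (continuous_const_smul γ).continuousAt
    have c : Tendsto (fun q : Y => (P.e j (γ • q)).2) (𝓝 (Ψ k v (ψ u))) (𝓝 u) := by
      have := (((P.e j).continuousAt s).comp (f := fun q : Y => γ • q) c0).snd.tendsto
      rwa [Function.comp_apply, e, (P.e j).right_inv a1] at this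
    filter_upwards [c0.eventually_mem ((P.e j).open_source.mem_nhds s), c.eventually a4,
      c.eventually (a3.cont.eventually_mem (isOpen_ball.mem_nhds hw))] with q q1 q2 q3
    refine ⟨_, _, q3, ((q2 (P.e j (γ • q)).1).trans ?_).symm⟩
    rw [h2 j (P.e j (γ • q)).1 (P.e j (γ • q)).2 ((P.e j).map_source q1), (P.e j).left_inv q1,
      inv_smul_smul]

end Pool.Agent.Lib.MP_813db1_ag.VH.S8
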