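import Pool.Agent.Lib.MP_813db1_ag.VH.S8.StL
import Pool.Agent.Lib.MP_813db1_ag.HS.E.Atl
import Pool.Agent.Lib.MP_813db1_ag.HS.E.Trv
import Pool.Agent.Lib.MP_caab05_ag.GB.Osg

/-! Hermitian and Riemannian language; maps which preserve transversal forms. -/

namespace Pool.Agent.Lib.MP_813db1_ag.VH.S8

open Pool.Agent.Lib.MP_813db1_ag.HS Pool.Agent.Lib.MP_813db1_ag.AS
open Complex Matrix Filter Topology Set Metric
open scoped ContDiff ComplexOrder

namespace Liso

variable {ι : Type} [Fintype ι] [DecidableEq ι]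

theorem ext_re {A B : Mat ι} (h : ∀ u v, (ipV A u v).re = (ipV B u v).re) : A = B := by
  ext i j
  have a := h (Pi.single i 1) (Pi.single j 1)
  have b := h (Pi.single i I) (Pi.single j 1)
  simp [AtlAux.ipV_eq, Pi.star_single] at a b
  exact Complex.ext a b

theorem ipV_bk {s : Finset ι} (B : Mat (Ta s)) (u v : V ι) :
    ipV (bk s 0 0 0 B) u v = ipV B (yp s u) (yp s v) := by
  rw [AtlAux.ipV_eq, AtlAux.ipV_eq, bk_mulVec, dotProduct, TrvAux.sum_red (s := s) _ fun p hp => by
    simp [glue, hp]]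
  exact Finset.sum_congr rfl fun p _ => by simp [glue, p.2, yp]; exact .inl rfl

theorem col {s : Finset ι} {B B' : Mat (Ta s)} {J : Mat ι} (hB : B'.PosDef)
    (h : bk s 0 0 0 B = pull J (bk s 0 0 0 B')) {v : V ι} (hv : yp s v = 0) :
    yp s (J *ᵥ v) = 0 := by
  by_contra hn
  have := AtlAux.ipV_pos hB hn
  rw [← ipV_bk, ← AtlAux.ipV_pull, ← h, ipV_bk, hv] at this
  simp [ipV] at this

theorem sub {s : Finset ι} {B B' : Mat (Ta s)} {J : Mat ι} {J' : Mat (Ta s)}
    (h : bk s 0 0 0 B = pull J (bk s 0 0 0 B')) (hJ : ∀ y, yp s (J *ᵥ glue s 0 y) = J' *ᵥ y) :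
    B = pull J' B' := ext_re fun u v => by
  rw [AtlAux.ipV_pull, ← hJ, ← hJ, ← ipV_bk, ← AtlAux.ipV_pull, ← h, ipV_bk, yp_glue, yp_glue]

end Liso

open Liso in
theorem lisoS : LisoS := fun τ _ _ β β' => ⟨fun _ h => AtlAux.met h subset_rfl, fun φ y =>
  ⟨fun h => ⟨by
    obtain ⟨U, hU, hUo, hy⟩ := _root_.eventually_nhds_iff.1 h
    exact MP_caab05_ag.GB.osg _ _ φ U hUo (fun w hw => (hU w hw).1.differentiableWithinAt) y hy,
    h.mono fun w hw => ext_re fun u v => by
      rw [AtlAux.ipV_pull, jac_mulVec, jac_mulVec]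
      exact (hw.2 u v).symm⟩,
  fun h => (h.1.eventually_analyticAt.and h.2).mono fun w hw => ⟨hw.1.differentiableAt,
    fun u v => by rw [rb_apply, rb_apply, hw.2, AtlAux.ipV_pull, jac_mulVec, jac_mulVec]⟩⟩⟩

open Liso in
theorem tvS : TvS := by
  intro ι _ _ s β β' T w hT h
  let Y : V ι →L[ℂ] V (Ta s) := ContinuousLinearMap.pi fun i => ContinuousLinearMap.proj i.1
  have hgl : AnalyticAt ℂ (fun y : YY s => glue s (zp s w) y) (yp s w) :=
    ((split s).symm.analyticAt _).comp (f := fun y : YY s => (WithLp.toLp 2 (zp s w), y))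
      (analyticAt_const.prod analyticAt_id)
  have hφ : AnalyticAt ℂ (fun y : YY s => yp s (T (glue s (zp s w) y))) (yp s w) :=
    (Y.analyticAt _).comp (AnalyticAt.comp_of_eq hT hgl (glue_zp_yp s w))
  have hev : ∀ᶠ u in 𝓝 w, yp s (T u) = yp s (T (glue s (zp s w) (yp s u))) := by
    obtain ⟨ε, hε, hb⟩ := Metric.eventually_nhds_iff_ball.1 (hT.eventually_analyticAt.and h)
    filter_upwards [ball_mem_nhds w hε] with u hu
    have h0 : glue s (zp s w) (yp s u) ∈ ball w ε := (dist_pi_lt_iff hε).2 fun i => by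
      by_cases hi : i ∈ s
      · simpa [glue, hi, zp] using hε
      · simpa [glue, hi, yp] using (dist_pi_lt_iff hε).1 hu i
    have d : ∀ t ∈ Icc (0 : ℝ) 1, HasDerivAt
        (fun t : ℝ => Y (T (AffineMap.lineMap (glue s (zp s w) (yp s u)) u t))) 0 t := fun t ht => by
      obtain ⟨h1, h2, h3⟩ := hb _ ((convex_ball w ε).lineMap_mem h0 hu ht)
      refine ((((Y.hasFDerivAt.comp _ h1.differentiableAt.hasFDerivAt).restrictScalars
        ℝ).comp_hasDerivAt t AffineMap.hasDerivAt_lineMap)).congr_deriv ?_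
      refine Eq.trans (congrArg Y (jac_mulVec T _ _).symm) (col h2 h3 ?_)
      exact sub_eq_zero.2 (yp_glue s _ _).symm
    have := constant_of_has_deriv_right_zero
      (fun t ht => (d t ht).continuousAt.continuousWithinAt)
      (fun t ht => (d t (Ico_subset_Icc_self ht)).hasDerivWithinAt) 1 ⟨zero_le_one, le_rfl⟩
    rwa [AffineMap.lineMap_apply_one, AffineMap.lineMap_apply_zero] at this
  refine ⟨_, hφ, hev, ?_⟩
  have hg : Tendsto (fun y : YY s => glue s (zp s w) y) (𝓝 (yp s w)) (𝓝 w) := by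
    have := hgl.continuousAt.tendsto
    rwa [glue_zp_yp] at this
  filter_upwards [hg.eventually ((hT.eventually_analyticAt.and h).and hev.eventually_nhds),
    hφ.eventually_analyticAt] with y ⟨⟨h1, _, h3⟩, h4⟩ h5
  have e := TrvAux.jac_sub h1.differentiableAt (by rw [yp_glue]; exact h5.differentiableAt) h4
  rw [yp_glue] at e h3
  refine sub h3 fun v => funext fun p => ?_
  rw [← e]
  exact (TrvAux.sum_red (s := s) _ fun q hq => by simp [glue, hq]).trans
    (Finset.sum_congr rfl fun q _ => by simp [glue, q.2])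

end Pool.Agent.Lib.MP_813db1_ag.VH.S8
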