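import Pool.Agent.Lib.MP_813db1_ag.VH.S8.StL
import Pool.Agent.Lib.MP_813db1_ag.HS.Rows

/-! The form of the affine coordinate on the model. -/

namespace Pool.Agent.Lib.MP_813db1_ag.VH.S8

open Pool.Agent.Lib.MP_813db1_ag.HS Pool.Agent.Lib.MP_813db1_ag.AS
open Complex Matrix Filter Topology Set Metric
open scoped ContDiff ComplexOrder

namespace ModAux

section alg

variable {r σ : Type} [Fintype r] [DecidableEq r] [Fintype σ] [DecidableEq σ] {Q H : Mat r}
  {L : Matrix r σ ℂ}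

theorem proj (h : Alg Q L H) (v : V r) :
    (1 - I • jM Q H) *ᵥ v = ((1 - I • jM Q H) * L) *ᵥ (zM Q L H *ᵥ v) := by
  have e := h.pe
  rw [Matrix.mul_sub, Matrix.mul_one, sub_eq_zero] at e
  rw [mulVec_mulVec, Matrix.mul_assoc, ← e]

theorem eig (h : Alg Q L H) {v : V r} (hv : zM Q L H *ᵥ star v = 0) :
    v = ((1 / 2 : ℂ) • ((1 - I • jM Q H) * L)) *ᵥ (zM Q L H *ᵥ v) := by
  have e := proj h (star v)
  rw [hv, mulVec_zero, sub_mulVec, one_mulVec, smul_mulVec, ← h.reJ.star_mulVec] at e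
  have e' := congrArg star e
  rw [star_sub, star_star, star_smul, star_star, star_I, star_zero, neg_smul, sub_eq_zero] at e'
  rw [smul_mulVec, ← proj h, sub_mulVec, one_mulVec, smul_mulVec, sub_eq_add_neg, ← e',
    ← two_smul ℂ, smul_smul]
  simp

theorem gram (hL : Lag Q L) (h : Alg Q L H) :
    ((1 / 2 : ℂ) • ((1 - I • jM Q H) * L))ᵀ * H * ((1 / 2 : ℂ) • ((1 - I • jM Q H) * L)).map star =
      (1 / 2 : ℂ) • muM L H := by
  have e : ((1 / 2 : ℂ) • ((1 - I • jM Q H) * L)).map star =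
      (1 / 2 : ℂ) • ((1 + I • jM Q H) * L) := by
    ext i j
    have e1 : ∀ a b, star (jM Q H a b) = jM Q H a b := fun a b => congrFun₂ h.reJ a b
    have e2 : ∀ a b, star (L a b) = L a b := fun a b => congrFun₂ hL.reL a b
    simp only [map_apply, Matrix.smul_apply, smul_eq_mul, mul_apply, star_mul', star_sum,
      Matrix.sub_apply, Matrix.add_apply, star_sub, e1, e2, star_I, one_apply, apply_ite star,
      star_one, star_zero, neg_mul, sub_neg_eq_add, star_div₀, star_ofNat]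
  have e' : (1 - I • jM Q H)ᵀ * H * (1 + I • jM Q H) = (2 : ℂ) • H + (2 * I) • Q := by
    simp only [transpose_sub, transpose_one, transpose_smul, Matrix.sub_mul, Matrix.mul_add,
      Matrix.one_mul, Matrix.mul_one, Matrix.smul_mul, Matrix.mul_smul, h.jh, h.hj, Matrix.neg_mul,
      h.qj, smul_sub, smul_smul, smul_neg, I_mul_I, neg_neg]
    module
  rw [e, transpose_smul, transpose_mul, Matrix.smul_mul, Matrix.smul_mul, Matrix.mul_smul,
    Matrix.mul_assoc Lᵀ, ← Matrix.mul_assoc _ _ L, Matrix.mul_assoc Lᵀ, e', Matrix.mul_add,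
    Matrix.add_mul, Matrix.mul_smul, Matrix.mul_smul, Matrix.smul_mul, Matrix.smul_mul, hL.iso,
    smul_zero, add_zero, muM, smul_smul (1 / 2 : ℂ) 2]
  simp

theorem ip_eq (hL : Lag Q L) (h : Alg Q L H) {u v : V r} (hu : zM Q L H *ᵥ star u = 0)
    (hv : zM Q L H *ᵥ star v = 0) : ipV H u v =
      (zM Q L H *ᵥ u) ⬝ᵥ ((1 / 2 : ℂ) • muM L H) *ᵥ star (zM Q L H *ᵥ v) := by
  rw [← gram hL h]
  conv_lhs => rw [eig h hu, eig h hv, ipV_eq]
  rw [star_mulVec, ← mulVec_transpose, ← mulVec_mulVec, ← mulVec_mulVec, dotProduct_mulVec _ _ᵀ,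
    vecMul_transpose]
  rfl

end alg

variable {ι r : Type} [Fintype ι] [DecidableEq ι] [Fintype r] [DecidableEq r] {s : Finset ι}

theorem pull_bk (a : Matrix (Sg' s) (Ta s) ℂ) (M : Mat (Sg' s)) (β : Mat (Ta s)) :
    pull (bk s 1 a 0 1) (bk s M 0 0 β) = (Matrix.of fun i j =>
      (fun l : Sg' s => bk s 1 a 0 1 l i) ⬝ᵥ M *ᵥ star fun l : Sg' s => bk s 1 a 0 1 l j) +
        bk s 0 0 0 β := by
  have e : pull (bk s 1 a 0 1) (bk s M 0 0 β) =
      bk s M (M * a.map star) (aᵀ * M) (aᵀ * (M * a.map star)) + bk s 0 0 0 β := by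
    rw [pull, bk_star]
    simp [bk_tr, bk_mul, bk_add, Matrix.mul_assoc]
  rw [e]
  congr 1
  refine bk_ext (s := s) ?_ ?_ ?_ ?_ <;> intro i j <;>
    simp [bk11, bk12, bk21, bk22, dotProduct, mulVec, mul_apply, one_apply]

theorem smY {σ τ : Type} {F : V (Ta s) → Matrix σ τ ℂ} {w : V ι} (h : SmR F (yp s w)) :
    SmR (fun u => F (yp s u)) w := fun i j =>
  ContDiffAt.comp (f := RowsH.ypL s) w (h i j) (RowsH.ypL s).contDiff.contDiffAt

end ModAux

open ModAux in
theorem modS (ι r : Type) [Fintype ι] [DecidableEq ι] [Fintype r] [DecidableEq r] (hA : AlgS) :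
    ModS ι r := by
  intro s Q L H R h w hw
  have al := fun y hy => hA r _ Q L (H y) h.lag (h.sg y hy)
  have hJ : SmR (fun u => jM Q (H (yp s u)) * L) w :=
    smY (F := fun y => jM Q (H y) * L)
      ((((h.sm _ hw).inv (h.sg _ hw).pos.det_pos.ne').mul (SmR.const Q)).mul (SmR.const L))
  have hx : SmV (xm s Q L H) w :=
    ((SmR.const L).mulVec fun i => ofRealCLM.contDiff.contDiffAt.comp w
      (reCLM.contDiff.contDiffAt.comp w (contDiffAt_apply ℝ ℂ i.1 w))).add
    (hJ.mulVec fun i => ofRealCLM.contDiff.contDiffAt.comp w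
      (imCLM.contDiff.contDiffAt.comp w (contDiffAt_apply ℝ ℂ i.1 w)))
  refine ⟨hx, fun β => ?_⟩
  have ev : ∀ᶠ u in 𝓝 w, yp s u ∈ ball (0 : V (Ta s)) R :=
    (RowsH.ypL s).continuous.continuousAt.eventually (isOpen_ball.mem_nhds hw)
  have hd := fun i j => (h.an _ hw i j).differentiableAt
  have hZ : DfR (fun u => zM Q L (H (yp s u))) w := fun i j =>
    DifferentiableAt.comp (f := RowsH.ypL s) w ((hd i j).restrictScalars ℝ)
      (RowsH.ypL s).differentiableAt
  have e : (fun u => zM Q L (H (yp s u)) *ᵥ xm s Q L H u) =ᶠ[𝓝 w] zp s :=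
    ev.mono fun u hu => (al _ hu).zx _
  have e1 : ∀ k, zM Q L (H (yp s w)) *ᵥ star (dV (xm s Q L H) k w) = 0 := fun k => by
    have h1 := (dVb_mulVec hZ hx.df k).symm.trans (dVb_congr e k)
    have h2 : dRb (fun u => zM Q L (H (yp s u))) k w = 0 := Matrix.ext fun i j => by
      rw [dRb_apply, (RowsH.der1 s ((hd i j).restrictScalars ℝ) k).2]
      split_ifs
      exacts [rfl, dzb_hol (hd i j) _]
    rw [h2, zero_mulVec, zero_add,
      dVb_real (x := xm s Q L H) (ev.mono fun u hu => (al _ hu).rx _)] at h1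
    exact h1.trans (funext fun i => dzb_coord i.1 k w)
  have e2 : ∀ k, zM Q L (H (yp s w)) *ᵥ dV (xm s Q L H) k w = fun l : Sg' s => tM s Q L H w l k :=
    fun k => by
    have h1 := (dV_mulVec hZ hx.df k).symm.trans (dV_congr e k)
    have h2 := fun i j => (RowsH.der1 s ((hd i j).restrictScalars ℝ) k).1
    rw [eq_sub_of_add_eq' h1]
    funext l
    have h3 : dV (zp s) k w l = if l.1 = k then 1 else 0 := dz_coord l.1 k w
    rw [Pi.sub_apply, h3]
    by_cases hk : k ∈ s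
    · rw [show dR (fun u => zM Q L (H (yp s u))) k w = 0 from
        Matrix.ext fun i j => (h2 i j).trans (dif_pos hk), zero_mulVec, Pi.zero_apply, sub_zero]
      refine Eq.trans ?_ (bk11 _ _ _ _ l ⟨k, hk⟩).symm
      simp only [one_apply, Subtype.ext_iff]
    · rw [show dR (fun u => zM Q L (H (yp s u))) k w = dR (fun y => zM Q L (H y)) ⟨k, hk⟩ (yp s w)
        from Matrix.ext fun i j => (h2 i j).trans (dif_neg hk),
        if_neg fun q : l.1 = k => hk (q ▸ l.2), zero_sub]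
      exact Eq.trans rfl (bk12 _ (Matrix.of fun i j =>
        -(dR (fun y => zM Q L (H y)) j (yp s w) *ᵥ xm s Q L H w) i) _ _ l ⟨k, hk⟩).symm
  rw [gM, tM, pull_bk]
  congr 1
  ext i j
  rw [xiL, of_apply, of_apply, ip_eq h.lag (al _ hw) (e1 i) (e1 j), e2, e2]
  rfl

end Pool.Agent.Lib.MP_813db1_ag.VH.S8
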