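import Pool.Agent.Lib.MP_813db1_ag.VH.S8.Fb
import Pool.Agent.Lib.MP_813db1_ag.VH.S8.Dev
import Pool.Agent.Lib.MP_813db1_ag.VH.S8.Liso
import Pool.Agent.Lib.MP_813db1_ag.VH.S8.Mod
import Pool.Agent.Lib.MP_813db1_ag.VH.S8.Alg
import Pool.Agent.Lib.MP_813db1_ag.VH.S8.Tr
import Pool.Agent.Lib.MP_813db1_ag.VH.S8.Pb

/-! Adapted charts develop along the leaves. -/

namespace Pool.Agent.Lib.MP_813db1_ag.VH.S8

open Pool.Agent.Lib.MP_813db1_ag.HS Pool.Agent.Lib.MP_813db1_ag.AS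
open Complex Matrix Filter Topology Set Metric
open scoped ContDiff ComplexOrder

variable {ι X Y G r : Type} [Fintype ι] [DecidableEq ι] [TopologicalSpace X] [TopologicalSpace Y]
  [Group G] [MulAction G Y] [Fintype r] [DecidableEq r] {M : Atl ι X} {p : Y → X}
  {E : Dt M p G r} {Q : Mat r} {c : G → V r} {x : Y → V r} {h ξ : X → Mat ι}

namespace FbA

theorem t2 [T2Space X] (hq : IsQuotientCoveringMap p G) : T2Space Y := ⟨fun a b hab => by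
  by_cases h : p a = p b
  · exact hq.isCoveringMap.isSeparatedMap a b h hab
  · exact separated_by_continuous hq.isCoveringMap.continuous h⟩

theorem real_c (hS : E.Spl Q c x h ξ) (q : Y) (γ : G) : star (c γ) = c γ := by
  have e : c γ = x (γ • q) - E.ρ γ *ᵥ x q := by rw [hS.aff.2, add_sub_cancel_left]
  rw [e, star_sub, hS.pol.rx, Rl.star_mulVec (E.reR γ), hS.pol.rx]

variable {s : Finset ι} {L : Matrix r (Sg' s) ℂ} {A : Ac E Q c x h s L}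
  {Ψ : A.P.κ → (r → ℝ) → V (Ta s) → Y}

theorem hH (D : Dv A.P Ψ) (k : A.P.κ) (v : r → ℝ) (y : V (Ta s)) (hy : y ∈ ball 0 (A.P.yr k)) :
    E.H (Ψ k v y) = A.H k y := by
  have hv := mem_ball_self (x := A.P.vc k) (A.P.vpos k)
  rw [← A.eH, D.H k v _ y hy, D.box k _ hv y hy, A.eH]
  exact (A.box k _ hv y hy).2.2.1

theorem pt (D : Dv A.P Ψ) {l : A.P.κ} {q : Y} (hq : q ∈ (A.P.e l).source) :
    (A.P.e l q).1 ∈ ball (A.P.vc l) (A.P.vr l) ∧ (A.P.e l q).2 ∈ ball 0 (A.P.yr l) ∧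
      q = Ψ l (A.P.e l q).1 (A.P.e l q).2 := by
  have h1 := (A.P.e l).map_source hq
  rw [A.P.tgt] at h1
  exact ⟨h1.1, h1.2, by rw [D.box l _ h1.1 _ h1.2, (A.P.e l).left_inv hq]⟩

theorem key (hA : AlgS) (hT : TrS ι r) (hP : PbS M) (hq : IsQuotientCoveringMap p G)
    (hS : E.Spl Q c x h ξ) (D : Dv A.P Ψ) (k : A.P.κ) (w : V ι)
    (hw : yp s w ∈ ball 0 (A.P.yr k)) :
    Lh M (fun u => p (Ψ k (rv (xm s Q L (A.H k) u)) (yp s u))) w ∧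
      pbF M h (fun u => p (Ψ k (rv (xm s Q L (A.H k) u)) (yp s u))) w =
        gM s Q L (A.H k) (A.β k) w := by
  obtain ⟨θ, -, hc⟩ := A.P.cov
  obtain ⟨γ, l, hl, -⟩ := hc (Ψ k (rv (xm s Q L (A.H k) w)) (yp s w))
  obtain ⟨hv', hy', e'⟩ := pt D hl
  generalize (A.P.e l _).1 = v' at hv' e'
  generalize (A.P.e l _).2 = y' at hy' e'
  obtain ⟨φ, rfl, hi, he⟩ := D.lt k l γ _ _ _ hw _ hy' e'
  rw [A.eg, A.eg] at hi
  obtain ⟨ha, hβ⟩ := ((lisoS _ _ _).2 φ _).1 hi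
  have cy : Continuous (yp s : V ι → V (Ta s)) := continuous_pi fun i => continuous_apply _
  have hb : ∀ᶠ u in 𝓝 (yp s w), u ∈ ball 0 (A.P.yr k) := isOpen_ball.mem_nhds hw
  have hb' : ∀ᶠ u in 𝓝 (yp s w), φ u ∈ ball 0 (A.P.yr l) :=
    ha.continuousAt.eventually_mem (isOpen_ball.mem_nhds hy')
  have hE : ∀ᶠ u in 𝓝 (yp s w), A.H l (φ u) = (E.ρ γ⁻¹)ᵀ * A.H k u * E.ρ γ⁻¹ := by
    filter_upwards [hb, hb', he] with u h1 h2 h3
    rw [← hH D l _ _ h2, h3 0, E.eqv, hH D k _ _ h1]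
  have hc := real_c hS (Ψ k 0 0) γ
  obtain ⟨t1, -, t3, t4, -, t6⟩ := hT s Q L (A.H k) (A.H l) _ _ (E.ρ γ) (E.ρ γ⁻¹) (c γ) φ w
    (A.mo k).toMo0 (A.mo l).toMo0 (E.reR γ) (by rw [← map_mul, inv_mul_cancel, map_one])
    (hS.pol.inv γ) hc hw hy' ha hE
  have cvv : ∀ u, yp s u ∈ ball 0 (A.P.yr k) →
      cv (A.P.A γ (rv (xm s Q L (A.H k) u)) + A.P.c γ) = E.ρ γ *ᵥ xm s Q L (A.H k) u + c γ :=
    fun u hu => by
      rw [A.eA, A.ec, cv_add, rA_apply, Rl.cv_rv (E.reR γ), cv_rv hc,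
        cv_rv (v := xm s Q L (A.H k) u) ((hA _ _ Q L _ (A.mo k).lag ((A.mo k).sg _ hu)).rx _)]
  have v0 : A.P.A γ (rv (xm s Q L (A.H k) w)) + A.P.c γ = v' := by
    rw [← D.x l v' _ hy', ← e', ← he.self_of_nhds, D.x l _ _ hy']
  have cx : ContinuousAt (fun u => A.P.A γ (rv (xm s Q L (A.H k) u)) + A.P.c γ) w :=
    ((A.P.A γ).continuous.continuousAt.comp (continuousAt_pi.2 fun i =>
      continuous_re.continuousAt.comp
        ((modS ι r hA s Q L _ _ (A.mo k).toMo0 w hw).1 i).continuousAt)).add continuousAt_const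
  have hev : (fun u => p (Ψ k (rv (xm s Q L (A.H k) u)) (yp s u))) =ᶠ[𝓝 w]
      (A.e l).symm ∘ trM s Q L (A.H k) (A.H l) (E.ρ γ) (c γ) φ := by
    filter_upwards [cy.continuousAt.eventually hb, cy.continuousAt.eventually hb',
      cy.continuousAt.eventually he,
      cx.eventually_mem (isOpen_ball.mem_nhds (v0 ▸ hv'))] with u h1 h2 h3 h4
    rw [← hq.map_smul γ, ← h3, D.box l _ h4 _ h2, (A.box l _ h4 _ h2).2.1, cvv u h1]
    rfl
  obtain ⟨b1, -, -, b4⟩ := A.box l _ hv' _ hy'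
  rw [← v0, cvv w hw] at b1 b4
  obtain ⟨-, c2, c3⟩ := hP.comp _ _ _ w ⟨A.e l, A.mem l, b1, EventuallyEq.rfl⟩ t1 hev
  have hd : (jac φ (yp s w)).det ≠ 0 := fun h0 => ((A.mo k).kon.2 _ hw).det_pos.ne' (by
    rw [hβ.self_of_nhds, RepB.det_pull, h0]
    simp)
  refine ⟨c3 (t3 ▸ mul_ne_zero t4 hd), ?_⟩
  rw [c2, t6 _ _ hβ.self_of_nhds]
  exact congrArg _ (((hP.rep _ (A.mem l) _ b1 _ EventuallyEq.rfl).2 h).self_of_nhds.symm.trans b4)

end FbA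

open FbA in
theorem fbS [T2Space X] (hq : IsQuotientCoveringMap p G) (hS : E.Spl Q c x h ξ) :
    FbS E Q c x h := by
  rintro s L ⟨A⟩
  have hA := algS
  have hT : TrS ι r := trS algS
  have hP := pbS M
  have := t2 hq
  have := hq.toContinuousConstSMul
  have := A.P.fin
  obtain ⟨Ψ, D⟩ := devS Y G _ _ _ A.P
  refine ⟨⟨A.P.κ, A.P.fin, A.P.yr, A.H, A.β, Ψ, A.mo, fun k v y hy => ?_, hH D, D.cont, D.inj,
    fun k l γ v v' y hy y' hy' e => ?_, D.opn, ?_, fun k w hw => (key hA hT hP hq hS D k w hw).1,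
    fun k w hw => (key hA hT hP hq hS D k w hw).2⟩⟩
  · rw [← A.ex, D.x k v y hy]
  · have := D.lt k l γ v v' y hy y' hy' e
    rwa [A.eg, A.eg, A.eA, A.ec] at this
  · obtain ⟨θ, hθ, hc⟩ := A.P.cov
    obtain ⟨T, hT⟩ := (Set.finite_range fun k => ‖A.P.vc k‖ + A.P.vr k).bddAbove
    refine ⟨θ, hθ, T, fun q => ?_⟩
    obtain ⟨γ, l, hl, -, h2⟩ := hc q
    obtain ⟨hv, -, e⟩ := pt D hl
    exact ⟨γ, l, _, _, (norm_lt_of_mem_ball hv).le.trans (hT ⟨l, rfl⟩), h2, e⟩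

end Pool.Agent.Lib.MP_813db1_ag.VH.S8
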