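import Pool.Agent.Lib.MP_813db1_ag.VH.S8.StL

/-! Derivatives of the complex structure and of the period matrix. -/

namespace Pool.Agent.Lib.MP_813db1_ag.VH.S8

open Pool.Agent.Lib.MP_813db1_ag.HS Pool.Agent.Lib.MP_813db1_ag.AS
open Complex Matrix Filter Topology Set Metric
open scoped ContDiff ComplexOrder

set_option linter.unusedSectionVars false

namespace JzAux

variable {ι α β γ : Type} [Fintype ι] [DecidableEq ι] {z v : V ι}
  {F F' : V ι → Matrix α β ℂ} {K : V ι → Matrix β γ ℂ}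

theorem dF_apply (F : V ι → Matrix α β ℂ) (z v : V ι) (i : α) (j : β) :
    dF F z v i j = fderiv ℝ (fun w => F w i j) z v := rfl

theorem dF_congr (h : F =ᶠ[𝓝 z] F') (v : V ι) : dF F z v = dF F' z v := by
  ext i j
  have e : (fun w => F w i j) =ᶠ[𝓝 z] fun w => F' w i j := h.mono fun w hw => by
    simp only [hw]
  rw [dF_apply, dF_apply, e.fderiv_eq]

theorem dF_const (A : Matrix α β ℂ) (z v : V ι) : dF (fun _ => A) z v = 0 := by
  ext i j
  simp [dF_apply]

theorem dF_neg (F : V ι → Matrix α β ℂ) (z v : V ι) : dF (fun w => -F w) z v = -dF F z v := by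
  ext i j
  simp only [dF_apply, Matrix.neg_apply]
  rw [fderiv_fun_neg]
  rfl

theorem dF_add (h : DfR F z) (h' : DfR F' z) (v : V ι) :
    dF (fun w => F w + F' w) z v = dF F z v + dF F' z v := by
  ext i j
  simp only [dF_apply, Matrix.add_apply]
  rw [fderiv_fun_add (h i j) (h' i j)]
  rfl

theorem dF_csmul (c : ℂ) (h : DfR F z) (v : V ι) : dF (fun w => c • F w) z v = c • dF F z v := by
  ext i j
  simp only [dF_apply, Matrix.smul_apply]
  rw [fderiv_fun_const_smul (h i j)]
  rfl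

theorem dF_mul [Fintype β] (h : DfR F z) (h' : DfR K z) (v : V ι) :
    dF (fun w => F w * K w) z v = dF F z v * K z + F z * dF K z v := by
  ext i j
  simp only [dF_apply, mul_apply, Matrix.add_apply, ← Finset.sum_add_distrib]
  rw [fderiv_fun_sum fun a _ => (h i a).fun_mul (h' a j), _root_.sum_apply]
  refine Finset.sum_congr rfl fun a _ => ?_
  rw [fderiv_fun_mul (h i a) (h' a j)]
  simp only [_root_.add_apply, _root_.smul_apply, smul_eq_mul]
  ring

theorem dF_cmul [Fintype β] (A : Matrix α β ℂ) (h : DfR K z) (v : V ι) :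
    dF (fun w => A * K w) z v = A * dF K z v := by
  rw [dF_mul (DfR.const A) h, dF_const, Matrix.zero_mul, zero_add]

theorem dF_mulc [Fintype β] (h : DfR F z) (A : Matrix β γ ℂ) (v : V ι) :
    dF (fun w => F w * A) z v = dF F z v * A := by
  rw [dF_mul h (DfR.const A), dF_const, Matrix.mul_zero, add_zero]

theorem dF_star (h : DfR F z) (v : V ι) :
    dF (fun w => (F w).map star) z v = (dF F z v).map star := by
  ext i j
  simp only [dF_apply, map_apply]
  rw [(h i j).hasFDerivAt.star.fderiv]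
  rfl

theorem dF_real (h : DfR F z) (h' : ∀ᶠ w in 𝓝 z, Rl (F w)) (v : V ι) : Rl (dF F z v) :=
  (dF_star h v).symm.trans (dF_congr h' v)

theorem an_df (h : AnM F z) : DfR F z := fun i j =>
  (h i j).differentiableAt.restrictScalars ℝ

theorem dF_an (h : AnM F z) (c : ℂ) (v : V ι) : dF F z (c • v) = c • dF F z v := by
  ext i j
  simp only [dF_apply, Matrix.smul_apply]
  rw [(h i j).differentiableAt.fderiv_restrictScalars ℝ]
  exact (fderiv ℂ (fun w => F w i j) z).map_smul c v

theorem rl_mul [Fintype β] {A : Matrix α β ℂ} {B : Matrix β γ ℂ} (h : Rl A) (h' : Rl B) :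
    Rl (A * B) := by
  ext i j
  have e : ∀ a, star (A i a) = A i a := fun a => congrFun (congrFun h i) a
  have e' : ∀ a, star (B a j) = B a j := fun a => congrFun (congrFun h' a) j
  simp only [map_apply, mul_apply, star_sum, star_mul', e, e']

theorem rl_sub {A B : Matrix α β ℂ} (h : Rl A) (h' : Rl B) : Rl (A - B) := by
  ext i j
  have e : star (A i j) = A i j := congrFun (congrFun h i) j
  have e' : star (B i j) = B i j := congrFun (congrFun h' i) j
  simp only [map_apply, Matrix.sub_apply, star_sub, e, e']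

section alg

variable {r σ : Type} [Fintype r] [DecidableEq r] [Fintype σ] [DecidableEq σ]
  {J J' A : Mat r} {L : Matrix r σ ℂ} {Z Z' : Matrix σ r ℂ}

theorem jp (hp : (1 - I • J) * (1 - L * Z) = 0) : J * (1 - L * Z) = -(I • (1 - L * Z)) := by
  generalize 1 - L * Z = P at hp ⊢
  rw [Matrix.sub_mul, Matrix.one_mul, Matrix.smul_mul, sub_eq_zero] at hp
  have e : I • P = I • I • (J * P) := congrArg (fun B => I • B) hp
  rw [e, smul_smul, I_mul_I, neg_smul, one_smul, neg_neg]

theorem fwd (hp : (1 - I • J) * (1 - L * Z) = 0) (hz : Z * J = I • Z) (hl : Z' * L = 0)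
    (hd : Z' * J + Z * J' = I • Z') (h : J' = A * J - J * A) : Z' = -(Z * A * (1 - L * Z)) := by
  have e1 := jp hp
  have e2 : Z' * (1 - L * Z) = Z' := by
    rw [Matrix.mul_sub, Matrix.mul_one, ← Matrix.mul_assoc, hl, Matrix.zero_mul, sub_zero]
  generalize 1 - L * Z = P at e1 e2 ⊢
  have e3 := congrArg (fun B => B * P) hd
  simp only [h, Matrix.add_mul, Matrix.mul_sub, Matrix.sub_mul, Matrix.smul_mul,
    Matrix.mul_assoc, e1, Matrix.mul_neg, Matrix.mul_smul, e2] at e3
  rw [← Matrix.mul_assoc Z J, hz, Matrix.smul_mul] at e3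
  rw [Matrix.mul_assoc]
  generalize Z * (A * P) = W at e3 ⊢
  ext i j
  have e4 := congrFun (congrFun e3 i) j
  simp only [Matrix.add_apply, Matrix.sub_apply, Matrix.neg_apply, Matrix.smul_apply,
    smul_eq_mul] at e4 ⊢
  have e5 : (2 * I) * (Z' i j + W i j) = 0 := by linear_combination -e4
  rcases mul_eq_zero.1 e5 with e6 | e6
  · exact absurd e6 (mul_ne_zero two_ne_zero I_ne_zero)
  · linear_combination e6

theorem bwd (hz : Z * J = I • Z) (hd : Z' * J + Z * J' = I • Z')
    (h : Z' = -(Z * A * (1 - L * Z))) : Z * (J' - (A * J - J * A)) = 0 := by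
  have e : Z * J' = I • Z' - Z' * J := by rw [← hd, add_sub_cancel_left]
  rw [Matrix.mul_sub, e, h, Matrix.mul_sub Z, ← Matrix.mul_assoc Z J, hz]
  simp only [Matrix.mul_sub, Matrix.sub_mul, Matrix.neg_mul, Matrix.mul_one, Matrix.mul_assoc,
    hz, Matrix.mul_smul, Matrix.smul_mul, smul_neg, smul_sub]
  abel

end alg

end JzAux

open JzAux in
theorem jzS (ι r : Type) [Fintype ι] [DecidableEq ι] [Fintype r] [DecidableEq r] (hA : AlgS) :
    JzS ι r := by
  intro s Q L H R hM y hy
  have hb : ∀ᶠ w in 𝓝 y, w ∈ ball (0 : V (Ta s)) R := isOpen_ball.mem_nhds hy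
  have ha : ∀ w ∈ ball (0 : V (Ta s)) R, Alg Q L (H w) := fun w hw =>
    hA r (Sg' s) Q L (H w) hM.lag (hM.sg w hw)
  have hJ : SmR (fun w => jM Q (H w)) y :=
    ((hM.sm y hy).inv (hM.sg y hy).pos.det_pos.ne').mul (SmR.const Q)
  have hZ := hM.an y hy
  have a := ha y hy
  have hr : ∀ v, Rl (dF (fun w => jM Q (H w)) y v) :=
    dF_real hJ.df (hb.mono fun w hw => (ha w hw).reJ)
  have hd : ∀ v, dF (fun w => zM Q L (H w)) y v * jM Q (H y) +
      zM Q L (H y) * dF (fun w => jM Q (H w)) y v = I • dF (fun w => zM Q L (H w)) y v := by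
    intro v
    rw [← dF_mul (an_df hZ) hJ.df, ← dF_csmul I (an_df hZ)]
    exact dF_congr (hb.mono fun w hw => (ha w hw).zj) v
  have hl : ∀ v, dF (fun w => zM Q L (H w)) y v * L = 0 := by
    intro v
    rw [← dF_mulc (an_df hZ), ← dF_const (1 : Mat (Sg' s)) y v]
    exact dF_congr (hb.mono fun w hw => (ha w hw).zl) v
  refine ⟨hJ, fun v => ⟨?_, ?_, fun A hr' => ⟨fwd a.pe a.zj (hl v) (hd v), fun h => ?_⟩⟩⟩
  · refine sub_eq_zero.1 (a.inj _ (rl_sub (hr _) (rl_mul a.reJ (hr v))) ?_)
    have e1 := hd (I • v)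
    have e2 := hd v
    rw [dF_an hZ] at e1
    rw [Matrix.mul_sub, ← Matrix.mul_assoc, a.zj, eq_sub_of_add_eq' e1, Matrix.smul_mul,
      Matrix.smul_mul, eq_sub_of_add_eq' e2, smul_sub, sub_self]
  · have e : dF H y v = -(Q * dF (fun w => jM Q (H w)) y v) := by
      rw [← dF_cmul Q hJ.df, ← dF_neg]
      exact dF_congr (hb.mono fun w hw => by simp only [(ha w hw).qj, neg_neg]) v
    rw [e, Matrix.mul_neg, ← Matrix.mul_assoc]
    rfl
  · exact sub_eq_zero.1 (a.inj _ (rl_sub (hr v) (rl_sub (rl_mul hr' a.reJ) (rl_mul a.reJ hr')))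
      (bwd a.zj (hd v) h))

end Pool.Agent.Lib.MP_813db1_ag.VH.S8
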