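import Pool.Agent.Lib.MP_813db1_ag.VH.S8.StL

/-! Abelian subspaces of the symplectic algebra, the trace form, and bounds for isometries. -/

namespace Pool.Agent.Lib.MP_813db1_ag.VH.S8

open Pool.Agent.Lib.MP_813db1_ag.HS
open Complex Matrix Set
open scoped ComplexOrder

namespace NilAux

variable {r : Type} [Fintype r] [DecidableEq r] {Q H A B B' : Mat r}

omit [Fintype r] [DecidableEq r] in
theorem ct (h : Rl B) : Bᴴ = Bᵀ := by
  rw [conjTranspose, transpose_map, h]

omit [DecidableEq r] in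
theorem rl_mul (h : Rl A) (h' : Rl B) : Rl (A * B) := by
  rw [Rl, show (A * B).map star = A.map star * B.map star from
    Matrix.map_mul (f := starRingEnd ℂ), h, h']

omit [Fintype r] [DecidableEq r] in
theorem rl_add (h : Rl A) (h' : Rl B) : Rl (A + B) := by
  rw [Rl, Matrix.map_add _ star_add, h, h']

omit [Fintype r] [DecidableEq r] in
theorem rl_sub (h : Rl A) (h' : Rl B) : Rl (A - B) := by
  rw [Rl, Matrix.map_sub _ star_sub, h, h']

omit [DecidableEq r] in
theorem tr_re (h : Rl A) : ((trace A).re : ℂ) = trace A :=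
  conj_eq_iff_re.1 ((trace_conjTranspose A).symm.trans (by rw [ct h, trace_transpose]))

theorem zero (hH : H.PosDef) (hB : Rl B) (e : Bᵀ * H = H * B') (t : trace (B' * B) = 0) :
    B = 0 := by
  obtain ⟨C, rfl⟩ := Mat.fac hH.posSemidef
  have hC : IsUnit C.det := by
    have := (isUnit_iff_isUnit_det _).1 hH.isUnit
    rw [det_mul] at this
    exact isUnit_of_mul_isUnit_right this
  have hC' : IsUnit Cᴴ.det := by rw [det_conjTranspose]; exact hC.star
  have e1 : (C * B * C⁻¹)ᴴ * (C * B * C⁻¹) = C * (B' * B) * C⁻¹ := by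
    calc _ = Cᴴ⁻¹ * (Bᵀ * (Cᴴ * C)) * B * C⁻¹ := by
          simp only [conjTranspose_mul, conjTranspose_nonsing_inv, ct hB, Matrix.mul_assoc]
      _ = _ := by
          rw [e]
          simp only [Matrix.mul_assoc, nonsing_inv_mul_cancel_left _ _ hC']
  have e2 : C * B * C⁻¹ = 0 := trace_conjTranspose_mul_self_eq_zero_iff.1 (by
    rw [e1, trace_mul_cycle, nonsing_inv_mul _ hC, Matrix.one_mul, t])
  rw [← nonsing_inv_mul_cancel_left C B hC, ← nonsing_inv_mul_cancel_right C (C * B) hC, e2,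
    Matrix.zero_mul, Matrix.mul_zero]

theorem hj (h : Sg Q H) : H * jM Q H = Q :=
  mul_nonsing_inv_cancel_left _ _ h.pos.det_pos.ne'.isUnit

theorem sy (h : Sg Q H) : Hᵀ = H := (ct h.re).symm.trans h.pos.1

theorem rl_j (hQ : Rl Q) (h : Sg Q H) : Rl (jM Q H) := rl_mul (by
  rw [Rl, ← transpose_transpose (H⁻¹.map star), ← transpose_map]
  change (H⁻¹ᵀ)ᴴ = _
  rw [transpose_nonsing_inv, sy h, h.pos.1.inv]) hQ

theorem jt (hQ : Qᵀ = -Q) (h : Sg Q H) : (jM Q H)ᵀ * H = H * -jM Q H := by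
  rw [Matrix.mul_neg, hj h, ← hQ]
  conv_rhs => rw [← hj h, transpose_mul, sy h]

theorem sp_adj (h : Sg Q H) (hA : Sp Q A) : Aᵀ * H = H * (jM Q H * A * jM Q H) := by
  have e := hA.2
  rw [← hj h] at e
  have e1 : Aᵀ * H = -(Aᵀ * H * (jM Q H * jM Q H)) := by rw [h.sq, Matrix.mul_neg, neg_neg, mul_one]
  rw [e1, ← Matrix.mul_assoc, Matrix.mul_assoc Aᵀ, eq_neg_of_add_eq_zero_left e]
  simp only [Matrix.neg_mul, neg_neg, Matrix.mul_assoc]

omit [DecidableEq r] in
theorem adj_mul {A' : Mat r} (e : Aᵀ * H = H * A') (e' : Bᵀ * H = H * B') :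
    (A * B)ᵀ * H = H * (B' * A') := by
  rw [transpose_mul, Matrix.mul_assoc, e, ← Matrix.mul_assoc, e', Matrix.mul_assoc]

end NilAux

open NilAux

theorem nilS : NilS := by
  intro r _ _ Q H A D n hQ hQ' h hA hn hc hD h1 h2
  have a1 := sp_adj h hA
  have a2 := jt hQ' h
  have a3 := rl_j hQ h
  have sq := h.sq
  generalize jM Q H = J at *
  obtain ⟨A', hA'⟩ : ∃ A', A' = J * A * J := ⟨_, rfl⟩
  have r1 : Rl A' := hA' ▸ rl_mul (rl_mul a3 hA.1) a3
  have j1 : A * J = -(J * A') := by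
    rw [hA', ← mul_assoc, ← mul_assoc, sq, neg_one_mul, neg_mul, neg_neg]
  have j2 : J * A' * J = A := by
    rw [← neg_neg (J * A'), ← j1, neg_mul, mul_assoc, sq, mul_neg_one, neg_neg]
  have a4 : A'ᵀ * H = H * A := by
    have := adj_mul (adj_mul a2 a1) a2
    rw [← hA'] at this
    rw [this, ← j2]
    simp only [neg_mul, mul_neg, neg_neg, mul_assoc]
  rw [← hA'] at a1
  obtain ⟨S, hS⟩ : ∃ S, S = A + A' := ⟨_, rfl⟩
  have r2 : Rl S := hS ▸ rl_add hA.1 r1
  have a5 : Sᵀ * H = H * S := by rw [hS, transpose_add, add_mul, a1, a4, mul_add, add_comm]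
  have d1 : D = -(J * S) := by rw [hD, j1, hS, mul_add, neg_add, add_comm, sub_eq_add_neg]
  have d2 : J * D = S := by rw [d1, mul_neg, ← mul_assoc, sq, neg_one_mul, neg_neg]
  rw [d2] at h1
  have b0 : S * A - A * S = A' * A - A * A' := by rw [hS]; noncomm_ring
  have b1 : S * A - A * S = 0 := by
    refine zero h.pos (rl_sub (rl_mul r2 hA.1) (rl_mul hA.1 r2)) (B' := S * A - A * S) ?_ ?_
    · rw [b0, transpose_sub, sub_mul, adj_mul a4 a1, adj_mul a1 a4, mul_sub]
    · have := hc _ hn _ h1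
      generalize hB : S * A - A * S = B at this ⊢
      conv_lhs => rw [← show (S * A - A * S) * B = B * B by rw [hB]]
      rw [sub_mul, trace_sub, mul_assoc, this, mul_assoc A, trace_mul_comm A, mul_assoc, sub_self]
  have c1 : Commute S A := sub_eq_zero.1 b1
  have c2 : Commute S A' := by
    have : A' = S - A := by rw [hS, add_sub_cancel_left]
    exact this ▸ (Commute.refl S).sub_right c1
  have k : ∀ m : ℕ, -(J * S ^ m) * A - A * -(J * S ^ m) = -(J * S ^ (m + 1)) := fun m => by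
    rw [mul_neg, ← mul_assoc, j1, pow_succ]
    conv_rhs => rw [show S ^ m * S = S ^ m * (A + A') by rw [← hS], mul_add,
      (c2.pow_left m).eq]
    noncomm_ring
  have k1 := k 1
  rw [pow_one, ← d1] at k1
  have k2 := k (1 + 1)
  rw [← k1, ← hc _ hn _ h2, sub_self] at k2
  have k3 : S ^ (1 + 1 + 1) = 0 := by
    have := congrArg (J * ·) k2
    simpa only [mul_zero, mul_neg, ← mul_assoc, sq, neg_one_mul, neg_neg] using this.symm
  have k4 : S * S = 0 := zero h.pos (rl_mul r2 r2) (adj_mul a5 a5) (by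
    rw [show S * S * (S * S) = S ^ (1 + 1 + 1) * S by noncomm_ring, k3, zero_mul, trace_zero])
  rw [d1, zero h.pos r2 a5 (by rw [k4, trace_zero]), mul_zero, neg_zero]

theorem tfS : TfS := by
  intro r _ _ Q H k z hQ hQ' h hk hz hK
  have h1 : ∀ K ∈ k, trace (K * K) = 0 → K = 0 := fun K m t =>
    zero h.pos (hK K m).1.1 (sp_adj h (hK K m).1) (by
      rw [← (hK K m).2, Matrix.mul_assoc K, h.sq, Matrix.mul_neg, Matrix.mul_one, Matrix.neg_mul,
        trace_neg, t, neg_zero])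
  refine ⟨h1, fun A hA => ?_⟩
  let β : Mat r →ₗ[ℝ] Module.Dual ℝ k := LinearMap.mk₂ ℝ (fun B (K : k) => (trace (B * K.1)).re)
    (fun _ _ _ => by rw [add_mul, trace_add, add_re])
    (fun _ _ _ => by rw [smul_mul_assoc, trace_smul, smul_re])
    (fun _ _ _ => by rw [Submodule.coe_add, mul_add, trace_add, add_re])
    (fun _ _ _ => by rw [Submodule.coe_smul, mul_smul_comm, trace_smul, smul_re])
  have hi : Function.Injective (β.comp k.subtype) := (injective_iff_map_eq_zero _).2 fun K e => by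
    have e1 : (trace (K.1 * K.1)).re = 0 := LinearMap.congr_fun e K
    refine Subtype.ext (h1 _ K.2 ?_)
    rw [← tr_re (rl_mul (hz _ (hk K.2)) (hz _ (hk K.2))), e1, ofReal_zero]
  obtain ⟨K, e⟩ := (LinearMap.injective_iff_surjective_of_finrank_eq_finrank
    Subspace.dual_finrank_eq.symm).1 hi (β A)
  refine ⟨K, K.2, fun K' m => ?_⟩
  have e1 : (trace (K.1 * K')).re = (trace (A * K')).re := LinearMap.congr_fun e ⟨K', m⟩
  rw [← tr_re (rl_mul (rl_sub (hz _ hA) (hz _ (hk K.2))) (hz _ (hk m))), sub_mul, trace_sub, sub_re,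
    e1, sub_self, ofReal_zero]

theorem bdS : BdS := by
  intro r _ _ K K' hK hK' p p'
  have pp : ∀ H ∈ K ∪ K', H.PosDef := fun H m => m.elim (p H) (p' H)
  obtain ⟨L, hL⟩ := (hK.union hK').exists_bound_of_continuousOn
    (f := fun H : Mat r => ((fun i j => H i j, fun i j => H⁻¹ i j) : (r → r → ℂ) × (r → r → ℂ)))
    (ContinuousOn.prodMk continuousOn_id fun H m => (continuousAt_matrix_inv H (by
      rw [Ring.inverse_eq_inv']
      exact continuousAt_inv₀ (pp H m).det_pos.ne')).continuousWithinAt)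
  obtain ⟨c, c0, hc⟩ := mat.nv r L
  have b : ∀ H ∈ K ∪ K', ∀ v : V r, c * ‖v‖ ^ 2 ≤ nV H v ∧ c * nV H v ≤ ‖v‖ ^ 2 := fun H m =>
    hc H (pp H m)
      (fun i j => (((norm_le_pi_norm _ j).trans (norm_le_pi_norm (fun i j => H i j) i)).trans
        (norm_fst_le ((fun i j => H i j, fun i j => H⁻¹ i j) : (r → r → ℂ) × (r → r → ℂ)))).trans
        (hL H m))
      fun i j => (((norm_le_pi_norm _ j).trans (norm_le_pi_norm (fun i j => H⁻¹ i j) i)).trans
        (norm_snd_le ((fun i j => H i j, fun i j => H⁻¹ i j) : (r → r → ℂ) × (r → r → ℂ)))).trans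
        (hL H m)
  refine ⟨c⁻¹, fun H m H' m' ρ hρ e => ContinuousLinearMap.opNorm_le_bound _ (inv_pos.2 c0).le
    fun v => ?_⟩
  have e1 : nV H' (ρ *ᵥ cv v) = nV H (cv v) := by
    rw [nV, nV, Mat.ip_eq, Mat.ip_eq, hρ.star_mulVec, ← e, ← mulVec_mulVec, ← mulVec_mulVec,
      dotProduct_mulVec (cv v), vecMul_transpose]
  have e2 : ‖cv v‖ ≤ ‖v‖ := (pi_norm_le_iff_of_nonneg (norm_nonneg _)).2 fun i =>
    (norm_real _).le.trans (norm_le_pi_norm v i)
  have e3 : ‖rL ρ v‖ ≤ ‖ρ *ᵥ cv v‖ := (pi_norm_le_iff_of_nonneg (norm_nonneg _)).2 fun i =>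
    (abs_re_le_norm _).trans (norm_le_pi_norm _ i)
  have e4 := (b H' (.inr m') (ρ *ᵥ cv v)).1
  have e5 := (b H (.inl m) (cv v)).2
  rw [e1] at e4
  refine e3.trans ((le_inv_mul_iff₀ c0).2 (le_trans ?_ e2))
  refine le_of_sq_le_sq ?_ (norm_nonneg _)
  rw [mul_pow, pow_two c, mul_assoc]
  exact (mul_le_mul_of_nonneg_left e4 c0.le).trans e5

end Pool.Agent.Lib.MP_813db1_ag.VH.S8
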