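import Pool.Agent.Lib.MP_813db1_ag.VH.S8.Fb
import Pool.Agent.Lib.MP_813db1_ag.VH.S8.Nil
import Pool.Agent.Lib.MP_813db1_ag.VH.S8.Jz
import Pool.Agent.Lib.MP_813db1_ag.VH.S8.Alg

/-! The fields preserve the metric on the leaves. -/

namespace Pool.Agent.Lib.MP_813db1_ag.VH.S8

open Pool.Agent.Lib.MP_813db1_ag.HS Pool.Agent.Lib.MP_813db1_ag.AS
open MeasureTheory Complex Matrix Filter Topology Set Metric
open scoped ContDiff ComplexOrder

noncomputable section

namespace FixAux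

variable {τ r : Type} [Fintype τ] [Fintype r] {Q A A' : Mat r}

omit [Fintype r] in
theorem dv_add (F : V τ → Mat r) (y u v : V τ) : dF F y (u + v) = dF F y u + dF F y v :=
  Matrix.ext fun _ _ => map_add (fderiv ℝ _ y) u v

omit [Fintype r] in
theorem dv_smul (F : V τ → Mat r) (y : V τ) (t : ℝ) (v : V τ) : dF F y (t • v) = t • dF F y v :=
  Matrix.ext fun _ _ => map_smul (fderiv ℝ _ y) t v

theorem sp_add (h : Sp Q A) (h' : Sp Q A') : Sp Q (A + A') :=
  ⟨NilAux.rl_add h.1 h'.1, by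
    rw [transpose_add, Matrix.add_mul, Matrix.mul_add, add_add_add_comm, h.2, h'.2, add_zero]⟩

theorem sp_smul (t : ℝ) (h : Sp Q A) : Sp Q (t • A) :=
  ⟨Matrix.ext fun i j => by
    have := congrFun (congrFun h.1 i) j
    simp only [map_apply] at this
    simp only [map_apply, Matrix.smul_apply, star_smul, this, star_trivial], by
    rw [transpose_smul, Matrix.smul_mul, Matrix.mul_smul, ← smul_add, h.2, smul_zero]⟩

theorem sp_zero : Sp Q (0 : Mat r) := ⟨Matrix.map_zero _ (star_zero _), by simp⟩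

end FixAux

open FixAux

namespace Fb

variable {ι X Y G r : Type} [Fintype ι] [DecidableEq ι] [TopologicalSpace X] [TopologicalSpace Y]
  [Group G] [MulAction G Y] [Fintype r] [DecidableEq r] {M : Atl ι X} {p : Y → X}
  {E : Dt M p G r} {Q : Mat r} {c : G → V r} {x : Y → V r} {h ξ₀ : X → Mat ι} {s : Finset ι}
  {L : Matrix r (Sg' s) ℂ} (B : Fb E Q c x h s L) {q : ℕ}
  (ξ : B.κ → Fin q → V (Ta s) → V (Ta s)) (k : B.κ)

/-- the elements which act as a field. -/
def zcM : Submodule ℝ (Mat r) where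
  carrier := {A | B.Zc ξ k A}
  add_mem' := by
    rintro A A' ⟨h1, t, h2⟩ ⟨h3, t', h4⟩
    refine ⟨sp_add h1 h3, t + t', fun y hy => ?_⟩
    simp only [Pi.add_apply, add_smul, Finset.sum_add_distrib]
    rw [dv_add, h2 y hy, h4 y hy, Matrix.add_mul, Matrix.mul_add]
    abel
  zero_mem' := ⟨sp_zero, 0, fun y _ => by
    simpa using dv_smul (B.J k) y 0 0⟩
  smul_mem' := by
    rintro a A ⟨h1, t, h2⟩
    refine ⟨sp_smul a h1, a • t, fun y hy => ?_⟩
    simp only [Pi.smul_apply, smul_eq_mul, mul_smul, ← Finset.smul_sum]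
    rw [dv_smul, h2 y hy, Matrix.smul_mul, Matrix.mul_smul, smul_sub]

/-- the elements which fix the period map. -/
def k0M : Submodule ℝ (Mat r) where
  carrier := {A | B.K0 k A}
  add_mem' := by
    rintro A A' ⟨h1, h2⟩ ⟨h3, h4⟩
    exact ⟨sp_add h1 h3, fun y hy => by rw [Matrix.add_mul, Matrix.mul_add, h2 y hy, h4 y hy]⟩
  zero_mem' := ⟨sp_zero, fun y _ => by simp⟩
  smul_mem' := by
    rintro a A ⟨h1, h2⟩
    exact ⟨sp_smul a h1, fun y hy => by rw [Matrix.smul_mul, Matrix.mul_smul, h2 y hy]⟩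

theorem k0_le : B.k0M k ≤ B.zcM ξ k := fun A hA => ⟨hA.1, 0, fun y hy => by
  simpa [hA.2 y hy] using dv_smul (B.J k) y 0 0⟩

/-- the orthogonal complement. -/
def nS : Set (Mat r) := {A | B.Zc ξ k A ∧ ∀ K, B.K0 k K → trace (A * K) = 0}

variable {B ξ k}

theorem n_rel (ok : B.Ok) (h2 : B.ZcS ok) (hF : (B.pg ok).Fields q ξ) {l γ y y'}
    (hr : B.Rel k l γ y y') {A} (hA : A ∈ B.nS ξ k) : E.ρ γ * A * E.ρ γ⁻¹ ∈ B.nS ξ l := by
  refine ⟨(h2 q ξ hF k l γ y y' hr A).1 hA.1, fun K hK => ?_⟩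
  have := hA.2 _ ((h2 q ξ hF l k _ _ _ (ok.symm hr) K).2 hK)
  rw [inv_inv, ← Matrix.mul_assoc, trace_mul_comm] at this
  simpa only [Matrix.mul_assoc] using this

theorem n_inv (ok : B.Ok) (h2 : B.ZcS ok) (hF : (B.pg ok).Fields q ξ) (γ : G) :
    ∀ A ∈ B.nS ξ k, E.ρ γ * A * E.ρ γ⁻¹ ∈ B.nS ξ k := by
  refine ok.conn (fun l δ => ∀ A ∈ B.nS ξ l, E.ρ δ * A * E.ρ δ⁻¹ ∈ B.nS ξ k)
    (fun l m δ ε y y' hr hS A hA => ?_) k 1 k γ (by simp)
  have := hS _ (n_rel ok h2 hF (ok.symm hr) hA)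
  simp only [Matrix.mul_assoc, ← map_mul] at this
  simpa [← Matrix.mul_assoc, ← map_mul] using this

theorem fixS (_hS : E.Spl Q c x h ξ₀) (ok : B.Ok) (h1 : B.LxS ok) (h2 : B.ZcS ok)
    (h3 : B.AbZS ok) (h4 : B.InvB) : B.FixS ok := by
  intro q ξ hF k a y hy t
  have lg := (B.mo k).lag
  have sg := (B.mo k).sg y hy
  obtain ⟨t1, t2⟩ := tfS r Q _ (B.k0M k) (B.zcM ξ k) lg.reQ lg.alt sg (B.k0_le ξ k)
    (fun A hA => hA.1.1) fun K hK => ⟨hK.1, hK.2 y hy⟩
  have ab : ∀ A ∈ B.nS ξ k, ∀ A' ∈ B.nS ξ k, A * A' = A' * A := fun A m A' m' => by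
    have c1 := (h3 q ξ hF k A A' m.1).1 m'.1
    have c2 := m.2 _ ((h3 q ξ hF k A' _ m'.1).2 c1)
    refine sub_eq_zero.1 (t1 _ c1 ?_)
    generalize hC : A * A' - A' * A = C at c2
    rw [Matrix.mul_sub, trace_sub, ← Matrix.mul_assoc A C, trace_mul_comm _ A',
      ← Matrix.mul_assoc, ← Matrix.mul_assoc, ← trace_sub, ← Matrix.sub_mul, hC] at c2
    exact c2
  obtain ⟨A, a1, a2⟩ := h1 k _ (hF.lim k a)
  have a3 : A ∈ B.zcM ξ k := ⟨a1, Pi.single a 1, fun w hw => by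
    simpa [Pi.single_apply] using a2 w hw⟩
  obtain ⟨K, k1, k2⟩ := t2 A a3
  have a4 : A - K ∈ B.nS ξ k := ⟨(B.zcM ξ k).sub_mem a3 (B.k0_le ξ k k1), k2⟩
  have iv := h4 (Submodule.span ℂ (B.nS ξ k)) (fun γ A hA => by
    induction hA using Submodule.span_induction with
    | mem A hA => exact Submodule.subset_span (n_inv ok h2 hF γ A hA)
    | zero => simp
    | add A A' _ _ m m' => simpa [Matrix.mul_add, Matrix.add_mul] using add_mem m m'
    | smul d A _ m => simpa using Submodule.smul_mem _ d m) k y hy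
  obtain ⟨-, jz⟩ := jzS ι r algS s Q L (B.H k) (B.R k) (B.mo k).toMo0 y hy
  have e0 : ∀ v, dF (B.J k) y (I • v) = B.J k y * dF (B.J k) y v := fun v => (jz v).1
  have e1 : ∀ v, (B.H k y)⁻¹ * dF (B.H k) y v = -(B.J k y * dF (B.J k) y v) := fun v => (jz v).2.1
  have D0 : dF (B.J k) y (ξ k a y) = 0 := by
    have b1 := neg_mem (iv (ξ k a y) _ (Submodule.subset_span a4))
    have b2 := iv (I • ξ k a y) _ (Submodule.subset_span a4)
    rw [e1, Matrix.neg_mul, Matrix.mul_neg, ← neg_sub', neg_neg] at b1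
    rw [e1, e0, ← Matrix.mul_assoc, show B.J k y * B.J k y = -1 from sg.sq, neg_one_mul,
      neg_neg] at b2
    refine nilS r Q _ (A - K) _ _ lg.reQ lg.alt sg a4.1.1 (Submodule.subset_span a4)
      (fun C m C' m' => ?_) ?_ b1 b2
    · induction m, m' using Submodule.span_induction₂ with
      | mem_mem C C' m m' => exact ab C m C' m'
      | zero_left => simp
      | zero_right => simp
      | add_left _ _ _ _ _ _ m m' => rw [Matrix.add_mul, Matrix.mul_add, m, m']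
      | add_right _ _ _ _ _ _ m m' => rw [Matrix.add_mul, Matrix.mul_add, m, m']
      | smul_left _ _ _ _ _ m => rw [Matrix.smul_mul, Matrix.mul_smul, m]
      | smul_right _ _ _ _ _ m => rw [Matrix.smul_mul, Matrix.mul_smul, m]
    · rw [Matrix.sub_mul, Matrix.mul_sub, show K * jM Q (B.H k y) = jM Q (B.H k y) * K from
        k1.2 y hy, sub_sub_sub_cancel_right]
      exact a2 y hy
  have e2 : dF (B.J k) y (t • ξ k a y) = 0 := by
    rw [show t • ξ k a y = t.re • ξ k a y + t.im • I • ξ k a y by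
      funext i
      simp only [Pi.add_apply, Pi.smul_apply, real_smul, smul_eq_mul, ← mul_assoc, ← add_mul,
        re_add_im], dv_add, dv_smul, dv_smul, e0, D0]
    simp
  rw [← mul_nonsing_inv_cancel_left _ (dF (B.H k) y _) sg.pos.det_pos.ne'.isUnit, e1, e2]
  simp

end Fb

end

end Pool.Agent.Lib.MP_813db1_ag.VH.S8
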