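import Pool.Agent.Lib.MP_813db1_ag.VH.S8.Fb
import Pool.Agent.Lib.MP_813db1_ag.HS.AYAll
import Pool.Agent.Lib.MP_813db1_ag.HS.E.KBr
import Pool.Agent.Lib.MP_813db1_ag.HS.E.Cplx

/-! Section 8: the invariant fields are generically independent over the complex numbers. -/

namespace Pool.Agent.Lib.MP_813db1_ag.VH.S8

open Pool.Agent.Lib.MP_813db1_ag.HS
open Complex Matrix Filter Topology Set Metric
open scoped ContDiff ComplexOrder

namespace Gen8

variable {ι r : Type} [Fintype ι] [DecidableEq ι] [Fintype r] [DecidableEq r] {s : Finset ι}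
  {Q : Mat r} {L : Matrix r (Sg' s) ℂ} {H : V (Ta s) → Mat r} {R : ℝ} {y v : V (Ta s)}

theorem pd (h : Mo0 s Q L H R) : ∀ w ∈ ball (0 : V (Ta s)) R,
    ((1 / 2 : ℂ) • muM L (H w)).PosDef := fun w hw => by
  have e : Lᵀ = Lᴴ := by
    conv_lhs => rw [← h.lag.reL]
    rfl
  have h1 : Function.Injective L.mulVec := fun a b hab =>
    sub_eq_zero.1 (h.lag.inj _ (by rw [mulVec_sub, hab, sub_self]))
  rw [muM, e]
  exact ((h.sg w hw).pos.conjTranspose_mul_mul_same h1).smul (by norm_num [Complex.pos_iff])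

theorem der (h : Mo0 s Q L H R) (hy : y ∈ ball (0 : V (Ta s)) R) :
    ContDiffAt ℝ ∞ (fun w => (Real.log ((1 / 2 : ℂ) • muM L (H w)).det.re : ℂ)) y ∧
    (dF H y v = 0 →
      fderiv ℝ (fun w => (Real.log ((1 / 2 : ℂ) • muM L (H w)).det.re : ℂ)) y v = 0) := by
  have a1 : ContDiffAt ℝ ∞ (fun w (a b : r) => H w a b) y :=
    contDiffAt_pi.2 fun a => contDiffAt_pi.2 fun b => h.sm y hy a b
  have a2 : ContDiffAt ℝ ∞ (fun A : r → r → ℂ =>
      (Real.log ((1 / 2 : ℂ) • muM L (Matrix.of A)).det.re : ℂ)) fun a b => H y a b := by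
    refine ofRealCLM.contDiff.contDiffAt.comp _ (ContDiffAt.log (reCLM.contDiff.contDiffAt.comp _
      (f := fun A : r → r → ℂ => ((1 / 2 : ℂ) • muM L (Matrix.of A)).det) ?_)
      (Complex.pos_iff.1 (pd h y hy).det_pos).1.ne')
    simp only [det_apply', muM, Matrix.smul_apply, mul_apply, of_apply, smul_eq_mul]
    fun_prop
  refine ⟨a2.comp y a1, fun h0 => ?_⟩
  have a3 : fderiv ℝ (fun w (a b : r) => H w a b) y v = 0 := by
    funext a b
    rw [fderiv_pi fun a => (contDiffAt_pi.1 a1 a).differentiableAt (by simp),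
      ContinuousLinearMap.pi_apply, fderiv_pi fun b => (h.sm y hy a b).differentiableAt (by simp)]
    exact congrFun₂ h0 a b
  refine (DFunLike.congr_fun (fderiv_comp y (a2.differentiableAt (by simp))
    (a1.differentiableAt (by simp))) v).trans ?_
  rw [ContinuousLinearMap.comp_apply, a3, map_zero]

end Gen8

namespace Fb

variable {ι X Y G r : Type} [Fintype ι] [DecidableEq ι] [TopologicalSpace X] [TopologicalSpace Y]
  [Group G] [MulAction G Y] [Fintype r] [DecidableEq r] {M : Atl ι X} {p : Y → X}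
  {E : Dt M p G r} {Q : Mat r} {c : G → V r} {x : Y → V r} {h : X → Mat ι} {s : Finset ι}
  {L : Matrix r (Sg' s) ℂ} {B : Fb E Q c x h s L}

theorem genS8 (ok : B.Ok) : B.GenS8 ok := by
  intro q ξ hF hx k
  have mo := B.mo k
  have an : ∀ a, ∀ y ∈ B.Bl k, AnalyticAt ℂ (ξ k a) y := fun a =>
    MP_caab05_ag.GB.osg _ _ _ _ isOpen_ball (hF.hol k a)
  have s1 := fun y hy => (Gen8.der (y := y) (v := 0) mo.toMo0 hy).1
  have s2 := fun y hy => (AY.curvS'.dlg _ _ _ isOpen_ball mo.kon.1.1 mo.kon.2 y hy).1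
  have d0 := fun a y hy t => (Gen8.der mo.toMo0 hy).2 (hx k a y hy t)
  set f := fun w => (Real.log ((1 / 2 : ℂ) • muM L (B.H k w)).det.re : ℂ)
  have e0 : (fun w => (B.ψ k w : ℂ)) = fun w => f w + lg (B.β k) w :=
    funext fun w => ofReal_add _ _
  refine ⟨fun O hO hne hs => ?_, fun y hy a => ?_⟩
  · obtain ⟨y, hy, hi⟩ := hF.ind k O hO hne hs
    refine ⟨y, hy, cplxS _ q (B.ψ k) (ξ k) y (contDiffAt_ofReal.1 ?_) (fun a => an a y (hs hy)) ?_
      ?_ hi⟩
    · rw [e0]
      exact (s1 y (hs hy)).add (s2 y (hs hy))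
    · filter_upwards [isOpen_ball.mem_nhds (hs hy)] with w hw
      refine ⟨fun i j => hF.comm k j i w hw, fun j => ?_⟩
      have a1 := reCLM.hasFDerivAt.comp w ((s1 w hw).differentiableAt (by simp)).hasFDerivAt
      have a2 := (contDiffAt_ofReal.1 (s2 w hw)).differentiableAt (by simp)
      have a3 := DFunLike.congr_fun (a1.add a2.hasFDerivAt).fderiv (ξ k j w)
      have a4 := d0 j w hw 1
      rw [one_smul] at a4
      have a5 := KBrAux.vol AY.curvS' isOpen_ball mo.kon hw
        ((((ok.met k).smooth w hw).contDiffAt (isOpen_ball.mem_nhds hw)).differentiableAt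
          two_ne_zero) (hF.kil k j w hw)
      simp only [_root_.add_apply, ContinuousLinearMap.comp_apply, a4, map_zero, zero_add] at a3
      rw [← a3] at a5
      exact a5
    · rw [show levi (fun w => (B.ψ k w : ℂ)) y = B.β k y from mo.lev y (hs hy)]
      exact mo.kon.2 y (hs hy)
  · have e1 : ric (B.β k) y + B.β k y = levi f y := by
      have := levi_add (sm_two (s1 y hy)) (sm_two (s2 y hy))
      rw [← e0, show levi (fun w => (B.ψ k w : ℂ)) y = B.β k y from mo.lev y hy] at this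
      rw [this, show ric (B.β k) y = -levi (lg (B.β k)) y from rfl]
      abel
    have e2 : CplxAux.mu f (ξ k a) =ᶠ[𝓝 y] CplxAux.mu (fun _ => 0) (ξ k a) := by
      filter_upwards [isOpen_ball.mem_nhds hy] with w hw
      have a1 := d0 a w hw 1
      have a2 := d0 a w hw I
      simp only [fderiv_eq_dz, Pi.smul_apply, smul_eq_mul, one_mul, star_mul', star_I,
        Finset.sum_add_distrib, mul_left_comm _ I, mul_left_comm _ (-I), ← Finset.mul_sum] at a1 a2
      simp only [CplxAux.mu, dz_const, Finset.sum_add_distrib, mul_comm (ξ k a w _), zero_mul,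
        Finset.sum_const_zero]
      linear_combination (1 / 2) * a1 - (I / 2) * a2 +
        ((∑ i, dz f i w * ξ k a w i) - ∑ i, dzb f i w * star (ξ k a w i)) / 2 * I_mul_I
    funext l
    have e3 := dzb_congr e2 l
    rw [CplxAux.dzb_mu (sm_two (s1 y hy)) (an a y hy),
      CplxAux.dzb_mu contDiffAt_const (an a y hy), levi_const] at e3
    rw [e1]
    exact e3.trans (by simp)

end Fb

end Pool.Agent.Lib.MP_813db1_ag.VH.S8
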