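import Pool.Agent.Lib.MP_813db1_ag.VH.S8.StL

/-! Invariant spaces of endomorphisms are stable under the Higgs field. -/

namespace Pool.Agent.Lib.MP_813db1_ag.VH.S8

open Pool.Agent.Lib.MP_813db1_ag.HS Pool.Agent.Lib.MP_813db1_ag.AS
open Complex Matrix Filter Topology Set
open scoped Kronecker

noncomputable section

namespace InvA

variable {r : Type}

/-- matrices as vectors. -/
def vc (B : Mat r) : V (r × r) := fun x => B x.1 x.2

/-- vectors as matrices. -/
def uv : V (r × r) →ₗ[ℂ] Mat r where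
  toFun v := Matrix.of fun i j => v (i, j)
  map_add' _ _ := rfl
  map_smul' _ _ := rfl

variable [Fintype r] [DecidableEq r]

omit [DecidableEq r] in
theorem kr_vc (A C : Mat r) (v : V (r × r)) : uv ((A ⊗ₖ C) *ᵥ v) = A * uv v * Cᵀ := by
  ext i j
  change ∑ x : r × r, A i x.1 * C j x.2 * v x = ∑ b, (∑ a, A i a * v (a, b)) * C j b
  simp only [Fintype.sum_prod_type, Finset.sum_mul]
  rw [Finset.sum_comm]
  exact Finset.sum_congr rfl fun _ _ => Finset.sum_congr rfl fun _ _ => by ring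

theorem ad_mem {n : Submodule ℂ (Mat r)} {P : Mat (r × r)}
    (hP : ∀ v, v ∈ n.comap uv ↔ P *ᵥ v = v) {A : Mat r} {C : Mat (r × r)}
    (hC : C = A ⊗ₖ (1 : Mat r) + (1 : Mat r) ⊗ₖ (-Aᵀ)) (h : C * P = P * C) {B : Mat r}
    (hB : B ∈ n) : A * B - B * A ∈ n := by
  have h1 : P *ᵥ vc B = vc B := (hP _).1 hB
  have h2 : C *ᵥ vc B ∈ n.comap uv := (hP _).2 (by rw [mulVec_mulVec, ← h, ← mulVec_mulVec, h1])
  rw [Submodule.mem_comap, hC, add_mulVec, map_add, kr_vc, kr_vc, transpose_one, Matrix.mul_one,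
    Matrix.one_mul, transpose_neg, transpose_transpose, Matrix.mul_neg, ← sub_eq_add_neg] at h2
  exact h2

theorem dF_eq {ι : Type} [Fintype ι] [DecidableEq ι] (H : V ι → Mat r) (z v : V ι) :
    (H z)⁻¹ * dF H z v = ∑ k, (v k • ca H k z + star (v k) • cb H k z) := by
  have e : dF H z v = ∑ k, (v k • dR H k z + star (v k) • dRb H k z) := by
    ext i j
    rw [Matrix.sum_apply]
    refine (fderiv_eq_dz _ z v).trans (Finset.sum_congr rfl fun k _ => ?_)
    rw [mul_comm, mul_comm _ (star (v k))]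
    rfl
  rw [e, Matrix.mul_sum]
  exact Finset.sum_congr rfl fun k _ => by
    rw [Matrix.mul_add, Matrix.mul_smul, Matrix.mul_smul]; rfl

end InvA

open InvA in
theorem invS8 {ι X Y G r : Type} [Fintype ι] [DecidableEq ι] [TopologicalSpace X]
    [TopologicalSpace Y] [Group G] [MulAction G Y] [Fintype r] [DecidableEq r] {M : Atl ι X}
    {p : Y → X} {E : Dt M p G r} {Q : Mat r} {c : G → V r} {x : Y → V r} {h ξ : X → Mat ι}
    (hF : FlatS M p G) (hT : TenS M p G) (hD : DualS M p G) (hS : E.Spl Q c x h ξ) :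
    InvS8 E := by
  intro n hn e he z hz s hs v B hB
  obtain ⟨E', r1, -, p1, -, c1⟩ := hD r E
  obtain ⟨T, r2, -, p2, c2⟩ := hT r r E E'
  have hH : T.Harm h := fun e he z hz s hs => by
    simp [tg, (p2 hS.ph (p1 hS.ph) e he z hz s hs).1]
  obtain ⟨P, -, hP, -, -, -, c3⟩ := hF h hS.k (r × r) T hH (n.comap uv) fun g w hw => by
    rw [Submodule.mem_comap, r2, r1, kr_vc, transpose_transpose]
    exact hn g _ hw
  have hz' : E.H (s z) = (E.H ∘ s) z := rfl
  rw [hz', dF_eq, Finset.sum_mul, Finset.mul_sum, ← Finset.sum_sub_distrib]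
  refine n.sum_mem fun k _ => ?_
  have a1 := ad_mem hP (((c2 e he z hz s hs k).1).trans (by rw [(c1 e he z hz s hs k).1]))
    (c3 e he z hz s hs k).1 hB
  have a2 := ad_mem hP (((c2 e he z hz s hs k).2).trans (by rw [(c1 e he z hz s hs k).2]))
    (c3 e he z hz s hs k).2 hB
  have := n.add_mem (n.smul_mem (v k) a1) (n.smul_mem (star (v k)) a2)
  rw [Matrix.add_mul, Matrix.mul_add, Matrix.smul_mul, Matrix.smul_mul, Matrix.mul_smul,
    Matrix.mul_smul, add_sub_add_comm, ← smul_sub, ← smul_sub]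
  exact this

end

end Pool.Agent.Lib.MP_813db1_ag.VH.S8
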