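import Pool.Agent.Lib.MP_813db1_ag.VH.S8.Fb
import Pool.Agent.Lib.MP_813db1_ag.VH.S8.Alg
import Pool.Agent.Lib.MP_813db1_ag.VH.S8.Jz
import Pool.Agent.Lib.MP_813db1_ag.HS.E.Lim

/-! The limit fields act on the period map through the symplectic Lie algebra. -/

namespace Pool.Agent.Lib.MP_813db1_ag.VH.S8

open Pool.Agent.Lib.MP_813db1_ag.HS Pool.Agent.Lib.MP_813db1_ag.AS
open Complex Matrix Filter Topology Set Metric

noncomputable section

namespace LxAux

variable {r : Type} [Fintype r] [DecidableEq r]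

/-- the symplectic Lie algebra. -/
def spM (Q : Mat r) : Submodule ℝ (Mat r) where
  carrier := {A | Sp Q A}
  zero_mem' := ⟨by ext; simp, by simp⟩
  add_mem' := by
    rintro A B ⟨a1, a2⟩ ⟨b1, b2⟩
    refine ⟨?_, ?_⟩
    · rw [Rl, Matrix.map_add _ star_add, a1, b1]
    · rw [transpose_add, add_mul, mul_add, add_add_add_comm, a2, b2, add_zero]
  smul_mem' := by
    rintro t A ⟨a1, a2⟩
    refine ⟨?_, ?_⟩
    · ext i j
      have e : star (A i j) = A i j := congrFun (congrFun a1 i) j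
      simp only [map_apply, Matrix.smul_apply, star_smul, e, star_trivial]
    · rw [transpose_smul, Matrix.smul_mul, Matrix.mul_smul, ← smul_add, a2, smul_zero]

/-- the Cayley transform. -/
def cay (ρ : Mat r) : Mat r := (ρ - 1) * (ρ + 1)⁻¹

theorem cay_mul {ρ : Mat r} (h : (ρ + 1).det ≠ 0) : cay ρ * (ρ + 1) = ρ - 1 :=
  nonsing_inv_mul_cancel_right _ _ h.isUnit

theorem mul_cay {ρ : Mat r} (h : (ρ + 1).det ≠ 0) : (ρ + 1) * cay ρ = ρ - 1 := by
  rw [cay, ← mul_assoc, show (ρ + 1) * (ρ - 1) = (ρ - 1) * (ρ + 1) by noncomm_ring,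
    mul_nonsing_inv_cancel_right _ _ h.isUnit]

theorem cay_sp {Q ρ : Mat r} (h : (ρ + 1).det ≠ 0) (h1 : Rl ρ) (h2 : ρᵀ * Q * ρ = Q) :
    cay ρ ∈ spM Q := by
  have u : IsUnit (ρ + 1) := (isUnit_iff_isUnit_det _).2 h.isUnit
  have u' : IsUnit (ρ + 1)ᵀ := (isUnit_transpose _).2 u
  have e := cay_mul h
  refine ⟨u.mul_right_cancel ?_, u.mul_right_cancel (u'.mul_left_cancel ?_)⟩
  · have a := congrArg (starRingEnd ℂ).mapMatrix e
    have b : (starRingEnd ℂ).mapMatrix ρ = ρ := h1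
    rw [map_mul, map_add, map_sub, map_one, b] at a
    exact a.trans e.symm
  · have a : (ρ + 1)ᵀ * (((cay ρ)ᵀ * Q + Q * cay ρ) * (ρ + 1)) =
        (cay ρ * (ρ + 1))ᵀ * Q * (ρ + 1) + (ρ + 1)ᵀ * Q * (cay ρ * (ρ + 1)) := by
      rw [transpose_mul]
      noncomm_ring
    have b : (ρᵀ - 1) * Q * (ρ + 1) + (ρᵀ + 1) * Q * (ρ - 1) =
        ρᵀ * Q * ρ + ρᵀ * Q * ρ - Q - Q := by noncomm_ring
    rw [a, e, transpose_sub, transpose_add, transpose_one, b, h2]
    simp

theorem cay_comm {ρ J J' : Mat r} (h : (ρ + 1).det ≠ 0) (h1 : J' * ρ = ρ * J) (t : ℝ) :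
    (1 - cay ρ) * (t • (J' - J)) * (1 + cay ρ) =
      ((2 * t) • cay ρ) * J - J * ((2 * t) • cay ρ) := by
  have a : (1 - cay ρ) * ρ = 1 + cay ρ := by
    linear_combination (norm := noncomm_ring) -cay_mul h
  have b : ρ * (1 - cay ρ) = 1 + cay ρ := by
    linear_combination (norm := noncomm_ring) -mul_cay h
  have d : (1 - cay ρ) * J' * (1 + cay ρ) = (1 + cay ρ) * J * (1 - cay ρ) := by
    rw [← b, ← mul_assoc, mul_assoc _ J', h1, ← mul_assoc, a, b]
  have e : (1 - cay ρ) * (J' - J) * (1 + cay ρ) =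
      (cay ρ * J - J * cay ρ) + (cay ρ * J - J * cay ρ) := by
    rw [mul_sub, sub_mul, d]
    noncomm_ring
  rw [Matrix.mul_smul, Matrix.smul_mul, e, Matrix.mul_smul, Matrix.smul_mul, ← smul_sub,
    ← two_smul ℝ, smul_smul, mul_comm]

theorem cay_lim {α : Type} {l : Filter α} {ρ : α → Mat r} (h : Tendsto ρ l (𝓝 1)) :
    (∀ᶠ j in l, (ρ j + 1).det ≠ 0) ∧ Tendsto (fun j => cay (ρ j)) l (𝓝 0) := by
  have a : ((1 : Mat r) + 1).det ≠ 0 := by
    rw [← two_smul ℂ, det_smul, det_one, mul_one]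
    exact pow_ne_zero _ two_ne_zero
  have b := h.add_const 1
  refine ⟨((continuous_id.matrix_det.tendsto _).comp b).eventually_ne a, ?_⟩
  have d := (continuousAt_matrix_inv _ (by
    simpa using NormedRing.inverse_continuousAt (Units.mk0 _ a))).tendsto.comp b
  simpa [cay] using (h.sub_const 1).mul d

theorem rho_lim {G α : Type} [Group G] {l : Filter α} {ρ : G →* Mat r} (h : RealR ρ) {γ : α → G}
    (h1 : Tendsto (fun j => rA ρ h (γ j)) l (𝓝 1)) : Tendsto (fun j => ρ (γ j)) l (𝓝 1) := by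
  have e : ∀ g i j, ρ g i j = (rA ρ h g (Pi.single j 1) i : ℝ) := fun g i j => by
    have a : cv (Pi.single j (1 : ℝ)) = Pi.single j 1 := by
      funext m
      by_cases hm : m = j <;> simp [cv, hm]
    have b := congrFun (Rl.cv_rv (h g) (Pi.single j 1)) i
    rw [← rA_apply ρ h, a, mulVec_single_one] at b
    exact b.symm
  refine tendsto_pi_nhds.2 fun i => tendsto_pi_nhds.2 fun j => ?_
  rw [← map_one ρ, e, map_one]
  simp only [e]
  exact (continuous_ofReal.tendsto _).comp (tendsto_pi_nhds.1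
    (((ContinuousLinearMap.apply ℝ _ (Pi.single j 1)).continuous.tendsto _).comp h1) i)

/-- the commutators with a family. -/
def ad {T : Type} (J : T → Mat r) : Mat r →ₗ[ℝ] T → Mat r where
  toFun A y := A * J y - J y * A
  map_add' A B := funext fun y => by
    rw [Pi.add_apply]
    noncomm_ring
  map_smul' t A := funext fun y => by
    rw [Pi.smul_apply, Matrix.mul_smul, Matrix.smul_mul, smul_sub, RingHom.id_apply]

end LxAux

namespace Fb

variable {ι X Y G r : Type} [Fintype ι] [DecidableEq ι] [TopologicalSpace X] [TopologicalSpace Y]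
  [Group G] [MulAction G Y] [Fintype r] [DecidableEq r] {M : Atl ι X} {p : Y → X}
  {E : Dt M p G r} {Q : Mat r} {c : G → V r} {x : Y → V r} {h ξ : X → Mat ι} {s : Finset ι}
  {L : Matrix r (Sg' s) ℂ} {B : Fb E Q c x h s L}

open LxAux in
theorem lxS (hS : E.Spl Q c x h ξ) (ok : B.Ok) (hO : B.OvS ok) : B.LxS ok := by
  intro k η hη
  induction hη using Submodule.span_induction with
  | mem η hη =>
    obtain ⟨-, 𝓤, γ, t, ht, ht0, hA, hR⟩ := hη
    obtain ⟨c1, c2⟩ := cay_lim (rho_lim E.reR hA)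
    have cl := ((spM Q).map (ad fun y : B.Bl k => B.J k y)).closed_of_finiteDimensional
    have lim : Tendsto (fun j => ad (fun y : B.Bl k => B.J k y) ((2 * (t j)⁻¹) • cay (E.ρ (γ j))))
        𝓤 (𝓝 fun y => dF (B.J k) y (η y)) := tendsto_pi_nhds.2 fun y => by
      obtain ⟨R, h1, h2⟩ := exists_between (mem_ball.1 y.2)
      obtain ⟨h3, h4⟩ := hR R h2
      have sm := (jzS ι r algS s Q L _ _ (B.mo k).toMo0 y y.2).1
      have d : Tendsto (fun j => (t j)⁻¹ • (B.J k ((B.pg ok).rm k k (γ j) y) - B.J k y)) 𝓤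
          (𝓝 (dF (B.J k) y (η y))) := tendsto_pi_nhds.2 fun a => tendsto_pi_nhds.2 fun b => by
        refine (HS.E.LimAux.quot ((sm a b).differentiableAt (by simp)).hasFDerivAt ht ht0
          (h4.tendsto_at h1)).congr fun j => ?_
        rw [smul_inv_smul₀ (ht j).ne', add_sub_cancel]
        rfl
      have d' := ((c2.const_sub 1).mul d).mul (c2.const_add 1)
      rw [sub_zero, add_zero, one_mul, mul_one] at d'
      refine d'.congr' ?_
      filter_upwards [c1, h3] with j a1 a2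
      refine cay_comm a1 ?_ _
      rw [(hO.hol k k _ _ _ (a2 y h1)).2.2.1, mul_assoc, ← map_mul, inv_mul_cancel, map_one,
        mul_one]
    obtain ⟨A, a1, a2⟩ := cl.mem_of_tendsto lim (c1.mono fun j hj => Submodule.mem_map_of_mem
      (Submodule.smul_mem _ _ (cay_sp hj (E.reR _) (hS.pol.inv _))))
    exact ⟨A, a1, fun y hy => (congrFun a2 ⟨y, hy⟩).symm⟩
  | zero => exact ⟨0, (spM Q).zero_mem, fun y _ => by ext; simp [dF]⟩
  | add a b _ _ e1 e2 =>
    obtain ⟨A, a1, a2⟩ := e1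
    obtain ⟨A', b1, b2⟩ := e2
    refine ⟨A + A', (spM Q).add_mem a1 b1, fun y hy => ?_⟩
    have e : dF (B.J k) y ((a + b) y) = dF (B.J k) y (a y) + dF (B.J k) y (b y) := by
      ext
      simp [dF]
    rw [e, a2 y hy, b2 y hy]
    noncomm_ring
  | smul t a _ e1 =>
    obtain ⟨A, a1, a2⟩ := e1
    refine ⟨t • A, (spM Q).smul_mem t a1, fun y hy => ?_⟩
    have e : dF (B.J k) y ((t • a) y) = t • dF (B.J k) y (a y) := by
      ext
      simp [dF]
    rw [e, a2 y hy, Matrix.mul_smul, Matrix.smul_mul, smul_sub]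

end Fb

end

end Pool.Agent.Lib.MP_813db1_ag.VH.S8
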