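import Pool.Agent.Lib.MP_813db1_ag.VH.S8.Fb
import Pool.Agent.Lib.MP_813db1_ag.VH.S8.Gm
import Pool.Agent.Lib.MP_813db1_ag.VH.S8.Alg
import Pool.Agent.Lib.MP_813db1_ag.HS.AYAll

/-! Integrals over a tube. -/

namespace Pool.Agent.Lib.MP_813db1_ag.VH.S8

open Pool.Agent.Lib.MP_813db1_ag.HS
open MeasureTheory Complex Matrix Filter Topology Set Metric
open scoped ContDiff ComplexOrder ENNReal

namespace MeasAux

variable {ι : Type} [Fintype ι] [DecidableEq ι] (s : Finset ι)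

theorem fub (I : Fintype (Sg' s)) (A : Set (V (Sg' s))) (D : Set (V (Ta s)))
    (f : V (Ta s) → ℝ≥0∞) (hf : AEMeasurable f (volume.restrict D)) :
    ∫⁻ w in {w : V ι | zp s w ∈ A ∧ yp s w ∈ D}, f (yp s w) = volume A * ∫⁻ y in D, f y := by
  obtain rfl : I = Subtype.fintype _ := Subsingleton.elim _ _
  let I : Fintype (Sg' s) := Subtype.fintype _
  have a := (volume_preserving_piEquivPiSubtypeProd (fun _ : ι => ℂ)
    (· ∈ s)).setLIntegral_comp_preimage_emb (MeasurableEquiv.measurableEmbedding _)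
    (fun q => f q.2) (A ×ˢ D)
  refine a.trans ?_
  have b := lintegral_prod_mul (μ := (volume : Measure (V (Sg' s))).restrict A)
    (f := fun _ => 1) aemeasurable_const hf
  simp only [one_mul, lintegral_const, Measure.restrict_apply_univ] at b
  rw [Measure.volume_eq_prod, ← Measure.prod_restrict]
  exact b

omit [Fintype ι] [DecidableEq ι] in
theorem cyp : Continuous (yp s : V ι → V (Ta s)) := continuous_pi fun i => continuous_apply i.1

omit [Fintype ι] [DecidableEq ι] in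
theorem czp : Continuous (zp s : V ι → V (Sg' s)) := continuous_pi fun i => continuous_apply i.1

omit [Fintype ι] in
theorem cgl : Continuous fun q : V (Sg' s) × V (Ta s) => glue s q.1 q.2 :=
  continuous_pi fun i => by
    by_cases h : i ∈ s
    · simp only [glue, dif_pos h]
      exact (continuous_apply _).comp continuous_fst
    · simp only [glue, dif_neg h]
      exact (continuous_apply _).comp continuous_snd

omit [Fintype ι] in
theorem gl_eta (w : V ι) : glue s (zp s w) (yp s w) = w := by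
  funext i
  by_cases h : i ∈ s
  · exact dif_pos h
  · exact dif_neg h

end MeasAux

open MeasAux GmAux

namespace Fb

variable {ι X Y G r : Type} [Fintype ι] [DecidableEq ι] [TopologicalSpace X] [T2Space X]
  [CompactSpace X] [MeasurableSpace X] [BorelSpace X] [TopologicalSpace Y] [Group G]
  [MulAction G Y] [Fintype r] [DecidableEq r] {M : Atl ι X} {p : Y → X} {E : Dt M p G r}
  {Q : Mat r} {c : G → V r} {x : Y → V r} {h ξ : X → Mat ι} {s : Finset ι}
  {L : Matrix r (Sg' s) ℂ} {B : Fb E Q c x h s L}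

/-- the volume in a developed chart. -/
theorem meas_loc (hK : M.IsK h) {μ : Measure X} (hμ : M.IsVol h μ)
    {k : B.κ} {w₀ : V ι} (hw : yp s w₀ ∈ B.Bl k) : ∃ O ∈ 𝓝 w₀, ∀ S ⊆ O, MeasurableSet S →
      ∀ φ : X → ℝ≥0∞, ∫⁻ u in B.Θ k '' S, φ u ∂μ =
        ∫⁻ w in S, ENNReal.ofReal (Real.exp (B.ψ k (yp s w))) * φ (B.Θ k w) := by
  obtain ⟨e, he, h1, h2⟩ := B.lh k w₀ hw
  have h3 : M.repF h e =ᶠ[𝓝 w₀] pbF M h (B.Θ k) := by
    filter_upwards [h2.eventuallyEq_nhds, e.open_target.mem_nhds h1] with z a1 a2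
    have a3 : e.symm z = B.Θ k z := a1.self_of_nhds
    rw [Atl.repF, tj, e.right_inv a2, a3, jac_congr (a1.fun_comp _)]
    rfl
  have h4 : ∀ᶠ w in 𝓝 w₀, yp s w ∈ B.Bl k :=
    (cyp s).continuousAt.eventually_mem (isOpen_ball.mem_nhds hw)
  refine ⟨_, h2.and (h3.and (h4.and (e.open_target.mem_nhds h1))), fun S hS mS φ => ?_⟩
  have st : S ⊆ e.target := fun w hw => (hS hw).2.2.2
  have e1 : B.Θ k '' S = e.source ∩ e ⁻¹' S := by
    rw [← e.symm_image_eq_source_inter_preimage st]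
    exact image_congr fun w hw => (hS hw).1.symm
  rw [e1, ((AY.volS' ι X M h hK).2 μ hμ).lint e he S mS st]
  refine setLIntegral_congr_fun mS fun w hw => ?_
  obtain ⟨a1, a2, a3, -⟩ := hS hw
  have a4 := (gmS algS ι r s Q L _ _ _ (B.mo k).toMo0 (B.mo k).kon w a3).2.1
  rw [a1, a2.trans (B.met k w a3), a4, ofReal_re]
  rfl

theorem measS (hS : E.Spl Q c x h ξ) (ok : B.Ok) (hO : B.OvS ok) :
    B.MeasS ok := by
  intro μ hμ N hL k y₀ hy₀ ρ hρ
  obtain ⟨O, hO1, hO2⟩ := meas_loc hS.k hμ (k := k) (w₀ := glue s 0 y₀) (by rwa [yp_gl])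
  have n1 : ∀ᶠ q : V (Sg' s) × V (Ta s) in 𝓝 (0, y₀), glue s q.1 q.2 ∈ O :=
    (cgl s).continuousAt.eventually_mem hO1
  obtain ⟨ε, hε, hb⟩ := Metric.eventually_nhds_iff_ball.1 n1
  obtain ⟨ε', hε', hb'⟩ := nhds_basis_closedBall.mem_iff.1 (isOpen_ball.mem_nhds hy₀)
  obtain ⟨δ, d0, d1, d2, d3⟩ : ∃ δ > (0 : ℝ), δ ≤ ρ ∧ δ ≤ ε ∧ δ ≤ ε' :=
    ⟨min ρ (min ε ε'), lt_min hρ (lt_min hε hε'), min_le_left _ _,
      (min_le_right _ _).trans (min_le_left _ _), (min_le_right _ _).trans (min_le_right _ _)⟩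
  have sb : closedBall y₀ δ ⊆ B.Bl k := (closedBall_subset_closedBall d3).trans hb'
  have sb' : ball y₀ δ ⊆ B.Bl k := ball_subset_closedBall.trans sb
  have mD : ∀ R : ℝ, MeasurableSet {w : V ι | zp s w ∈ ball 0 R ∧ yp s w ∈ ball y₀ δ} := fun R =>
    ((isOpen_ball.preimage (czp s)).inter (isOpen_ball.preimage (cyp s))).measurableSet
  have cψ : ContinuousOn (B.ψ k) (ball y₀ δ) := fun y hy => by
    have a := (gmS algS ι r s Q L _ _ _ (B.mo k).toMo0 (B.mo k).kon (glue s 0 y)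
      (by rw [yp_gl]; exact sb' hy)).2.2.1
    rw [yp_gl] at a
    exact a.continuousAt.continuousWithinAt
  have fu : ∀ (R : ℝ) (φ : X → ℝ≥0∞) (f : V (Ta s) → ℝ≥0∞), Measurable f →
      (∀ w, yp s w ∈ ball y₀ δ → φ (B.Θ k w) = f (yp s w)) →
      ∫⁻ w in {w : V ι | zp s w ∈ ball 0 R ∧ yp s w ∈ ball y₀ δ},
        ENNReal.ofReal (Real.exp (B.ψ k (yp s w))) * φ (B.Θ k w) =
      volume (ball (0 : V (Sg' s)) R) *
        ∫⁻ y in ball y₀ δ, ENNReal.ofReal (Real.exp (B.ψ k y)) * f y := fun R φ f hf e => by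
    rw [← fub s _ _ _ (fun y => ENNReal.ofReal (Real.exp (B.ψ k y)) * f y)
      ((((Real.continuous_exp.comp_continuousOn cψ).aemeasurable
      measurableSet_ball).ennreal_ofReal).mul hf.aemeasurable)]
    exact setLIntegral_congr_fun (mD R) fun w hw => congrArg _ (e w hw.2)
  obtain ⟨T, hT⟩ := hL.cpt
  have cZ : ContinuousOn (fun q : (r → ℝ) × V (Ta s) => zM Q L (B.H k q.2) *ᵥ cv q.1)
      (closedBall 0 T ×ˢ closedBall y₀ δ) := continuousOn_pi.2 fun i => by
    simp only [mulVec, dotProduct, cv]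
    refine continuousOn_finsetSum _ fun j _ => ContinuousOn.mul (fun q hq => ?_) (by fun_prop)
    exact (((B.mo k).an _ (sb hq.2) i j).continuousAt.comp
      continuous_snd.continuousAt).continuousWithinAt
  obtain ⟨R, hR⟩ := ((isCompact_closedBall _ _).prod
    (isCompact_closedBall _ _)).exists_bound_of_continuousOn cZ
  have red : ∀ w, yp s w ∈ ball y₀ δ → ∃ w', ‖zp s w'‖ ≤ R ∧ yp s w' = yp s w ∧
      B.Θ k w' = B.Θ k w := fun w hw => by
    have al := algS _ _ Q L _ (B.mo k).lag ((B.mo k).sg _ (sb' hw))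
    obtain ⟨γ, g1, g2, g3⟩ := hT (rv (xm s Q L (B.H k) w))
    refine ⟨_, ?_, yp_gl _ _, hO.per k γ (g1 k) g2 w (sb' hw)⟩
    have a := hR (_, yp s w) ⟨mem_closedBall_zero_iff.2 g3, ball_subset_closedBall hw⟩
    rw [cv_add, mulVec_add, xm, cv_rv (al.rx _), al.zx] at a
    exact (congrArg norm (zp_gl _ _)).trans_le a
  obtain ⟨n, n0, hn⟩ := (((isCompact_closedBall (0 : V (Sg' s)) R).prod
    (isCompact_closedBall y₀ δ)).image (cgl s)).induction_on
    (p := fun U => ∃ n : ℝ≥0∞, n ≠ ⊤ ∧ ∀ φ : X → ℝ≥0∞,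
      ∫⁻ u in B.Θ k '' (U ∩ {w : V ι | zp s w ∈ ball 0 (R + 1) ∧ yp s w ∈ ball y₀ δ}), φ u ∂μ ≤
      n * ∫⁻ w in {w : V ι | zp s w ∈ ball 0 (R + 1) ∧ yp s w ∈ ball y₀ δ},
        ENNReal.ofReal (Real.exp (B.ψ k (yp s w))) * φ (B.Θ k w))
    ⟨0, ENNReal.zero_ne_top, fun φ => by simp⟩
    (fun _ _ hs ⟨n, n0, hn⟩ => ⟨n, n0, fun φ =>
      (lintegral_mono_set (image_mono (inter_subset_inter_left _ hs))).trans (hn φ)⟩)
    (fun _ _ ⟨n, n0, hn⟩ ⟨n', n0', hn'⟩ => ⟨n + n', ENNReal.add_ne_top.2 ⟨n0, n0'⟩, fun φ => by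
      rw [union_inter_distrib_right, image_union, add_mul]
      exact (lintegral_union_le _ _ _).trans (add_le_add (hn φ) (hn' φ))⟩)
    (by
      rintro _ ⟨q, hq, rfl⟩
      obtain ⟨U, u1, u2⟩ := meas_loc hS.k hμ (k := k) (w₀ := glue s q.1 q.2)
        (by rw [yp_gl]; exact sb hq.2)
      refine ⟨interior U, mem_nhdsWithin_of_mem_nhds (interior_mem_nhds.2 u1), 1,
        ENNReal.one_ne_top, fun φ => ?_⟩
      rw [u2 _ (inter_subset_left.trans interior_subset)
        (isOpen_interior.measurableSet.inter (mD _)), one_mul]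
      exact lintegral_mono_set inter_subset_right)
  have v1 : volume (ball (0 : V (Sg' s)) δ) ≠ ⊤ := measure_ball_lt_top.ne
  have v2 : n * volume (ball (0 : V (Sg' s)) (R + 1)) ≠ ⊤ :=
    ENNReal.mul_ne_top n0 measure_ball_lt_top.ne
  refine ⟨δ, d0, d1, _, ENNReal.toReal_pos (measure_ball_pos _ _ d0).ne' v1,
    (n * volume (ball (0 : V (Sg' s)) (R + 1))).toReal + 1, by positivity, sb,
    fun φ f hf e => ⟨?_, fun hz => ?_⟩⟩
  · rw [ENNReal.ofReal_toReal v1, ← fu δ φ f hf e, ← hO2 _ (fun w hw => ?_) (mD δ)]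
    · exact setLIntegral_le_lintegral _ _
    · rw [← gl_eta s w]
      refine hb (zp s w, yp s w) ?_
      rw [← ball_prod_same]
      exact ⟨ball_subset_ball d2 hw.1, ball_subset_ball d2 hw.2⟩
  · have a := hn φ
    rw [setLIntegral_eq_of_support_subset fun u hu => ?_, fu _ φ f hf e, ← mul_assoc] at a
    · refine a.trans (mul_le_mul_left ?_ _)
      rw [← ENNReal.ofReal_toReal v2, ENNReal.toReal_ofReal ENNReal.toReal_nonneg]
      exact ENNReal.ofReal_le_ofReal (by linarith)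
    · by_contra hc
      refine hu (hz u fun w hw e' => hc ?_)
      obtain ⟨w', a1, a2, a3⟩ := red w hw
      rw [← a2] at hw
      exact ⟨w', ⟨⟨(zp s w', yp s w'), ⟨mem_closedBall_zero_iff.2 a1, ball_subset_closedBall hw⟩,
        gl_eta s w'⟩, mem_ball_zero_iff.2 (by linarith), hw⟩, a3.trans e'⟩

end Fb

end Pool.Agent.Lib.MP_813db1_ag.VH.S8
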