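import Pool.Agent.Lib.MP_813db1_ag.VH.S8.Fb
import Pool.Agent.Lib.MP_813db1_ag.VH.S8.Liso
import Pool.Agent.Lib.MP_813db1_ag.VH.S8.Alg

/-! The elementary properties of the pseudogroup, and the unitary structure on the leaves. -/

namespace Pool.Agent.Lib.MP_813db1_ag.VH.S8.Fb

open Pool.Agent.Lib.MP_813db1_ag.HS Pool.Agent.Lib.MP_813db1_ag.AS
open Complex Matrix Filter Topology Set Metric
open scoped ComplexOrder MatrixOrder

variable {ι X Y G r : Type} [Fintype ι] [DecidableEq ι] [TopologicalSpace X] [TopologicalSpace Y]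
  [Group G] [MulAction G Y] [Fintype r] [DecidableEq r] {M : Atl ι X} {p : Y → X}
  {E : Dt M p G r} {Q : Mat r} {c : G → V r} {x : Y → V r} {h ξ : X → Mat ι} {s : Finset ι}
  {L : Matrix r (Sg' s) ℂ} {B : Fb E Q c x h s L}

theorem c_real [Nonempty Y] (hS : E.Spl Q c x h ξ) (γ : G) : star (c γ) = c γ := by
  obtain ⟨y⟩ := ‹Nonempty Y›
  have := hS.pol.rx (γ • y)
  rwa [hS.aff.2, star_add, Rl.star_mulVec (E.reR γ), hS.pol.rx, add_right_inj] at this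

theorem ok1 [T2Space X] [Nonempty Y] (hq : IsQuotientCoveringMap p G) (hS : E.Spl Q c x h ξ) :
    B.Ok1 := by
  have t2 : T2Space Y := ⟨fun a b e => by
    by_cases e' : p a = p b
    · exact hq.isCoveringMap.isSeparatedMap a b e' e
    · exact separated_by_continuous hq.continuous e'⟩
  have := hq.toContinuousConstSMul
  have := hq.isCancelSMul
  have coc : ∀ a b, rv (c (a * b)) = rv (c a) + rA E.ρ E.reR a (rv (c b)) := fun a b => by
    rw [hS.aff.coc, rv_add, rA_apply, cv_rv (c_real hS b)]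
  have c1 : rv (c 1) = 0 := by simpa using coc 1 1
  have cmp : ∀ a b u, rA E.ρ E.reR (a * b) u + rv (c (a * b)) =
      rA E.ρ E.reR a (rA E.ρ E.reR b u + rv (c b)) + rv (c a) := fun a b u => by
    rw [coc, map_mul, map_add, mul_apply_eq_comp]
    abel
  have one : ∀ u, rA E.ρ E.reR 1 u + rv (c 1) = u := fun u => by simp [c1]
  have ct : ∀ k v, ∀ y ∈ B.Bl k, ContinuousAt (B.Ψ k v) y := fun k v y hy =>
    ((B.cont k).continuousAt (prod_mem_nhds univ_mem (isOpen_ball.mem_nhds hy))).comp_of_eq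
      (f := fun y => (v, y)) (by fun_prop) rfl
  obtain ⟨θ, -, T, hc⟩ := B.cov
  obtain ⟨-, k0, -⟩ := hc (Classical.arbitrary Y)
  refine ⟨⟨k0⟩, fun k => (lisoS _ _ (B.β k)).1 _ (B.mo k).kon, coc,
    fun hy => ⟨hy, hy, fun u => by rw [one, one_smul]⟩, fun {k l γ y y'} a => ⟨a.2.1, a.1, fun u => ?_⟩,
    fun a b => ⟨a.1, b.2.1, fun u => by rw [cmp, b.2.2, a.2.2, mul_smul]⟩,
    fun a b => B.inj _ _ _ a.2.1 _ b.2.1 ((a.2.2 0).trans (b.2.2 0).symm),
    fun {k l γ y y'} a => ?_, fun {k l γ y y'} hy hy' a => ⟨hy, hy', fun u => ?_⟩,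
    fun {k γ y} a h1 h2 => ?_⟩
  · rw [eq_inv_smul_iff, ← a.2.2, ← cmp, mul_inv_cancel, one]
  · obtain ⟨φ, a1, a2, a3⟩ := B.lt k l γ _ _ y a.1 y' a.2.1 (a.2.2 0).symm
    refine ⟨φ, a1, a2, ?_⟩
    filter_upwards [a3, isOpen_ball.mem_nhds a.1,
      a2.cont.eventually (isOpen_ball.mem_nhds (a1 ▸ a.2.1))] with w b1 b2 b3 using ⟨b2, b3, b1⟩
  · exact tendsto_nhds_unique_of_frequently_eq
      ((ct l _ y' hy').tendsto.comp (continuous_snd.tendsto (y, y')))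
      (((ct k u y hy).tendsto.comp (continuous_fst.tendsto (y, y'))).const_smul γ)
      (a.mono fun q b => b.2.2 u)
  · have := a.2.2 0
    rw [h1, h2, map_zero, add_zero] at this
    exact IsCancelSMul.eq_one_of_smul this.symm

theorem eucS (hS : E.Spl Q c x h ξ) (ok : B.Ok) : B.EucS ok := by
  obtain ⟨k⟩ := ok.ne
  have h0 : (0 : V (Ta s)) ∈ B.Bl k := mem_ball_self (B.mo k).pos
  have A := algS _ _ Q L _ (B.mo k).lag ((B.mo k).sg 0 h0)
  obtain ⟨S, hu, e⟩ := CStarAlgebra.isStrictlyPositive_iff_eq_star_mul_self.1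
    A.mu.transpose.isStrictlyPositive
  let f : V (Sg' s) ≃ₗ[ℂ] EuclideanSpace ℂ (Fin (Fintype.card (Sg' s))) :=
    (S.toLinearEquiv' hu.invertible).trans ((WithLp.linearEquiv 2 ℂ _).symm.trans
      (LinearIsometryEquiv.piLpCongrLeft 2 ℂ ℂ (Fintype.equivFin _)).toLinearEquiv)
  have nf : ∀ a, ‖f a‖ ^ 2 = (ipV (muM L (B.H k 0)) a a).re := fun a => by
    have e1 : ‖f a‖ = ‖WithLp.toLp 2 (S *ᵥ a)‖ :=
      (LinearIsometryEquiv.piLpCongrLeft 2 ℂ ℂ (Fintype.equivFin _)).norm_map _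
    have e2 : ipV (muM L (B.H k 0)) a a = star a ⬝ᵥ (muM L (B.H k 0))ᵀ *ᵥ a := by
      simp only [ipV, dotProduct, mulVec, Finset.mul_sum, transpose_apply, Pi.star_apply]
      rw [Finset.sum_comm]
      exact Finset.sum_congr rfl fun i _ => Finset.sum_congr rfl fun j _ => by ring
    rw [e1, e2, e, ← mulVec_mulVec, dotProduct_mulVec, star_eq_conjTranspose, ← star_mulVec,
      ← inner_self_eq_norm_sq (𝕜 := ℂ), EuclideanSpace.inner_toLp_toLp, dotProduct_comm]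
    rfl
  let j : (r → ℝ) ≃ₗ[ℝ] V (Sg' s) :=
    { toFun v := zM Q L (B.H k 0) *ᵥ cv v
      map_add' u v := by rw [cv_add, mulVec_add]
      map_smul' t v := by
        have e : cv (t • v) = t • cv v := funext fun _ => ofReal_mul _ _
        rw [e, mulVec_smul]
        rfl
      invFun z := rv (xM Q L (B.H k 0) z)
      left_inv v := by simp only [A.xz, rv_cv]
      right_inv z := by simp only [cv_rv (A.rx z), A.zx] }
  refine ⟨_, (j.trans (f.restrictScalars ℝ)).toContinuousLinearEquiv, fun γ hγ => ?_⟩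
  have a : B.Rel k k γ 0 0 := hγ k 0 h0
  have e3 : (E.ρ γ⁻¹)ᵀ * B.H k 0 * E.ρ γ⁻¹ = B.H k 0 := by
    rw [← B.HΨ k 0 0 h0, ← E.eqv, ← a.2.2, B.HΨ k _ 0 h0, B.HΨ k _ 0 h0]
  obtain ⟨-, -, a1, -, a2⟩ := A.eqv _ _ (E.reR γ) (E.inv_mul γ) (hS.pol.inv γ)
  rw [e3] at a1 a2
  let u : EuclideanSpace ℂ (Fin (Fintype.card (Sg' s))) →ₗᵢ[ℂ]
      EuclideanSpace ℂ (Fin (Fintype.card (Sg' s))) :=
    ⟨f.toLinearMap ∘ₗ (zM Q L (B.H k 0) * E.ρ γ * L).mulVecLin ∘ₗ f.symm.toLinearMap, fun b => by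
      obtain ⟨a, rfl⟩ := f.surjective b
      rw [← sq_eq_sq₀ (norm_nonneg _) (norm_nonneg _), nf a, a2, HS.AtlAux.ipV_pull, ← nf]
      simp [Matrix.mul_assoc]⟩
  refine ⟨u.toLinearIsometryEquiv rfl, fun v => ?_⟩
  change f (zM Q L (B.H k 0) *ᵥ cv (rv (E.ρ γ *ᵥ cv v))) =
    f ((zM Q L (B.H k 0) * E.ρ γ * L) *ᵥ f.symm (f (zM Q L (B.H k 0) *ᵥ cv v)))
  rw [Rl.cv_rv (E.reR γ), f.symm_apply_apply, mulVec_mulVec, mulVec_mulVec, ← a1]

end Pool.Agent.Lib.MP_813db1_ag.VH.S8.Fb
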