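import Pool.Agent.Lib.MP_813db1_ag.VH.S8.Fb
import Pool.Agent.Lib.MP_813db1_ag.VH.S8.Nil

/-! The second part of the axioms of the pseudogroup. -/

namespace Pool.Agent.Lib.MP_813db1_ag.VH.S8.Fb

open Pool.Agent.Lib.MP_813db1_ag.HS Pool.Agent.Lib.MP_813db1_ag.AS
open Complex Matrix Filter Topology Set Metric
open scoped ComplexOrder

variable {ι X Y G r : Type} [Fintype ι] [DecidableEq ι] [TopologicalSpace X] [TopologicalSpace Y]
  [Group G] [MulAction G Y] [Fintype r] [DecidableEq r] {M : Atl ι X} {p : Y → X}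
  {E : Dt M p G r} {Q : Mat r} {c : G → V r} {x : Y → V r} {h : X → Mat ι} {s : Finset ι}
  {L : Matrix r (Sg' s) ℂ} {B : Fb E Q c x h s L}

theorem fin_pd [T2Space X] (hq : IsQuotientCoveringMap p G) {K K' : Set Y} (hK : IsCompact K)
    (hK' : IsCompact K') : {γ : G | ∃ q ∈ K, γ • q ∈ K'}.Finite := by
  by_contra hS
  have := Infinite.to_subtype hS
  choose q q1 q2 using fun γ : {γ : G | ∃ q ∈ K, γ • q ∈ K'} => γ.2
  obtain ⟨a, -, ha⟩ := hK.ultrafilter_le_nhds ((hyperfilter _).map q)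
    (le_principal_iff.2 (Eventually.of_forall q1 :))
  obtain ⟨b, -, hb⟩ := hK'.ultrafilter_le_nhds ((hyperfilter _).map fun γ => γ.1 • q γ)
    (le_principal_iff.2 (Eventually.of_forall q2 :))
  obtain ⟨δ, rfl⟩ := hq.apply_eq_iff_mem_orbit.1 (tendsto_nhds_unique
    ((hq.continuous.tendsto a).comp ha)
    (((hq.continuous.tendsto b).comp hb).congr fun γ => hq.map_smul _))
  obtain ⟨U, hU, hd⟩ := hq.disjoint (δ • b)
  refine ((finite_singleton δ⁻¹).preimage (f := fun γ : {γ : G | ∃ q ∈ K, γ • q ∈ K'} => γ.1)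
    Subtype.val_injective.injOn).notMem_hyperfilter ?_
  filter_upwards [ha hU, (((hq.continuous_const_smul δ).tendsto b).comp hb) hU] with γ h1 h2
  exact eq_inv_of_mul_eq_one_right (hd _ ⟨_, ⟨_, h1, mul_smul _ _ _⟩, h2⟩)

theorem rel_of {k l : B.κ} {γ : G} {v v' : r → ℝ} {y y' : V (Ta s)} (hy : y ∈ B.Bl k)
    (hy' : y' ∈ B.Bl l) (e : γ • B.Ψ k v y = B.Ψ l v' y') :
    B.Rel k l γ y y' ∧ rA E.ρ E.reR γ v + rv (c γ) = v' := by
  obtain ⟨φ, rfl, -, h⟩ := B.lt k l γ v v' y hy y' hy' e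
  refine ⟨⟨hy, hy', h.self_of_nhds⟩, ?_⟩
  have := congrArg (fun q => rv (x q)) ((h.self_of_nhds v).trans e)
  simpa only [B.xΨ l _ _ hy', rv_cv] using this

theorem cov' (B : Fb E Q c x h s L) : ∃ θ < (1 : ℝ), ∃ T : ℝ, ∀ q : Y, ∃ g : G, ∃ k v y, ‖v‖ ≤ T ∧
    ‖y‖ ≤ θ * B.R k ∧ y ∈ B.Bl k ∧ g • q = B.Ψ k v y := by
  obtain ⟨θ, h1, T, h2⟩ := B.cov
  refine ⟨θ, h1, T, fun q => ?_⟩
  obtain ⟨g, k, v, y, a, b, e⟩ := h2 q
  exact ⟨g, k, v, y, a, b, mem_ball_zero_iff.2 (b.trans_lt (mul_lt_of_lt_one_left (B.mo k).pos h1)),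
    e⟩

theorem ok2 [T2Space X] [PreconnectedSpace Y] (hq : IsQuotientCoveringMap p G) : B.Ok2 := by
  obtain ⟨θ, h1, T, h2⟩ := B.cov'
  have sb : ∀ {k R}, R < B.R k → closedBall (0 : V (Ta s)) R ⊆ B.Bl k := closedBall_subset_ball
  refine ⟨fun S hS k γ l δ hk => ?_, fun k l R R' T hR hR' => ?_, fun k l R R' hR hR' => ?_,
    θ, h1, T, fun k y hy v => ?_⟩
  · let A : (B.κ → G → Prop) → Set Y := fun T =>
      {q | ∃ k a v, ∃ y ∈ B.Bl k, a⁻¹ • q = B.Ψ k v y ∧ T k a}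
    have op : ∀ T, IsOpen (A T) := fun T => isOpen_iff_mem_nhds.2 <| by
      rintro q ⟨k, a, v, y, hy, e, t⟩
      filter_upwards [((hq.continuous_const_smul a⁻¹).tendsto q).eventually
        (e ▸ B.opn k v y hy)] with q' ⟨v', y', hy', e'⟩
      exact ⟨k, a, v', y', hy', e', t⟩
    have st : ∀ q ∈ A S, ∀ l b v, ∀ y ∈ B.Bl l, b⁻¹ • q = B.Ψ l v y → S l b := by
      rintro q ⟨k, a, v, y, hy, e, t⟩ l b v' y' hy' e'
      refine hS k l b (b⁻¹ * a) y y' (rel_of hy hy' (v := v) (v' := v') ?_).1 ?_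
      · rw [← e, ← e', mul_smul, smul_inv_smul]
      · rwa [mul_inv_cancel_left]
    have z : ∀ k, (0 : V (Ta s)) ∈ B.Bl k := fun k => mem_ball_self (B.mo k).pos
    refine st (δ • B.Ψ l 0 0) (IsPreconnected.subset_left_of_subset_union (op S)
      (op fun k a => ¬ S k a) (disjoint_left.2 ?_) (fun q _ => ?_)
      ⟨γ • B.Ψ k 0 0, mem_univ _, k, γ, 0, 0, z k, inv_smul_smul _ _, hk⟩ isPreconnected_univ
      (mem_univ _)) l δ 0 0 (z l) (inv_smul_smul _ _)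
    · rintro q m ⟨k, a, v, y, hy, e, t⟩
      exact t (st q m k a v y hy e)
    · obtain ⟨g, k, v, y, -, -, hy, e⟩ := h2 q
      rw [← inv_inv g] at e
      exact (em (S k g⁻¹)).imp (fun t => ⟨k, _, v, y, hy, e, t⟩) fun t => ⟨k, _, v, y, hy, e, t⟩
  · have cp : ∀ k R, R < B.R k → ∀ T, IsCompact ((fun q : (r → ℝ) × V (Ta s) => B.Ψ k q.1 q.2) ''
        (closedBall 0 T ×ˢ closedBall 0 R)) := fun k R hR T =>
      ((isCompact_closedBall _ _).prod (isCompact_closedBall _ _)).image_of_continuousOn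
        ((B.cont k).mono (prod_mono (subset_univ _) (sb hR)))
    refine (fin_pd hq (cp k R hR 0) (cp l R' hR' T)).subset ?_
    rintro γ ⟨t, y, hy, y', hy', -, -, e⟩
    refine ⟨_, ⟨(0, y), ⟨mem_closedBall_self le_rfl, hy⟩, rfl⟩,
      (rv (c γ), y'), ⟨mem_closedBall_zero_iff.2 t, hy'⟩, ?_⟩
    simpa only [map_zero, zero_add] using e 0
  · have cp : ∀ k R, R < B.R k → IsCompact (B.H k '' closedBall 0 R) := fun k R hR =>
      (isCompact_closedBall _ _).image_of_continuousOn fun y hy =>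
        (continuousAt_pi.2 fun i => continuousAt_pi.2 fun j =>
          ((B.mo k).sm y (sb hR hy) i j).continuousAt).continuousWithinAt
    have ps : ∀ k R, R < B.R k → ∀ H ∈ B.H k '' closedBall 0 R, H.PosDef := by
      rintro k R hR _ ⟨y, hy, rfl⟩
      exact ((B.mo k).sg y (sb hR hy)).pos
    obtain ⟨C, hC⟩ := bdS r _ _ (cp k R hR) (cp l R' hR') (ps k R hR) (ps l R' hR')
    refine ⟨C, fun γ y hy y' hy' ⟨a, b, e⟩ => hC _ ⟨y, hy, rfl⟩ _ ⟨y', hy', rfl⟩ _ (E.reR γ) ?_⟩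
    rw [← B.HΨ l _ y' b, e 0, E.eqv, B.HΨ k _ y a, Matrix.mul_assoc, Matrix.mul_assoc, ← map_mul,
      inv_mul_cancel, map_one, Matrix.mul_one, ← Matrix.mul_assoc, ← transpose_mul, ← map_mul,
      inv_mul_cancel, map_one, transpose_one, Matrix.one_mul]
  · obtain ⟨g, l, v', y', a, b, hy', e⟩ := h2 (B.Ψ k v y)
    obtain ⟨e1, e2⟩ := rel_of hy hy' e
    exact ⟨l, g, y', mem_closedBall_zero_iff.2 b, e1, e2 ▸ a⟩

end Pool.Agent.Lib.MP_813db1_ag.VH.S8.Fb
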