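import Pool.Agent.Lib.MP_813db1_ag.VH.S8.Fb
import Pool.Agent.Lib.MP_813db1_ag.VH.S8.Liso
import Pool.Agent.Lib.MP_813db1_ag.VH.S8.Mod
import Pool.Agent.Lib.MP_813db1_ag.VH.S8.Alg
import Pool.Agent.Lib.MP_813db1_ag.VH.S8.Tr

/-! Overlaps of the developed charts. -/

namespace Pool.Agent.Lib.MP_813db1_ag.VH.S8.Fb

open Pool.Agent.Lib.MP_813db1_ag.HS Pool.Agent.Lib.MP_813db1_ag.AS
open Complex Matrix Filter Topology Set Metric
open scoped ComplexOrder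

variable {ι X Y G r : Type} [Fintype ι] [DecidableEq ι] [TopologicalSpace X] [TopologicalSpace Y]
  [Group G] [MulAction G Y] [Fintype r] [DecidableEq r] {M : Atl ι X} {p : Y → X}
  {E : Dt M p G r} {Q : Mat r} {c : G → V r} {x : Y → V r} {h ξ : X → Mat ι} {s : Finset ι}
  {L : Matrix r (Sg' s) ℂ} {B : Fb E Q c x h s L}

namespace OvA

omit [Fintype ι] in
theorem zp_gl (z : V (Sg' s)) (y : V (Ta s)) : zp s (glue s z y) = z :=
  funext fun i => dif_pos i.2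

omit [Fintype ι] in
theorem yp_gl (z : V (Sg' s)) (y : V (Ta s)) : yp s (glue s z y) = y :=
  funext fun i => dif_neg i.2

omit [Fintype ι] in
theorem gl_zy (w : V ι) : glue s (zp s w) (yp s w) = w := funext fun i => by
  unfold glue
  split_ifs <;> rfl

omit [Fintype ι] [DecidableEq ι] in
theorem yp_cont : Continuous (yp s) := continuous_pi fun _ => continuous_apply _

theorem c_real (hS : E.Spl Q c x h ξ) (ok : B.Ok) (γ : G) : star (c γ) = c γ := by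
  obtain ⟨k⟩ := ok.ne
  have e := hS.aff.2 γ (B.Ψ k 0 0)
  have e2 := congrArg star e
  rw [hS.pol.rx, star_add, Rl.star_mulVec (E.reR γ), hS.pol.rx, e] at e2
  exact (add_left_cancel e2).symm

theorem alg (hA : AlgS) {k : B.κ} {y : V (Ta s)} (hy : y ∈ B.Bl k) : Alg Q L (B.H k y) :=
  hA r _ Q L _ (B.mo k).lag ((B.mo k).sg y hy)

theorem cv_xm (hA : AlgS) {k : B.κ} {w : V ι} (hw : yp s w ∈ B.Bl k) :
    cv (rv (xm s Q L (B.H k) w)) = xm s Q L (B.H k) w := cv_rv ((alg hA hw).rx _)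

theorem x_th (hA : AlgS) {k : B.κ} {w : V ι} (hw : yp s w ∈ B.Bl k) :
    x (B.Θt k w) = xm s Q L (B.H k) w := (B.xΨ k _ _ hw).trans (cv_xm hA hw)

theorem rel_H {k l : B.κ} {γ : G} {y y' : V (Ta s)} (hr : B.Rel k l γ y y') :
    B.H l y' = (E.ρ γ⁻¹)ᵀ * B.H k y * E.ρ γ⁻¹ := by
  rw [← B.HΨ l _ y' hr.2.1, hr.2.2 0, E.eqv, B.HΨ k 0 y hr.1]

theorem an_rm (ok : B.Ok) {k l : B.κ} {γ : G} {y y' : V (Ta s)} (hr : B.Rel k l γ y y') :
    AnalyticAt ℂ ((B.pg ok).rm k l γ) y ∧ ∀ᶠ w in 𝓝 y,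
      B.β k w = pull (jac ((B.pg ok).rm k l γ) w) (B.β l ((B.pg ok).rm k l γ w)) :=
  ((lisoS _ (B.β k) (B.β l)).2 _ y).1 (PG.liso (P := B.pg ok) hr)

theorem trs (hT : TrS ι r) (hS : E.Spl Q c x h ξ) (ok : B.Ok) {k l : B.κ} {γ : G} {w : V ι}
    {y' : V (Ta s)} (hr : B.Rel k l γ (yp s w) y') : AnalyticAt ℂ (B.tr ok k l γ) w ∧
    xm s Q L (B.H l) (B.tr ok k l γ w) = E.ρ γ *ᵥ xm s Q L (B.H k) w + c γ ∧
    (jac (B.tr ok k l γ) w).det =
      (zM Q L (B.H l y') * E.ρ γ * L).det * (jac ((B.pg ok).rm k l γ) (yp s w)).det ∧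
    ∀ t, B.tr ok k l γ (B.sh k t w) = B.sh l ((B.pg ok).A γ t) (B.tr ok k l γ w) := by
  have e : (B.pg ok).rm k l γ (yp s w) = y' := PG.rm_eq (P := B.pg ok) hr
  obtain ⟨a1, a2, a3, -, a5, -⟩ := hT s Q L (B.H k) (B.H l) (B.R k) (B.R l) (E.ρ γ) (E.ρ γ⁻¹) (c γ)
    ((B.pg ok).rm k l γ) w (B.mo k).toMo0 (B.mo l).toMo0 (E.reR γ) (E.inv_mul γ) (hS.pol.inv γ)
    (c_real hS ok γ) hr.1 (by rw [e]; exact hr.2.1) (an_rm ok hr).1
    ((PG.loc' (P := B.pg ok) hr).2.mono fun u hu => rel_H hu)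
  rw [e] at a3
  exact ⟨a1, a2, a3, a5⟩

theorem yp_tr (ok : B.Ok) {k l : B.κ} {γ : G} {w : V ι} {y' : V (Ta s)}
    (hr : B.Rel k l γ (yp s w) y') : yp s (B.tr ok k l γ w) = y' :=
  (yp_gl _ _).trans (PG.rm_eq (P := B.pg ok) hr)

theorem th_tr (hA : AlgS) (hT : TrS ι r) (hS : E.Spl Q c x h ξ) (ok : B.Ok) {k l : B.κ} {γ : G}
    {w : V ι} {y' : V (Ta s)} (hr : B.Rel k l γ (yp s w) y') :
    B.Θt l (B.tr ok k l γ w) = γ • B.Θt k w := by
  rw [Θt, Θt, yp_tr ok hr, (trs hT hS ok hr).2.1, ← hr.2.2, rA_apply, cv_xm hA hr.1, rv_add]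

end OvA

open OvA in
theorem ovS' (hA : AlgS) (hT : TrS ι r) (hF : ShfS ι r) (hq : IsQuotientCoveringMap p G)
    (hS : E.Spl Q c x h ξ) (ok : B.Ok) : B.OvS ok where
  surj a := by
    obtain ⟨q, rfl⟩ := hq.surjective a
    obtain ⟨θ, hθ, T, hc⟩ := B.cov
    obtain ⟨g, k, v, y, -, hy, e⟩ := hc q
    have hy' : y ∈ B.Bl k := mem_ball_zero_iff.2
      (hy.trans_lt (mul_lt_of_lt_one_left (B.mo k).pos hθ))
    refine ⟨k, glue s (zM Q L (B.H k y) *ᵥ cv v) y, by rw [yp_gl]; exact hy', ?_⟩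
    rw [Θ, Θt, xm, yp_gl, zp_gl, (alg hA hy').xz, rv_cv, ← e, hq.map_smul]
  cont k w hw := by
    have c1 : ContinuousAt (xm s Q L (B.H k)) w :=
      (smV_iff.1 (modS ι r hA s Q L _ _ (B.mo k).toMo0 w hw).1).continuousAt
    have c2 : Continuous (rv : V r → r → ℝ) :=
      continuous_pi fun i => continuous_re.comp (continuous_apply i)
    exact ContinuousAt.comp (f := fun u => (rv (xm s Q L (B.H k) u), yp s u))
      ((B.cont k).continuousAt ((isOpen_univ.prod isOpen_ball).mem_nhds ⟨trivial, hw⟩))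
      ((c2.continuousAt.comp c1).prodMk yp_cont.continuousAt)
  ex k l w w' hw hw' e := by
    obtain ⟨γ, hγ⟩ := hq.apply_eq_iff_mem_orbit.1 e.symm
    have hγ' : γ • B.Θt k w = B.Θt l w' := hγ
    obtain ⟨φ, e1, -, e2⟩ := B.lt k l γ _ _ _ hw _ hw' hγ'
    have hr : B.Rel k l γ (yp s w) (yp s w') := ⟨hw, hw', e1 ▸ e2.self_of_nhds⟩
    refine ⟨γ, hr, ?_⟩
    have e3 : (B.pg ok).rm k l γ (yp s w) = yp s w' := PG.rm_eq (P := B.pg ok) hr
    rw [tr, trM, e3, ← x_th hA hw, ← hS.aff.2, hγ', x_th hA hw', xm, (alg hA hw').zx, gl_zy]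
  hol k l γ y y' hr := by
    have e : (B.pg ok).rm k l γ y = y' := PG.rm_eq (P := B.pg ok) hr
    have a := (alg hA hr.1).eqv _ _ (E.reR γ) (E.inv_mul γ) (hS.pol.inv γ)
    have b := (an_rm ok hr).2.self_of_nhds
    rw [e] at b
    rw [← rel_H hr] at a
    refine ⟨(an_rm ok hr).1, rel_H hr, a.2.1, b, fun h0 => ?_, a.2.2.2.1⟩
    refine ((B.mo k).kon.2 y hr.1).det_pos.ne' ?_
    rw [b, pull, det_mul, det_mul, det_transpose, h0, zero_mul, zero_mul]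
  tr k l γ w y' hr := by
    obtain ⟨a1, -, a3, a4⟩ := trs hT hS ok hr
    refine ⟨a1, yp_tr ok hr, ?_, a3, a4⟩
    refine (yp_cont.continuousAt.eventually (PG.loc' (P := B.pg ok) hr).2).mono fun u hu => ?_
    change p _ = p (B.Θt l _)
    rw [th_tr hA hT hS ok hu, hq.map_smul]
  per k γ hk h1 w hw := by
    obtain ⟨-, a2, a3, -⟩ :=
      (hF s Q L _ _ (B.mo k).toMo0 w hw).2.2.2 ((B.pg ok).c γ)
    have hr : B.Rel k k γ (yp s w) (yp s w) := hk _ hw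
    have e := hr.2.2 (rv (xm s Q L (B.H k) w))
    have h1' : rA E.ρ E.reR γ = 1 := h1
    rw [h1', one_apply_eq_self] at e
    unfold Θ Θt sh
    rw [a2, a3, rv_add, rv_cv]
    exact (congrArg p e).trans (hq.map_smul γ)

theorem ovS (hq : IsQuotientCoveringMap p G) (hS : E.Spl Q c x h ξ) (ok : B.Ok) : B.OvS ok :=
  ovS' algS (trS algS) (shfS algS (trS algS)) hq hS ok

end Pool.Agent.Lib.MP_813db1_ag.VH.S8.Fb
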