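import Pool.Agent.Lib.MP_813db1_ag.VH.S8.Fb
import Pool.Agent.Lib.MP_813db1_ag.VH.S8.Gm
import Pool.Agent.Lib.MP_813db1_ag.VH.S8.Alg
import Pool.Agent.Lib.MP_813db1_ag.HS.PeakX
import Pool.Agent.Lib.MP_813db1_ag.HS.Peak

/-! Many peak sections on a tube. -/

namespace Pool.Agent.Lib.MP_813db1_ag.VH.S8

open Pool.Agent.Lib.MP_813db1_ag.HS Pool.Agent.Lib.MP_813db1_ag.AS PeakX
open MeasureTheory Complex Matrix Filter Topology Set Metric
open scoped ContDiff ComplexOrder ENNReal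

namespace Pk8

variable {τ : Type} [Fintype τ] {D O : Set (V τ)} {F : V τ → ℂ} {P ψ : V τ → ℝ}

theorem bd {A : V τ → Mat τ} {K : Set (V τ)} (hK : IsCompact K) (h : SmM A K) :
    ∃ L, ∀ y ∈ K, Bd L (A y) := by
  obtain ⟨L, hL⟩ := hK.exists_bound_of_continuousOn (f := fun y i j => A y i j)
    (continuousOn_pi.2 fun i => continuousOn_pi.2 fun j y hy =>
      (h y hy i j).continuousAt.continuousWithinAt)
  exact ⟨L, fun y hy i j => ((norm_le_pi_norm (fun j => A y i j) j).trans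
    (norm_le_pi_norm (fun i j => A y i j) i)).trans (hL y hy)⟩

theorem tube {W X : Type} [TopologicalSpace X] [CompactSpace X] [MeasurableSpace X] [BorelSpace X]
    {μ : Measure X} [IsFiniteMeasure μ] {T : W → X} {π : W → V τ} {c₁ c₂ : ℝ} (h1 : 0 < c₁)
    (h2 : 0 < c₂) (hm : ∀ (φ : X → ℝ≥0∞) (f : V τ → ℝ≥0∞), Measurable f →
      (∀ w, π w ∈ O → φ (T w) = f (π w)) →
      ENNReal.ofReal c₁ * ∫⁻ y in O, ENNReal.ofReal (Real.exp (ψ y)) * f y ≤ ∫⁻ u, φ u ∂μ ∧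
      ((∀ u, (∀ w, π w ∈ O → T w ≠ u) → φ u = 0) → ∫⁻ u, φ u ∂μ ≤
        ENNReal.ofReal c₂ * ∫⁻ y in O, ENNReal.ofReal (Real.exp (ψ y)) * f y))
    (hD : IsOpen D) (hO : O ⊆ D) (hψ : ContinuousOn ψ D) (hc : HasCompactSupport F)
    (hs : tsupport F ⊆ O) (hP : ContinuousOn P D) (h0 : ∀ y ∉ tsupport F, P y = 0)
    (hn : ∀ y ∈ D, 0 ≤ P y) (b : ℕ) {φ : X → ℂ} (hφ : Continuous φ)
    (e : ∀ w, π w ∈ O → (φ (T w)).re = P (π w) * Real.exp (-(b + 1 : ℕ) * ψ (π w)))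
    (z : ∀ u, (∀ w, π w ∈ O → T w ≠ u) → φ u = 0) :
    c₁ * ∫ y, P y * Real.exp (-b * ψ y) ≤ (∫ u, φ u ∂μ).re ∧
      (∫ u, φ u ∂μ).re ≤ c₂ * ∫ y, P y * Real.exp (-b * ψ y) := by
  have g : ∀ a : ℕ, _ := fun a => good (φ := fun y => P y * Real.exp (-a * ψ y)) hD hc (hs.trans hO)
    (hP.mul (continuousOn_const.mul hψ).rexp) fun y hy => by rw [h0 y hy, zero_mul]
  have n : ∀ (a : ℕ) y, 0 ≤ P y * Real.exp (-a * ψ y) := fun a y => by
    by_cases k : y ∈ tsupport F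
    · exact mul_nonneg (hn y (hO (hs k))) (Real.exp_pos _).le
    · rw [h0 y k, zero_mul]
  have n' : ∀ u, 0 ≤ (φ u).re := fun u => by
    by_cases k : ∀ w, π w ∈ O → T w ≠ u
    · rw [z u k, zero_re]
    · push Not at k
      obtain ⟨w, k, rfl⟩ := k
      rw [e w k]
      exact n _ _
  have i := hφ.integrable_of_hasCompactSupport (μ := μ) (HasCompactSupport.of_compactSpace _)
  obtain ⟨k1, k2⟩ := hm (fun u => ENNReal.ofReal (φ u).re) _
    (g (b + 1)).1.measurable.ennreal_ofReal fun w hw => by rw [e w hw]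
  have k3 := k2 fun u hu => by rw [z u hu, zero_re, ENNReal.ofReal_zero]
  have e1 : ∀ y, ENNReal.ofReal (Real.exp (ψ y)) * ENNReal.ofReal (P y *
      Real.exp (-(b + 1 : ℕ) * ψ y)) = ENNReal.ofReal (P y * Real.exp (-b * ψ y)) := fun y => by
    rw [← ENNReal.ofReal_mul (Real.exp_pos _).le, mul_left_comm, ← Real.exp_add]
    congr 3
    push_cast
    ring
  have i0 : 0 ≤ ∫ y, P y * Real.exp (-b * ψ y) := integral_nonneg fun y => n b y
  simp only [e1] at k1 k3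
  rw [setLIntegral_eq_of_support_subset (s := O) (fun y hy => hs (by_contra fun k => hy (by
      simp [h0 y k]))), ← ofReal_integral_eq_lintegral_ofReal (g b).2 (Eventually.of_forall (n b)),
    ← ofReal_integral_eq_lintegral_ofReal (f := fun u => (φ u).re) i.re (Eventually.of_forall n'),
    ← ENNReal.ofReal_mul (by positivity), ENNReal.ofReal_le_ofReal_iff
      (by first | exact integral_nonneg n' | positivity)] at k1 k3
  rw [← RCLike.re_to_complex, ← integral_re i]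
  exact ⟨k1, k3⟩

theorem cR [DecidableEq τ] {H : V τ → Mat τ} (hH : KOn H D) (hF : ContDiff ℝ ∞ F) :
    ContinuousOn (fun y => nV (H y) (shp H F y)) D := by
  have i := hH.1.1.inv fun y hy => (hH.2 y hy).det_pos.ne'
  have c : ContinuousOn (shp H F) D := continuousOn_pi.2 fun i' =>
    continuousOn_finsetSum _ fun j _ y hy => ((i y hy j i').continuousAt.mul
      (contDiffAt_dzb_top hF.contDiffAt j).continuousAt).continuousWithinAt
  have := (FG.cont_nV hH.1.1).comp (continuousOn_id.prodMk c) fun y hy => ⟨hy, trivial⟩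
  simpa only [Function.comp_def, id] using this

end Pk8

namespace Fb

open Pk8

variable {ι X Y G r : Type} [Fintype ι] [DecidableEq ι] [TopologicalSpace X] [TopologicalSpace Y]
  [Group G] [MulAction G Y] [Fintype r] [DecidableEq r] {M : Atl ι X} {p : Y → X}
  {E : Dt M p G r} {Q : Mat r} {c : G → V r} {x : Y → V r} {h ξ : X → Mat ι} {s : Finset ι}
  {L : Matrix r (Sg' s) ℂ} {B : Fb E Q c x h s L}

/-- `σ` extends `f` by zero. -/
structure Ex (k : B.κ) (O : Set (V (Ta s))) (a : ℕ) (f : V (Ta s) → ℂ) (σ : X → ℂ) : Prop where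
  sb : σ ∈ B.SB a
  eq : ∀ w, yp s w ∈ O → pb M a σ (B.Θ k) w = f (yp s w)
  z : ∀ u, (∀ w, yp s w ∈ O → B.Θ k w ≠ u) → ∀ᶠ u' in 𝓝 u, σ u' = 0

theorem Ex.sum {k : B.κ} {O : Set (V (Ta s))} {a q : ℕ} {f : Fin q → V (Ta s) → ℂ}
    {σ : Fin q → X → ℂ} (h : ∀ j, Ex k O a (f j) (σ j)) (d : Fin q → ℂ) :
    Ex k O a (fun y => ∑ j, d j * f j y) fun u => ∑ j, d j * σ j u := by
  refine ⟨?_, fun w hw => ?_, fun u hu => ?_⟩
  · have := (B.SB a).sum_mem (t := Finset.univ) fun j _ => (B.SB a).smul_mem (d j) (h j).sb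
    rwa [Finset.sum_fn] at this
  · simp only [← fun j => (h j).eq w hw, pb, Finset.mul_sum, mul_left_comm]
  · exact (eventually_all.2 fun j => (h j).z u hu).mono fun v hv => by simp [hv]

variable [T2Space X] [CompactSpace X] [MeasurableSpace X] [BorelSpace X]

theorem peakV (hS : E.Spl Q c x h ξ) (ok : B.Ok) (hd : B.DiS) (he : B.ExtS8 ok)
    (hm : B.MeasS ok) (hT : (B.pg ok).TubeS) : B.PeakV ok := by
  intro μ hμ N hN
  obtain ⟨k⟩ := ok.ne
  have mo := B.mo k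
  obtain ⟨y₀, ρ, t1, t2⟩ := hT N hN k (B.Bl k) isOpen_ball ⟨0, mem_ball_self mo.pos⟩ subset_rfl
  obtain ⟨δ, d0, d1, c₁, c1, c₂, c2, cb, ms⟩ :=
    hm μ hμ N hN k y₀ (t1 (mem_closedBall_self t2.1.le)) ρ t2.1
  have ob : ball y₀ δ ⊆ B.Bl k := ball_subset_closedBall.trans cb
  have := ((AY.volS' ι X M h hS.k).2 μ hμ).fin
  have gm := gmS algS ι r s Q L _ _ _ mo.toMo0 mo.kon
  have sψ : ∀ y ∈ B.Bl k, ContDiffAt ℝ ∞ (B.ψ k) y := fun y hy => by
    have e : yp s (glue s 0 y) = y := funext fun i => dif_neg i.2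
    have := (gm (glue s 0 y) (by rwa [e])).2.2.1
    rwa [e] at this
  have cψ : ContinuousOn (B.ψ k) (B.Bl k) := fun y hy => (sψ y hy).continuousAt.continuousWithinAt
  obtain ⟨L1, l1⟩ := bd (isCompact_closedBall y₀ δ) (mo.kon.1.1.mono cb)
  obtain ⟨L2, l2⟩ := bd (isCompact_closedBall y₀ δ)
    ((mo.kon.1.1.inv fun y hy => (mo.kon.2 y hy).det_pos.ne').mono cb)
  obtain ⟨c0, c00, hc⟩ := peak mat (Ta s) (max L1 L2) (c₁ / (16 * c₂)) (by positivity)
  refine ⟨c0 * (volume (ball y₀ δ)).toReal, mul_pos c00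
    (ENNReal.toReal_pos (measure_ball_pos _ _ d0).ne' measure_ball_lt_top.ne), ?_⟩
  filter_upwards [hc (ball y₀ δ) (B.β k) (B.ψ k) isOpen_ball measure_ball_lt_top.ne
    (mo.kon.1.1.mono ob) fun y hy => by
      have pH := mo.kon.2 y (ob hy)
      refine ⟨pH, fun i j => (l1 y (ball_subset_closedBall hy) i j).trans (le_max_left _ _),
        fun i j => (l2 y (ball_subset_closedBall hy) i j).trans (le_max_right _ _), sψ y (ob hy),
        ?_, ?_⟩
      · rw [ψ, mo.lev y (ob hy), show B.β k y - (1 / 2 : ℂ) • B.β k y = ((1 / 2 : ℝ) : ℂ) • B.β k y by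
          push_cast; module]
        exact pH.posSemidef.smul (zero_le_real.2 (by norm_num))
      · rw [ψ, mo.lev y (ob hy), sub_self]
        exact PosSemidef.zero] with b ⟨q, F, q1, q2, q3⟩ hb
  have ex : ∀ j, ∃ σ, Ex k (ball y₀ δ) (b + 1) (F j) σ := fun j => by
    obtain ⟨σ, a1, a2, a3⟩ := he N hN k y₀ ρ t2 _ hb (F j) (q2 j).1
      ((q2 j).2.2.1.trans (ball_subset_ball d1))
    exact ⟨σ, a1, fun w hw => a2 w (ball_subset_ball d1 hw), fun u hu =>
      a3 u fun w hw => hu w ((q2 j).2.2.1 hw)⟩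
  choose σ hσ using ex
  have lo : ∀ j, c₁ * ∫ y, ‖F j y‖ ^ 2 * Real.exp (-b * B.ψ k y) ≤
      (M.ip0 μ (b + 1) h h (σ j) (σ j)).re := fun j => by
    have k0 : M.CkS 0 (b + 1) (σ j) := fun e he z hz => ((hσ j).sb.1 e he z hz).of_le zero_le
    refine (tube (P := fun y => ‖F j y‖ ^ 2) c1 c2 ms isOpen_ball ob cψ (q2 j).2.1 (q2 j).2.2.1
      ((q2 j).1.continuous.norm.pow 2).continuousOn (fun y hy => ?_) (fun y _ => sq_nonneg _) b
      ((AY.greenS.cont ι X M h h _ _ _ hS.k hS.k).1 k0 k0) (fun w hw => ?_) fun u hu => ?_).1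
    · simp [image_eq_zero_of_notMem_tsupport hy]
    · rw [hd.ip0 _ _ _ k w (ob hw), (hσ j).eq w hw, re_mul_ofReal, star_def, mul_conj,
        normSq_eq_norm_sq, ofReal_re]
    · rw [((hσ j).z u hu).self_of_nhds, zero_mul, zero_mul]
  have up : ∀ f τ, Ex k (ball y₀ δ) (b + 1) f τ → ContDiff ℝ ∞ f → HasCompactSupport f →
      tsupport f ⊆ ball y₀ δ → (M.ip1 μ (b + 1) h h τ τ).re ≤
        c₂ * ∫ y, nV (B.β k y) (shp (B.β k) f y) * Real.exp (-b * B.ψ k y) := by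
    intro f τ hτ f1 f2 f3
    have k1 : M.CkS 1 (b + 1) τ := fun e he z hz => (hτ.sb.1 e he z hz).of_le (by simp)
    refine (tube c1 c2 ms isOpen_ball ob cψ f2 f3 (cR mo.kon f1) (fun y hy => ?_)
      (fun y hy => FG.nV_nonneg (mo.kon.2 y hy).posSemidef _) b
      ((AY.greenS.cont ι X M h h _ _ _ hS.k hS.k).2.1 k1 k1 h fun e he => (hS.k e he).1.1)
      (fun w hw => ?_) fun u hu => ?_).2
    · rw [shp_zero _ hy, nV_zero]
    · have e : shp (B.g k) (pb M (b + 1) τ (B.Θ k)) w = shp (B.g k) (fun u => f (yp s u)) w := by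
        have : pb M (b + 1) τ (B.Θ k) =ᶠ[𝓝 w] fun u => f (yp s u) :=
          ((RowsH.ypL s).continuous.continuousAt.eventually (isOpen_ball.mem_nhds hw)).mono hτ.eq
        exact funext fun i => by simp only [shp, dzb_congr this]
      have df := f1.differentiable (by simp) (yp s w)
      rw [hd.ip1 _ _ _ k w h (ob hw) hτ.sb.1 hτ.sb.1, e, re_mul_ofReal,
        show pbF M h (B.Θ k) w = _ from B.met k w (ob hw), g,
        ((gm w (ob hw)).2.2.2.2.2.2 f f df df).1, nV]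
    · have e : M.shpX (b + 1) h τ u = 0 := funext fun i => by
        simp only [Atl.shpX, shp, dzb_congr (rep_congr (τ := fun _ => 0) (M.mem u) (hτ.z u hu)),
          rep_zero, dzb_const, mul_zero, Finset.sum_const_zero, Pi.zero_apply]
      simp [e, ipV]
  obtain ⟨n, hn⟩ : ∃ n : Fin q → ℝ, ∀ j, M.ip0 μ (b + 1) h h (σ j) (σ j) = n j :=
    ⟨_, fun j => ip0_self _ _ _⟩
  simp only [hn, ofReal_re] at lo
  have n0 : ∀ j, 0 < n j := fun j => (mul_pos c1 (q2 j).2.2.2.1).trans_le (lo j)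
  have na : ∀ j, ‖(((√(n j))⁻¹ : ℝ) : ℂ)‖ ^ 2 = (n j)⁻¹ := fun j => by
    rw [norm_real, Real.norm_eq_abs, sq_abs, inv_pow, Real.sq_sqrt (n0 j).le]
  refine ⟨q, fun j u => ((√(n j))⁻¹ : ℝ) * σ j u, card_ta s ▸ q1,
    fun j => (B.SB _).smul_mem _ (hσ j).sb, fun i j => ?_, fun d => ?_⟩
  · have e : M.ip0 μ (b + 1) h h (fun u => ((√(n i))⁻¹ : ℝ) * σ i u) (fun u => ((√(n j))⁻¹ : ℝ) *
        σ j u) = ((√(n i))⁻¹ * (√(n j))⁻¹ : ℝ) * M.ip0 μ (b + 1) h h (σ i) (σ j) := by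
      simp only [Atl.ip0, ← integral_const_mul, star_mul', star_def, conj_ofReal, ofReal_mul]
      exact integral_congr_ae (Eventually.of_forall fun u => by ring)
    rw [e]
    split_ifs with a
    · rw [← a, hn, ← mul_inv, Real.mul_self_sqrt (n0 i).le, ← ofReal_mul,
        inv_mul_cancel₀ (n0 i).ne', ofReal_one]
    · refine mul_eq_zero_of_right _ (integral_eq_zero_of_ae (Eventually.of_forall fun u => ?_))
      by_cases hu : ∀ w, yp s w ∈ ball y₀ δ → B.Θ k w ≠ u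
      · simp [((hσ i).z u hu).self_of_nhds]
      · push Not at hu
        obtain ⟨w, hw, rfl⟩ := hu
        refine (hd.ip0 _ _ _ k w (ob hw)).trans ?_
        rw [(hσ i).eq w hw, (hσ j).eq w hw]
        by_cases t : yp s w ∈ tsupport (F i)
        · simp [image_eq_zero_of_notMem_tsupport (disjoint_left.1 (q3 i j a) t)]
        · simp [image_eq_zero_of_notMem_tsupport t]
  · have z : ∀ w ∉ ⋃ j, tsupport (F j), ∑ j, d j * ((√(n j))⁻¹ : ℝ) * F j w = 0 := fun w hw =>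
      Finset.sum_eq_zero fun j _ => by
        rw [image_eq_zero_of_notMem_tsupport fun k => hw (mem_iUnion.2 ⟨j, k⟩), mul_zero]
    have K : IsCompact (⋃ j, tsupport (F j)) := isCompact_iUnion fun j => (q2 j).2.1
    simp only [← mul_assoc]
    refine (up _ _ (Ex.sum hσ fun j => d j * ((√(n j))⁻¹ : ℝ))
      (ContDiff.sum fun j _ => contDiff_const.mul (q2 j).1) (HasCompactSupport.intro K z)
      ((closure_minimal (Function.support_subset_iff'.2 z) K.isClosed).trans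
        (iUnion_subset fun j => (q2 j).2.2.1))).trans ?_
    simp only [nV_sum _ (fun j => (q2 j).1) q3, Finset.sum_mul, mul_assoc (‖_‖ ^ 2)]
    have i := fun j => (good (φ := fun y => nV (B.β k y) (shp (B.β k) (F j) y) *
      Real.exp (-b * B.ψ k y)) isOpen_ball (q2 j).2.1 ((q2 j).2.2.1.trans ob)
      ((cR mo.kon (q2 j).1).mul (continuousOn_const.mul cψ).rexp) fun y hy => by
        rw [shp_zero _ hy, nV_zero, zero_mul]).2
    rw [integral_finsetSum _ fun j _ => (i j).const_mul _, Finset.mul_sum, Finset.mul_sum]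
    refine Finset.sum_le_sum fun j _ => ?_
    rw [integral_const_mul, norm_mul, mul_pow, na]
    have h1 := (q2 j).2.2.2.2
    have h2 := lo j
    have h3 := n0 j
    have h4 := (q2 j).2.2.2.1
    generalize ∫ y, nV (B.β k y) _ * _ = R at *
    generalize ∫ y, ‖F j y‖ ^ 2 * _ = P at *
    have h5 : (n j)⁻¹ * (c₁ * P) ≤ 1 := by rwa [inv_mul_le_iff₀ h3, mul_one]
    calc c₂ * (‖d j‖ ^ 2 * (n j)⁻¹ * R)
        ≤ c₂ * (‖d j‖ ^ 2 * (n j)⁻¹ * (c₁ / (16 * c₂) * b * P)) := by gcongr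
      _ = (n j)⁻¹ * (c₁ * P) * (b / 16 * ‖d j‖ ^ 2) := by field_simp
      _ ≤ b / 16 * ‖d j‖ ^ 2 := mul_le_of_le_one_left (by positivity) h5

end Fb

end Pool.Agent.Lib.MP_813db1_ag.VH.S8
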