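import Pool.Agent.Lib.MP_813db1_ag.VH.S8.Core
import Pool.Agent.Lib.MP_813db1_ag.VH.S8.Pb
import Pool.Agent.Lib.MP_813db1_ag.VH.S8.Inv
import Pool.Agent.Lib.MP_813db1_ag.VH.S8.FbA
import Pool.Agent.Lib.MP_813db1_ag.VH.S8.Ok1
import Pool.Agent.Lib.MP_813db1_ag.VH.S8.Ok2
import Pool.Agent.Lib.MP_813db1_ag.VH.S8.Ov
import Pool.Agent.Lib.MP_813db1_ag.VH.S8.Di
import Pool.Agent.Lib.MP_813db1_ag.VH.S8.Lx
import Pool.Agent.Lib.MP_813db1_ag.VH.S8.Zc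
import Pool.Agent.Lib.MP_813db1_ag.VH.S8.Fix
import Pool.Agent.Lib.MP_813db1_ag.VH.S8.Gen8
import Pool.Agent.Lib.MP_813db1_ag.VH.S8.Boch8
import Pool.Agent.Lib.MP_813db1_ag.VH.S8.Box
import Pool.Agent.Lib.MP_813db1_ag.VH.S8.Av
import Pool.Agent.Lib.MP_813db1_ag.VH.S8.Ext8
import Pool.Agent.Lib.MP_813db1_ag.VH.S8.Meas8
import Pool.Agent.Lib.MP_813db1_ag.VH.S8.Peak8
import Pool.Agent.Lib.MP_813db1_ag.VH.CoAll
import Pool.Agent.Lib.MP_813db1_ag.VH.Dual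

/-! Section 8: pluricanonical sections, and the flat case. -/

namespace Pool.Agent.Lib.MP_813db1_ag.VH.S8

open Pool.Agent.Lib.MP_813db1_ag.HS Pool.Agent.Lib.MP_813db1_ag.AS

variable {ι X Y G : Type} [Fintype ι] [DecidableEq ι] [Nonempty ι] [TopologicalSpace X] [T2Space X]
  [CompactSpace X] [ConnectedSpace X] [MeasurableSpace X] [BorelSpace X] [TopologicalSpace Y]
  [SimplyConnectedSpace Y] [Group G] [MulAction G Y] {M : Atl ι X} {p : Y → X}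

omit [Nonempty ι] [MeasurableSpace X] [BorelSpace X] in
theorem exFb {m : ℕ} {E : Dt M p G (Fin (2 * m))}
    {Q : Mat (Fin (2 * m))} {c : G → V (Fin (2 * m))} {x : Y → V (Fin (2 * m))} {h ξ : X → Mat ι}
    (hq : IsQuotientCoveringMap p G) (hS : E.Spl Q c x h ξ) :
    ∃ (s : Finset ι) (L : Matrix (Fin (2 * m)) (Sg' s) ℂ) (B : Fb E Q c x h s L), s.card = m ∧
      B.Ok := by
  obtain ⟨s, L, hs, hA⟩ := exAc hq hS (pbS M)
  obtain ⟨B⟩ := fbS hq hS s L hA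
  exact ⟨s, L, B, hs, Fb.ok1 hq hS, Fb.ok2 hq⟩

omit [Nonempty ι] [MeasurableSpace X] [BorelSpace X] in
theorem abV (hq : IsQuotientCoveringMap p G) : AbV M p G := by
  intro m E Q c x h ξ hS hm
  obtain ⟨s, L, B, rfl, ok⟩ := exFb hq hS
  exact Fb.ab ok (Fb.eucS hS ok) hm

theorem secV (hq : IsQuotientCoveringMap p G) : SecV M p G := by
  intro m E Q c x h ξ hS
  obtain ⟨s, L, B, rfl, ok⟩ := exFb hq hS
  have hO := Fb.ovS hq hS ok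
  have hD := Fb.diS hS ok hO
  have hB := Fb.boxS ok hD
  obtain ⟨N, hN⟩ := Fb.lat ok (Fb.eucS hS ok)
    (Fb.fixS hS ok (Fb.lxS hS ok hO) (Fb.zcS hS ok hO) (Fb.abZS ok)
      (Fb.invB hq ok (invS8 (flatS hq) tenS dualS hS) hO))
    (Fb.bochS8 (pbS M) hS ok hO (Fb.genS8 ok))
  exact ⟨N, hN.pos, Fb.sec ok hS.k hN (Fb.peakV hS ok hD (Fb.extS8 hS ok hO hD)
    (Fb.measS hS ok hO) (PG.tubeS (B.pg ok).all')) (Fb.gapS hS hD) hB (Fb.holB ok hO hD)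
    (Fb.resS8 hS ok hD hB (Fb.avS (pbS M) ok hO (Fb.descS ok hO)))⟩

end Pool.Agent.Lib.MP_813db1_ag.VH.S8
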