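import Pool.Agent.Lib.MP_813db1_ag.VH.S8.StL

/-! Finitely many adapted charts. -/

namespace Pool.Agent.Lib.MP_813db1_ag.VH.S8

open Pool.Agent.Lib.MP_813db1_ag.HS Pool.Agent.Lib.MP_813db1_ag.AS
open MeasureTheory Complex Matrix Filter Topology Set Metric
open scoped ContDiff ComplexOrder

variable {ι X Y G r : Type} [Fintype ι] [DecidableEq ι] [TopologicalSpace X] [TopologicalSpace Y]
  [Group G] [MulAction G Y] [Fintype r] [DecidableEq r] {M : Atl ι X} {p : Y → X}
  {E : Dt M p G r} {Q : Mat r} {c : G → V r} {x : Y → V r} {h ξ : X → Mat ι}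

namespace AcA

variable {s : Finset ι} {L : Matrix r (Sg' s) ℂ} {q q' : Y}

/-- the point of the model with given affine and transversal coordinates. -/
noncomputable def pt (B : Bx E Q x h s L q) (t : (r → ℝ) × V (Ta s)) : V ι :=
  glue s (zM Q L (B.H t.2) *ᵥ cv t.1) t.2

/-- the affine and transversal coordinates. -/
noncomputable def fw (B : Bx E Q x h s L q) (u : Y) : (r → ℝ) × V (Ta s) :=
  (rv (x u), yp s (B.e (p u)))

/-- the box. -/
def In (B : Bx E Q x h s L q) (w : V ι) : Prop := ‖zp s w - B.z0‖ < B.R ∧ ‖yp s w‖ < B.R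

omit [Fintype ι] [DecidableEq ι] in
theorem c_yp : Continuous (yp s) := continuous_pi fun _ => continuous_apply _

variable (B : Bx E Q x h s L q)

theorem in_open : IsOpen {w | In B w} :=
  (isOpen_lt ((continuous_pi fun _ => continuous_apply _).sub continuous_const).norm
    continuous_const).inter (isOpen_lt c_yp.norm continuous_const)

theorem c_pt {t : (r → ℝ) × V (Ta s)} (ht : ‖t.2‖ < B.R) : ContinuousAt (pt B) t := by
  refine continuousAt_pi.2 fun i => ?_
  by_cases hi : i ∈ s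
  · simp only [pt, glue, dif_pos hi, mulVec, dotProduct, cv]
    refine tendsto_finsetSum _ fun j _ => ContinuousAt.mul ?_ (by fun_prop)
    exact (B.mo.an _ (mem_ball_zero_iff.2 ht) _ _).continuousAt.comp continuousAt_snd
  · simp only [pt, glue, dif_neg hi]
    fun_prop

variable {B}

theorem alg (hA : AlgS) {y : V (Ta s)} (hy : ‖y‖ < B.R) : Alg Q L (B.H y) :=
  hA _ _ Q L _ B.mo.lag (B.mo.sg y (mem_ball_zero_iff.2 hy))

theorem e_pt {w : V ι} (hw : In B w) : B.e (p (B.sh w)) = w := by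
  rw [sec_pt (B.box w hw.1 hw.2).2.1, B.e.right_inv (B.box w hw.1 hw.2).1]

theorem pt_fw (hA : AlgS) {w : V ι} (hw : In B w) : pt B (fw B (B.sh w)) = w := by
  rw [pt, fw, e_pt hw, (B.box w hw.1 hw.2).2.2.2.1, xm, cv_rv ((alg hA hw.2).rx _),
    (alg hA hw.2).zx, glue_zp_yp]

theorem fw_pt (hA : AlgS) {t : (r → ℝ) × V (Ta s)} (ht : In B (pt B t)) :
    fw B (B.sh (pt B t)) = t := by
  have h2 := ht.2
  rw [fw, e_pt ht, (B.box _ ht.1 ht.2).2.2.2.1, xm]
  simp only [pt, yp_glue, zp_glue] at h2 ⊢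
  rw [(alg hA h2).xz, rv_cv]

theorem c_e (hp : IsLocalHomeomorph p) {w : V ι} (hw : In B w) :
    ContinuousAt (fun u => B.e (p u)) (B.sh w) := by
  refine ContinuousAt.comp (B.e.continuousAt ?_) hp.continuous.continuousAt
  rw [sec_pt (B.box w hw.1 hw.2).2.1]
  exact B.e.map_target (B.box w hw.1 hw.2).1

theorem c_fw (hp : IsLocalHomeomorph p) (hx : Continuous x) {w : V ι} (hw : In B w) :
    ContinuousAt (fw B) (B.sh w) :=
  ContinuousAt.prodMk (continuousAt_pi.2 fun i => by simp only [rv]; fun_prop)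
    (c_yp.continuousAt.comp (c_e hp hw))

theorem near (hp : IsLocalHomeomorph p) {w : V ι} (hw : In B w) :
    ∀ᶠ u in 𝓝 (B.sh w), In B (B.e (p u)) ∧ B.sh (B.e (p u)) = u := by
  obtain ⟨h1, h2, -⟩ := B.box w hw.1 hw.2
  have c1 := c_e hp hw
  have c2 : Tendsto (fun u => B.e (p u)) (𝓝 (B.sh w)) (𝓝 w) := by
    simpa only [ContinuousAt, e_pt hw] using c1
  refine (c2.eventually ((in_open B).mem_nhds hw)).and ?_
  refine F12.uniq hp (s := fun u => B.sh (B.e (p u))) (q := id) ?_ continuousAt_id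
    (by rw [e_pt hw, id]) ?_
  · exact ContinuousAt.comp (f := fun u => B.e (p u)) (by rw [e_pt hw]; exact h2.1) c1
  · filter_upwards [c2.eventually h2.2, hp.continuous.continuousAt.eventually
      (B.e.open_source.mem_nhds (by rw [sec_pt h2]; exact B.e.map_target h1))] with u k1 k2
    rw [k1, B.e.left_inv k2, id]

theorem chart (hp : IsLocalHomeomorph p) (hx : Continuous x) (hA : AlgS) (B : Bx E Q x h s L q) :
    ∃ ε > (0 : ℝ), ε < B.R ∧ ∃ f : OpenPartialHomeomorph Y ((r → ℝ) × V (Ta s)),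
      f.target = ball (rv (x q)) ε ×ˢ ball 0 ε ∧ (∀ u, f u = fw B u) ∧
      (∀ t, f.symm t = B.sh (pt B t)) ∧ (∀ t ∈ f.target, In B (pt B t)) ∧ q ∈ f.source ∧
      f q = (rv (x q), 0) := by
  have h0 : In B (glue s B.z0 0) := by
    simp only [In, zp_glue, yp_glue, sub_self, norm_zero, B.mo.pos, and_self]
  have h1 : fw B q = (rv (x q), 0) := by
    have := e_pt h0
    rw [B.ctr] at this
    rw [fw, this, yp_glue]
  have h2 : pt B (rv (x q), 0) = glue s B.z0 0 := by
    have := pt_fw hA h0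
    rwa [B.ctr, h1] at this
  obtain ⟨δ, d0, hd⟩ := Metric.eventually_nhds_iff_ball.1 ((c_pt B (t := (rv (x q), 0))
    (by simpa using B.mo.pos)).eventually ((in_open B).mem_nhds (h2 ▸ h0)))
  have e0 : 0 < min δ (B.R / 2) := lt_min d0 (half_pos B.mo.pos)
  have hT : ∀ t ∈ ball (rv (x q)) (min δ (B.R / 2)) ×ˢ ball (0 : V (Ta s)) (min δ (B.R / 2)),
      In B (pt B t) := fun t ht => hd t (by
    rw [ball_prod_same] at ht
    exact ball_subset_ball (min_le_left _ _) ht)
  have hO := (isOpen_ball (x := rv (x q)) (ε := min δ (B.R / 2))).prod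
    (isOpen_ball (x := (0 : V (Ta s))) (ε := min δ (B.R / 2)))
  refine ⟨_, e0, (min_le_right _ _).trans_lt (half_lt_self B.mo.pos),
    { toFun := fw B
      invFun := fun t => B.sh (pt B t)
      source := {u | fw B u ∈ ball (rv (x q)) (min δ (B.R / 2)) ×ˢ ball 0 (min δ (B.R / 2)) ∧
        B.sh (pt B (fw B u)) = u}
      target := ball (rv (x q)) (min δ (B.R / 2)) ×ˢ ball 0 (min δ (B.R / 2))
      map_source' := fun u hu => hu.1
      map_target' := fun t ht => by
        rw [mem_ofPred, fw_pt hA (hT t ht)]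
        exact ⟨ht, rfl⟩
      left_inv' := fun u hu => hu.2
      right_inv' := fun t ht => fw_pt hA (hT t ht)
      open_source := isOpen_iff_mem_nhds.2 fun u hu => ?os
      open_target := hO
      continuousOn_toFun := fun u hu => ?ca
      continuousOn_invFun := fun t ht => ?cb }, rfl, fun _ => rfl, fun _ => rfl, hT, ⟨?m1, ?m2⟩, h1⟩
  case os =>
    have k1 := near hp (hT _ hu.1)
    have k2 := c_fw hp hx (hT _ hu.1)
    rw [hu.2] at k1 k2
    filter_upwards [k1, k2.eventually (hO.mem_nhds hu.1)] with v a b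
    refine ⟨b, ?_⟩
    have := pt_fw hA a.1
    rw [a.2] at this
    rw [this, a.2]
  case ca =>
    have k2 := c_fw hp hx (hT _ hu.1)
    rw [hu.2] at k2
    exact k2.continuousWithinAt
  case cb =>
    have k := hT t ht
    refine (ContinuousAt.comp (B.box _ k.1 k.2).2.1.1 (c_pt B ?_)).continuousWithinAt
    simpa only [pt, yp_glue] using k.2
  case m1 =>
    rw [h1]
    exact ⟨mem_ball_self e0, mem_ball_self e0⟩
  case m2 => rw [h1, h2, B.ctr]

theorem ricci (hS : E.Spl Q c x h ξ) (hG : GmS ι r) {w : V ι} (hw : In B w) :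
    M.repF (M.ricF h) B.e w = -bk s 0 0 0 (B.β (yp s w)) := by
  have hy := mem_ball_zero_iff.2 hw.2
  rw [(AY.repB' ι X M).ric_rep h hS.k _ B.mem w (B.box w hw.1 hw.2).1, ← B.mo.lev _ hy,
    ← (hG s Q L B.H B.β B.R B.mo.toMo0 B.mo.kon w hy).2.2.2.2.1, ric, ric, levi_congr]
  filter_upwards [(in_open B).mem_nhds hw] with u hu
  rw [(B.box u hu.1 hu.2).2.2.2.2]

theorem trans (hS : E.Spl Q c x h ξ) (hG : GmS ι r) (hL : LisoS) (hT : TvS)
    {B' : Bx E Q x h s L q'} {w : V ι} (hw : In B w) (h1 : B.e.symm w ∈ B'.e.source)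
    (hw' : In B' (B'.e (B.e.symm w))) :
    ∃ φ, HS.E.LIso (fun y => rb (B.β y)) (fun y => rb (B'.β y)) φ (yp s w) ∧
      ∀ᶠ u in 𝓝 w, yp s (B'.e (B.e.symm u)) = φ (yp s u) := by
  have h0 := (B.box w hw.1 hw.2).1
  have an := F1.an B.mem B'.mem h0 h1
  obtain ⟨φ, a, b, d⟩ := hT ι s B.β B'.β (B'.e ∘ B.e.symm) w an (by
    filter_upwards [(in_open B).mem_nhds hw, an.continuousAt.eventually
      ((in_open B').mem_nhds hw'), F1.ev h0 B'.e.open_source h1] with u k1 k2 k3
    refine ⟨B'.mo.kon.2 _ (mem_ball_zero_iff.2 k2.2), neg_injective ?_⟩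
    have := (AY.repA' ι X M).repF_tr (M.ricF h) _ B.mem _ B'.mem _ (B.e.map_target k3.1) k3.2
    rw [tj, B.e.right_inv k3.1] at this
    rw [← ricci hS hG k1, ← RepB.pull_neg, ← ricci hS hG k2, this]
    rfl)
  exact ⟨φ, ((hL _ B.β B'.β).2 φ _).2 ⟨a, d⟩, b⟩

theorem mono {H : V (Ta s) → Mat r} {β : V (Ta s) → Mat (Ta s)} {R ε : ℝ} (m : Mo s Q L H β R)
    (h0 : 0 < ε) (h1 : ε ≤ R) : Mo s Q L H β ε :=
  have k := ball_subset_ball (x := (0 : V (Ta s))) h1
  { lag := m.lag
    pos := h0
    sg := fun y hy => m.sg y (k hy)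
    sm := fun y hy => m.sm y (k hy)
    an := fun y hy => m.an y (k hy)
    kon := ⟨⟨fun y hy => m.kon.1.1 y (k hy), fun y hy => m.kon.1.2.1 y (k hy),
      fun y hy => m.kon.1.2.2 y (k hy)⟩, fun y hy => m.kon.2 y (k hy)⟩
    lev := fun y hy => m.lev y (k hy) }

end AcA

open AcA

theorem acS [CompactSpace X] (hq : IsQuotientCoveringMap p G) (hS : E.Spl Q c x h ξ) (hA : AlgS)
    (hG : GmS ι r) (hL : LisoS) (hT : TvS) (hB : BdS) (hC : ChS E Q x h) : AcS E Q c x h := by
  intro s L hLag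
  have hp := lh hq
  have hx : Continuous x := hS.aff.1.cont hp
  have B := fun q => (hC s L hLag q).some
  choose ε e0 eR f f1 f2 f3 f4 f5 f6 using fun q => chart hp hx hA (B q)
  have src : ∀ k, ∀ u ∈ (f k).source, In (B k) ((B k).e (p u)) ∧ (B k).sh ((B k).e (p u)) = u ∧
      p u ∈ (B k).e.source := fun k u hu => by
    have k1 := f4 k _ ((f k).map_source hu)
    have k2 := (f k).left_inv hu
    rw [f3] at k2
    have k3 := e_pt k1
    have k4 := sec_pt ((B k).box _ k1.1 k1.2).2.1
    rw [k2] at k3 k4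
    rw [k3, k4]
    exact ⟨k1, k2, (B k).e.map_target ((B k).box _ k1.1 k1.2).1⟩
  have hH : ∀ k, ∀ t ∈ (f k).target, E.H ((f k).symm t) = (B k).H t.2 := fun k t ht => by
    rw [f3, ((B k).box _ (f4 k t ht).1 (f4 k t ht).2).2.2.1, pt, yp_glue]
  obtain ⟨T, hTc⟩ := (isCompact_univ (X := X)).elim_nhds_subcover' (fun a _ => p '' {u |
      u ∈ (f (hq.surjective a).choose).source ∧
      f (hq.surjective a).choose u ∈ closedBall (f (hq.surjective a).choose
        (hq.surjective a).choose) (1 / 2 * ε (hq.surjective a).choose)}) fun a _ => by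
    have := hp.isOpenMap.image_mem_nhds (inter_mem ((f _).open_source.mem_nhds (f5 _))
      (((f _).continuousAt (f5 (hq.surjective a).choose)).preimage_mem_nhds
        (closedBall_mem_nhds _ (mul_pos one_half_pos (e0 (hq.surjective a).choose)))))
    rwa [(hq.surjective a).choose_spec] at this
  obtain ⟨σ, hσ⟩ : ∃ σ : T → Y, ∀ a, ∃ k, ∃ u ∈ (f (σ k)).source,
      f (σ k) u ∈ closedBall (f (σ k) (σ k)) (1 / 2 * ε (σ k)) ∧ p u = a :=
    ⟨fun k => (hq.surjective k.1.1).choose, fun a => by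
      obtain ⟨k, hk, u, hu, e⟩ := mem_iUnion₂.1 (hTc (mem_univ a))
      exact ⟨⟨k, hk⟩, u, hu.1, hu.2, e⟩⟩
  have hK : IsCompact (⋃ k : T, (B (σ k)).H '' closedBall 0 (ε (σ k))) :=
    isCompact_iUnion fun k => (isCompact_closedBall _ _).image_of_continuousOn fun y hy =>
      ContinuousAt.continuousWithinAt (continuousAt_pi.2 fun i => continuousAt_pi.2 fun j =>
        ((B _).mo.sm y (closedBall_subset_ball (eR _) hy) i j).continuousAt)
  refine ⟨{ P :=
              { κ := T
                fin := inferInstance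
                e := fun k => f (σ k)
                vc := fun k => rv (x (σ k))
                vr := fun k => ε (σ k)
                yr := fun k => ε (σ k)
                vpos := fun k => e0 _
                ypos := fun k => e0 _
                tgt := fun k => f1 _
                A := rA E.ρ E.reR
                c := fun g => rv (c g)
                x := fun u => rv (x u)
                eqv := fun γ u => by rw [hS.aff.2, rv_add, rA_apply, cv_rv (hS.pol.rx u)]
                fst := fun k u _ => by rw [f2]; rfl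
                g := fun k y => rb ((B (σ k)).β y)
                tr := fun k l γ u h1 h2 => ?tr
                cov := ⟨1 / 2, one_half_lt_one, fun u => ?cov⟩
                H := E.H
                Hc := fun γ k v hv v' hv' w hw => by
                  rw [E.eqv, E.eqv, hH _ _ (f1 _ ▸ ⟨hv, hw⟩), hH _ _ (f1 _ ▸ ⟨hv', hw⟩)]
                bd := fun t => ?bd }
            e := fun k => (B (σ k)).e
            H := fun k => (B (σ k)).H
            β := fun k => (B (σ k)).β
            mo := fun k => mono (B _).mo (e0 _) (eR _).le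
            eA := rfl
            ec := rfl
            ex := fun u => cv_rv (hS.pol.rx u)
            eH := rfl
            eg := fun _ => rfl
            mem := fun k => (B _).mem
            box := fun k v hv y hy => ?box }⟩
  case tr =>
    obtain ⟨a1, a2, a3⟩ := src _ u h1
    obtain ⟨b1, -, b3⟩ := src _ _ h2
    rw [hq.map_smul, ← (B (σ k)).e.left_inv a3] at b1 b3
    obtain ⟨φ, k1, k2⟩ := trans hS hG hL hT a1 b3 b1
    have k3 := c_e hp a1
    rw [a2] at k3
    refine ⟨φ, by rw [f2]; exact k1, ?_⟩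
    filter_upwards [k3.eventually k2, hp.continuous.continuousAt.eventually
      ((B (σ k)).e.open_source.mem_nhds a3)] with v m1 m2
    rw [(B (σ k)).e.left_inv m2] at m1
    rw [f2, f2, fw, hq.map_smul]
    exact m1
  case cov =>
    obtain ⟨k, v, h1, h2, h3⟩ := hσ (p u)
    obtain ⟨γ, rfl⟩ := hq.apply_eq_iff_mem_orbit.1 h3
    rw [f6, ← closedBall_prod_same] at h2
    exact ⟨γ, k, h1, h2.1, mem_closedBall_zero_iff.1 h2.2⟩
  case bd =>
    by_cases ht : t.PosDef
    · obtain ⟨C, hC⟩ := hB r {t} _ isCompact_singleton hK (fun _ e => e ▸ ht) fun H hH => by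
        obtain ⟨k, y, hy, rfl⟩ := mem_iUnion.1 hH
        exact ((B _).mo.sg y (closedBall_subset_ball (eR _) hy)).pos
      refine ⟨C, fun u γ k h1 h2 => hC t rfl (E.H (γ • u)) (mem_iUnion.2
        ⟨k, (f (σ k) (γ • u)).2, ?_, ?_⟩) _ (E.reR γ) ?_⟩
      · exact ball_subset_closedBall (f1 _ ▸ (f _).map_source h2).2
      · rw [← hH _ _ ((f _).map_source h2), (f _).left_inv h2]
      · rw [E.eqv, h1, ← Matrix.mul_assoc, ← Matrix.mul_assoc, ← transpose_mul, Matrix.mul_assoc,
          E.inv_mul, transpose_one, Matrix.one_mul, Matrix.mul_one]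
    · exact ⟨0, fun u _ _ h1 _ => (ht (h1 ▸ E.pos u)).elim⟩
  case box =>
    have k0 : (v, y) ∈ (f (σ k)).target := f1 _ ▸ ⟨hv, hy⟩
    obtain ⟨a1, a2, -, -, a5⟩ := (B _).box _ (f4 _ _ k0).1 (f4 _ _ k0).2
    exact ⟨a1, by rw [f3]; exact sec_pt a2, hH _ _ k0, a5⟩

end Pool.Agent.Lib.MP_813db1_ag.VH.S8
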