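import Pool.Agent.Lib.MP_813db1_ag.VH.S8.StL
import Pool.Agent.Lib.MP_bbd4b9_ag.BR.B3a
import Pool.Agent.Lib.MP_bbd4b9_ag.BR.Ahl

/-! Holomorphic maps from the affine space are degenerate. -/

namespace Pool.Agent.Lib.MP_813db1_ag.VH.S8

open Pool.Agent.Lib.MP_813db1_ag.HS Pool.Agent.Lib.MP_813db1_ag.AS Pool.Agent.Lib.MP_bbd4b9_ag.BR
open Complex Matrix Filter Topology Set
open scoped ContDiff ComplexOrder MatrixOrder

namespace Ahl

section alg

variable {ι r σ : Type} [Fintype ι] [DecidableEq ι] [Fintype r] [DecidableEq r] [Fintype σ]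
  [DecidableEq σ] {Q H : Mat r} {L : Matrix r σ ℂ} {G : Mat ι} {D : Matrix r ι ℂ} {S : Mat σ}

omit [DecidableEq r] in
theorem vx_pull {T : Mat ι} (hT : T.det ≠ 0) (Q : Mat r) (G : Mat ι) (D : Matrix r ι ℂ) :
    T * vX Q (pull T G) (D * T) = vX Q G D := by
  rw [vX, vX, conjTranspose_mul, RepB.inv_pull, transpose_mul, transpose_mul,
    transpose_nonsing_inv, transpose_transpose, transpose_nonsing_inv (T.map star),
    show (T.map star)ᵀ = Tᴴ from rfl, Matrix.mul_smul]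
  simp only [Matrix.mul_assoc]
  rw [mul_nonsing_inv_cancel_left _ _ hT.isUnit, nonsing_inv_mul_cancel_left _ _ (by
    rw [det_conjTranspose]
    exact (star_ne_zero.2 hT).isUnit)]

theorem root {N : Mat σ} (h : N.PosDef) : ∃ S : Mat σ, Sᴴ * N * S = 1 := by
  obtain ⟨B, hB, rfl⟩ := CStarAlgebra.isStrictlyPositive_iff_eq_star_mul_self.1 h.isStrictlyPositive
  have u := (isUnit_iff_isUnit_det _).1 hB
  refine ⟨B⁻¹, ?_⟩
  rw [star_eq_conjTranspose, Matrix.mul_assoc, mul_nonsing_inv_cancel_right _ _ u,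
    ← conjTranspose_mul, mul_nonsing_inv _ u, conjTranspose_one]

theorem frame (hL : Lag Q L) (hA : Alg Q L H) (hs : Sg Q H) (hP : Pt Q L H G D) (hG : G.PosDef)
    (hJ : jM Q H * D = I • D) (hS : Sᴴ * ((1 / 2 : ℂ) • muM L H) * S = 1) :
    ∃ A : Matrix σ ι ℂ, vX Q G D * L * S = (G⁻¹)ᵀ * Aᴴ ∧ A * (vX Q G D * L * S) = 1 ∧
      Aᵀ * A.map star = xiM H D := by
  have l : (Lᵀ)ᴴ = L := hL.reL
  have a : (Sᴴ * Lᵀ * H * D)ᴴ = Dᴴ * H * L * S := by
    simp only [conjTranspose_mul, conjTranspose_conjTranspose, l, hs.pos.1.eq, Matrix.mul_assoc]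
  refine ⟨Sᴴ * Lᵀ * H * D, ?_, ?_, ?_⟩
  · rw [a, hP.uh]
    simp only [Matrix.mul_assoc]
  · have e : D * vX Q G D = (1 / 2 : ℂ) • (1 - I • jM Q H) := by
      rw [← hP.dx, smul_smul]
      norm_num
    have e' : Lᵀ * (H * (1 - I • jM Q H)) * L = muM L H := by
      rw [Matrix.mul_sub, Matrix.mul_one, Matrix.mul_smul, hA.hj, Matrix.mul_sub, Matrix.sub_mul,
        Matrix.mul_smul, Matrix.smul_mul, hL.iso, smul_zero, sub_zero, muM]
    calc _ = Sᴴ * (Lᵀ * (H * (D * vX Q G D)) * L) * S := by simp only [Matrix.mul_assoc]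
      _ = 1 := by rw [e, Matrix.mul_smul, Matrix.mul_smul, Matrix.smul_mul, e', hS]
  · have s1 : S * Sᴴ = (2 : ℂ) • (muM L H)⁻¹ := by
      have := mul_eq_one_comm.1 hS
      rw [← Matrix.mul_assoc, Matrix.mul_smul, ← Matrix.smul_mul] at this
      rw [inv_eq_left_inv this, smul_smul]
      norm_num
    have s2 : zM Q L H * D = S * (Sᴴ * Lᵀ * H * D) := by
      have e : (H - I • Q) * D = (2 : ℂ) • (H * D) := by
        rw [Matrix.sub_mul, Matrix.smul_mul, ← hA.hj, Matrix.mul_assoc, hJ, Matrix.mul_smul,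
          smul_smul, I_mul_I, neg_smul, one_smul, sub_neg_eq_add, two_smul]
      rw [zM, Matrix.mul_assoc, e, ← Matrix.mul_assoc S, ← Matrix.mul_assoc S,
        ← Matrix.mul_assoc S, s1]
      simp only [Matrix.mul_smul, Matrix.smul_mul, Matrix.mul_assoc]
    have s3 : Dᴴ * H * L * zM Q L H = Dᴴ * H := by
      have := hP.xl
      rw [hP.uh] at this
      simp only [Matrix.mul_assoc] at this ⊢
      have u : IsUnit (G⁻¹)ᵀ.det := by
        rw [det_transpose]
        exact hG.inv.det_pos.ne'.isUnit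
      rw [← nonsing_inv_mul_cancel_left _ (Dᴴ * H) u, ← this, nonsing_inv_mul_cancel_left _ _ u]
    have s4 : (Sᴴ * Lᵀ * H * D)ᴴ * (Sᴴ * Lᵀ * H * D) = Dᴴ * H * D := by
      rw [a, Matrix.mul_assoc _ S, ← s2, ← Matrix.mul_assoc, s3]
    have c : ∀ {α β : Type} (B : Matrix α β ℂ), (Bᴴ).map star = Bᵀ := fun B => by
      ext i j
      exact star_star _
    have := congrArg (·.map star) s4
    rw [bar_mul, c, bar_mul (Dᴴ * H), bar_mul Dᴴ, c, hs.re] at this
    exact this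

omit [Fintype r] [DecidableEq r] [DecidableEq σ] in
theorem im_dot {R N : Mat σ} (hR : Rl R) {b : V σ} (hb : star b = b) :
    (b ⬝ᵥ (R + I • N) *ᵥ b).im = (b ⬝ᵥ N *ᵥ b).re := by
  have e : star (b ⬝ᵥ R *ᵥ b) = b ⬝ᵥ R *ᵥ b := by
    have e := hR.star_mulVec b
    rw [hb] at e
    rw [dotProduct, star_sum]
    exact Finset.sum_congr rfl fun i _ => by
      rw [star_mul', show star (b i) = b i from congrFun hb i,
        show star ((R *ᵥ b) i) = _ from congrFun e i]
  rw [add_mulVec, dotProduct_add, smul_mulVec, dotProduct_smul, add_im, conj_eq_iff_im.1 e,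
    zero_add, smul_eq_mul, I_mul_im]

omit [DecidableEq ι] in
theorem liou {φ : V ι → ℂ} (h : Differentiable ℂ φ) (h0 : ∀ y, 0 ≤ (φ y).im) (y : V ι) :
    (φ y).im = (φ 0).im := by
  have n : ∀ w, ‖cexp (φ w * I)‖ = Real.exp (-(φ w).im) := fun w => by rw [norm_exp, mul_I_re]
  have := congrArg norm ((h.mul_const I).cexp.apply_eq_apply_of_bounded
    (isBounded_iff_forall_norm_le.2 ⟨1, by
      rintro _ ⟨w, rfl⟩
      exact (n w).trans_le (Real.exp_le_one_iff.2 (neg_nonpos.2 (h0 w)))⟩) y 0)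
  rwa [n, n, Real.exp_eq_exp, neg_inj] at this

omit [DecidableEq ι] in
theorem cst {R N : V ι → Mat σ} (h : ∀ i j, Differentiable ℂ fun y => (R y + I • N y) i j)
    (hR : ∀ y, Rl (R y)) (hN : ∀ y, Rl (N y)) (h0 : ∀ y, (N y).PosSemidef) (y : V ι) :
    N y = N 0 := by
  have k : ∀ b : V σ, star b = b → (b ⬝ᵥ N y *ᵥ b).re = (b ⬝ᵥ N 0 *ᵥ b).re := fun b hb => by
    rw [← im_dot (hR y) hb, ← im_dot (hR 0) hb]
    refine liou (φ := fun y => b ⬝ᵥ (R y + I • N y) *ᵥ b) ?_ (fun w => ?_) y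
    · exact Differentiable.fun_sum fun i _ => (Differentiable.fun_sum fun j _ =>
        (h i j).mul_const _).const_mul _
    · rw [im_dot (hR w) hb]
      have := (h0 w).re_dotProduct_nonneg b
      rwa [hb] at this
  have s : ∀ i : σ, star (Pi.single i 1 : V σ) = Pi.single i 1 := fun i => by simp
  have d : ∀ i, (N y i i).re = (N 0 i i).re := fun i => by simpa using k _ (s i)
  have sy : ∀ w i j, N w j i = N w i j := fun w i j =>
    (congrFun (congrFun (hN w) j) i).symm.trans (congrFun (congrFun (h0 w).1 i) j)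
  ext i j
  have e := k (Pi.single i 1 + Pi.single j 1) (by rw [star_add, s, s])
  simp only [mulVec_add, add_dotProduct, dotProduct_add, single_dotProduct, mulVec_single_one,
    one_mul, col_apply, add_re, d, sy _ i j] at e
  refine Complex.ext (by linarith) ?_
  rw [conj_eq_iff_im.1 (congrFun (congrFun (hN y) i) j),
    conj_eq_iff_im.1 (congrFun (congrFun (hN 0) i) j)]

omit [Fintype r] [DecidableEq r] in
theorem rl_inv {N : Mat σ} (h : Rl N) (h0 : N.PosDef) : Rl N⁻¹ := by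
  refine (inv_eq_right_inv ?_).symm
  rw [← h, ← bar_mul, h, mul_nonsing_inv _ h0.det_pos.ne'.isUnit, bar_one]

omit [DecidableEq ι] in
theorem mu_cst (hL : Lag Q L) {H : V ι → Mat r} (hs : ∀ y, Sg Q (H y)) (hA : ∀ y, Alg Q L (H y))
    (h : ∀ i j, Differentiable ℂ fun y => zM Q L (H y) i j) (y : V ι) :
    muM L (H y) = muM L (H 0) := by
  have u := fun y => (hA y).mu.det_pos.ne'.isUnit
  have ri := fun y => rl_inv (hA y).reMu (hA y).mu
  have e : ∀ y, (muM L (H y))⁻¹ * Lᵀ * H y * (jM Q (H 0) * L * (muM L (H 0))⁻¹) +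
      I • (muM L (H y))⁻¹ = zM Q L (H y) * (jM Q (H 0) * L * (muM L (H 0))⁻¹) := fun y => by
    have e' : Lᵀ * (Q * (jM Q (H 0) * L * (muM L (H 0))⁻¹)) = -1 := by
      rw [← Matrix.mul_assoc Q, ← Matrix.mul_assoc Q, (hA 0).qj, Matrix.neg_mul, Matrix.neg_mul,
        Matrix.mul_neg, ← Matrix.mul_assoc, ← Matrix.mul_assoc, ← muM, mul_nonsing_inv _ (u 0)]
    rw [zM, Matrix.mul_sub, Matrix.sub_mul, Matrix.mul_smul, Matrix.smul_mul,
      Matrix.mul_assoc _ Q, Matrix.mul_assoc _ Lᵀ (Q * _), e', Matrix.mul_neg, Matrix.mul_one,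
      smul_neg, sub_neg_eq_add]
  have := cst (R := fun y => (muM L (H y))⁻¹ * Lᵀ * H y * (jM Q (H 0) * L * (muM L (H 0))⁻¹))
    (N := fun y => (muM L (H y))⁻¹) (fun i j => by
      simp only [e, mul_apply (M := zM Q L _)]
      exact Differentiable.fun_sum fun l _ => (h i l).mul_const _) (fun y => by
      have l : L.map star = L := hL.reL
      rw [Rl, bar_mul, bar_mul, bar_mul, bar_mul, bar_mul, ri, ri, (hs y).re, (hA 0).reJ,
        transpose_map, l]) ri (fun y => (hA y).mu.inv.posSemidef) y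
  rw [← nonsing_inv_nonsing_inv _ (u y), this, nonsing_inv_nonsing_inv _ (u 0)]

end alg

end Ahl

variable {ι X Y G : Type} [Fintype ι] [DecidableEq ι] [TopologicalSpace X] [TopologicalSpace Y]
  [Group G] [MulAction G Y] {M : Atl ι X} {p : Y → X}

open Ahl in
theorem ahlV (hA : AlgS) (hL : LagS)
    (hP : ∀ (m : ℕ) (E : Dt M p G (Fin (2 * m))) Q c x h ξ, E.Spl Q c x h ξ → PlS E Q x h ξ)
    (hH : ∀ (m : ℕ) (E : Dt M p G (Fin (2 * m))) Q c x h ξ, E.Spl Q c x h ξ → HolS8 E Q x h)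
    (hq : IsQuotientCoveringMap p G) : AhlV M p G := by
  intro m E Q c x h ξ hS hc f hf hol
  have R := AY.repA' ι X M
  have hp := lh hq
  have pd := ((R.isK_iff h).1 hS.k).2
  by_contra h0
  obtain ⟨k, hk⟩ := Nat.exists_eq_add_of_le hc.le
  obtain ⟨q0, hq0⟩ := hq.surjective (f 0)
  obtain ⟨F, ⟨-, hF⟩, -⟩ := hq.isCoveringMap.existsUnique_continuousMap_lifts ⟨f, hf⟩ 0 q0 hq0
  have pF : ∀ y, p (F y) = f y := congrFun hF
  obtain ⟨L, hl⟩ := hL (Fin (2 * m)) (Fin m) Q hS.pol.re hS.pol.alt (fun e => by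
    have := congrArg det (hS.pol.sq q0)
    rw [Dt.J, det_mul, det_mul, e, mul_zero, mul_zero, det_neg, det_one, mul_one] at this
    exact pow_ne_zero _ (neg_ne_zero.2 one_ne_zero) this.symm) (by simp)
  have sec : ∀ (e : Ch ι X) y, f y ∈ e.source →
      F12.Sec p e (e (f y)) (F12.sh hp (F y) e) ∧ F12.sh hp (F y) e (e (f y)) = F y :=
    fun e y hy => pF y ▸ F12.sh_self hp (pF y ▸ hy)
  have an := fun y => hol _ (M.ch_mem (f y)) y (M.mem _)
  have tg := fun y => (M.ch (f y)).map_source (M.mem (f y))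
  have sc := fun y => sec _ y (M.mem (f y))
  have nr : ∀ y, ∀ᶠ w in 𝓝 y, f w ∈ (M.ch (f y)).source := fun y =>
    hf.continuousAt.eventually ((M.ch (f y)).open_source.mem_nhds (M.mem _))
  have lf : ∀ y, ∀ᶠ w in 𝓝 y, F w = F12.sh hp (F y) (M.ch (f y)) (M.ch (f y) (f w)) := fun y =>
    F12.uniq hp F.continuous.continuousAt
      (ContinuousAt.comp (f := M.ch (f y) ∘ f) (sc y).1.1 (an y).continuousAt) (sc y).2.symm (by
        filter_upwards [nr y, (an y).continuousAt.eventually (sc y).1.2] with w w1 w2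
        exact (pF w).trans ((w2.trans ((M.ch (f y)).left_inv w1)).symm))
  let DX : Ch ι X → V ι → Matrix (Fin (2 * m)) ι ℂ := fun e y =>
    dX (x ∘ F12.sh hp (F y) e) (e (f y))
  have pl : ∀ y, Sg Q (E.H (F y)) ∧ Pt Q L (E.H (F y)) (h (f y)) (DX (M.ch (f y)) y) ∧
      ξ (f y) = xiM (E.H (F y)) (DX (M.ch (f y)) y) := fun y => by
    have := hP m E Q c x h ξ hS _ L hl _ (M.ch_mem _) _ (tg y) _ (sc y).1
    simp only [(sc y).2, R.repF_self] at this
    exact this
  have al := fun y => hA _ _ Q L _ hl (pl y).1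
  have ho := fun y => hH m E Q c x h ξ hS _ L hl _ (M.ch_mem _) _ (tg y) _ (sc y).1
  have mu := mu_cst hl (fun y => (pl y).1) al fun i j y => by
    refine (((ho y).2.1 i j).comp_of_eq (an y) rfl).differentiableAt.congr_of_eventuallyEq ?_
    filter_upwards [lf y] with w hw
    rw [hw]
    rfl
  obtain ⟨S, hs⟩ := root ((al 0).mu.smul (a := (1 / 2 : ℂ)) (by norm_num))
  let U : Ch ι X → V ι → Matrix ι (Fin m) ℂ := fun e y =>
    vX Q (M.repF h e (e (f y))) (DX e y) * L * S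
  choose A a1 a2 a3 using fun y => frame hl (al y) (pl y).1 (pl y).2.1 (pd _) (S := S) (by
    ext a i
    have := congrFun (hS.pol.cr _ (M.ch_mem _) _ (tg y) _ (sc y).1 i) a
    rw [(sc y).2] at this
    exact this) (by rw [mu y, hs])
  obtain ⟨B, U₀, hQ, hB⟩ : ∃ (B : Matrix (Fin m) ι ℂ) (U₀ : Matrix ι (Fin m) ℂ), B * U₀ = 1 ∧
      (jac (M.ch (f 0) ∘ f) 0 * (1 - U₀ * B) +
        vX Q (h (f 0)) (DX (M.ch (f 0)) 0) * L * S * B).det ≠ 0 := by
    refine ⟨A 0 * jac (M.ch (f 0) ∘ f) 0,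
      (jac (M.ch (f 0) ∘ f) 0)⁻¹ * (vX Q (h (f 0)) (DX (M.ch (f 0)) 0) * L * S), ?_, ?_⟩
    · rw [Matrix.mul_assoc, mul_nonsing_inv_cancel_left _ _ (Ne.isUnit h0), a2]
    · rwa [Matrix.mul_sub, Matrix.mul_assoc _⁻¹, mul_nonsing_inv_cancel_left _ _ (Ne.isUnit h0),
        sub_add_cancel, Matrix.mul_one]
  obtain ⟨C, hC⟩ := vol_le hQ ((congrArg (· + k) (Fintype.card_fin m)).trans hk.symm)
  let D : Ch ι X → V ι → ℂ := fun e y => (jac (e ∘ f) y * (1 - U₀ * B) + U e y * B).det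
  let v : V ι → ℝ := fun y => ‖(jac (M.ch (f y) ∘ f) y * (1 - U₀ * B) +
    vX Q (h (f y)) (DX (M.ch (f y)) y) * L * S * B).det‖ ^ 2 * (h (f y)).det.re
  have loc : ∀ e ∈ M.A, ∀ y, f y ∈ e.source →
      v y = ‖D e y‖ ^ 2 * (M.repF h e (e (f y))).det.re := fun e he y hy => by
    have t := R.tj_det e he _ (M.ch_mem (f y)) _ hy (M.mem _)
    have j : jac (M.ch (f y) ∘ f) y = tj e (M.ch (f y)) (f y) * jac (e ∘ f) y := by
      refine (jac_congr ?_).trans (jac_comp (σ := M.ch (f y) ∘ e.symm) (τ := e ∘ f)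
        (M.hol e he _ (M.ch_mem _) _ hy (M.mem _)).differentiableAt
        (hol e he y hy).differentiableAt)
      filter_upwards [hf.continuousAt.eventually (e.open_source.mem_nhds hy)] with w hw
      simp only [Function.comp_apply, e.left_inv hw]
    have d : DX e y = DX (M.ch (f y)) y * tj e (M.ch (f y)) (f y) := by
      ext a i
      have := congrFun (Two.dV ⟨he, e.map_source hy, (sec e y hy).1, M.ch_mem _, tg y, (sc y).1,
        (sec e y hy).2.trans (sc y).2.symm⟩ hp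
        (hS.aff.1.smV (M.ch_mem _) (tg y) (sc y).1).df i) a
      rw [e.left_inv hy, Finset.sum_apply] at this
      exact this.trans (Finset.sum_congr rfl fun l _ => mul_comm _ _)
    simp only [v, D, U, Atl.repF, e.left_inv hy]
    rw [j, d, ← vx_pull t Q, Matrix.mul_assoc (tj _ _ _), Matrix.mul_assoc (tj _ _ _),
      Matrix.mul_assoc (tj _ _ _), Matrix.mul_assoc (tj _ _ _), ← Matrix.mul_add, det_mul,
      RepB.det_pull, re_ofReal_mul, norm_mul]
    ring
  have ev : ∀ y, v =ᶠ[𝓝 y] fun w => ‖D (M.ch (f y)) w‖ ^ 2 *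
      (M.repF h (M.ch (f y)) (M.ch (f y) (f w))).det.re := fun y =>
    (nr y).mono fun w hw => loc _ (M.ch_mem _) w hw
  have aD : ∀ y, AnalyticAt ℂ (D (M.ch (f y))) y := fun y => by
    refine (RepB.sm_det (n := ⊤) fun a i => AnalyticAt.contDiffAt ?_).analyticAt
    simp only [U, Matrix.add_apply, mul_apply]
    refine (Finset.analyticAt_fun_sum _ fun l _ => (analyticAt_jac (an y) a l).mul
      analyticAt_const).add (Finset.analyticAt_fun_sum _ fun j _ => AnalyticAt.mul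
        (Finset.analyticAt_fun_sum _ fun j _ => AnalyticAt.mul
          (Finset.analyticAt_fun_sum _ fun j _ => AnalyticAt.mul ?_ analyticAt_const)
          analyticAt_const) analyticAt_const)
    refine (((ho y).1 a j).comp_of_eq (an y) rfl).congr ?_
    filter_upwards [nr y, lf y, (an y).continuousAt.eventually ((sc y).1.ev hp (tg y))]
      with w w1 w2 w3
    have e := w3.eq hp ((M.ch (f y)).map_source w1)
    rw [← w2] at e
    have d : dX (x ∘ F12.sh hp (F y) (M.ch (f y))) (M.ch (f y) (f w)) = DX (M.ch (f y)) w :=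
      Matrix.ext fun a i => congrFun (dV_congr (e.fun_comp x) i) a
    rw [← d]
    rfl
  have sH := fun y i j => ((hS.k _ (M.ch_mem (f y))).1.1.cd2 (tg y)) i j
  have c2 : ∀ y, ContDiffAt ℝ 2 v y := fun y => ((RepB.sm_sq (aD y)).mul
    (ContDiffAt.comp (g := fun z => (M.repF h (M.ch (f y)) z).det.re) y
      (reCLM.contDiff.contDiffAt.comp _ (RepB.sm_det (sH y)))
      (RepB.an_sm (an y)))).congr_of_eventuallyEq (ev y)
  have dp := fun x => RepB.pos_det (pd x)
  have := ahl (v := v) (k := k) (C := C) (by omega)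
    (continuous_iff_continuousAt.2 fun y => (c2 y).continuousAt)
    (fun y => mul_nonneg (sq_nonneg _) (dp _).le) (fun y hy => ?_) 0
  · exact mul_ne_zero (pow_ne_zero _ (norm_ne_zero_iff.2 hB)) (dp _).ne' this
  have d0 : D (M.ch (f y)) y ≠ 0 := fun e => by simp [(ev y).self_of_nhds, e] at hy
  have d1 : (M.repF h (M.ch (f y)) (M.ch (f y) (f y))).det.re ≠ 0 := by
    rw [R.repF_self]
    exact (dp _).ne'
  obtain ⟨g1, g2⟩ := gram (J := jac (M.ch (f y) ∘ f) y) (pd (f y)) (a1 y) (a2 y) hQ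
  have l : levi (fun w => (Real.log (v w) : ℂ)) y = pull (jac (M.ch (f y) ∘ f) y)
      (h (f y) - (A y)ᵀ * (A y).map star) := by
    have e1 : (fun w => (Real.log (v w) : ℂ)) =ᶠ[𝓝 y] fun w => RepB.lm (D (M.ch (f y))) w +
        (lg (M.repF h (M.ch (f y))) ∘ M.ch (f y) ∘ f) w := by
      filter_upwards [ev y, (c2 y).continuousAt.eventually_ne hy.ne'] with w w1 w2
      rw [w1] at w2 ⊢
      rw [Real.log_mul (left_ne_zero_of_mul w2) (right_ne_zero_of_mul w2), ofReal_add]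
      rfl
    rw [levi_congr e1, levi_add (RepB.sm_lm (aD y) d0) ((RepB.sm_lg (sH y) d1).comp y
      (RepB.an_sm (an y))), RepB.levi_lm (aD y) d0, zero_add,
      levi_comp (RepB.sm_lg (sH y) d1) (an y)]
    congr 1
    have r := congrArg Neg.neg (hS.ric (f y))
    rw [Atl.ricF, ric, neg_neg] at r
    refine r.trans ?_
    rw [a3, ← (pl y).2.2, neg_add, neg_neg, sub_eq_add_neg]
  refine ⟨c2 y, ?_, ?_⟩
  · rw [l]
    exact (Complex.nonneg_iff.1 (pull_psd _ g1).trace_nonneg).1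
  · rw [l]
    exact g2.trans_le (hC _ (pull_psd _ g1))

end Pool.Agent.Lib.MP_813db1_ag.VH.S8
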