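import Pool.Agent.Lib.MP_813db1_ag.VH.S8.PG
import Pool.Agent.Lib.MP_813db1_ag.HS.E.Montel

/-! Limits of commuting maps near the identity commute infinitesimally. -/

namespace Pool.Agent.Lib.MP_813db1_ag.VH.S8

open Set Filter Topology Metric Pool.Agent.Lib.MP_caab05_ag.GB.OsgAux

variable {W : Type} [NormedAddCommGroup W] [NormedSpace ℂ W] [NormedSpace ℝ W]
  [IsScalarTower ℝ ℂ W] [FiniteDimensional ℂ W]

theorem br_key {𝓕 : Filter ℕ} [𝓕.NeBot] {u : ℕ → W → W} {t : ℕ → ℝ} {d : ℕ → W} {ξ : W → W}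
    {c y d₀ : W} {R : ℝ} (ht : ∀ j, 0 < t j) (ht0 : Tendsto t 𝓕 (𝓝 0)) (hd : Tendsto d 𝓕 (𝓝 d₀))
    (hD : ∀ᶠ j in 𝓕, DifferentiableOn ℂ (u j) (ball c R))
    (hu : TendstoUniformlyOn u ξ 𝓕 (ball c R)) (hy : y ∈ ball c R) :
    Tendsto (fun j => (t j)⁻¹ • (u j (y + t j • d j) - u j y)) 𝓕 (𝓝 (fderiv ℂ ξ y d₀)) := by
  obtain ⟨h1, h2⟩ := HS.E.montel.2 𝓕 u ξ c R hD hu
  have h3 := (h1.differentiableAt (isOpen_ball.mem_nhds hy)).continuousAt
  obtain ⟨r, hr, h4⟩ := Metric.eventually_nhds_iff_ball.1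
    ((h3.norm.eventually_lt_const (lt_add_one _)).and (isOpen_ball.mem_nhds hy))
  have h5 : Tendsto (fun j => fderiv ℂ (u j) y (d j)) 𝓕 (𝓝 (fderiv ℂ ξ y d₀)) :=
    (isBoundedBilinearMap_apply.continuous.tendsto (_, _)).comp ((h2 y hy).prodMk_nhds hd)
  have h6 : Tendsto (fun j => y + t j • d j) 𝓕 (𝓝 y) := by simpa using (ht0.smul hd).const_add y
  refine h5.congr_dist (squeeze_zero' (Eventually.of_forall fun _ => dist_nonneg)
    (g := fun j => 4 * (‖ξ y‖ + 2) * (t j * (‖d j‖ / r) ^ 2)) ?_ ?_)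
  · filter_upwards [hD, Metric.tendstoUniformlyOn_iff.1 hu 1 one_pos,
      h6.eventually (ball_mem_nhds y hr)] with j a1 a2 a3
    have a4 := second (M := ‖ξ y‖ + 2) (a1.mono fun z hz => (h4 z hz).2) (fun z hz => by
      have := a2 z (h4 z hz).2
      rw [dist_comm, dist_eq_norm] at this
      linarith [norm_le_norm_sub_add (u j z) (ξ z), (h4 z hz).1]) a3
    have a5 := ht j
    rw [add_sub_cancel_left, norm_smul, Real.norm_of_nonneg a5.le,
      ContinuousLinearMap.map_smul_of_tower] at a4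
    rw [dist_comm, dist_eq_norm, ← inv_smul_smul₀ a5.ne' (fderiv ℂ (u j) y (d j)), ← smul_sub,
      norm_smul, norm_inv, Real.norm_of_nonneg a5.le, inv_mul_le_iff₀ a5]
    exact a4.trans_eq (by ring)
  · simpa using (ht0.mul ((hd.norm.div_const r).pow 2)).const_mul (4 * (‖ξ y‖ + 2))

theorem brS : BrS W := by
  intro 𝓕 _ u v s t ξ η c R hs ht hs0 ht0 hD hu hv y hy h
  refine tendsto_nhds_unique_of_eventuallyEq
    (br_key ht ht0 (hv.tendsto_at hy) (hD.mono fun _ k => k.1) hu hy)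
    (br_key hs hs0 (hu.tendsto_at hy) (hD.mono fun _ k => k.2) hv hy) (h.mono fun j k => ?_)
  have e : s j • (u j (y + t j • v j y) - u j y) = t j • (v j (y + s j • u j y) - v j y) := by
    rw [smul_sub, smul_sub]
    linear_combination (norm := abel1) k
  simp only
  rw [inv_smul_eq_iff₀ (ht j).ne', smul_comm, eq_inv_smul_iff₀ (hs j).ne', e]

end Pool.Agent.Lib.MP_813db1_ag.VH.S8
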