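import Pool.Agent.Lib.MP_813db1_ag.VH.S8.StL
import Pool.Agent.Lib.MP_813db1_ag.HS.Rows

/-! Charts in which the geometry is that of the model. -/

namespace Pool.Agent.Lib.MP_813db1_ag.VH.S8

open Pool.Agent.Lib.MP_813db1_ag.HS Pool.Agent.Lib.MP_813db1_ag.AS RowsH
open Complex Matrix Filter Topology Set Metric
open scoped ContDiff ComplexOrder

namespace ChA

variable {ι : Type} [Fintype ι] [DecidableEq ι] {s : Finset ι} {w₀ w : V ι} {R : ℝ}

omit [Fintype ι] in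
theorem yp_gl (h0 : yp s w₀ = 0) (y : V (Ta s)) : yp s (w₀ + glue s 0 y) = y := funext fun i => by
  have : w₀ i = 0 := congrFun h0 i
  simp [yp, glue, i.2, this]

theorem gl_ball {y : V (Ta s)} (h : y ∈ ball 0 R) : w₀ + glue s 0 y ∈ ball w₀ R := by
  simpa using gl_mem s h

omit [Fintype ι] [DecidableEq ι] in
theorem yp_sub (h0 : yp s w₀ = 0) (w : V ι) : yp s (w - w₀) = yp s w :=
  (show yp s (w - w₀) = yp s w - yp s w₀ from rfl).trans (by rw [h0, sub_zero])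

theorem yp_ball (h0 : yp s w₀ = 0) (h : w ∈ ball w₀ R) : yp s w ∈ ball (0 : V (Ta s)) R :=
  yp_sub h0 w ▸ yp_mem s (by rwa [mem_ball_zero_iff, ← mem_ball_iff_norm])

theorem box (h0 : yp s w₀ = 0) (h1 : ‖zp s w - zp s w₀‖ < R) (h2 : ‖yp s w‖ < R) :
    w ∈ ball w₀ R := by
  have hR := (norm_nonneg _).trans_lt h2
  rw [← yp_sub h0] at h2
  rw [pi_norm_lt_iff hR] at h1 h2
  refine mem_ball_iff_norm.2 ((pi_norm_lt_iff hR).2 fun i => ?_)
  by_cases hi : i ∈ s
  exacts [h1 ⟨i, hi⟩, h2 ⟨i, hi⟩]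

theorem an_gl (w₀ : V ι) (y : V (Ta s)) : AnalyticAt ℂ (fun y => w₀ + glue s 0 y) y := by
  refine analyticAt_const.add (analyticAt_pi_iff.2 fun i => ?_)
  by_cases h : i ∈ s
  · simp only [glue, dif_pos h]; exact analyticAt_const
  · simp only [glue, dif_neg h]
    exact (ContinuousLinearMap.proj (R := ℂ) (φ := fun _ : Ta s => ℂ) ⟨i, h⟩).analyticAt y

theorem cst (h0 : yp s w₀ = 0) {f : V ι → ℂ} (h : ∀ w ∈ ball w₀ R, DifferentiableAt ℝ f w ∧
    ∀ i ∈ s, ∀ c : ℂ, fderiv ℝ f w (Pi.single i c) = 0) (hw : w ∈ ball w₀ R) :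
    f w = f (w₀ + glue s 0 (yp s w)) := by
  have := const s R (fun u => f (w₀ + u)) (fun u hu => by
    have k := h (w₀ + u) (by simpa using hu)
    rw [fderiv_comp_add_left]
    exact ⟨k.1.comp u (differentiableAt_id.const_add _), k.2⟩) (w - w₀)
    (by rwa [mem_ball_zero_iff, ← mem_ball_iff_norm])
  rwa [add_sub_cancel, yp_sub h0] at this

theorem clon {b : V ι → Mat ι} (h : ClOn b (ball w₀ R)) :
    ClOn (fun y : V (Ta s) => (b (w₀ + glue s 0 y)).submatrix Subtype.val Subtype.val)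
      (ball 0 R) := by
  refine ⟨fun y hy i j => (h.1 _ (gl_ball hy) i.1 j.1).comp y
    ((an_gl w₀ y).contDiffAt.restrict_scalars ℝ), fun y hy => (h.2.1 _ (gl_ball hy)).submatrix _,
    fun y hy i j k => ?_⟩
  have d : ∀ a c (k : Ta s), dz (fun u => b (w₀ + glue s 0 u) a c) k y =
      dz (fun u => b u a c) k.1 (w₀ + glue s 0 y) := fun a c k => by
    rw [dz_gl s (f := fun u => b (w₀ + u) a c)
      ((sm_df (h.1 _ (gl_ball hy) a c)).comp _ (differentiableAt_id.const_add _)), dz, dz,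
      fderiv_comp_add_left (f := fun u => b u a c)]
  simp only [submatrix_apply, d]
  exact h.2.2 _ (gl_ball hy) _ _ _

theorem blk {b : V ι → Mat ι} (h0 : yp s w₀ = 0) (h : ClOn b (ball w₀ R))
    (hr : ∀ w ∈ ball w₀ R, ∀ a ∈ s, ∀ j, b w a j = 0) (hw : w ∈ ball w₀ R) :
    b w = bk s 0 0 0 ((b (w₀ + glue s 0 (yp s w))).submatrix Subtype.val Subtype.val) := by
  refine bk_ext (s := s) (fun i j => ?_) (fun i j => ?_) (fun i j => ?_) fun i j => ?_
  · rw [bk11, hr w hw _ i.2, Matrix.zero_apply]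
  · rw [bk12, hr w hw _ i.2, Matrix.zero_apply]
  · rw [bk21, ← (h.2.1 w hw).apply, hr w hw _ j.2, Matrix.zero_apply, star_zero]
  · rw [bk22]
    exact cst h0 (fun u hu => ⟨sm_df (h.1 u hu _ _), fun k hk d => bas s (c := 0) isOpen_ball h
      (fun v hv a ha l => by rw [hr v hv a ha, ite_self]) hu _ _ hk d⟩) hw

theorem pos {A : Mat (Sg' s)} {a : Matrix (Sg' s) (Ta s) ℂ} {β : Mat (Ta s)}
    (h : (pull (bk s 1 a 0 1) (bk s A 0 0 β)).PosDef) : β.PosDef := by
  have := (mat.pull_pd ι (bk s 1 (-a) 0 1) _ (by rw [bk_det]; simp)).1 h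
  rw [RepB.pull_pull, bk_mul] at this
  simp only [Matrix.mul_one, Matrix.one_mul, Matrix.mul_zero, Matrix.zero_mul, add_zero, zero_add,
    neg_add_cancel, bk_one, RepA.pull_one] at this
  convert this.submatrix (e := Subtype.val) Subtype.val_injective using 1
  exact Matrix.ext fun i j => (bk22 A 0 0 β i j).symm

end ChA

open ChA

variable {ι X Y G r : Type} [Fintype ι] [DecidableEq ι] [TopologicalSpace X] [TopologicalSpace Y]
  [Group G] [MulAction G Y] [Fintype r] [DecidableEq r] {M : Atl ι X} {p : Y → X}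
  {E : Dt M p G r} {Q : Mat r} {c : G → V r} {x : Y → V r} {h ξ : X → Mat ι}

theorem chS (hA : AlgS) (hM : ModS ι r) (hG : GmS ι r) (h1 : StrS E Q x h ξ)
    (h2 : HolS8 E Q x h) (hq : IsQuotientCoveringMap p G) (hS : E.Spl Q c x h ξ) :
    ChS E Q x h := by
  intro s L hL q
  obtain ⟨e, he, w₀, hw₀, sh, hs, hq0, h0, hev⟩ := h1 s L hL q
  obtain ⟨R, hR, hB⟩ := Metric.eventually_nhds_iff_ball.1
    (((e.open_target.eventually_mem hw₀).and (hs.ev (lh hq) hw₀)).and hev)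
  let H : V (Ta s) → Mat r := fun y => E.H (sh (w₀ + glue s 0 y))
  let b : V ι → Mat ι := fun w => M.repF h e w - M.repF ξ e w
  let β : V (Ta s) → Mat (Ta s) := fun y =>
    (b (w₀ + glue s 0 y)).submatrix Subtype.val Subtype.val
  have sm : ∀ w ∈ ball w₀ R, SmR (E.H ∘ sh) w := fun w hw =>
    E.sm e he w (hB w hw).1.1 sh (hB w hw).1.2
  have sg : ∀ y, Sg Q (E.H y) := fun y => ⟨E.reH y, E.pos y, hS.pol.sq y⟩
  have eH : ∀ w ∈ ball w₀ R, E.H (sh w) = H (yp s w) := fun w hw => Matrix.ext fun i j =>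
    cst h0 (f := fun u => E.H (sh u) i j) (fun u hu => ⟨(sm u hu).df i j, fun a ha t =>
      congrFun₂ (((hB u hu).2.2 a ha).1 t) i j⟩) hw
  have m0 : Mo0 s Q L H R := ⟨hL, hR, fun y _ => sg _, fun y hy i j =>
    (sm _ (gl_ball hy) i j).comp y ((an_gl w₀ y).contDiffAt.restrict_scalars ℝ), fun y hy i j =>
    ((h2 _ L hL e he _ (hB _ (gl_ball hy)).1.1 sh (hB _ (gl_ball hy)).1.2).2.1 i j).comp
      (f := fun y => w₀ + glue s 0 y) (an_gl w₀ y)⟩
  have ex : ∀ w ∈ ball w₀ R, x (sh w) = xm s Q L H w := fun w hw => by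
    rw [xm, ← eH w hw, ← (hB w hw).2.1, ← cv_rv (hS.pol.rx (sh w)), (hA _ _ Q L _ hL (sg _)).xz]
  have cl : ClOn b (ball w₀ R) := by
    have k1 := (hS.k e he).1
    have k2 := hS.cl e he
    refine ⟨fun w hw i j => (k1.1 w (hB w hw).1.1 i j).sub (k2.1 w (hB w hw).1.1 i j),
      fun w hw => (k1.2.1 w (hB w hw).1.1).sub (k2.2.1 w (hB w hw).1.1), fun w hw i j k => ?_⟩
    have d : ∀ i j k, dz (fun w => b w i j) k w = dz (fun w => M.repF h e w i j) k w -
        dz (fun w => M.repF ξ e w i j) k w := fun i j k =>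
      dz_sub (sm_df (k1.1 w (hB w hw).1.1 i j)) (sm_df (k2.1 w (hB w hw).1.1 i j)) k
    rw [d, d, k1.2.2 w (hB w hw).1.1, k2.2.2 w (hB w hw).1.1]
  have eb : ∀ w ∈ ball w₀ R, b w = bk s 0 0 0 (β (yp s w)) := fun w hw =>
    ChA.blk h0 cl (fun u hu a ha => ((hB u hu).2.2 a ha).2) hw
  have eg : ∀ w ∈ ball w₀ R, M.repF h e w = gM s Q L H β w := fun w hw => by
    have k : x ∘ sh =ᶠ[𝓝 w] xm s Q L H := eventually_of_mem (isOpen_ball.mem_nhds hw) ex
    rw [(hM s Q L H R m0 w (yp_ball h0 hw)).2, ← eb w hw, ← sub_eq_iff_eq_add]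
    refine (sub_sub_cancel _ _).trans ((hS.xi e he w (hB w hw).1.1 sh (hB w hw).1.2).trans ?_)
    simp only [xiL, dV_congr k, Function.comp_apply, eH w hw]
  have kon : KOn β (ball 0 R) := ⟨clon cl, fun y hy => by
    have k := (hS.k e he).2 _ (hB _ (gl_ball hy)).1.1
    rw [eg _ (gl_ball hy), gM, yp_gl h0] at k
    exact ChA.pos k⟩
  refine ⟨⟨e, sh, zp s w₀, R, H, β, he, ⟨m0, kon, fun y hy => ?_⟩, ?_, fun w a a' => ?_⟩⟩
  · have hw := gl_ball (w₀ := w₀) hy
    have k := (hG s Q L H β R m0 kon _ (yp_ball h0 hw)).2.2.2.2.1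
    have k1 : ric (M.repF h e) (w₀ + glue s 0 y) = ric (gM s Q L H β) (w₀ + glue s 0 y) := by
      rw [ric, ric, levi_congr]
      filter_upwards [isOpen_ball.mem_nhds hw] with u hu
      rw [eg u hu]
    have k2 : M.repF (M.ricF h) e (w₀ + glue s 0 y) = -b (w₀ + glue s 0 y) := by
      simp only [b, Atl.repF, hS.ric, pull, Matrix.mul_add, Matrix.add_mul, Matrix.mul_neg,
        Matrix.neg_mul, neg_sub]
      abel
    rw [← k1, ← (AY.repB' ι X M).ric_rep h hS.k e he _ (hB _ hw).1.1, k2, eb _ hw, neg_inj,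
      yp_gl h0] at k
    exact Matrix.ext fun i j =>
      (bk22 0 0 0 _ i j).symm.trans ((congrFun₂ k i j).symm.trans (bk22 0 0 0 _ i j))
  · rw [← hq0, ← h0]
    exact congrArg sh (funext fun i => by by_cases hi : i ∈ s <;> simp [glue, zp, yp, hi])
  · have hw := ChA.box h0 a a'
    exact ⟨(hB w hw).1.1, (hB w hw).1.2, eH w hw, ex w hw, eg w hw⟩

end Pool.Agent.Lib.MP_813db1_ag.VH.S8
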