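import Pool.Agent.Lib.MP_813db1_ag.VH.S8.StL

/-! The fields along the leaves commute, and the metric is constant along them. -/

namespace Pool.Agent.Lib.MP_813db1_ag.VH.S8

open Pool.Agent.Lib.MP_813db1_ag.HS Pool.Agent.Lib.MP_813db1_ag.AS
open Complex Matrix Filter Topology Set
open scoped ContDiff ComplexOrder

namespace ComA

variable {ι r : Type} [Fintype ι] [DecidableEq ι] [Fintype r] [DecidableEq r]

theorem fd {σ : Type} [Fintype σ] {f : V ι → V σ} {z : V ι} (h : DifferentiableAt ℂ f z)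
    (a : V ι) : fderiv ℂ f z a = ∑ k, a k • dV f k z := by
  funext i
  have d : DifferentiableAt ℂ (fun w => f w i) z := differentiableAt_pi.1 h i
  rw [show fderiv ℂ f z a i = fderiv ℂ (fun w => f w i) z a by
    rw [fderiv_apply h i]; rfl, ← fderiv_hol d, fderiv_eq_dz, Finset.sum_apply]
  exact Finset.sum_congr rfl fun k _ => by
    rw [dzb_hol d, zero_mul, add_zero, mul_comm]; rfl

omit [DecidableEq r] in
theorem mm {α β : Type} (A : Matrix α r ℂ) (B : Matrix r β ℂ) :
    (A * B).map star = A.map star * B.map star := by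
  ext i j
  simp [mul_apply]

theorem ri {H : Mat r} (h : H.map star = H) (h0 : H.det ≠ 0) : H⁻¹.map star = H⁻¹ := by
  refine (inv_eq_right_inv ?_).symm
  conv_lhs => rw [← h, ← mm, h, mul_nonsing_inv _ h0.isUnit]
  exact Matrix.map_one _ (star_zero _) (star_one _)

omit [Fintype r] in
theorem cj {J : Mat r} (h : J.map star = J) : (1 - I • J).map star = 1 + I • J := by
  ext i j
  have : star (J i j) = J i j := congrFun₂ h i j
  rw [map_apply, Matrix.sub_apply, Matrix.add_apply, Matrix.smul_apply, star_sub, smul_eq_mul,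
    star_mul', this, one_apply, apply_ite star]
  simp

theorem loc {H : V ι → Mat r} {x : V ι → V r} {G : V ι → Mat ι} {Q : Mat r}
    {X : V ι → Matrix ι r ℂ} {z : V ι} (hH : SmR H z) (h0 : (H z).det ≠ 0) (hx : SmV x z)
    (hG : DfR G z) (g0 : (G z).det ≠ 0) (rH : ∀ w, (H w).map star = H w) (sH : ∀ w, (H w)ᵀ = H w)
    (rx : ∀ w, star (x w) = x w) (rQ : Q.map star = Q)
    (gs : ∀ i j k, dz (fun w => G w i j) k z = dz (fun w => G w k j) i z) (hX : AnM X z)
    (gx : ∀ᶠ w in 𝓝 z, (G w)ᵀ * X w = (-I) • ((dX x w)ᴴ * Q))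
    (dx : ∀ᶠ w in 𝓝 z, (2 : ℂ) • (dX x w * X w) = 1 - I • jM Q (H w))
    (hp : ∀ i j, px H x i j z = 0) (hol : ∀ k, ca H k z * (1 - I • jM Q (H z)) = 0) (u : V r) :
    dF H z (X z *ᵥ u) = 0 ∧ ∀ v : V r, fderiv ℂ (fun w => X w *ᵥ v) z (X z *ᵥ u) =
      fderiv ℂ (fun w => X w *ᵥ u) z (X z *ᵥ v) := by
  have rJ : (jM Q (H z)).map star = jM Q (H z) := by rw [jM, mm, ri (rH z) h0, rQ]
  have rb : ∀ k, dRb H k z = (dR H k z).map star := dRb_real (Eventually.of_forall rH)
  have c1 : ∀ k, cb H k z * jM Q (H z) = I • cb H k z := fun k => by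
    have := congrArg (·.map star) (hol k)
    simp only [mm, cj rJ, Matrix.map_zero _ (star_zero ℂ)] at this
    rw [ca, mm, ri (rH z) h0, ← rb, ← cb, Matrix.mul_add, Matrix.mul_one, Matrix.mul_smul,
      add_eq_zero_iff_eq_neg] at this
    conv_rhs => rw [this, smul_neg, smul_smul, I_mul_I, neg_smul, neg_neg, one_smul]
  have dC : ∀ v, DifferentiableAt ℂ (fun w => X w *ᵥ v) z := fun v =>
    differentiableAt_pi.2 fun i => DifferentiableAt.fun_sum fun a _ =>
      (hX i a).differentiableAt.mul_const _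
  have dR' : ∀ v, DfV (fun w => X w *ᵥ v) z := fun v i =>
    (differentiableAt_pi.1 (dC v) i).restrictScalars ℝ
  have hD : SmR (dX x) z := fun a i => hx.dV i a
  have c2 : ∀ j v, (2 : ℂ) • ∑ k, (X z *ᵥ v) k • dV (dVb x j) k z = -(cb H j z *ᵥ v) :=
    fun j v => by
      have e1 := dVb_congr (x := fun w => (2 : ℂ) • (dX x w *ᵥ (X w *ᵥ v)))
        (x' := fun w => v - I • (H w)⁻¹ *ᵥ (Q *ᵥ v)) (dx.mono fun w hw => by
          simp only [mulVec_mulVec]
          rw [← smul_mulVec, hw, sub_mulVec, one_mulVec, smul_mulVec, jM]) j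
      have d1 := (hH.inv h0).df
      have d2 := d1.mulVec (DfV.const (Q *ᵥ v))
      rw [dVb_csmul _ (hD.df.mulVec (dR' v)), dVb_mulVec hD.df (dR' v),
        show dVb (fun w => X w *ᵥ v) j z = 0 from
          funext fun i => dzb_hol (differentiableAt_pi.1 (dC v) i) j,
        mulVec_zero, add_zero, dVb_sub (DfV.const _) (d2.smul (differentiableAt_const I)),
        dVb_const, dVb_csmul _ d2, dVb_mulVec d1 (DfV.const _), dVb_const, mulVec_zero, add_zero,
        dRb_inv hH h0, mulVec_mulVec v _ Q, Matrix.neg_mul, ← cb, Matrix.mul_assoc, ← jM, c1, neg_mulVec,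
        smul_mulVec, smul_neg, smul_smul, I_mul_I, neg_smul, neg_neg, one_smul, zero_sub] at e1
      rw [← e1]
      congr 1
      funext a
      simp only [dV_dVb_comm hx, Finset.sum_apply, Pi.smul_apply, smul_eq_mul]
      exact Finset.sum_congr rfl fun k _ => mul_comm _ _
  refine ⟨?_, fun v => ?_⟩
  · obtain ⟨B, hB⟩ : ∃ B, B = ∑ k, (X z *ᵥ u) k • ca H k z := ⟨_, rfl⟩
    have b1 : B * (dX x z).map star = 0 := by
      ext a j
      have e1 : ∑ k, (X z *ᵥ u) k • px H x k j z = 0 := by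
        simp only [hp, smul_zero, Finset.sum_const_zero]
      have e2 : ∑ k, (X z *ᵥ u) k • dV x k z = dX x z *ᵥ (X z *ᵥ u) := by
        funext b
        simp only [Finset.sum_apply, Pi.smul_apply, smul_eq_mul]
        exact Finset.sum_congr rfl fun k _ => mul_comm _ _
      have e3 : (2 : ℂ) • (cb H j z *ᵥ (dX x z *ᵥ (X z *ᵥ u))) = (2 : ℂ) • (cb H j z *ᵥ u) := by
        rw [← mulVec_smul, mulVec_mulVec u, ← smul_mulVec, dx.self_of_nhds, mulVec_mulVec,
          Matrix.mul_sub, Matrix.mul_one, Matrix.mul_smul, c1, smul_smul, I_mul_I, ← smul_mulVec]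
        congr 1
        module
      simp only [px, smul_add, Finset.sum_add_distrib, smul_comm _ (2 : ℂ), ← Finset.smul_sum,
        ← mulVec_smul, ← mulVec_sum, c2, e2] at e1
      rw [smul_right_injective _ two_ne_zero e3, neg_add_cancel, zero_add] at e1
      have e4 : B *ᵥ dVb x j z = 0 := by
        rw [← e1, hB, sum_mulVec]
        simp only [smul_mulVec, mulVec_smul]
      rw [dVb_real (Eventually.of_forall rx)] at e4
      exact congrFun e4 a
    have b2 : B * (1 + I • jM Q (H z)) = 0 := by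
      rw [← cj rJ, ← dx.self_of_nhds, show ((2 : ℂ) • (dX x z * X z)).map star =
        (2 : ℂ) • (dX x z * X z).map star from Matrix.ext fun _ _ => by
          simp only [map_apply, Matrix.smul_apply, smul_eq_mul, star_mul', star_ofNat], mm, Matrix.mul_smul,
        ← Matrix.mul_assoc, b1, Matrix.zero_mul, smul_zero]
    have b3 : B * (1 - I • jM Q (H z)) = 0 := by
      simp only [hB, Matrix.sum_mul, Matrix.smul_mul, hol, smul_zero, Finset.sum_const_zero]
    have b4 : B = 0 := by
      have : (2 : ℂ) • B = B * (1 + I • jM Q (H z)) + B * (1 - I • jM Q (H z)) := by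
        rw [← Matrix.mul_add, add_add_sub_cancel, Matrix.mul_add, Matrix.mul_one, two_smul]
      rw [b2, b3, add_zero] at this
      exact (smul_eq_zero.1 this).resolve_left two_ne_zero
    have b5 : ∑ k, (X z *ᵥ u) k • dR H k z = 0 := by
      rw [← Matrix.mul_zero (H z), ← b4, hB, Matrix.mul_sum]
      simp only [Matrix.mul_smul, mul_ca h0]
    ext a b
    have b6 := congrFun₂ b5 a b
    simp only [Matrix.sum_apply, Matrix.smul_apply, smul_eq_mul, Matrix.zero_apply] at b6
    have b7 := congrArg star b6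
    rw [star_sum, star_zero] at b7
    rw [dF, of_apply, fderiv_eq_dz, Finset.sum_add_distrib, Matrix.zero_apply, ← add_zero 0]
    congr 1
    · rw [← b6]
      exact Finset.sum_congr rfl fun k _ => mul_comm _ _
    · rw [← b7]
      exact Finset.sum_congr rfl fun k _ => by
        rw [star_mul, ← dRb_apply, rb, map_apply]
  · have k1 : ∀ u v j, ((G z)ᵀ *ᵥ fderiv ℂ (fun w => X w *ᵥ v) z (X z *ᵥ u)) j =
        -(∑ k, ∑ i, (X z *ᵥ u) k * (X z *ᵥ v) i * dz (fun w => G w i j) k z) -
          u ⬝ᵥ dRb H j z *ᵥ v / 2 := fun u v j => by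
      have e1 : ∀ k, ((G z)ᵀ *ᵥ dV (fun w => X w *ᵥ v) k z) j =
          -(∑ i, (X z *ᵥ v) i * dz (fun w => G w i j) k z) -
            I * (dV (dVb x j) k z ⬝ᵥ Q *ᵥ v) := fun k => by
        have a1 := congrFun (dV_mulVec hG.tr (dR' v) k) j
        have a2 : dV (fun w => (G w)ᵀ *ᵥ (X w *ᵥ v)) k z j =
            dz (fun w => -I * (dVb x j w ⬝ᵥ Q *ᵥ v)) k z := dz_congr (gx.mono fun w hw => by
          simp only [mulVec_mulVec, hw]
          rw [smul_mulVec, ← mulVec_mulVec, dVb_real (Eventually.of_forall rx)]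
          rfl) k
        rw [dz_cmul _ ((hx.dVb j).df.dot (DfV.const _)), dz_dot (hx.dVb j).df (DfV.const _),
          dV_const, dotProduct_zero, add_zero] at a2
        have a3 : (dR (fun w => (G w)ᵀ) k z *ᵥ X z *ᵥ v) j =
            ∑ i, (X z *ᵥ v) i * dz (fun w => G w i j) k z :=
          Finset.sum_congr rfl fun i _ => mul_comm _ _
        rw [Pi.add_apply, a3] at a1
        linear_combination a2 - a1
      have e2 : cb H j z *ᵥ u ⬝ᵥ Q *ᵥ v = I * (u ⬝ᵥ dRb H j z *ᵥ v) := by
        have s : (cb H j z)ᵀ * H z = dRb H j z := by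
          rw [← sH z, ← transpose_mul, mul_cb h0, ← dRb_tr, funext sH]
        rw [dotProduct_mulVec, ← vecMul_transpose, vecMul_vecMul, ← dotProduct_mulVec,
          ← mul_nonsing_inv_cancel_left (H z) Q h0.isUnit, ← jM, ← Matrix.mul_assoc, s,
          ← mul_cb h0, Matrix.mul_assoc, c1, Matrix.mul_smul, smul_mulVec, dotProduct_smul,
          smul_eq_mul]
      have e3 := congrArg (· ⬝ᵥ Q *ᵥ v) (c2 j u)
      simp only [smul_dotProduct, sum_dotProduct, neg_dotProduct, e2, smul_eq_mul] at e3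
      rw [fd (dC v), mulVec_sum, Finset.sum_apply]
      simp only [mulVec_smul, Pi.smul_apply, e1, smul_eq_mul, mul_sub, mul_neg, Finset.mul_sum,
        Finset.sum_sub_distrib, Finset.sum_neg_distrib, ← mul_assoc, mul_comm _ I]
      simp only [mul_assoc I, ← Finset.mul_sum]
      linear_combination (-I / 2) * e3 + (u ⬝ᵥ dRb H j z *ᵥ v / 2) * I_mul_I
    have k2 : IsUnit (G z)ᵀ := (isUnit_iff_isUnit_det _).2 (by rw [det_transpose]; exact g0.isUnit)
    refine mulVec_injective_iff_isUnit.2 k2 (funext fun j => ?_)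
    rw [k1, k1, Finset.sum_comm, dotProduct_mulVec v, ← mulVec_transpose, dotProduct_comm _ u,
      ← dRb_tr, funext sH]
    congr 2
    exact Finset.sum_congr rfl fun k _ => Finset.sum_congr rfl fun i _ => by rw [gs]; ring

end ComA

variable {ι X Y G r : Type} [Fintype ι] [DecidableEq ι] [TopologicalSpace X] [TopologicalSpace Y]
  [Group G] [MulAction G Y] [Fintype r] [DecidableEq r] {M : Atl ι X} {p : Y → X}
  {E : Dt M p G r} {Q : Mat r} {c : G → V r} {x : Y → V r} {h ξ : X → Mat ι}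

theorem comS8 (hq : IsQuotientCoveringMap p G) (hS : E.Spl Q c x h ξ) {σ : Type} [Fintype σ]
    [DecidableEq σ] (L : Matrix r σ ℂ) (hL : Lag Q L) (h1 : PlS E Q x h ξ) (h2 : HolS8 E Q x h) :
    ComS8 E Q x h := fun e he z hz s hs =>
  ComA.loc (H := E.H ∘ s) (x := x ∘ s) (G := M.repF h e)
    (X := fun w => vX Q (M.repF h e w) (dX (x ∘ s) w)) (E.sm e he z hz s hs) (E.det_ne _) (hS.aff.1.smV he hz hs)
    (fun i j => sm_df ((hS.k e he).1.1 z hz i j)) ((hS.k e he).2 z hz).det_pos.ne'
    (fun _ => E.reH _) (fun _ => E.sym _) (fun _ => hS.pol.rx _) hS.pol.re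
    ((hS.k e he).1.2.2 z hz) (h2 σ L hL e he z hz s hs).1
    ((e.open_target.eventually_mem hz).mono fun w hw => by
      rw [vX, Matrix.mul_smul, ← Matrix.mul_assoc, ← Matrix.mul_assoc, ← transpose_mul,
        nonsing_inv_mul _ ((hS.k e he).2 w hw).det_pos.ne'.isUnit, transpose_one, Matrix.one_mul])
    ((Loc.ev (h1 σ L hL) (lh hq) he hz hs).mono fun _ hw => hw.2.1.dx)
    (hS.px e he z hz s hs).1 (hS.hol e he z hz s hs)

end Pool.Agent.Lib.MP_813db1_ag.VH.S8
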