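import Pool.Agent.Lib.MP_813db1_ag.VH.S8.PG
import Pool.Agent.Lib.MP_caab05_ag.GB.Osg

/-! Commutators of elements with small holonomy have quadratically small holonomy. -/

namespace Pool.Agent.Lib.MP_813db1_ag.VH.S8.PG

open Set Filter Topology Metric

variable {G F W : Type} [Group G] [NormedAddCommGroup F] [NormedSpace ℝ F]
  [NormedAddCommGroup W] [NormedSpace ℂ W] [NormedSpace ℝ W] {P : PG G F W}

namespace CommAux

/-- the inverse has small holonomy on a fixed smaller ball. -/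
lemma inv_sm (hU : P.UnifS) (k : P.κ) : ∃ ρ > 0, ρ ≤ P.yr k / 4 ∧ ∀ η ≤ ρ, ∀ α,
      P.Sm k (P.yc k) (P.yr k / 2) η α → P.Sm k (P.yc k) ρ η α⁻¹ := by
  have hr := P.pos k
  obtain ⟨ρ, hρ, C, hC, h⟩ := hU k k (P.yr k / 2) (P.yr k / 2) (by linarith) (by linarith)
  have hC0 : 0 < C := by linarith
  have h1 : min (ρ / 2) (P.yr k / (4 * C)) ≤ ρ / 2 := min_le_left _ _
  have h2 : C * min (ρ / 2) (P.yr k / (4 * C)) ≤ P.yr k / 4 := by
    calc _ ≤ C * (P.yr k / (4 * C)) := mul_le_mul_of_nonneg_left (min_le_right _ _) hC0.le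
      _ = _ := by field_simp
  have h0 : 0 < min (ρ / 2) (P.yr k / (4 * C)) := lt_min (by linarith) (by positivity)
  generalize min (ρ / 2) (P.yr k / (4 * C)) = s at h0 h1 h2
  have h3 : s ≤ P.yr k / 4 := by nlinarith
  refine ⟨s, h0, h3, fun η hη α hα w hw => ?_⟩
  obtain ⟨y', hy', hd⟩ := hα _ (mem_ball_self (by linarith))
  obtain ⟨g1, g2⟩ := h α⁻¹ y' (by rw [mem_closedBall_iff_norm]; linarith) (P.yc k)
    (mem_closedBall_self (by linarith)) (P.symm hy')
  have hw1 : ‖w - y'‖ < 2 * s := by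
    rw [mem_ball_iff_norm] at hw
    have : w - y' = (w - P.yc k) - (y' - P.yc k) := by abel
    rw [this]
    linarith [norm_sub_le (w - P.yc k) (y' - P.yc k)]
  have hw2 : w ∈ ball y' ρ := by rw [mem_ball_iff_norm]; linarith
  have hrel := g1 w hw2
  have hl := g2 w hw2 y' (mem_ball_self hρ)
  rw [rm_eq (P.symm hy')] at hl
  obtain ⟨v, hv, hvd⟩ := hα (P.rm k k α⁻¹ w) (by rw [mem_ball_iff_norm]; nlinarith)
  have hs := P.symm hrel
  rw [inv_inv] at hs
  rw [P.uniq hv hs, norm_sub_rev] at hvd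
  exact ⟨_, hrel, hvd⟩

/-- the displacement is Lipschitz with a small constant. -/
lemma lip {k : P.κ} {c : W} {r δ : ℝ}
    (hr : 0 < r) {α : G} (hα : P.Sm k c (9 * r) δ α) {p w : W} (hp : p ∈ ball c (8 * r))
    (hw : w ∈ ball c (8 * r)) :
    ‖(P.rm k k α p - p) - (P.rm k k α w - w)‖ ≤ 2 * δ / r * ‖p - w‖ := by
  have hd : DifferentiableOn ℂ (fun y => P.rm k k α y - y) (ball c (9 * r)) :=
    hα.diff.sub differentiableOn_id
  have hs : ∀ y ∈ ball c (8 * r), ball y r ⊆ ball c (9 * r) := fun y hy =>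
    ball_subset_ball' (by rw [mem_ball] at hy; linarith)
  refine (convex_ball c (8 * r)).norm_image_sub_le_of_norm_fderiv_le (𝕜 := ℂ)
    (f := fun y => P.rm k k α y - y) (fun y hy => ?_) (fun y hy => ?_) hw hp
  · exact (hd.mono (hs y hy)).differentiableAt (ball_mem_nhds y hr)
  · exact MP_caab05_ag.GB.OsgAux.cauchy hr (hd.mono (hs y hy)) fun x hx =>
      (hα.rm (hs y hy hx)).2

end CommAux

open CommAux in
theorem commS (hU : P.UnifS) (hE : P.ExtS) : P.CommS := by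
  intro k
  obtain ⟨ρ, hρ, hρr, hinv⟩ := inv_sm hU k
  have hr0 := P.pos k
  obtain ⟨r, hr⟩ : ∃ r, P.yr k = 10 * r := ⟨P.yr k / 10, by ring⟩
  have hr1 : 0 < r := by linarith
  obtain ⟨η1, hη1, C, hC, hext⟩ := hE k (P.yc k) ρ (9 * r) hρ
    (ball_subset_closedBall.trans (closedBall_subset_closedBall (by linarith))) (by linarith)
  have hC0 : 0 < C := by linarith
  have h1 : min (min ρ η1) (r / C) ≤ ρ := (min_le_left _ _).trans (min_le_left _ _)
  have h2 : min (min ρ η1) (r / C) ≤ η1 := (min_le_left _ _).trans (min_le_right _ _)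
  have h4 : C * min (min ρ η1) (r / C) ≤ r := by
    calc _ ≤ C * (r / C) := mul_le_mul_of_nonneg_left (min_le_right _ _) hC0.le
      _ = _ := by field_simp
  have h0 : 0 < min (min ρ η1) (r / C) := lt_min (lt_min hρ hη1) (by positivity)
  generalize min (min ρ η1) (r / C) = η at h0 h1 h2 h4
  have h5 : 0 ≤ 4 * C ^ 2 / r := by positivity
  refine ⟨η, h0, by linarith, 4 * C ^ 2 / r + 1, by linarith,
    fun α β δ δ' d0 d1 e0 e1 hα hβ y hy => ?_⟩
  have hb : ball (P.yc k) ρ ⊆ ball (P.yc k) (P.yr k / 2) := ball_subset_ball (by linarith)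
  have a1 := hext α δ d0 (d1.trans h2) (hα.mono hb le_rfl)
  have b1 := hext β δ' e0 (e1.trans h2) (hβ.mono hb le_rfl)
  have a2 := hext α⁻¹ δ d0 (d1.trans h2) (hinv δ (d1.trans h1) α hα)
  have b2 := hext β⁻¹ δ' e0 (e1.trans h2) (hinv δ' (e1.trans h1) β hβ)
  have c1 : C * δ ≤ r := (mul_le_mul_of_nonneg_left d1 hC0.le).trans h4
  have c2 : C * δ' ≤ r := (mul_le_mul_of_nonneg_left e1 hC0.le).trans h4
  have step : ∀ {a b : W} {s : ℝ}, a ∈ ball (P.yc k) s → ‖b - a‖ ≤ r →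
      b ∈ ball (P.yc k) (s + r) := fun {a b s} ha hab => by
    rw [mem_ball_iff_norm] at ha ⊢
    have : b - P.yc k = (b - a) + (a - P.yc k) := by abel
    rw [this]
    linarith [norm_add_le (b - a) (a - P.yc k)]
  have sb : ∀ {a : W} {s t : ℝ}, a ∈ ball (P.yc k) s → s ≤ t → a ∈ ball (P.yc k) t :=
    fun ha hst => ball_subset_ball hst ha
  obtain ⟨u, hu, du⟩ := b2 y (sb hy (by linarith))
  have mu := step hy (du.trans c2)
  obtain ⟨w, hw, dw⟩ := a2 u (sb mu (by linarith))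
  have mw := step mu (dw.trans c1)
  obtain ⟨p, hp, dp⟩ := b1 w (sb mw (by linarith))
  have mp := step mw (dp.trans c2)
  obtain ⟨q, hq, -⟩ := a1 p (sb mp (by linarith))
  have hu' := P.symm hu
  have hw' := P.symm hw
  rw [inv_inv] at hu' hw'
  have l1 := lip hr1 a1 (sb mp (by linarith)) (sb mw (by linarith))
  have l2 := lip hr1 b1 (sb mu (by linarith)) (sb mw (by linarith))
  rw [rm_eq hq, rm_eq hw'] at l1
  rw [rm_eq hu', rm_eq hp] at l2
  rw [norm_sub_rev] at dw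
  refine ⟨q, ?_, ?_⟩
  · have := P.trans (P.trans (P.trans hu hw) hp) hq
    rwa [← mul_assoc, ← mul_assoc] at this
  · have e : q - y = (q - p - (u - w)) - (y - u - (p - w)) := by abel
    have hL : 0 ≤ 2 * (C * δ) / r := by positivity
    have hL' : 0 ≤ 2 * (C * δ') / r := by positivity
    have hf : 2 * (C * δ) / r * (C * δ') + 2 * (C * δ') / r * (C * δ) + δ * δ' =
        (4 * C ^ 2 / r + 1) * δ * δ' := by ring
    rw [e]
    linarith [norm_sub_le (q - p - (u - w)) (y - u - (p - w)), mul_le_mul_of_nonneg_left dp hL,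
      mul_le_mul_of_nonneg_left dw hL', mul_nonneg d0 e0]

end Pool.Agent.Lib.MP_813db1_ag.VH.S8.PG
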