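import Pool.Agent.Lib.MP_813db1_ag.VH.S8.StL
import Pool.Agent.Lib.MP_caab05_ag.GB.Osg

/-! The fields along the leaves, the period matrix and the leaf coordinate are holomorphic. -/

namespace Pool.Agent.Lib.MP_813db1_ag.VH.S8

open Pool.Agent.Lib.MP_813db1_ag.HS Pool.Agent.Lib.MP_813db1_ag.AS
open MeasureTheory Complex Matrix Filter Topology Set Metric
open scoped ContDiff ComplexOrder

namespace HolAux

section loc

variable {ι r σ : Type} [Fintype ι] [DecidableEq ι] [Fintype r] [DecidableEq r] [Fintype σ]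
  [DecidableEq σ] {z : V ι}

omit [DecidableEq ι] in
theorem an {F : Type} [NormedAddCommGroup F] [NormedSpace ℂ F] [CompleteSpace F] {f : V ι → F}
    (h : ∀ᶠ w in 𝓝 z, DifferentiableAt ℂ f w) : AnalyticAt ℂ f z := by
  obtain ⟨U, hU, hUo, hy⟩ := _root_.eventually_nhds_iff.1 h
  exact MP_caab05_ag.GB.osg _ _ f U hUo (fun w hw => (hU w hw).differentiableWithinAt) z hy

omit [Fintype r] [DecidableEq r] in
theorem smD {x : V ι → V r} (hx : SmV x z) : SmR (dX x) z := fun a i => hx.dV i a

omit [DecidableEq r] in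
/-- the fields along the leaves have no antiholomorphic derivative. -/
theorem vx {G : V ι → Mat ι} {x : V ι → V r} (Q : Mat r) (hG : SmR G z) (h0 : (G z).det ≠ 0)
    (hh : ∀ᶠ w in 𝓝 z, (G w).IsHermitian) (hx : SmV x z)
    (par : ∀ i k, dV (dV x i) k z = ∑ m, gam G k z i m • dV x m z) :
    DfR (fun w => vX Q (G w) (dX x w)) z ∧ ∀ k, dRb (fun w => vX Q (G w) (dX x w)) k z = 0 := by
  have hi := (hG.inv h0).tr
  have hD := smD hx
  have h1 : DfR (fun w => ((G w)⁻¹)ᵀ * (dX x w)ᴴ) z := (hi.mul hD.conjT).df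
  have h2 : DfR (fun w => ((G w)⁻¹)ᵀ * (dX x w)ᴴ * Q) z := h1.mul (DfR.const Q)
  refine ⟨h2.smul (differentiableAt_const _), fun k => ?_⟩
  have e1 : dR (dX x) k z = dX x z * (gam G k z)ᵀ := by
    ext a i
    have := congrFun (par i k) a
    simp only [Finset.sum_apply, Pi.smul_apply, smul_eq_mul] at this
    simp only [mul_apply, transpose_apply, dX, of_apply, dR_apply]
    exact this.trans (Finset.sum_congr rfl fun m _ => mul_comm _ _)
  have e2 : dR (fun w => dX x w * ((G w)⁻¹)ᵀ) k z = 0 := by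
    rw [dR_mul hD.df hi.df, dR_tr (fun w => (G w)⁻¹), dR_inv hG h0, e1, gam, ← dR_eq]
    simp only [transpose_neg, transpose_mul, Matrix.mul_assoc, Matrix.mul_neg, add_neg_cancel]
  have e3 : dRb (fun w => ((G w)⁻¹)ᵀ * (dX x w)ᴴ) k z = 0 := by
    rw [← conjTranspose_zero, ← e2, ← dRb_conjT]
    refine dRb_congr (hh.mono fun w hw => ?_) k
    simp only [conjTranspose_mul, hw.inv.transpose.eq]
  simp only [vX]
  rw [dRb_csmul _ h2, dRb_mulc h1, e3, Matrix.zero_mul, smul_zero]

/-- the period matrix has no antiholomorphic derivative. -/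
theorem zm {H : V ι → Mat r} {Q : Mat r} {L : Matrix r σ ℂ} (hH : SmR H z) (hA : Alg Q L (H z))
    (hol : ∀ k, dRb H k z * (1 + I • jM Q (H z)) = 0) :
    DfR (fun w => zM Q L (H w)) z ∧ ∀ k, dRb (fun w => zM Q L (H w)) k z = 0 := by
  have hm : SmR (fun w => muM L (H w)) z := ((SmR.const _).mul hH).mul (SmR.const _)
  have h0 : (muM L (H z)).det ≠ 0 := hA.mu.det_pos.ne'
  have hi := hm.inv h0
  have h1 : DfR (fun w => (muM L (H w))⁻¹ * Lᵀ) z := hi.df.mul (DfR.const _)
  have h2 : DfR (fun w => H w - I • Q) z := hH.df.sub (DfR.const _)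
  refine ⟨h1.mul h2, fun k => ?_⟩
  have e1 : dRb (fun w => muM L (H w)) k z = Lᵀ * dRb H k z * L := by
    simp only [muM]
    rw [dRb_mulc ((DfR.const _).mul hH.df), dRb_cmul _ hH.df]
  have e2 : dRb H k z * (1 - L * zM Q L (H z)) = 0 := by
    have a := congrArg (· * (1 - L * zM Q L (H z))) (hol k)
    have b := congrArg (dRb H k z * ·) hA.pe
    simp only [Matrix.zero_mul, Matrix.mul_zero, Matrix.mul_assoc] at a b
    have c : (2 : ℂ) • (dRb H k z * (1 - L * zM Q L (H z))) = 0 := by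
      have d : (1 + I • jM Q (H z)) + (1 - I • jM Q (H z)) = (2 : ℂ) • (1 : Mat r) := by
        rw [two_smul]
        abel
      have := congrArg₂ (· + ·) a b
      rwa [← Matrix.mul_add, ← Matrix.add_mul, d, Matrix.smul_mul, Matrix.one_mul, Matrix.mul_smul,
        add_zero] at this
    exact (smul_eq_zero.1 c).resolve_left two_ne_zero
  have e3 : dRb (fun w => zM Q L (H w)) k z =
      (muM L (H z))⁻¹ * Lᵀ * (dRb H k z * (1 - L * zM Q L (H z))) := by
    simp only [zM]
    rw [dRb_mul h1 h2, dRb_mulc hi.df, dRb_inv hm h0, e1, dRb_sub hH.df (DfR.const _), dRb_const]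
    simp only [Matrix.mul_sub, Matrix.mul_one, Matrix.mul_assoc, Matrix.neg_mul, sub_zero]
    abel
  rw [e3, e2, Matrix.mul_zero]

end loc

end HolAux

variable {ι X Y G r : Type} [Fintype ι] [DecidableEq ι] [TopologicalSpace X] [TopologicalSpace Y]
  [Group G] [MulAction G Y] [Fintype r] [DecidableEq r] {M : Atl ι X} {p : Y → X}
  {E : Dt M p G r} {Q : Mat r} {c : G → V r} {x : Y → V r} {h ξ : X → Mat ι}

theorem holS8 (hA : AlgS) (hq : IsQuotientCoveringMap p G) (hS : E.Spl Q c x h ξ) :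
    HolS8 E Q x h := by
  intro σ _ _ L hL
  have key : Loc M p fun e z s =>
      (∀ i j, DifferentiableAt ℂ (fun w => vX Q (M.repF h e w) (dX (x ∘ s) w) i j) z) ∧
      (∀ i j, DifferentiableAt ℂ (fun w => zM Q L (E.H (s w)) i j) z) ∧
      DifferentiableAt ℂ (fun w => zM Q L (E.H (s w)) *ᵥ x (s w)) z := by
    intro e he z hz s hs
    have hk := hS.k e he
    have hx : SmV (x ∘ s) z := hS.aff.1.smV he hz hs
    have hH : SmR (E.H ∘ s) z := E.sm e he z hz s hs
    have a := HolAux.vx (G := M.repF h e) Q (hk.1.1 z hz) (hk.2 z hz).det_pos.ne'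
      ((e.open_target.eventually_mem hz).mono fun w hw => hk.1.2.1 w hw) hx (hS.par e he z hz s hs)
    have hl : Alg Q L (E.H (s z)) := hA r σ Q L _ hL ⟨E.reH _, E.pos _, hS.pol.sq _⟩
    have hj : (jM Q (E.H (s z))).map star = jM Q (E.H (s z)) := hl.reJ
    have b := HolAux.zm (H := E.H ∘ s) hH hl fun k => by
      have e1 := congrArg (fun A : Mat r => A.map star) (hS.hol e he z hz s hs k)
      have e2 : (1 - I • jM Q (E.H (s z))).map star = 1 + I • jM Q (E.H (s z)) := by
        conv_rhs => rw [← hj]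
        ext i j
        simp [one_apply]
      simp only [RepA.map_star_mul, Dt.ca_conj] at e1
      rw [show E.J Q (s z) = jM Q (E.H (s z)) from rfl, e2] at e1
      rw [← mul_cb (H := E.H ∘ s) (E.det_ne (s z)), Matrix.mul_assoc]
      simp only [Function.comp_apply]
      rw [e1]
      simp
    refine ⟨fun i j => differentiableAt_of_dzb (a.1 i j) fun k => congrFun₂ (a.2 k) i j,
      fun i j => differentiableAt_of_dzb (b.1 i j) fun k => congrFun₂ (b.2 k) i j,
      differentiableAt_pi.2 fun i => differentiableAt_of_dzb (b.1.mulVec hx.df i) fun k => ?_⟩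
    have e1 : dVb (x ∘ s) k z = star (dV (x ∘ s) k z) :=
      dVb_real (Eventually.of_forall fun w => hS.pol.rx _) k
    have e2 : jM Q (E.H (s z)) *ᵥ dVb (x ∘ s) k z = (-I) • dVb (x ∘ s) k z := by
      have := congrArg star (hS.pol.cr e he z hz s hs k)
      rw [Dt.star_mulVec', show E.J Q (s z) = jM Q (E.H (s z)) from rfl, hj, star_smul, ← e1] at this
      rw [this]
      simp
    have e3 : zM Q L (E.H (s z)) *ᵥ dVb (x ∘ s) k z = 0 := by
      have u := congrArg (zM Q L (E.H (s z)) *ᵥ ·) e2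
      simp only [mulVec_mulVec, hl.zj, smul_mulVec, mulVec_smul] at u
      rw [neg_smul, eq_neg_iff_add_eq_zero, ← add_smul] at u
      exact (smul_eq_zero.1 u).resolve_left (by rw [← two_mul]; exact mul_ne_zero two_ne_zero I_ne_zero)
    have e4 := dVb_mulVec b.1 hx.df k
    rw [b.2, zero_mulVec, zero_add] at e4
    exact congrFun (e4.trans e3) i
  intro e he z hz s hs
  have k := key.ev (lh hq) he hz hs
  exact ⟨fun i j => HolAux.an (k.mono fun w hw => hw.1 i j),
    fun i j => HolAux.an (k.mono fun w hw => hw.2.1 i j), HolAux.an (k.mono fun w hw => hw.2.2)⟩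

end Pool.Agent.Lib.MP_813db1_ag.VH.S8
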