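import Pool.Agent.Lib.MP_813db1_ag.VH.S8.PG
import Pool.Agent.Lib.MP_813db1_ag.HS.E.Jet
import Pool.Agent.Lib.MP_813db1_ag.HS.E.Rank

/-! The centre of the span of the limit fields is an invariant family of commuting Killing
fields. -/

namespace Pool.Agent.Lib.MP_813db1_ag.VH.S8.PG

open Pool.Agent.Lib.MP_813db1_ag.HS.E (Bil LIso Kil Met)
open Set Filter Topology Metric Matrix

noncomputable section

variable {G F W : Type} [Group G] [NormedAddCommGroup F] [NormedSpace ℝ F]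
  [NormedAddCommGroup W] [NormedSpace ℂ W] [NormedSpace ℝ W] [IsScalarTower ℝ ℂ W]
  [FiniteDimensional ℂ W] {P : PG G F W}

namespace KillA

variable {k l : P.κ} {γ : G} {φ ξ η ξ' η' : W → W} {y y' : W}

omit [FiniteDimensional ℂ W] in
lemma fd_smul (c : ℝ) (h : DifferentiableAt ℂ ξ y) : fderiv ℂ (c • ξ) y = c • fderiv ℂ ξ y :=
  (h.hasFDerivAt.const_smul c).fderiv

omit [NormedSpace ℝ W] [IsScalarTower ℝ ℂ W] in
lemma an (h : ∀ᶠ w in 𝓝 y, DifferentiableAt ℂ φ w) : AnalyticAt ℂ φ y := by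
  have : CompleteSpace W := FiniteDimensional.complete ℂ W
  obtain ⟨U, hU, hUo, hy⟩ := _root_.eventually_nhds_iff.1 h
  exact MP_caab05_ag.GB.osg _ _ φ U hUo (fun w hw => (hU w hw).differentiableWithinAt) y hy

omit [NormedSpace ℝ W] [IsScalarTower ℝ ℂ W] in
lemma d_move (hφ : AnalyticAt ℂ φ y) (hξ : DifferentiableAt ℂ ξ y)
    (hξ' : DifferentiableAt ℂ ξ' (φ y)) (e : ∀ᶠ w in 𝓝 y, fderiv ℂ φ w (ξ w) = ξ' (φ w)) (v : W) :
    fderiv ℂ ξ' (φ y) (fderiv ℂ φ y v) =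
      fderiv ℂ φ y (fderiv ℂ ξ y v) + fderiv ℂ (fderiv ℂ φ) y v (ξ y) := by
  have : CompleteSpace W := FiniteDimensional.complete ℂ W
  have h1 := hφ.fderiv.differentiableAt.hasFDerivAt.clm_apply hξ.hasFDerivAt
  have h2 := hξ'.hasFDerivAt.comp y hφ.differentiableAt.hasFDerivAt
  have h3 := (h2.congr_of_eventuallyEq e).unique h1
  simpa using congrArg (fun L => L v) h3

omit [NormedSpace ℝ W] [IsScalarTower ℝ ℂ W] in
lemma br_move (hφ : AnalyticAt ℂ φ y) (hξ : DifferentiableAt ℂ ξ y) (hη : DifferentiableAt ℂ η y)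
    (hξ' : DifferentiableAt ℂ ξ' (φ y)) (hη' : DifferentiableAt ℂ η' (φ y))
    (e : ∀ᶠ w in 𝓝 y, fderiv ℂ φ w (ξ w) = ξ' (φ w))
    (e' : ∀ᶠ w in 𝓝 y, fderiv ℂ φ w (η w) = η' (φ w))
    (h : fderiv ℂ ξ y (η y) = fderiv ℂ η y (ξ y)) :
    fderiv ℂ ξ' (φ y) (η' (φ y)) = fderiv ℂ η' (φ y) (ξ' (φ y)) := by
  have : CompleteSpace W := FiniteDimensional.complete ℂ W
  rw [← e.self_of_nhds, ← e'.self_of_nhds, d_move hφ hξ hξ' e, d_move hφ hη hη' e', h,
    (hφ.contDiffAt (n := ⊤)).isSymmSndFDerivAt (by simp) (η y) (ξ y)]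

omit [IsScalarTower ℝ ℂ W] [FiniteDimensional ℂ W] in
lemma df (hL : P.LimS) (h : ξ ∈ P.NN k) (hy : y ∈ P.B k) : DifferentiableAt ℂ ξ y :=
  ((hL k).1 ξ h).1.differentiableAt ((B_open k).mem_nhds hy)

/-- the centre -/
def Z (hL : P.LimS) (k : P.κ) : Submodule ℝ (W → W) where
  carrier := {ξ | ξ ∈ P.NN k ∧
    ∀ η ∈ P.NN k, ∀ y ∈ P.B k, fderiv ℂ ξ y (η y) = fderiv ℂ η y (ξ y)}
  zero_mem' := ⟨zero_mem _, fun _ _ _ _ => by simp⟩
  add_mem' := by
    rintro a b ⟨a1, a2⟩ ⟨b1, b2⟩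
    refine ⟨add_mem a1 b1, fun η h y hy => ?_⟩
    rw [fderiv_add (df hL a1 hy) (df hL b1 hy), _root_.add_apply, Pi.add_apply, map_add,
      a2 η h y hy, b2 η h y hy]
  smul_mem' := by
    rintro c a ⟨a1, a2⟩
    refine ⟨Submodule.smul_mem _ c a1, fun η h y hy => ?_⟩
    rw [fd_smul c (df hL a1 hy), _root_.smul_apply, Pi.smul_apply,
      ContinuousLinearMap.map_smul_of_tower, a2 η h y hy]

omit [IsScalarTower ℝ ℂ W] [FiniteDimensional ℂ W] in
lemma back (hT : P.TpS) (h : P.Rel k l γ y y') (hη : η' ∈ P.NN l) : ∃ η ∈ P.NN k,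
    ∀ᶠ w in 𝓝 y, fderiv ℂ (P.rm k l γ) w (η w) = η' (P.rm k l γ w) := by
  obtain ⟨η, h1, h2⟩ := hT l k γ⁻¹ y' y (P.symm h) η' hη
  refine ⟨η, h1, ?_⟩
  have h3 := rm_rm (P.symm h)
  rw [inv_inv] at h3
  filter_upwards [(tendsto h).eventually h2, (tendsto h).eventually h3.eventually_nhds,
    (tendsto h).eventually (liso (P.symm h)).eventually, rm_rm h, (liso h).eventually]
    with w a1 a2 a3 a4 a5
  have d : HasFDerivAt (P.rm k l γ) (fderiv ℂ (P.rm k l γ) w) (P.rm l k γ⁻¹ (P.rm k l γ w)) := by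
    rw [a4]
    exact a5.diff.hasFDerivAt
  have e := ((hasFDerivAt_id (𝕜 := ℂ) (P.rm k l γ w)).congr_of_eventuallyEq a2).unique
    (d.comp _ a3.diff.hasFDerivAt)
  rw [a4] at a1
  rw [← a1]
  exact (congrArg (fun L => L (η' (P.rm k l γ w))) e).symm

lemma z_move (hL : P.LimS) (hT : P.TpS) (h : P.Rel k l γ y y') (hξ : ξ ∈ Z hL k) :
    ∃ ξ' ∈ Z hL l, ∀ᶠ w in 𝓝 y, fderiv ℂ (P.rm k l γ) w (ξ w) = ξ' (P.rm k l γ w) := by
  have : CompleteSpace W := FiniteDimensional.complete ℂ W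
  obtain ⟨ξ', h1, h2⟩ := hT k l γ y y' h ξ hξ.1
  refine ⟨ξ', ⟨h1, fun η' hη' => ?_⟩, h2⟩
  obtain ⟨η, k1, k2⟩ := back hT h hη'
  have e : ∀ᶠ w in 𝓝 y, fderiv ℂ ξ' (P.rm k l γ w) (η' (P.rm k l γ w)) =
      fderiv ℂ η' (P.rm k l γ w) (ξ' (P.rm k l γ w)) := by
    filter_upwards [h2.eventually_nhds, k2.eventually_nhds, (loc' h).2, (liso h).eventually]
      with w a1 a2 a3 a4
    have m := P.mem a3
    exact br_move (an (a4.mono fun _ a => a.1)) (df hL hξ.1 m.1) (df hL k1 m.1) (df hL h1 m.2)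
      (df hL hη' m.2) a1 a2 (hξ.2 η k1 w m.1)
  have h3 := rm_rm (P.symm h)
  rw [inv_inv] at h3
  have e' : (fun w => fderiv ℂ ξ' w (η' w)) =ᶠ[𝓝 y'] fun w => fderiv ℂ η' w (ξ' w) := by
    filter_upwards [(tendsto (P.symm h)).eventually e, h3] with w a1 a2
    rwa [a2] at a1
  have a : ∀ {u v : W → W}, u ∈ P.NN l → v ∈ P.NN l →
      AnalyticOnNhd ℂ (fun w => fderiv ℂ u w (v w)) (P.B l) := fun {u v} hu hv w hw => by
    have b : ∀ {u : W → W}, u ∈ P.NN l → ∀ᶠ x in 𝓝 w, AnalyticAt ℂ u x := fun hu =>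
      (an (Filter.mem_of_superset ((B_open l).mem_nhds hw) fun x hx =>
        df hL hu hx)).eventually_analyticAt
    exact an (((b hu).and (b hv)).mono fun x hx =>
      hx.1.fderiv.differentiableAt.clm_apply hx.2.differentiableAt)
  exact (a h1 hη').eqOn_of_preconnected_of_eventuallyEq (a hη' h1)
    (convex_ball _ _).isPreconnected (P.mem h).2 e'

omit [FiniteDimensional ℂ W] in
lemma comb_zero (hL : P.LimS) {r : ℕ} (b : Module.Basis (Fin r) ℝ (Z hL k)) (hy : y ∈ P.B k)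
    (c : Fin r → ℝ) (h0 : (∑ a, c a • (b a).1) y = 0) (h1 : fderiv ℂ (∑ a, c a • (b a).1) y = 0) :
    c = 0 := by
  have e := ((hL k).1 _ (Submodule.sum_mem _ fun a _ =>
    Submodule.smul_mem _ (c a) (b a).2.1)).2.2.2 y hy h0 h1
  funext a
  refine Fintype.linearIndependent_iff.1 b.linearIndependent c (Subtype.ext ?_) a
  simpa using e

lemma mat (hL : P.LimS) (hT : P.TpS) (h : P.Rel k l γ y y') {r s : ℕ}
    (b : Module.Basis (Fin r) ℝ (Z hL k)) (b' : Module.Basis (Fin s) ℝ (Z hL l)) :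
    ∃ C : Matrix (Fin r) (Fin s) ℝ, (∀ c, c ᵥ* C = 0 → c = 0) ∧
      ∀ᶠ w in 𝓝 y, ∀ a, fderiv ℂ (P.rm k l γ) w ((b a).1 w) =
        ∑ j, C a j • (b' j).1 (P.rm k l γ w) := by
  choose ξ' h1 h2 using fun a => z_move hL hT h (b a).2
  have e : ∀ᶠ w in 𝓝 y, ∀ a, fderiv ℂ (P.rm k l γ) w ((b a).1 w) =
      ∑ j, b'.repr ⟨ξ' a, h1 a⟩ j • (b' j).1 (P.rm k l γ w) := by
    filter_upwards [eventually_all.2 h2] with w hw a
    have := congrFun (congrArg Subtype.val (b'.sum_repr ⟨ξ' a, h1 a⟩)) (P.rm k l γ w)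
    rw [hw a]
    simpa only [AddSubmonoidClass.coe_finsetSum, SetLike.val_smul, Finset.sum_apply,
      Pi.smul_apply] using this.symm
  refine ⟨Matrix.of fun a j => b'.repr ⟨ξ' a, h1 a⟩ j, fun c hc => ?_, e⟩
  have z : (∑ a, c a • (b a).1) =ᶠ[𝓝 y] fun _ => 0 := by
    filter_upwards [e, (liso h).eventually, (B_open k).mem_nhds (P.mem h).1] with w a1 a2 a3
    refine a2.inj ((P.met k).pos w a3) ?_
    simp only [Finset.sum_apply, Pi.smul_apply, map_sum, ContinuousLinearMap.map_smul_of_tower, a1,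
      Finset.smul_sum, smul_smul]
    rw [Finset.sum_comm]
    refine Finset.sum_eq_zero fun j _ => ?_
    have := congrFun hc j
    simp only [vecMul, dotProduct, Matrix.of_apply, Pi.zero_apply] at this
    rw [← Finset.sum_smul, this, zero_smul]
  exact comb_zero hL b (P.mem h).1 c z.self_of_nhds (by rw [z.fderiv_eq]; simp)

end KillA

open KillA in
theorem killS (hL : P.LimS) (hT : P.TpS) (hZ : P.ZasS) : P.KillS := by
  by_cases hV : ∀ k, P.Triv k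
  · exact Or.inl hV
  obtain ⟨k0, h0⟩ := not_forall.1 hV
  have fin : ∀ k, FiniteDimensional ℝ (Z hL k) := fun k =>
    have := (hL k).2
    Submodule.finiteDimensional_of_le (S₂ := P.NN k) fun _ h => h.1
  have le : ∀ k l γ y y', P.Rel k l γ y y' →
      Module.finrank ℝ (Z hL k) ≤ Module.finrank ℝ (Z hL l) := fun k l γ y y' h => by
    obtain ⟨C, hC, -⟩ := mat hL hT h (Module.finBasis ℝ _) (Module.finBasis ℝ _)
    simpa using LinearMap.finrank_le_finrank_of_injective (f := C.vecMulLinear)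
      ((injective_iff_map_eq_zero _).2 hC)
  have rk : ∀ l, Module.finrank ℝ (Z hL l) = Module.finrank ℝ (Z hL k0) :=
    conn' (k := k0) _ rfl fun k l γ y y' h e =>
      e ▸ le_antisymm (le _ _ _ _ _ (P.symm h)) (le _ _ _ _ _ h)
  let b := fun l => Module.finBasisOfFinrankEq ℝ (Z hL l) (rk l)
  have g := fun l a => (hL l).1 _ (b l a).2.1
  refine Or.inr ⟨_, fun l a => (b l a).1, ?_, fun l a => (g l a).1,
    fun l a c y hy => (b l a).2.2 _ (b l c).2.1 y hy, fun l a => (g l a).2.1,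
    fun l a => (b l a).2.1, fun l O h1 h2 h3 => ?_, fun k l γ y y' h => ?_⟩
  · obtain ⟨ξ, a, c, d⟩ := hZ k0 h0
    exact Module.finrank_pos_iff_exists_ne_zero.2
      ⟨⟨ξ, a, d⟩, fun e => c (congrArg Subtype.val e)⟩
  · refine HS.E.rank (P.g l) O _ _ h1 h2 (fun y hy => (P.met l).pos y (h3 hy))
      (fun a => (g l a).1.mono h3) (fun a c y hy => (b l a).2.2 _ (b l c).2.1 y (h3 hy))
      (fun a y hy => (g l a).2.1 y (h3 hy)) fun y hy c e1 e2 => ?_
    refine comb_zero hL (b l) (h3 hy) c (by simpa using e1) ?_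
    rw [(HasFDerivAt.sum fun a _ =>
      (df hL (b l a).2.1 (h3 hy)).hasFDerivAt.const_smul (c a)).fderiv]
    ext v
    simpa using e2 v
  · obtain ⟨C, hC, e⟩ := mat hL hT h (b k) (b l)
    refine ⟨C, fun hd => ?_, e⟩
    obtain ⟨c, c1, c2⟩ := Matrix.exists_vecMul_eq_zero_iff.2 hd
    exact c1 (hC c c2)

end

end Pool.Agent.Lib.MP_813db1_ag.VH.S8.PG
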