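import Pool.Agent.Lib.MP_813db1_ag.VH.S8.StL

/-! Existence of Lagrangian frames. -/

namespace Pool.Agent.Lib.MP_813db1_ag.VH.S8

open Pool.Agent.Lib.MP_813db1_ag.HS Pool.Agent.Lib.MP_813db1_ag.AS
open Complex Matrix Module

namespace LagAux

variable {r : Type} [Fintype r]

theorem skew {Q : Matrix r r ℝ} (hQ : Qᵀ = -Q) (u v : r → ℝ) :
    u ⬝ᵥ Q *ᵥ v = -(v ⬝ᵥ Q *ᵥ u) := by
  rw [dotProduct_mulVec, ← mulVec_transpose, hQ, neg_mulVec, neg_dotProduct, dotProduct_comm]

theorem fam {Q : Matrix r r ℝ} (hQ : Qᵀ = -Q) : ∀ k : ℕ, 2 * k ≤ Fintype.card r →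
    ∃ f : Fin k → r → ℝ, LinearIndependent ℝ f ∧ ∀ i j, f i ⬝ᵥ Q *ᵥ f j = 0
  | 0, _ => ⟨fun i => i.elim0, linearIndependent_empty_type, fun i => i.elim0⟩
  | k + 1, hk => by
    obtain ⟨f, hf, h0⟩ := fam hQ k (by omega)
    let φ : (r → ℝ) →ₗ[ℝ] (Fin k → ℝ) := (Matrix.of f * Q).mulVecLin
    have hφ : ∀ v i, φ v i = f i ⬝ᵥ Q *ᵥ v := fun v i => by
      simp only [φ, mulVecLin_apply, ← mulVec_mulVec]
      rfl
    have h1 := φ.finrank_range_add_finrank_ker
    have h2 : finrank ℝ (LinearMap.range φ) ≤ k := by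
      simpa using (LinearMap.range φ).finrank_le
    have h3 : finrank ℝ (Submodule.span ℝ (Set.range f)) = k := by
      rw [finrank_span_eq_card hf, Fintype.card_fin]
    rw [finrank_fintype_fun_eq_card] at h1
    obtain ⟨v, hv, hv'⟩ : ∃ v ∈ LinearMap.ker φ, v ∉ Submodule.span ℝ (Set.range f) := by
      by_contra hno
      have hle : LinearMap.ker φ ≤ Submodule.span ℝ (Set.range f) := fun v hv => by
        by_contra h
        exact hno ⟨v, hv, h⟩
      have := Submodule.finrank_mono hle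
      omega
    have h4 : ∀ i, f i ⬝ᵥ Q *ᵥ v = 0 := fun i => by
      rw [← hφ, LinearMap.mem_ker.1 hv]; rfl
    refine ⟨Fin.cons v f, hf.finCons hv', fun i j => ?_⟩
    refine Fin.cases ?_ (fun i => ?_) i <;> refine Fin.cases ?_ (fun j => ?_) j <;>
      simp only [Fin.cons_zero, Fin.cons_succ]
    · have := skew hQ v v
      linarith
    · rw [skew hQ, h4, neg_zero]
    · exact h4 i
    · exact h0 i j

end LagAux

theorem lagS : LagS := by
  intro r σ _ _ _ _ Q hR hQ _ hc
  have e : ∀ i j, ((Q i j).re : ℂ) = Q i j := fun i j =>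
    conj_eq_iff_re.1 (congrFun (congrFun hR i) j)
  have hQ0 : (Q.map re)ᵀ = -Q.map re := by
    ext i j
    have := congrArg re (congrFun (congrFun hQ i) j)
    simpa using this
  obtain ⟨f, hf, h0⟩ := LagAux.fam hQ0 (Fintype.card σ) hc.ge
  have hg := hf.comp _ (Fintype.equivFin σ).injective
  set g : σ → r → ℝ := f ∘ Fintype.equivFin σ
  have g0 : ∀ a b, g a ⬝ᵥ Q.map re *ᵥ g b = 0 := fun a b => h0 _ _
  refine ⟨Matrix.of fun i a => (g a i : ℂ), hR, hQ, ?_, ?_, ?_, hc⟩
  · ext i a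
    exact conj_ofReal _
  · ext a b
    have := congrArg ofReal (g0 a b)
    rw [Matrix.mul_assoc]
    simpa only [dotProduct, mulVec, map_apply, ofReal_sum, ofReal_mul, e, ofReal_zero, mul_apply,
      transpose_apply, of_apply, Matrix.zero_apply] using this
  · intro v hv
    have h1 := Fintype.linearIndependent_iff.1 hg
    have h2 : ∀ i, ∑ a, (g a i : ℂ) * v a = 0 := fun i => congrFun hv i
    funext a
    refine Complex.ext (h1 (fun a => (v a).re) (funext fun i => ?_) a)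
      (h1 (fun a => (v a).im) (funext fun i => ?_) a)
    · simpa [mul_comm] using congrArg re (h2 i)
    · simpa [mul_comm] using congrArg im (h2 i)

end Pool.Agent.Lib.MP_813db1_ag.VH.S8
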