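import Pool.Agent.Lib.MP_813db1_ag.VH.S8.PG
import Pool.Agent.Lib.MP_813db1_ag.HS.E.Buser
import Pool.Agent.Lib.MP_813db1_ag.HS.E.Rec

/-! The lattice of translations. -/

namespace Pool.Agent.Lib.MP_813db1_ag.VH.S8.PG

open Pool.Agent.Lib.MP_813db1_ag.HS.E
open Set Filter Topology Metric

variable {G F W : Type} [Group G] [NormedAddCommGroup F] [NormedSpace ℝ F]
  [NormedAddCommGroup W] [NormedSpace ℂ W] [NormedSpace ℝ W] {P : PG G F W} {γ δ : G}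

namespace LatA

theorem fx_fin (T : ℝ) : {γ | P.Fx γ ∧ ‖P.c γ‖ ≤ T}.Finite := by
  obtain ⟨k⟩ := P.ne
  exact (P.disc k k 0 0 T (P.pos k) (P.pos k)).subset fun γ h => ⟨h.2, _,
    mem_closedBall_self le_rfl, _, mem_closedBall_self le_rfl, h.1 k _ (yc_mem k)⟩

theorem conj (hA : P.AllS) {k : P.κ} (h : P.Fk k γ) (δ : G) : P.Fx (δ * γ * δ⁻¹) :=
  hA k γ (P.yc k) (mem_of_superset ((B_open k).mem_nhds (yc_mem k)) h) δ

theorem recur (hA : P.AllS) (hR : P.RecS) (hT : ∀ k, P.Triv k) (u : F) (hu : ‖u‖ = 1) {ε : ℝ}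
    (hε : 0 < ε) : ∃ γ, P.Fx γ ∧ ‖P.A γ - 1‖ ≤ ε ∧ P.c γ ≠ 0 ∧ ‖‖P.c γ‖⁻¹ • P.c γ - u‖ ≤ ε := by
  obtain ⟨k⟩ := P.ne
  obtain ⟨η, hη, h⟩ := hT k
  obtain ⟨γ, h1, h2, h3, h4⟩ := hR k u hu (min ε η) (lt_min hε hη)
  have := conj hA (h γ (h1.mono subset_rfl (min_le_right _ _)) (h2.trans (min_le_right _ _))) 1
  rw [one_mul, inv_one, mul_one] at this
  exact ⟨γ, this, h2.trans (min_le_left _ _), h3, h4.trans (min_le_left _ _)⟩

theorem A_inv (γ : G) (v : F) : P.A γ (P.A γ⁻¹ v) = v :=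
  DFunLike.congr_fun (A_mul_inv (P := P) γ) v

theorem inv_A (γ : G) (v : F) : P.A γ⁻¹ (P.A γ v) = v :=
  DFunLike.congr_fun (A_inv_mul (P := P) γ) v

theorem c_conj (γ : G) (h : P.A δ = 1) :
    P.A (γ * δ * γ⁻¹) = 1 ∧ P.c (γ * δ * γ⁻¹) = P.A γ (P.c δ) := by
  refine ⟨by rw [map_mul, map_mul, h, mul_one, A_mul_inv], ?_⟩
  rw [P.coc, P.coc, map_mul, h, mul_one, c_inv, map_neg, A_inv]
  abel

variable {Z : Type} [NormedAddCommGroup Z] [InnerProductSpace ℂ Z] {j : F ≃L[ℝ] Z} {m m' : Mot Z}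

variable (P j) in
/-- the motion `m` represents `γ`. -/
def Rp (γ : G) (m : Mot Z) : Prop := ∀ v, m (j v) = j (P.A γ v + P.c γ)

theorem Rp.mul (h : Rp P j γ m) (h' : Rp P j δ m') : Rp P j (γ * δ) (m * m') := fun v => by
  rw [mot_mul, h', h, map_mul, P.coc, map_add (P.A γ), add_assoc, add_comm (P.c γ)]
  rfl

theorem Rp.inv (h : Rp P j γ m) : Rp P j γ⁻¹ m⁻¹ := fun v => by
  rw [← mot_inv_apply m (j (_ + _)), h, map_add (P.A γ), c_inv, map_neg, A_inv, A_inv,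
    neg_add_cancel_right]

theorem Rp.eq (h : Rp P j γ m) (h' : Rp P j γ m') : m = m' := by
  ext z
  rw [← j.apply_symm_apply z, h, h']

theorem Rp.zero (h : Rp P j γ m) : m 0 = j (P.c γ) := by
  have := h 0
  rwa [map_zero, map_zero (P.A γ), zero_add] at this

theorem Rp.ln (h : Rp P j γ m) (v : F) : lin m (j v) = j (P.A γ v) := by
  rw [lin_eq, h, h.zero, map_add, add_sub_cancel_right]

theorem Rp.le (h : Rp P j γ m) {K ε : ℝ} (hK : 0 ≤ K) (h1 : ∀ v, ‖j v‖ ≤ K * ‖v‖)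
    (h2 : ∀ z, ‖j.symm z‖ ≤ K * ‖z‖) (h3 : ‖P.A γ - 1‖ ≤ ε) : ‖lin m - 1‖ ≤ K * K * ε := by
  have hε := (norm_nonneg _).trans h3
  refine ContinuousLinearMap.opNorm_le_bound _ (by positivity) fun z => ?_
  have e : (lin m - 1) z = j ((P.A γ - 1) (j.symm z)) := by
    conv_lhs => rw [← j.apply_symm_apply z]
    rw [sub_apply, sub_apply, h.ln, map_sub]
    rfl
  have t := ((P.A γ - 1).le_opNorm _).trans (mul_le_mul h3 (h2 z) (norm_nonneg _) hε)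
  rw [e]
  exact (h1 _).trans ((mul_le_mul_of_nonneg_left t hK).trans_eq (by ring))

theorem small [FiniteDimensional ℂ Z] (hA : P.AllS) (hR : P.RecS) (hT : ∀ k, P.Triv k)
    (hj : ∀ γ, P.Fx γ → ∃ u : Z ≃ₗᵢ[ℂ] Z, ∀ v, j (P.A γ v) = u (j v)) :
    ∃ η > 0, ∀ γ, P.Fx γ → ‖P.A γ - 1‖ ≤ η → P.A γ = 1 := by
  obtain ⟨K, hK, h1, h2⟩ : ∃ K > (0 : ℝ), (∀ v, ‖j v‖ ≤ K * ‖v‖) ∧ ∀ z, ‖j.symm z‖ ≤ K * ‖z‖ := by
    have a := norm_nonneg (j : F →L[ℝ] Z)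
    have b := norm_nonneg (j.symm : Z →L[ℝ] F)
    exact ⟨‖(j : F →L[ℝ] Z)‖ + ‖(j.symm : Z →L[ℝ] F)‖ + 1, by positivity,
      fun v => (j : F →L[ℝ] Z).le_of_opNorm_le (by linarith) v,
      fun z => (j.symm : Z →L[ℝ] F).le_of_opNorm_le (by linarith) z⟩
  have ex : ∀ γ, P.Fx γ → ∃ m, Rp P j γ m := fun γ h => by
    obtain ⟨u, hu⟩ := hj γ h
    refine ⟨tr (j (P.c γ)) * u.toAffineIsometryEquiv, fun v => ?_⟩
    rw [mot_mul, tr_apply, map_add, hu, add_comm]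
    rfl
  have ex' : ∀ γ, ∃ m, P.Fx γ → Rp P j γ m := fun γ => by
    by_cases h : P.Fx γ
    exacts [(ex γ h).imp fun _ a _ => a, ⟨1, fun a => absurd a h⟩]
  choose M hM using ex'
  have key := buser {m | ∃ γ, P.Fx γ ∧ Rp P j γ m}
    (fun α ⟨a, a1, a2⟩ β ⟨b, b1, b2⟩ =>
      ⟨_, ((a1.mul b1).mul a1.inv).mul b1.inv, ((a2.mul b2).mul a2.inv).mul b2.inv⟩)
    (fun T => ((fx_fin (P := P) (K * T)).image M).subset fun m ⟨⟨γ, a, b⟩, c⟩ =>
      ⟨γ, ⟨a, by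
        have := h2 (m 0)
        rw [b.zero, j.symm_apply_apply, ← b.zero] at this
        exact this.trans (mul_le_mul_of_nonneg_left c hK.le)⟩, (hM γ a).eq b⟩)
    fun u hu ε hε => by
      have w0 : j.symm u ≠ 0 := fun e => by
        rw [← j.apply_symm_apply u, e, map_zero, norm_zero] at hu
        exact zero_ne_one hu
      have wp := norm_pos_iff.2 w0
      have s0 : 0 < min ε 1 := lt_min hε one_pos
      obtain ⟨γ, a, b, c, d⟩ := recur hA hR hT _ (norm_smul_inv_norm (𝕜 := ℝ) w0)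
        (ε := min ε 1 / 2 / (K * K)) (by positivity)
      have e : K * K * (min ε 1 / 2 / (K * K)) = min ε 1 / 2 := by field_simp
      have cp := norm_pos_iff.2 c
      have e1 : M γ 0 - ((‖P.c γ‖ / ‖j.symm u‖ : ℝ) : ℂ) • u =
          ‖P.c γ‖ • j (‖P.c γ‖⁻¹ • P.c γ - ‖j.symm u‖⁻¹ • j.symm u) := by
        rw [(hM γ a).zero, map_sub, map_smul, map_smul, j.apply_symm_apply, smul_sub,
          smul_inv_smul₀ cp.ne', smul_smul, Complex.coe_smul, div_eq_mul_inv]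
      have e2 : ‖M γ 0 - ((‖P.c γ‖ / ‖j.symm u‖ : ℝ) : ℂ) • u‖ ≤
          min ε 1 / 2 * (‖P.c γ‖ / ‖j.symm u‖) := by
        have t1 := (h1 _).trans (mul_le_mul_of_nonneg_left d hK.le)
        have t2 := h2 u
        rw [hu, mul_one] at t2
        rw [e1, norm_smul, norm_norm, ← mul_div_assoc, le_div_iff₀ wp, ← e]
        calc _ ≤ ‖P.c γ‖ * (K * (min ε 1 / 2 / (K * K))) * K := by gcongr; exact t1
          _ = _ := by ring
      obtain ⟨d1, d2⟩ := RecAux.dir hu (div_pos cp wp) (by linarith [min_le_right ε 1]) e2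
      exact ⟨M γ, ⟨γ, a, hM γ a⟩, (((hM γ a).le hK.le h1 h2 b).trans_eq e).trans
        (by linarith [min_le_left ε 1]), d1, d2.trans (by linarith [min_le_left ε 1])⟩
  refine ⟨1 / 2 / (K * K), by positivity, fun γ a b => ?_⟩
  have := key (M γ) ⟨γ, a, hM γ a⟩ (((hM γ a).le hK.le h1 h2 b).trans_eq (by field_simp))
  ext v
  have e := (hM γ a).ln v
  rw [this] at e
  exact (j.injective e).symm

end LatA

open LatA in
theorem latS [FiniteDimensional ℝ F] (hA : P.AllS) (hR : P.RecS) : P.LatS := by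
  rintro n ⟨j, hj⟩ hT
  obtain ⟨η, hη, hs⟩ := small hA hR hT hj
  let Λ : AddSubgroup F :=
    { carrier := P.c '' {γ | P.Fx γ ∧ P.A γ = 1}
      zero_mem' := ⟨1, ⟨Fx.one, map_one _⟩, c_one⟩
      add_mem' := by
        rintro _ _ ⟨a, ha, rfl⟩ ⟨b, hb, rfl⟩
        exact ⟨a * b, ⟨ha.1.mul hb.1, by rw [map_mul, ha.2, hb.2, mul_one]⟩, by
          rw [P.coc, ha.2]; rfl⟩
      neg_mem' := by
        rintro _ ⟨a, ha, rfl⟩
        have e : P.A a⁻¹ = 1 := by rw [← A_inv_mul (P := P) a, ha.2, mul_one]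
        exact ⟨a⁻¹, ⟨ha.1.inv, e⟩, by rw [c_inv, e]; rfl⟩ }
  have h1 : ∀ u : F, ‖u‖ = 1 → u ∈ Submodule.span ℝ (Λ : Set F) := fun u hu => by
    refine (Submodule.closed_of_finiteDimensional _).closure_subset
      (Metric.mem_closure_iff.2 fun ε hε => ?_)
    obtain ⟨γ, a, b, -, d⟩ := recur hA hR hT u hu (lt_min hη (half_pos hε))
    refine ⟨‖P.c γ‖⁻¹ • P.c γ, Submodule.smul_mem _ _ (Submodule.subset_span
      ⟨γ, ⟨a, hs γ a (b.trans (min_le_left _ _))⟩, rfl⟩), ?_⟩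
    rw [dist_comm, dist_eq_norm]
    exact (d.trans (min_le_right _ _)).trans_lt (half_lt_self hε)
  have h2 : ∀ z : F, z ∈ Submodule.span ℝ (Λ : Set F) := fun z => by
    by_cases hz : z = 0
    · rw [hz]
      exact zero_mem _
    · have h3 := Submodule.smul_mem _ ‖z‖ (h1 (‖z‖⁻¹ • z) (norm_smul_inv_norm hz))
      rwa [smul_inv_smul₀ (norm_ne_zero_iff.2 hz)] at h3
  obtain ⟨b, hb, hs, hl⟩ := exists_linearIndependent ℝ (Λ : Set F)
  obtain ⟨s, rfl⟩ := hl.setFinite.exists_finset_coe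
  have h3 : ∀ z : F, ∃ f : F → ℝ, ∑ a ∈ s, f a • a = z := fun z => by
    have h4 := h2 z
    rw [← hs] at h4
    obtain ⟨f, -, hf⟩ := Submodule.mem_span_finset.1 h4
    exact ⟨f, hf⟩
  let Φ : Set F := {t | t ∈ Λ ∧ ‖j t‖ ≤ ∑ a ∈ s, ‖j a‖}
  have hΦ : Φ.Finite := ((fx_fin (P := P) (‖j.symm.toContinuousLinearMap‖ * ∑ a ∈ s, ‖j a‖)).image
    P.c).subset fun t ⟨⟨γ, a, e⟩, c⟩ => ⟨γ, ⟨a.1, by
      rw [e, ← j.symm_apply_apply t]
      exact j.symm.toContinuousLinearMap.le_opNorm_of_le c⟩, e⟩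
  have := hΦ.to_subtype
  obtain ⟨k⟩ := P.ne
  refine ⟨Nat.card (Equiv.Perm Φ), Nat.card_pos, fun γ δ h => conj hA (h k) δ,
    eq_top_iff.2 fun z _ => h2 z, ⟨∑ a ∈ s, ‖a‖, fun z => ?_⟩, fun γ h => ?_⟩
  · obtain ⟨f, rfl⟩ := h3 z
    obtain ⟨γ, a, e⟩ : -∑ a ∈ s, ⌊f a⌋ • a ∈ Λ :=
      neg_mem (sum_mem fun a ha => zsmul_mem (hb ha) _)
    refine ⟨γ, a.1, a.2, ?_⟩
    rw [e, ← sub_eq_add_neg, ← Finset.sum_sub_distrib]
    refine (norm_sum_le _ _).trans (Finset.sum_le_sum fun a _ => ?_)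
    rw [← Int.cast_smul_eq_zsmul ℝ, ← sub_smul, norm_smul, Int.self_sub_floor,
      Real.norm_of_nonneg (Int.fract_nonneg _)]
    exact mul_le_of_le_one_left (norm_nonneg _) (Int.fract_lt_one _).le
  · obtain ⟨u, hu⟩ := hj γ h
    have hm : MapsTo (P.A γ) Φ Φ := by
      rintro _ ⟨⟨δ, a, rfl⟩, c⟩
      exact ⟨⟨_, ⟨conj hA (a.1 k) γ, (c_conj γ a.2).1⟩, (c_conj γ a.2).2⟩, by
        rwa [hu, u.norm_map]⟩
    let σ : Equiv.Perm Φ := Equiv.ofBijective (hm.restrict _ _ _)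
      (Finite.injective_iff_bijective.1 fun x y e => Subtype.ext (by
        rw [← inv_A (P := P) γ x, ← inv_A (P := P) γ y]
        exact congrArg _ (congrArg Subtype.val e)))
    have hp : ∀ (N : ℕ) (x : Φ), ((σ ^ N) x : F) = (P.A γ ^ N) x := fun N x => by
      induction N with
      | zero => rfl
      | succ N ih =>
        rw [pow_succ', pow_succ', Equiv.Perm.mul_apply, mul_apply_eq_comp, ← ih]
        rfl
    ext z
    obtain ⟨f, rfl⟩ := h3 z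
    rw [map_sum]
    refine Finset.sum_congr rfl fun a ha => ?_
    have e := hp (Nat.card (Equiv.Perm Φ))
      ⟨a, hb ha, Finset.single_le_sum (f := fun a => ‖j a‖) (fun _ _ => norm_nonneg _) ha⟩
    rw [pow_card_eq_one'] at e
    rw [map_smul, ← e]
    rfl

end Pool.Agent.Lib.MP_813db1_ag.VH.S8.PG
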