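import Pool.Agent.Lib.MP_813db1_ag.VH.S8.PG
import Pool.Agent.Lib.MP_813db1_ag.HS.E.Lim
import Pool.Agent.Lib.MP_813db1_ag.HS.E.Jet
import Pool.Agent.Lib.MP_813db1_ag.HS.E.Gron
import Pool.Agent.Lib.MP_813db1_ag.HS.E.Montel

/-! The limit fields are holomorphic Killing fields, and their span has finite dimension. -/

namespace Pool.Agent.Lib.MP_813db1_ag.VH.S8.PG

open Pool.Agent.Lib.MP_813db1_ag.HS.E (Bil LIso Kil Met)
open Set Filter Topology Metric

noncomputable section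

variable {G F W : Type} [Group G] [NormedAddCommGroup F] [NormedSpace ℝ F]
  [NormedAddCommGroup W] [NormedSpace ℂ W] [NormedSpace ℝ W] [IsScalarTower ℝ ℂ W]
  [FiniteDimensional ℂ W] {P : PG G F W}

namespace LimAux

variable {k : P.κ} {ξ : W → W} {y : W}

/-- the data of a limit field in a convenient form -/
theorem data (h : P.Lim k ξ) :
    ∃ (𝓤 : Ultrafilter ℕ) (γ : ℕ → G) (s : ℕ → ℝ) (u : ℕ → W → W), (∀ j, 0 < s j) ∧
      Tendsto s 𝓤 (𝓝 0) ∧ (∀ j w, P.rm k k (γ j) w = w + s j • u j w) ∧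
      ∀ y ∈ P.B k, DifferentiableAt ℂ ξ y ∧ Tendsto (fun j => u j y) 𝓤 (𝓝 (ξ y)) ∧
        (∀ v, Tendsto (fun j => fderiv ℂ (u j) y v) 𝓤 (𝓝 (fderiv ℂ ξ y v))) ∧
        ∀ᶠ j in (𝓤 : Filter ℕ), P.Rel k k (γ j) y (P.rm k k (γ j) y) ∧
          ∀ v, fderiv ℂ (P.rm k k (γ j)) y v = v + s j • fderiv ℂ (u j) y v := by
  obtain ⟨-, 𝓤, t, s, hs, hs0, -, hR⟩ := h
  have he : ∀ j w, P.rm k k (t j) w = w + s j • ((s j)⁻¹ • (P.rm k k (t j) w - w)) :=
    fun j w => by rw [smul_inv_smul₀ (hs j).ne', add_sub_cancel]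
  refine ⟨𝓤, t, s, fun j y => (s j)⁻¹ • (P.rm k k (t j) y - y), hs, hs0, he, fun y hy => ?_⟩
  obtain ⟨R, h1, h2⟩ := exists_between (show dist y (P.yc k) < P.yr k from hy)
  have hyR : y ∈ ball (P.yc k) R := h1
  obtain ⟨h3, h4⟩ := hR R h2
  have h5 : ∀ᶠ j in (𝓤 : Filter ℕ), DifferentiableOn ℂ
      (fun y => (s j)⁻¹ • (P.rm k k (t j) y - y)) (ball (P.yc k) R) :=
    h3.mono fun j hj w hw =>
      (((liso (hj w hw)).diff.fun_sub differentiableAt_id).fun_const_smul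
        (s j)⁻¹).differentiableWithinAt
  obtain ⟨h6, h7⟩ := (HS.E.montel (Y := W)).2 𝓤 _ ξ (P.yc k) R h5 h4
  refine ⟨h6.differentiableAt (isOpen_ball.mem_nhds hyR), h4.tendsto_at hyR, fun u => ?_, ?_⟩
  · exact ((ContinuousLinearMap.apply ℂ W u).continuous.tendsto _).comp (h7 y hyR)
  · filter_upwards [h3, h5] with j hj hj'
    refine ⟨hj y hyR, fun u => ?_⟩
    have h8 := (hj'.differentiableAt (isOpen_ball.mem_nhds hyR)).hasFDerivAt
    have h9 := (hasFDerivAt_id (𝕜 := ℂ) y).fun_add (h8.fun_const_smul (s j))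
    have h10 : P.rm k k (t j) = fun w => id w + s j • ((s j)⁻¹ • (P.rm k k (t j) w - w)) :=
      funext (he j)
    rw [← h10] at h9
    rw [h9.fderiv]
    simp

theorem kil (hξ : P.Lim k ξ) (h : y ∈ P.B k) : DifferentiableAt ℂ ξ y ∧ Kil (P.g k) ξ y := by
  obtain ⟨𝓤, t, s, U, hs, hs0, he, hy⟩ := data hξ
  obtain ⟨h0, h1, h2, h3⟩ := hy y h
  refine ⟨h0, fun u v => ?_⟩
  have hg : HasFDerivAt (P.g k) (fderiv ℝ (P.g k) y) y :=
    (((P.met k).smooth.differentiableOn (by norm_num)).differentiableAt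
      ((B_open k).mem_nhds h)).hasFDerivAt
  have a0 : HasFDerivAt (fun p : W × W × W => p.1) (ContinuousLinearMap.fst ℝ W (W × W))
      (y, u, v) := hasFDerivAt_fst
  have a1 := HasFDerivAt.comp (y, u, v) (g := P.g k) (f := fun p : W × W × W => p.1) hg a0
  have a2 : HasFDerivAt (𝕜 := ℝ) (fun p : W × W × W => p.2.1) _ (y, u, v) :=
    hasFDerivAt_snd.fst
  have a3 : HasFDerivAt (𝕜 := ℝ) (fun p : W × W × W => p.2.2) _ (y, u, v) :=
    hasFDerivAt_snd.snd
  have a4 := HS.E.LimAux.quot ((a1.clm_apply a2).clm_apply a3) hs hs0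
    (h1.prodMk_nhds ((h2 u).prodMk_nhds (h2 v)))
  have a5 := tendsto_nhds_unique_of_eventuallyEq a4 (tendsto_const_nhds (x := (0 : ℝ)))
    (h3.mono fun j hj => by
      have := (liso hj.1).iso u v
      rw [hj.2, hj.2, he] at this
      simp only [Prod.mk_add_mk, Prod.smul_mk, Function.comp_apply, this, sub_self, smul_zero])
  rw [← a5]
  simp
  ring

omit [FiniteDimensional ℂ W] in
theorem fd_smul (c : ℝ) (h : DifferentiableAt ℂ ξ y) : fderiv ℂ (c • ξ) y = c • fderiv ℂ ξ y :=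
  (h.hasFDerivAt.const_smul c).fderiv

variable (P k) in
/-- holomorphic Killing fields on the ball -/
def Gd : Submodule ℝ (W → W) where
  carrier := {ξ | (∀ y ∈ P.B k, DifferentiableAt ℂ ξ y ∧ Kil (P.g k) ξ y) ∧
    ∀ y, y ∉ P.B k → ξ y = 0}
  zero_mem' := ⟨fun y _ => ⟨differentiableAt_const _, fun u v => by simp⟩, fun _ _ => rfl⟩
  add_mem' := by
    rintro ξ η ⟨a1, a2⟩ ⟨b1, b2⟩
    refine ⟨fun y hy => ⟨(a1 y hy).1.add (b1 y hy).1, fun u v => ?_⟩,
      fun y hy => by simp [a2 y hy, b2 y hy]⟩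
    have e1 := (a1 y hy).2 u v
    have e2 := (b1 y hy).2 u v
    simp only [fderiv_add (a1 y hy).1 (b1 y hy).1, Pi.add_apply, map_add, _root_.add_apply]
    linarith
  smul_mem' := by
    rintro c ξ ⟨a1, a2⟩
    refine ⟨fun y hy => ⟨(a1 y hy).1.const_smul c, fun u v => ?_⟩,
      fun y hy => by simp [a2 y hy]⟩
    have e1 := (a1 y hy).2 u v
    simp only [fd_smul c (a1 y hy).1, Pi.smul_apply, map_smul, _root_.smul_apply, smul_eq_mul]
    linear_combination c * e1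

theorem jet_zero (h : ξ ∈ Gd P k) (hy : y ∈ P.B k) (h0 : ξ y = 0) (h1 : fderiv ℂ ξ y = 0) :
    ξ = 0 := by
  funext w
  by_cases hw : w ∈ P.B k
  swap
  · exact h.2 w hw
  have hR : max (dist y (P.yc k)) (dist w (P.yc k)) < P.yr k := max_lt hy hw
  obtain ⟨K, K0, -, hK⟩ := HS.E.jet (Y := W) (P.g k) (P.yc k) _ _ hR (P.met k)
  obtain ⟨C, -, hC⟩ := HS.E.gron (Y := W) K ‖w - y‖ K0
  have hs := (convex_closedBall (P.yc k) (max (dist y (P.yc k)) (dist w (P.yc k)))).segment_subset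
    (mem_closedBall.2 (le_max_left _ _)) (mem_closedBall.2 (le_max_right _ _))
  have := hC ξ y w le_rfl fun v hv => by
    have e : ∀ᶠ u in 𝓝 v, DifferentiableAt ℂ ξ u ∧ Kil (P.g k) ξ u :=
      Filter.mem_of_superset ((B_open k).mem_nhds (closedBall_subset_ball hR (hs hv))) h.1
    exact ⟨e.mono fun _ a => a.1, hK ξ v (hs hv) e⟩
  rw [h0, h1, norm_zero, norm_zero, add_zero, mul_zero] at this
  exact norm_le_zero_iff.1 ((le_add_of_nonneg_right (norm_nonneg _)).trans this)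

variable (P k) in
/-- the first jet at the centre -/
def jet : Gd P k →ₗ[ℝ] W × (W →L[ℂ] W) where
  toFun ξ := (ξ.1 (P.yc k), fderiv ℂ ξ.1 (P.yc k))
  map_add' ξ η := Prod.ext rfl (fderiv_add (ξ.2.1 _ (yc_mem k)).1 (η.2.1 _ (yc_mem k)).1)
  map_smul' c ξ := Prod.ext rfl (fd_smul c (ξ.2.1 _ (yc_mem k)).1)

theorem gd_fin : FiniteDimensional ℝ (Gd P k) := by
  have : Module.Finite ℝ W := Module.Finite.trans ℂ W
  have : Module.Finite ℝ (W →L[ℂ] W) := Module.Finite.trans ℂ _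
  refine FiniteDimensional.of_injective (jet P k) ((injective_iff_map_eq_zero _).2 fun ξ h => ?_)
  exact Subtype.ext (jet_zero ξ.2 (yc_mem k) (congrArg Prod.fst h) (congrArg Prod.snd h))

theorem nn_le : P.NN k ≤ Gd P k :=
  Submodule.span_le.2 fun _ h => ⟨fun _ hy => kil h hy, h.1⟩

end LimAux

open LimAux in
theorem limS : P.LimS := fun k =>
  ⟨fun _ h => ⟨fun y hy => ((nn_le h).1 y hy).1.differentiableWithinAt,
    fun y hy => ((nn_le h).1 y hy).2, (nn_le h).2, fun _ hy => jet_zero (nn_le h) hy⟩,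
    have := gd_fin (P := P) (k := k)
    Submodule.finiteDimensional_of_le nn_le⟩

end

end Pool.Agent.Lib.MP_813db1_ag.VH.S8.PG
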