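import Pool.Agent.Lib.MP_813db1_ag.VH.S8.Pt
import Pool.Agent.Lib.MP_813db1_ag.VH.S8.Lag
import Pool.Agent.Lib.MP_813db1_ag.HS.Schw
import Pool.Agent.Lib.MP_813db1_ag.HS.Poly
import Pool.Agent.Lib.MP_813db1_ag.HS.Main
import Pool.Agent.Lib.MP_813db1_ag.AN.Pole

/-! The numerical dimension in the rigid situation. -/

namespace Pool.Agent.Lib.MP_813db1_ag.VH.S8

open Pool.Agent.Lib.MP_813db1_ag.HS Pool.Agent.Lib.MP_813db1_ag.AS
open MeasureTheory Complex Matrix Filter Topology Set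
open scoped ContDiff ComplexOrder Manifold

namespace NumAux

theorem invS : InvS := inv AY.repA' AY.repB' AY.divS' AY.curvS' AY.volS'

variable {ι X : Type} [Fintype ι] [DecidableEq ι] [TopologicalSpace X] {M : Atl ι X}
  {g h b : X → Mat ι} {m : ℕ} [T2Space X] [CompactSpace X] [Nonempty X] [MeasurableSpace X]
  [BorelSpace X]

theorem ord_le (hh : M.IsK h) (hb : ∀ x, M.ricF h x = -b x) (hs : ∀ x, (b x).PosSemidef)
    (hd : ∀ x (t : ℝ), 0 < t → (b x + (t : ℂ) • h x).det =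
      (t : ℂ) ^ m * (1 + t) ^ (Fintype.card ι - m) * (h x).det)
    (hg : M.IsK g) {μ : Measure X} (hμ : M.IsVol g μ)
    {p : Polynomial ℝ} (hp : ∀ t, p.eval t = M.vol μ g t) : m ≤ p.natTrailingDegree := by
  have A := AY.repA' ι X M
  have B := AY.repB' ι X M
  have W := (AY.volS' ι X M g hg).2 μ hμ
  have := W.fin
  have := W.pos
  have pg := ((A.isK_iff _).1 hg).2
  have ph := ((A.isK_iff _).1 hh).2
  have rp : ∀ x, 0 < rat h g x := fun x => div_pos (RepB.pos_det (ph x)) (RepB.pos_det (pg x))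
  have hr := A.ck_rat h g (fun e he => (hh e he).1.1) hg
  have hl := B.ck_comp ⊤ _ Real.log hr fun x => Real.contDiffAt_log.2 (rp x).ne'
  have ci : ∀ F, M.ClF F → Continuous (rat F g) := fun F hF =>
    A.cont _ (Schw.ck_le (A.ck_rat F g (fun e he => (hF e he).1) hg) 0)
  have ig : ∀ f : X → ℝ, Continuous f → Integrable f μ := fun f hf =>
    hf.integrable_of_hasCompactSupport (HasCompactSupport.of_compactSpace f)
  have e : ∀ t : ℝ, (fun y => (t : ℂ) • g y - M.ricF g y +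
      M.ddc (fun y => Real.log (rat h g y)) y) = fun y => (t : ℂ) • g y + b y := fun t => by
    funext y
    have := B.ric_rat h g hh hg y
    rw [sub_add, ← this, hb, sub_neg_eq_add]
  have cl : ∀ t : ℝ, M.ClF fun y => (t : ℂ) • g y + b y := fun t =>
    e t ▸ A.clF_add _ _ (Schw.clF_sub A B hg t) (B.ddc_cl _ hl)
  have ev : ∀ t : ℝ, p.eval t = ∫ x, rat (fun y => (t : ℂ) • g y + b y) g x ∂μ := fun t => by
    rw [hp, Atl.vol, ← invS ι X M g _ μ _ hg hμ (Schw.clF_sub A B hg t) hl, e]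
  have pd : ∀ t : ℝ, 0 < t → ∀ x, ((t : ℂ) • g x + b x).PosDef := fun t ht x =>
    ((pg x).smul (by exact_mod_cast ht)).add_posSemidef (hs x)
  obtain ⟨h1, h2, -⟩ := poly p fun t ht => by
    rw [ev]
    exact (ci _ (cl t)).integral_pos_of_hasCompactSupport_nonneg_nonzero
      (HasCompactSupport.of_compactSpace _)
      (fun x => (div_pos (RepB.pos_det (pd t ht x)) (RepB.pos_det (pg x))).le)
      (div_pos (RepB.pos_det (pd t ht (Classical.arbitrary X))) (RepB.pos_det (pg _))).ne'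
  obtain ⟨L, L0, hL⟩ : ∃ L : ℝ, 0 < L ∧ ∀ x, trm (h x) (g x) ≤ L := by
    obtain ⟨L, hL⟩ := isCompact_univ.exists_bound_of_continuousOn
      (A.cont _ (Schw.ck_le (A.ck_trm h g hh fun e he => (hg e he).1.1) 0)).continuousOn
    exact ⟨max L 1, lt_max_of_lt_right one_pos, fun x =>
      ((le_abs_self _).trans (hL x (mem_univ x))).trans (le_max_left _ _)⟩
  by_contra hn
  push Not at hn
  have t0 : Tendsto (fun t : ℝ => t ^ (m - p.natTrailingDegree) * (L ^ m *
      (1 + t * L) ^ (Fintype.card ι - m) * ∫ x, rat h g x ∂μ)) (𝓝[>] 0) (𝓝 0) := by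
    have : Continuous fun t : ℝ => t ^ (m - p.natTrailingDegree) * (L ^ m *
      (1 + t * L) ^ (Fintype.card ι - m) * ∫ x, rat h g x ∂μ) := by fun_prop
    have h3 := (this.tendsto 0).mono_left (nhdsWithin_le_nhds (s := Ioi 0))
    rwa [zero_pow (by omega), zero_mul] at h3
  refine absurd (le_of_tendsto_of_tendsto h2 t0 ?_) (not_le.2 h1)
  filter_upwards [self_mem_nhdsWithin] with t (ht : 0 < t)
  rw [div_le_iff₀ (pow_pos ht _), mul_right_comm, ← pow_add, Nat.sub_add_cancel hn.le, ← mul_assoc,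
    ← integral_const_mul, ev]
  refine integral_mono (ig _ (ci _ (cl t))) ((ig _ (ci _ ((A.isK_iff _).1 hh).1)).const_mul _)
    fun x => ?_
  have k1 := (mat.le_trm ι _ _ (ph x) (pg x).posSemidef).add ((ph x).posSemidef.smul
    (a := ((L - trm (h x) (g x) : ℝ) : ℂ)) (by exact_mod_cast sub_nonneg.2 (hL x)))
  have k2 := Pole.det_mono (pd t ht x) (k1.smul (a := (t : ℂ)) (by exact_mod_cast ht.le))
  have k3 : (t : ℂ) • g x + b x + (t : ℂ) • (((trm (h x) (g x) : ℝ) : ℂ) • h x - g x +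
      ((L - trm (h x) (g x) : ℝ) : ℂ) • h x) = b x + ((t * L : ℝ) : ℂ) • h x := by
    push_cast
    module
  have k4 : (b x + ((t * L : ℝ) : ℂ) • h x).det.re =
      (t * L) ^ m * (1 + t * L) ^ (Fintype.card ι - m) * (h x).det.re := by
    rw [hd x _ (mul_pos ht L0), ← re_ofReal_mul]
    push_cast
    rfl
  rw [k3, k4] at k2
  simp only [Pool.Agent.Lib.MP_813db1_ag.HS.rat]
  rw [← mul_div_assoc]
  exact div_le_div_of_nonneg_right (k2.trans_eq (by ring)) (RepB.pos_det (pg x)).le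

theorem num_le [ChartedSpace (ι → ℂ) X] (K : Kahler ι X) (hch : ∀ x, M.ch x = chartAt (ι → ℂ) x)
    (hg : M.IsK g) (hrep : ∀ e ∈ atlas (ι → ℂ) X, ∀ z ∈ e.target, M.repF g e z = K.g e z)
    (hh : M.IsK h) (hb : ∀ x, M.ricF h x = -b x) (hs : ∀ x, (b x).PosSemidef)
    (hd : ∀ x (t : ℝ), 0 < t → (b x + (t : ℂ) • h x).det =
      (t : ℂ) ^ m * (1 + t) ^ (Fintype.card ι - m) * (h x).det) :
    K.numDim ≤ Fintype.card ι - m := by
  have ha := AY.repA' ι X M
  obtain ⟨⟨μ, hμ⟩, hV⟩ := AY.volS' ι X M g hg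
  obtain ⟨p, hp1, hp2, -⟩ := volP AY.repA' AY.repB' AY.volS' invS mat ι X M g μ hg hμ
  have ho := ord_le hh hb hs hd hg hμ hp1
  have hev : ∀ x, M.repF g (M.ch x) =ᶠ[𝓝 (M.ch x x)] K.g (chartAt (ι → ℂ) x) := by
    intro x
    rw [hch x]
    filter_upwards [(chartAt (ι → ℂ) x).open_target.mem_nhds (mem_chart_target _ x)] with w hw
    exact hrep _ (chart_mem_atlas _ x) w hw
  refine csSup_le' ?_
  rintro k ⟨hk, μ', hμ', hne⟩
  have hμeq : μ' = μ := by
    refine (hV μ hμ).uniq μ' fun x => ?_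
    rw [hμ _ (M.ch_mem x), hch x, hμ' _ (chart_mem_atlas _ x)]
    congr 1
    refine withDensity_congr_ae ?_
    filter_upwards [ae_restrict_mem (chartAt (ι → ℂ) x).open_target.measurableSet] with w hw
    rw [hrep _ (chart_mem_atlas _ x) w hw]
  have hmix : ∀ x, K.mixed k x =
      (((g x)⁻¹ * M.ricF g x).charpoly.coeff (Fintype.card ι - k)).re := by
    intro x
    have h1 : g x = K.g (chartAt (ι → ℂ) x) (chartAt (ι → ℂ) x x) := by
      rw [← ha.repF_self g x, (hev x).eq_of_nhds, hch x]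
    have h2 : M.ricF g x = ric (K.g (chartAt (ι → ℂ) x)) (chartAt (ι → ℂ) x x) := by
      rw [Atl.ricF, Main.ric_cg (hev x), hch x]
    rw [h1, h2]
    rfl
  simp only [hmix, hμeq, ← hp2] at hne
  have := Polynomial.natTrailingDegree_le_of_ne_zero hne
  omega

end NumAux

variable {ι X Y G : Type} [Fintype ι] [DecidableEq ι] [TopologicalSpace X] [T2Space X]
  [CompactSpace X] [Nonempty X] [MeasurableSpace X] [BorelSpace X] [TopologicalSpace Y] [Group G]
  [MulAction G Y] {M : Atl ι X} {p : Y → X} [ChartedSpace (ι → ℂ) X]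

theorem numV (hA : AlgS) (hC : Cx M p G) : NumV M p G := by
  intro K g hg hrep m E Q c x h ξ hS
  have A := AY.repA' ι X M
  obtain ⟨y, -⟩ := hC.cov.surjective (Classical.arbitrary X)
  have hQ : Q.det ≠ 0 := fun h0 => by
    have := congrArg det (hS.pol.sq y)
    rw [det_mul, Dt.J, det_mul, h0, mul_zero, mul_zero, det_neg, det_one, mul_one] at this
    exact pow_ne_zero _ (neg_ne_zero.2 one_ne_zero) this.symm
  obtain ⟨L, hL⟩ := lagS (Fin (2 * m)) (Fin m) Q hS.pol.re hS.pol.alt hQ (by simp)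
  have key : ∀ a, ∃ H D, Pt Q L H (h a) D ∧ ξ a = xiM H D := fun a => by
    have hz := (M.ch a).map_source (M.mem a)
    obtain ⟨s, hs⟩ := sec_ex' hC.cov hz
    obtain ⟨-, h1, h2⟩ := plS (ptS hA) hS (Fin m) L hL _ (M.ch_mem a) _ hz s hs
    rw [A.repF_self] at h1 h2
    exact ⟨_, _, h1, h2⟩
  refine NumAux.num_le (b := fun a => h a - ξ a) K hC.ch hg hrep hS.k (fun a => ?_) (fun a => ?_)
    fun a t ht => ?_
  · rw [hS.ric, neg_sub, neg_add_eq_sub]
  · obtain ⟨H, D, h1, h2⟩ := key a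
    rw [h2]
    exact h1.psd
  · obtain ⟨H, D, h1, h2⟩ := key a
    have := h1.det t ht
    rw [Fintype.card_fin] at this
    rw [h2]
    exact this

end Pool.Agent.Lib.MP_813db1_ag.VH.S8
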