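import Pool.Agent.Lib.MP_813db1_ag.VH.S8.StL
import Pool.Agent.Lib.MP_bbd4b9_ag.BR.B3a

/-! The pointwise identities of the rigid situation. -/

namespace Pool.Agent.Lib.MP_813db1_ag.VH.S8

open Pool.Agent.Lib.MP_813db1_ag.HS Pool.Agent.Lib.MP_813db1_ag.AS
open Pool.Agent.Lib.MP_bbd4b9_ag.BR (bar_mul bar_sub bar_one pull_psd det_scale)
open Complex Matrix Filter Topology Set
open scoped ComplexOrder

theorem ptS (hA : AlgS) : PtS := by
  intro ι r σ _ _ _ _ _ _ Q L H G D hL hH hG hD hi
  have A := hA r σ Q L H hL hH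
  have uH : IsUnit H.det := hH.pos.det_pos.ne'.isUnit
  have uG : IsUnit G.det := hG.det_pos.ne'.isUnit
  have sH : Hᵀ = H := by
    have := hH.pos.1.eq
    rwa [conjTranspose, transpose_map, hH.re] at this
  have II : (I * I : ℂ) = -1 := I_mul_I
  obtain ⟨-, reJ, hj, qj, jh, -, -, -, zl, zj, pe, -⟩ := A
  generalize hJ : jM Q H = J at *
  generalize hZ : zM Q L H = Z at *
  have d1 : J * D.map star = (-I) • D.map star := by
    have := congrArg (fun B : Matrix r ι ℂ => B.map star) hD
    simp only [bar_mul] at this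
    rw [reJ] at this
    rw [this]
    ext a b
    simp
  have d2 : Dᴴ * Q = I • (Dᴴ * H) := by
    have := congrArg (fun B : Matrix r ι ℂ => Bᵀ * H) d1
    simp only [transpose_mul, transpose_smul, Matrix.mul_assoc, jh, Matrix.mul_neg, neg_smul,
      Matrix.neg_mul, Matrix.smul_mul, transpose_neg] at this
    exact neg_injective this
  have uh : vX Q G D = (G⁻¹)ᵀ * Dᴴ * H := by
    rw [vX, Matrix.mul_assoc, d2, Matrix.mul_smul, smul_smul, neg_mul, II, neg_neg, one_smul,
      Matrix.mul_assoc]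
  have xj : vX Q G D * J = I • vX Q G D := by
    conv_lhs => rw [uh, Matrix.mul_assoc, hj]
    rw [vX, smul_smul, mul_neg, II, neg_neg, one_smul]
  have dx : (2 : ℂ) • (D * vX Q G D) = 1 - I • J := by
    rw [uh, ← hi]
    simp only [Matrix.mul_assoc]
  have xg : (vX Q G D)ᵀ * G = H * D.map star := by
    rw [uh, transpose_mul, transpose_mul, transpose_transpose, sH, Matrix.mul_assoc,
      Matrix.mul_assoc, nonsing_inv_mul _ uG, Matrix.mul_one, conjTranspose_transpose]
  have du : (2 : ℂ) • (D * (G⁻¹)ᵀ * Dᴴ) = H⁻¹ + I • Q⁻¹ := by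
    have e : Q⁻¹ = -(J * H⁻¹) := inv_eq_right_inv (by
      rw [Matrix.mul_neg, ← Matrix.mul_assoc, qj, Matrix.neg_mul, neg_neg, mul_nonsing_inv _ uH])
    have := congrArg (· * H⁻¹) hi
    simp only [Matrix.smul_mul, Matrix.sub_mul, Matrix.one_mul,
      mul_nonsing_inv_cancel_right _ _ uH] at this
    rw [this, e, smul_neg, sub_eq_add_neg]
  generalize hX : vX Q G D = X at *
  have dx' : D * X = (1 / 2 : ℂ) • (1 - I • J) := by rw [← dx, smul_smul]; simp
  have dx2 : D.map star * X.map star = (1 / 2 : ℂ) • (1 + I • J) := by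
    rw [← bar_mul, dx']
    conv_rhs => rw [← reJ, ← bar_one]
    ext a b
    simp only [map_apply, Matrix.smul_apply, Matrix.sub_apply, Matrix.add_apply, smul_eq_mul,
      star_mul', star_sub, star_div₀, star_one, star_ofNat, show star I = -I from conj_I]
    ring
  have xl : X * L * Z = X := by
    have := congrArg (X * ·) pe
    simp only [← Matrix.mul_assoc, Matrix.mul_sub, Matrix.mul_one, Matrix.mul_smul, xj, smul_smul,
      II, Matrix.mul_zero, Matrix.sub_mul, neg_smul, one_smul, Matrix.neg_mul] at this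
    linear_combination (norm := module) (-(1 / 2) : ℂ) • this
  have zdw : Z * D * (X * L) = 1 := by
    rw [Matrix.mul_assoc, ← Matrix.mul_assoc D, dx', ← Matrix.mul_assoc, Matrix.mul_smul,
      Matrix.mul_sub, Matrix.mul_smul, zj, smul_smul, II, Matrix.mul_one, Matrix.smul_mul,
      Matrix.sub_mul, Matrix.smul_mul, zl]
    module
  have ker : Xᵀ * (G - xiM H D) = 0 := by
    have e : Jᵀ * (H * D.map star) = I • (H * D.map star) := by
      rw [← Matrix.mul_assoc, jh, ← hj, Matrix.neg_mul, Matrix.mul_assoc, d1, Matrix.mul_smul,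
        neg_smul, neg_neg]
    rw [Matrix.mul_sub, xg, xiM, Matrix.mul_assoc, ← Matrix.mul_assoc, ← transpose_mul, dx',
      transpose_smul, transpose_sub, transpose_smul, transpose_one, Matrix.smul_mul, Matrix.sub_mul,
      Matrix.smul_mul, e, smul_smul, II, Matrix.one_mul]
    module
  have p1 : (1 - X * D)ᵀ * G = G - xiM H D := by
    rw [transpose_sub, transpose_one, transpose_mul, Matrix.sub_mul, Matrix.one_mul,
      Matrix.mul_assoc, xg, xiM, Matrix.mul_assoc]
  have pr : G - xiM H D = pull (1 - X * D) G := by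
    have e : (G - xiM H D)ᴴ = G - xiM H D := by
      rw [conjTranspose_sub, hG.1.eq, xiM, conjTranspose_mul, conjTranspose_mul, hH.pos.1.eq,
        transpose_conjTranspose, show (D.map star)ᴴ = Dᵀ by ext; simp, Matrix.mul_assoc]
    have := congrArg conjTranspose ker
    rw [conjTranspose_mul, e, transpose_conjTranspose, conjTranspose_zero] at this
    rw [pull, p1, bar_sub, bar_one, bar_mul, Matrix.mul_sub, ← Matrix.mul_assoc, this,
      Matrix.zero_mul, Matrix.mul_one, sub_zero]
  have card : Fintype.card σ ≤ Fintype.card ι := by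
    have := (rank_mul_le_right (Z * D) (X * L)).trans (rank_le_card_height _)
    rwa [zdw, rank_one] at this
  have ww : (X * L)ᵀ * G * (X * L).map star = (1 / 2 : ℂ) • muM L H := by
    rw [transpose_mul, Matrix.mul_assoc Lᵀ, xg, bar_mul, hL.reL, Matrix.mul_assoc, Matrix.mul_assoc,
      ← Matrix.mul_assoc (D.map star), dx2, ← Matrix.mul_assoc H, Matrix.mul_smul, Matrix.mul_add,
      Matrix.mul_smul, hj, Matrix.smul_mul, Matrix.mul_smul, Matrix.add_mul, Matrix.mul_add,
      Matrix.smul_mul, Matrix.mul_smul, ← Matrix.mul_assoc _ Q, hL.iso, smul_zero, add_zero,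
      Matrix.mul_one, muM, Matrix.mul_assoc]
  have det : ∀ t : ℝ, 0 < t → (G - xiM H D + (t : ℂ) • G).det =
      (t : ℂ) ^ Fintype.card σ * (1 + t) ^ (Fintype.card ι - Fintype.card σ) * G.det := by
    intro t ht
    have t0 : (t : ℂ) ≠ 0 := ofReal_ne_zero.2 ht.ne'
    have t1 : (1 + t : ℂ) ≠ 0 := by exact_mod_cast (by positivity : (1 + t : ℝ) ≠ 0)
    have e : G - xiM H D + (t : ℂ) • G = ((t : ℂ) • (((1 + t) / t : ℂ) • (1 - X * L * (Z * D)) +
        X * L * (Z * D)))ᵀ * G := by
      rw [← p1, ← Matrix.mul_assoc, xl, smul_add, smul_smul, mul_div_cancel₀ _ t0]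
      simp only [transpose_add, transpose_smul, transpose_sub, transpose_one, Matrix.add_mul,
        Matrix.smul_mul, Matrix.sub_mul, Matrix.one_mul]
      module
    obtain ⟨k, hk⟩ := Nat.exists_eq_add_of_le card
    rw [e, det_mul, det_transpose, det_smul, det_scale zdw hk.symm (div_ne_zero t1 t0), hk,
      Nat.add_sub_cancel_left, pow_add, div_pow]
    field_simp
  subst hX hZ hJ
  exact ⟨uh, du, dx, xj, xl, zdw, ww, ker, pr, pr ▸ pull_psd _ hG.posSemidef, card, det⟩

variable {ι X Y G r : Type} [Fintype ι] [DecidableEq ι] [TopologicalSpace X] [TopologicalSpace Y]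
  [Group G] [MulAction G Y] [Fintype r] [DecidableEq r] {M : Atl ι X} {p : Y → X}
  {E : Dt M p G r} {Q : Mat r} {c : G → V r} {x : Y → V r} {h ξ : X → Mat ι}

theorem plS (hP : PtS) (hS : E.Spl Q c x h ξ) : PlS E Q x h ξ := by
  intro σ _ _ L hL e he z hz s hs
  have g : Sg Q (E.H (s z)) := ⟨E.reH _, E.pos _, hS.pol.sq _⟩
  refine ⟨g, hP ι r σ Q L _ _ _ hL g ((hS.k e he).2 z hz) ?_ ?_, (hS.xi e he z hz s hs).trans ?_⟩
  · exact Matrix.ext fun a k => congrFun (hS.pol.cr e he z hz s hs k) a
  · refine Eq.trans (congrArg _ ?_) (hS.iso e he z hz s hs)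
    simp only [tg, ← Matrix.smul_mul, ← Matrix.sum_mul,
      dVb_real (x := x ∘ s) (Eventually.of_forall fun w => hS.pol.rx _)]
    congr 1
    ext q q'
    simp only [Matrix.sum_apply, Matrix.smul_apply, vecMulVec_apply, mul_apply, dX, of_apply,
      transpose_apply, conjTranspose_apply, Finset.sum_mul, smul_eq_mul, Pi.star_apply]
    rw [Finset.sum_comm]
    exact Finset.sum_congr rfl fun _ _ => Finset.sum_congr rfl fun _ _ => by ring
  · ext i j
    simp only [xiL, xiM, ipV, of_apply, mul_apply, dX, transpose_apply, map_apply, Finset.sum_mul,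
      Function.comp_apply]
    rw [Finset.sum_comm]
    exact Finset.sum_congr rfl fun _ _ => Finset.sum_congr rfl fun _ _ => by ring

end Pool.Agent.Lib.MP_813db1_ag.VH.S8
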