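import Pool.Agent.Lib.MP_813db1_ag.VH.S8.PG
import Pool.Agent.Lib.MP_813db1_ag.HS.E.Rec

/-! Recurrence along rays. -/

namespace Pool.Agent.Lib.MP_813db1_ag.VH.S8.PG

open Pool.Agent.Lib.MP_813db1_ag.HS.E.RecAux (lim_ex cauchy)
open Set Filter Topology Metric

namespace RecA

lemma dir {F : Type} [NormedAddCommGroup F] [NormedSpace ℝ F] {u v : F} (hu : ‖u‖ = 1)
    {t σ : ℝ} (ht : 0 < t) (hσ : σ < 1) (h : ‖v - t • u‖ ≤ σ * t) :
    v ≠ 0 ∧ ‖‖v‖⁻¹ • v - u‖ ≤ 2 * σ := by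
  have h1 : |‖v‖ - t| ≤ σ * t := by
    have := abs_norm_sub_norm_le v (t • u)
    rw [norm_smul, hu, mul_one, Real.norm_of_nonneg ht.le] at this
    exact this.trans h
  have hn : 0 < ‖v‖ := by nlinarith [(abs_le.1 h1).1]
  refine ⟨norm_pos_iff.1 hn, ?_⟩
  have e : ‖v‖⁻¹ • v - u = (‖v‖⁻¹ - t⁻¹) • v + t⁻¹ • (v - t • u) := by
    rw [smul_sub, smul_smul, inv_mul_cancel₀ ht.ne', one_smul, sub_smul]
    abel
  have e2 : |‖v‖⁻¹ - t⁻¹| * ‖v‖ = t⁻¹ * |‖v‖ - t| := by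
    rw [← abs_of_pos hn, ← abs_mul, abs_of_pos hn, abs_sub_comm, ← abs_of_pos (inv_pos.2 ht),
      ← abs_mul, abs_of_pos (inv_pos.2 ht)]
    congr 1
    field_simp
  have e3 : ∀ a : ℝ, a ≤ σ * t → t⁻¹ * a ≤ σ := fun a ha => by
    rw [inv_mul_le_iff₀ ht, mul_comm]; exact ha
  rw [e]
  refine (norm_add_le _ _).trans ?_
  rw [norm_smul, norm_smul, Real.norm_eq_abs, e2, Real.norm_of_nonneg (inv_pos.2 ht).le]
  linarith [e3 _ h1, e3 _ h]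

variable {G F W : Type} [Group G] [NormedAddCommGroup F] [NormedSpace ℝ F]
  [NormedAddCommGroup W] [NormedSpace ℂ W] [NormedSpace ℝ W] {P : PG G F W}

lemma key (α β : G) (a b : F) : P.c (α⁻¹ * β) - b = (P.A (α⁻¹ * β) - 1) b +
    (P.A α⁻¹ ((P.A β (-b) + P.c β) - (P.A α (-a) + P.c α)) - a) := by
  have e : P.A α⁻¹ (P.A α a) = a := by
    rw [← mul_apply_eq_comp, A_inv_mul, one_apply_eq_self]
  rw [P.coc, c_inv, map_mul]
  simp only [sub_apply, mul_apply_eq_comp,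
    one_apply_eq_self, map_sub, map_add, map_neg, e]
  abel

end RecA

open RecA

variable {G F W : Type} [Group G] [NormedAddCommGroup F] [NormedSpace ℝ F] [FiniteDimensional ℝ F]
  [NormedAddCommGroup W] [NormedSpace ℂ W] [NormedSpace ℝ W] [FiniteDimensional ℂ W]
  {P : PG G F W}

theorem recS (hU : P.UnifS) (hE : P.ExtS) : P.RecS := by
  intro k u hu ε hε
  have : ProperSpace W := FiniteDimensional.proper ℂ W
  have : ProperSpace (F →L[ℝ] F) := FiniteDimensional.proper ℝ _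
  have := P.fin
  set 𝓤 := hyperfilter ℕ
  have hr := P.pos k
  have hc := mem_closedBall_self (x := P.yc k) (half_pos hr).le
  obtain ⟨θ, hθ, T, hT⟩ := P.cpt
  obtain ⟨l, hl⟩ := (Ultrafilter.eventually_exists_iff (f := 𝓤)).1
    (Eventually.of_forall fun j : ℕ => hT k _ (yc_mem k) (-((j : ℝ) • u)))
  have hγ : ∀ j : ℕ, ∃ γ : G, ∃ y' : W, (∃ γ : G, ∃ y' ∈ closedBall (P.yc l) (θ * P.yr l),
      P.Rel k l γ (P.yc k) y' ∧ ‖P.A γ (-((j : ℝ) • u)) + P.c γ‖ ≤ T) →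
      y' ∈ closedBall (P.yc l) (θ * P.yr l) ∧ P.Rel k l γ (P.yc k) y' ∧
        ‖P.A γ (-((j : ℝ) • u)) + P.c γ‖ ≤ T := fun j => by
    by_cases h : ∃ γ : G, ∃ y' ∈ closedBall (P.yc l) (θ * P.yr l),
      P.Rel k l γ (P.yc k) y' ∧ ‖P.A γ (-((j : ℝ) • u)) + P.c γ‖ ≤ T
    · obtain ⟨γ, y', h⟩ := h
      exact ⟨γ, y', fun _ => h⟩
    · exact ⟨1, 0, fun e => absurd e h⟩
  choose γ p hγ using hγ
  have hsrc := hl.mono hγ
  set R' := θ * P.yr l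
  have hR2 : R' < P.yr l := by nlinarith [P.pos l]
  obtain ⟨R'', hR3, hR4⟩ := exists_between hR2
  obtain ⟨ρ1, hρ1, C1, hC1, h1⟩ := hU k l (P.yr k / 2) R' (half_lt_self hr) hR2
  obtain ⟨ρ2, hρ2, C2, hC2, h2⟩ := hU l k R'' (P.yr k / 2) hR4 (half_lt_self hr)
  obtain ⟨C3, hC3⟩ := P.bd k l (P.yr k / 2) R' (half_lt_self hr) hR2
  obtain ⟨C4, hC4⟩ := P.bd l k R' (P.yr k / 2) hR2 (half_lt_self hr)
  set D := max C4 1
  have d0 : 0 < D := lt_max_of_lt_right one_pos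
  have c1 : 0 < C1 := by linarith
  have c2 : 0 < C2 := by linarith
  obtain ⟨ρ, hρ, ρa, ρb, ρc⟩ : ∃ ρ > 0, ρ ≤ ρ1 ∧ ρ ≤ P.yr k / 2 ∧ C1 * ρ ≤ R'' - R' :=
    ⟨min ρ1 (min (P.yr k / 2) ((R'' - R') / C1)),
      lt_min hρ1 (lt_min (half_pos hr) (div_pos (sub_pos.2 hR3) c1)), min_le_left _ _,
      (min_le_right _ _).trans (min_le_left _ _), by
        rw [mul_comm, ← le_div_iff₀ c1]; exact (min_le_right _ _).trans (min_le_right _ _)⟩
  have hb : ball (P.yc k) ρ ⊆ closedBall (P.yc k) (P.yr k / 2) :=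
    ball_subset_closedBall.trans (closedBall_subset_closedBall ρb)
  obtain ⟨η, hη, C, hC, h3⟩ := hE k (P.yc k) ρ (P.yr k / 2) hρ hb (half_lt_self hr)
  have c3 : 0 < C := by linarith
  obtain ⟨τ, hτ, τa, τb, τc, τd, τe⟩ : ∃ τ > 0, τ < ρ2 ∧ C2 * τ ≤ η ∧ C * (C2 * τ) ≤ ε ∧
      4 * τ ≤ ε ∧ 4 * τ ≤ 1 := by
    have t0 : ∀ a b : ℝ, 0 < b → ∀ᶠ τ in 𝓝[>] (0 : ℝ), a * τ < b := fun a b hb =>
      nhdsWithin_le_nhds ((by fun_prop : ContinuousAt (fun τ : ℝ => a * τ) 0).eventually_lt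
        continuousAt_const (by simpa using hb))
    obtain ⟨τ, a0, a1, a2, a3, a4, a5⟩ := (eventually_mem_nhdsWithin.and ((t0 1 _ hρ2).and
      ((t0 C2 _ hη).and ((t0 (C * C2) _ hε).and ((t0 4 _ hε).and (t0 4 _ one_pos)))))).exists
    exact ⟨τ, a0, by linarith, a2.le, by linarith, a4.le, a5.le⟩
  have good : ∀ᶠ j in (𝓤 : Filter ℕ),
      (∀ w ∈ ball (P.yc k) ρ, P.Rel k l (γ j) w (P.rm k l (γ j) w)) ∧
      (∀ w ∈ ball (P.yc k) ρ, P.rm k l (γ j) w ∈ closedBall (P.yc l) R'') ∧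
      ∀ w ∈ ball (P.yc k) ρ, ∀ w' ∈ ball (P.yc k) ρ,
        ‖P.rm k l (γ j) w - P.rm k l (γ j) w'‖ ≤ C1 * ‖w - w'‖ := by
    filter_upwards [hsrc] with j hj
    obtain ⟨a, b⟩ := h1 (γ j) _ hc _ hj.1 hj.2.1
    have hs := ball_subset_ball (x := P.yc k) ρa
    refine ⟨fun w hw => a w (hs hw), fun w hw => ?_, fun w hw w' hw' => b w (hs hw) w' (hs hw')⟩
    have := b w (hs hw) _ (mem_ball_self hρ1)
    rw [rm_eq hj.2.1, ← dist_eq_norm] at this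
    have t1 := dist_triangle (P.rm k l (γ j) w) (p j) (P.yc l)
    have t2 := mul_le_mul_of_nonneg_left (mem_ball_iff_norm.1 hw).le c1.le
    have t3 := mem_closedBall.1 hj.1
    rw [mem_closedBall]
    linarith
  obtain ⟨S, hS, hS'⟩ := cauchy 𝓤 ((isCompact_closedBall (P.yc k) ρ).totallyBounded.subset
    ball_subset_closedBall) (isCompact_closedBall _ _) c1
    (good.mono fun j hj => hj.2) hτ
  obtain ⟨A, hA⟩ := lim_ex 𝓤 (isCompact_closedBall (0 : F →L[ℝ] F) C3) (f := fun j => P.A (γ j))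
    (hsrc.mono fun j hj => mem_closedBall_zero_iff.2 (hC3 _ _ hc _ hj.1 hj.2.1))
  have all := hsrc.and (good.and ((show ∀ᶠ j in (𝓤 : Filter ℕ), j ∈ S from hS).and
    ((tendsto_iff_norm_sub_tendsto_zero.1 hA).eventually_lt_const
      (show 0 < τ / (2 * D) by positivity))))
  obtain ⟨i, i0, i1, i2, i3⟩ := all.exists
  have big : ∀ᶠ j : ℕ in (𝓤 : Filter ℕ), ((i : ℝ) + D * (2 * T) + 1) / τ ≤ j :=
    Nat.hyperfilter_le_atTop (tendsto_natCast_atTop_atTop.eventually_ge_atTop _)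
  obtain ⟨j, ⟨j0, j1, j2, j3⟩, j5⟩ := (all.and big).exists
  rw [div_le_iff₀ hτ] at j5
  have T0 : 0 ≤ T := (norm_nonneg _).trans i0.2.2
  have hj : (0 : ℝ) < j := by
    have : (0 : ℝ) < j * τ := lt_of_lt_of_le (by positivity) j5
    exact (mul_pos_iff_of_pos_right hτ).1 this
  have hD : ‖P.A (γ i)⁻¹‖ ≤ D := (hC4 _ _ i0.1 _ hc (P.symm i0.2.1)).trans (le_max_left _ _)
  have hlin : ‖P.A ((γ i)⁻¹ * γ j) - 1‖ ≤ τ := by
    rw [map_mul, ← A_inv_mul (P := P) (γ i), ← mul_sub]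
    refine (norm_mul_le _ _).trans ?_
    have t1 := norm_sub_le_norm_sub_add_norm_sub (P.A (γ j)) A (P.A (γ i))
    rw [norm_sub_rev A] at t1
    calc _ ≤ D * (τ / (2 * D) + τ / (2 * D)) :=
          mul_le_mul hD (by linarith) (norm_nonneg _) d0.le
      _ = τ := by field_simp; ring
  have hdir : ‖P.c ((γ i)⁻¹ * γ j) - (j : ℝ) • u‖ ≤ 2 * τ * j := by
    have n1 : ∀ m : ℕ, ‖(m : ℝ) • u‖ = m := fun m => by
      rw [norm_smul, hu, mul_one, Real.norm_of_nonneg m.cast_nonneg]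
    rw [key (γ i) (γ j) ((i : ℝ) • u)]
    have t1 := (P.A ((γ i)⁻¹ * γ j) - 1).le_opNorm ((j : ℝ) • u)
    have t3 := norm_sub_le (P.A (γ j) (-((j : ℝ) • u)) + P.c (γ j))
      (P.A (γ i) (-((i : ℝ) • u)) + P.c (γ i))
    have t2 := (P.A (γ i)⁻¹).le_of_opNorm_le_of_le hD
      (t3.trans (show _ ≤ 2 * T by linarith [i0.2.2, j0.2.2]))
    rw [n1] at t1
    have t4 := mul_le_mul_of_nonneg_right hlin hj.le
    refine (norm_add_le _ _).trans ((add_le_add le_rfl (norm_sub_le _ _)).trans ?_)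
    rw [n1]
    linarith
  obtain ⟨d1, d2⟩ := dir hu hj (by linarith) hdir
  refine ⟨(γ i)⁻¹ * γ j, (h3 _ (C2 * τ) (by positivity) τb fun w hw => ?_).mono subset_rfl τc,
    by linarith, d1, by linarith⟩
  obtain ⟨a, b⟩ := h2 (γ i)⁻¹ _ (i1.2.1 w hw) w (hb hw) (P.symm (i1.1 w hw))
  have t1 := hS' i i2 j j2 w hw
  have hm : P.rm k l (γ j) w ∈ ball (P.rm k l (γ i) w) ρ2 :=
    mem_ball_iff_norm.2 (t1.trans_lt τa)
  refine ⟨_, P.trans (j1.1 w hw) (a _ hm), ?_⟩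
  have := b _ hm _ (mem_ball_self hρ2)
  rw [rm_eq (P.symm (i1.1 w hw))] at this
  exact this.trans (mul_le_mul_of_nonneg_left t1 c2.le)

end Pool.Agent.Lib.MP_813db1_ag.VH.S8.PG
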