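import Pool.Agent.Lib.MP_813db1_ag.VH.S8.StL
import Pool.Agent.Lib.MP_813db1_ag.HS.AYAll
import Pool.Agent.Lib.MP_813db1_ag.HS.Sec
import Pool.Agent.Lib.MP_813db1_ag.HS.Comp
import Pool.Agent.Lib.MP_813db1_ag.HS.EndAbs

/-! Holomorphic sections from a space of sections with a spectral gap. -/

namespace Pool.Agent.Lib.MP_813db1_ag.VH.S8

open Pool.Agent.Lib.MP_813db1_ag.HS
open MeasureTheory Complex Matrix Filter Topology Set Metric
open scoped ContDiff ComplexOrder

open HS.Sec in
theorem sec0S : Sec0S := by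
  intro ι X _ _ _ _ _ _ _ M h μ a Q θ S f0 hh hμ hθ hS hH hR h1 h2 h3
  have := ((AY.volS' ι X M h hh).2 μ hμ).fin
  have hA := AY.repA' ι X M
  have hgr := AY.greenS
  obtain ⟨C, -⟩ := HS.covS ι X M (fun _ => True) fun x => by
    obtain ⟨e, h1, h2, h3⟩ := hA.center x
    exact ⟨e, h1, trivial, h2, h3⟩
  have hpd := ((hA.isK_iff h).1 hh).2
  have sm : ∀ f : S, M.CkS ∞ a f := fun f => (hS f f.2).1
  have cc : ∀ {n : ℕ} (c : Fin n → ℂ) (f : Fin n → S),
      ((∑ j, c j • f j : S) : X → ℂ) = fun x => ∑ j, c j * (f j : X → ℂ) x := fun c f => by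
    funext x
    simp [Finset.sum_apply]
  have hw : ∀ x, 0 < wt a h h x := (hgr.cont ι X M h h a 0 0 hh hh).2.2.2
  obtain ⟨p0, e0, s0, n0⟩ := exists_form (S := S) μ
    (fun f f' x => (f : X → ℂ) x * star ((f' : X → ℂ) x) * (wt a h h x : ℂ))
    (fun f f' => (hgr.cont ι X M h h a f f' hh hh).1 (ck_le (sm f) (by simp))
      (ck_le (sm f') (by simp)))
    (fun f f' f'' x => by simp only [Submodule.coe_add, Pi.add_apply]; ring)
    (fun d f f' x => by simp only [Submodule.coe_smul, Pi.smul_apply, smul_eq_mul]; ring)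
    (fun f f' x => by
      rw [star_mul', star_mul', star_star, Complex.star_def, Complex.conj_ofReal]; ring)
    (fun f x => by
      rw [Complex.star_def, Complex.mul_conj, ← Complex.ofReal_mul, Complex.ofReal_re]
      exact mul_nonneg (Complex.normSq_nonneg _) (hw x).le)
  obtain ⟨p1, e1, s1, n1⟩ := exists_form (S := S) μ
    (fun f f' x => ipV (h x) (M.shpX a h f x) (M.shpX a h f' x) * (wt a h h x : ℂ))
    (fun f f' => (hgr.cont ι X M h h a f f' hh hh).2.1 (ck_le (sm f) (by simp))
      (ck_le (sm f') (by simp)) h fun e he => (hh e he).1.1)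
    (fun f f' f'' x => by
      simp only [Submodule.coe_add, shp_add (sm f) (sm f'), ipV_add]; ring)
    (fun d f f' x => by simp only [Submodule.coe_smul, shp_smul d (sm f), ipV_smul]; ring)
    (fun f f' x => by
      rw [star_mul', ipV_st (hpd x).1, Complex.star_def, Complex.conj_ofReal])
    (fun f x => by
      rw [Complex.re_mul_ofReal]
      exact mul_nonneg (mat.nv_mono _ _ _ (hpd x).posSemidef) (hw x).le)
  have e0' : ∀ f f' : S, p0 f f' = M.ip0 μ a h h f f' := e0
  have e1' : ∀ f f' : S, p1 f f' = M.ip1 μ a h h f f' := e1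
  let B : S →ₗ[ℂ] S :=
    { toFun := fun f => ⟨M.box a h f, (hS f f.2).2.1⟩
      map_add' := fun f f' => Subtype.ext (funext fun x =>
        box_add (ck_le (sm f) (by norm_cast)) (ck_le (sm f') (by norm_cast)) x)
      map_smul' := fun d f => Subtype.ext (funext fun x =>
        box_cmul d (ck_le (sm f) (by norm_cast)) x) }
  have eB : ∀ f : S, ((B f : S) : X → ℂ) = M.box a h f := fun _ => rfl
  let Ho : Submodule ℂ S :=
    { carrier := {f | M.HolS a f}
      add_mem' := fun {f f'} hf hf' e he => by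
        have e' : M.rep a ((f + f' : S) : X → ℂ) e =
            fun z => M.rep a f e z + M.rep a f' e z := rep_add _
        rw [e']
        exact (hf e he).add (hf' e he)
      zero_mem' := fun e _ => by
        have e' : M.rep a ((0 : S) : X → ℂ) e = fun _ => 0 := rep_zero e
        rw [e']
        exact differentiableOn_const _
      smul_mem' := fun d f hf e he => by
        have e' : M.rep a ((d • f : S) : X → ℂ) e = fun z => d * M.rep a f e z :=
          rep_cmul d _
        rw [e']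
        exact (hf e he).const_mul d }
  obtain ⟨hs1, hs2, hs3, -⟩ := smo AY.repA' AY.curvS' mat ι X M C a
  obtain ⟨L, hL⟩ := hs1 h hh
  obtain ⟨C2, -, hC2⟩ := AY.lin2S ι X M h μ C a L hh hμ
  have hl2 := (hC2 h hh hL).2
  let F0 : Fin Q → S := fun j => ⟨f0 j, h1 j⟩
  choose B0 hB0 hB0' using fun j => hs2 (f0 j) (sm (F0 j))
  obtain ⟨σ, hσ1, hσ2⟩ := endAbs S p0 p1 B Ho Q 0 θ F0 hθ s0 s1 n0 n1
    (fun f f' => by
      rw [e0', e1', eB]
      exact (hgr.sec ι X M h h μ a f f' hh hh hμ (ck_le (sm f) (by norm_cast))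
        (ck_le (sm f') (by simp))).2)
    (fun η hη j => by
      obtain ⟨v, -, -, hv2, hv3⟩ := (hl2 η hη).2.2 (f0 j) (B0 j) (hs3 _ _ (hB0' j)).2
      refine ⟨⟨v, hR η hη v (hv3 (sm (F0 j))) ?_⟩, Subtype.ext (funext hv2)⟩
      rw [funext hv2]
      exact h1 j)
    (fun Q' f hf1 hf2 => not_lt.1 fun hQ => by
      have k1 := hf2 (Pi.single ⟨0, hQ⟩ 1)
      have k2 := (hS _ (f ⟨0, hQ⟩).2).2.2
      rw [← e1', hf1, ← eB, ← e0'] at k2
      simp [Pi.single_apply, apply_ite] at k1 k2
      linarith)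
    (fun i j => by rw [e0']; exact h2 i j)
    (fun d => by rw [e1', cc]; exact h3 d)
    (fun η v d hη hd hv1 hv2 hv3 => by
      have hd1 : ∀ k j, ‖d k j‖ ≤ 1 := fun k j => by
        have := Finset.single_le_sum (f := fun j => ‖d k j‖ ^ 2) (fun j _ => sq_nonneg _)
          (Finset.mem_univ j)
        rw [hd k] at this
        nlinarith [norm_nonneg (d k j)]
      have hbd : ∀ k, C.SH2 a (C2 * (∑ j, 8 * B0 j + 2)) (v k) := fun k => by
        obtain ⟨B', -, hB'⟩ := hs2 (v k) (sm (v k))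
        refine (hl2 (η k) (hη k)).1 (v k) _ B' 2 (by norm_num) hB' ?_ (by
          rw [← e0']; linarith [hv2 k])
        have e2 : ∀ x, (η k : ℂ) * (v k : X → ℂ) x - M.box a h (v k) x =
            ∑ j, ((η k : ℂ) * d k j) * f0 j x := fun x => by
          have := congrFun (congrArg Subtype.val (hv1 k)) x
          rw [Submodule.coe_smul, cc] at this
          simp only [mul_assoc, ← Finset.mul_sum]
          exact this
        refine Cov.SH.congr (Cov.SH2.sh (Cov.SH2.sum Finset.univ fun j _ => ?_)) e2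
        refine ((hB0' j).cmul _).mono ?_
        rw [norm_mul, Complex.norm_real, Real.norm_of_nonneg (hη k).1.le]
        have := mul_le_one₀ (hη k).2 (norm_nonneg _) (hd1 k j)
        nlinarith [hB0 j]
      obtain ⟨σ', 𝒰, q1, q2, -, q4⟩ := HS.comp AY.repA' AY.repB' mat cau AY.volS' ι X M h h μ C a _
        (fun k => v k) hh hh hμ hbd (by simpa only [← e1'] using hv3)
      refine ⟨⟨σ', hH _ q2 q1⟩, q1, fun δ hδ => ?_⟩
      obtain ⟨k, hk⟩ := (q4.eventually (gt_mem_nhds hδ)).exists
      exact ⟨k, by rw [e0']; exact hk⟩)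
  exact ⟨fun j => σ j, hσ1, hσ2.map' S.subtype (Submodule.ker_subtype _)⟩

end Pool.Agent.Lib.MP_813db1_ag.VH.S8
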