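import Pool.Agent.Lib.MP_813db1_ag.VH.S8.StL
import Pool.Agent.Lib.MP_813db1_ag.HS.ProdLoc
import Pool.Agent.Lib.MP_813db1_ag.HS.Frob

/-! Straightening of the leaves. -/

namespace Pool.Agent.Lib.MP_813db1_ag.VH.S8

open Pool.Agent.Lib.MP_813db1_ag.HS Pool.Agent.Lib.MP_813db1_ag.AS
open Complex Matrix Filter Topology Set Metric
open scoped ContDiff ComplexOrder

namespace StrA

variable {ι α β γ r σ : Type} [Fintype ι] [DecidableEq ι] {z : V ι}

omit [DecidableEq ι] in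
theorem dF_congr {F F' : V ι → Matrix α β ℂ} (h : F =ᶠ[𝓝 z] F') (v : V ι) :
    dF F z v = dF F' z v := by
  ext i j
  simp only [dF, of_apply]
  rw [EventuallyEq.fderiv_eq (h.mono fun _ e => congrFun₂ e i j)]

omit [DecidableEq ι] in
theorem dF_const (A : Matrix α β ℂ) (v : V ι) : dF (fun _ => A) z v = 0 := by
  ext i j
  simp [dF]

omit [DecidableEq ι] in
theorem dF_mul [Fintype β] {F : V ι → Matrix α β ℂ} {K : V ι → Matrix β γ ℂ} (h : DfR F z)
    (h' : DfR K z) (v : V ι) :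
    dF (fun w => F w * K w) z v = dF F z v * K z + F z * dF K z v := by
  ext i j
  simp only [dF, of_apply, mul_apply, Matrix.add_apply, ← Finset.sum_add_distrib]
  rw [fderiv_fun_sum fun a _ => (h i a).fun_mul (h' a j), _root_.sum_apply]
  refine Finset.sum_congr rfl fun a _ => ?_
  rw [fderiv_fun_mul (h i a) (h' a j)]
  simp only [_root_.add_apply, _root_.smul_apply, smul_eq_mul]
  ring

omit [DecidableEq ι] in
theorem dF_subc (F : V ι → Matrix α β ℂ) (A : Matrix α β ℂ) (v : V ι) :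
    dF (fun w => F w - A) z v = dF F z v := by
  ext i j
  simp only [dF, of_apply, Matrix.sub_apply, fderiv_sub_const]

theorem dF_hol {F : V ι → Matrix α β ℂ} (h : AnM F z) (v : V ι) :
    ∑ k, v k • dR F k z = dF F z v := by
  ext i j
  simp only [dF, of_apply, Matrix.sum_apply, Matrix.smul_apply, dR_apply, smul_eq_mul,
    fderiv_eq_dz, dzb_hol (h i j).differentiableAt, zero_mul, add_zero, mul_comm]

omit [DecidableEq ι] in
theorem AnM.df {F : V ι → Matrix α β ℂ} (h : AnM F z) : DfR F z :=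
  fun i j => (h i j).differentiableAt.restrictScalars ℝ

theorem dF_comp {F : V ι → Matrix α β ℂ} {T : V ι → V ι} (h : DfR F (T z))
    (hT : DifferentiableAt ℂ T z) (v : V ι) :
    dF (F ∘ T) z v = dF F (T z) (fderiv ℂ T z v) := by
  ext i j
  simp only [dF, of_apply]
  rw [← fderiv_hol hT]
  exact congrArg (· v) (fderiv_comp z (h i j) (hT.restrictScalars ℝ))

variable [Fintype r] [DecidableEq r] [Fintype σ] [DecidableEq σ] {Q : Mat r} {L : Matrix r σ ℂ}

theorem mu_unit {H : Mat r} {G : Mat ι} {D : Matrix r ι ℂ} (h : Pt Q L H G D) :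
    IsUnit (muM L H).det := by
  have := h.zdw
  simp only [zM, Matrix.mul_assoc] at this
  exact (isUnit_iff_isUnit_det _).1 (isUnit_nonsing_inv_iff.1 (IsUnit.of_mul_eq_one _ this))

omit [DecidableEq r] in
theorem dZ {H : V ι → Mat r} (hH : DfR H z) (hZ : DfR (fun w => zM Q L (H w)) z)
    (hu : ∀ᶠ w in 𝓝 z, IsUnit (muM L (H w)).det) {v : V ι} (h0 : dF H z v = 0) :
    dF (fun w => zM Q L (H w)) z v = 0 := by
  have h1 : (fun w => Lᵀ * H w * L * zM Q L (H w)) =ᶠ[𝓝 z] fun w => Lᵀ * H w - Lᵀ * (I • Q) :=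
    hu.mono fun w hw => by
      show muM L (H w) * zM Q L (H w) = Lᵀ * H w - Lᵀ * (I • Q)
      rw [zM, Matrix.mul_assoc, mul_nonsing_inv_cancel_left _ _ hw, Matrix.mul_sub]
  have h2 := dF_congr h1 v
  have a := (DfR.const Lᵀ).mul hH
  rw [dF_subc, dF_mul (a.mul (DfR.const L)) hZ, dF_mul a (DfR.const L), dF_mul (DfR.const _) hH,
    h0, dF_const, dF_const] at h2
  simp only [Matrix.zero_mul, Matrix.mul_zero, add_zero, zero_add] at h2
  rw [← nonsing_inv_mul_cancel_left _ (dF _ z v) hu.self_of_nhds, muM, h2, Matrix.mul_zero]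

omit [DecidableEq r] [DecidableEq σ] in
theorem dZx {F : V ι → Matrix σ r ℂ} {x : V ι → V r} (hF : AnM F z) (hx : DfV x z)
    (hZ : AnalyticAt ℂ (fun w => F w *ᵥ x w) z) (v : V ι) :
    fderiv ℂ (fun w => F w *ᵥ x w) z v = dF F z v *ᵥ x z + (F z * dX x z) *ᵥ v := by
  have e : ∀ k, fderiv ℂ (fun w => F w *ᵥ x w) z (Pi.single k 1) =
      dV (fun w => F w *ᵥ x w) k z := fun k => funext fun i => by
    rw [dV, dz_hol (differentiableAt_pi.1 hZ.differentiableAt i), fderiv_apply hZ.differentiableAt]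
    rfl
  have e2 : dX x z *ᵥ v = ∑ k, v k • dV x k z := by
    funext a
    simp only [dX, mulVec, dotProduct, of_apply, Finset.sum_apply, Pi.smul_apply, smul_eq_mul,
      mul_comm]
  rw [ProdLoc.cdecomp, ← dF_hol hF, ← mulVec_mulVec, e2]
  simp only [e, dV_mulVec (AnM.df hF) hx, smul_add, Finset.sum_add_distrib, sum_mulVec,
    smul_mulVec, mulVec_sum, mulVec_smul]

end StrA

variable {ι X Y G r : Type} [Fintype ι] [DecidableEq ι] [TopologicalSpace X] [TopologicalSpace Y]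
  [Group G] [MulAction G Y] [Fintype r] [DecidableEq r] {M : Atl ι X} {p : Y → X}
  {E : Dt M p G r} {Q : Mat r} {c : G → V r} {x : Y → V r} {h ξ : X → Mat ι}

open StrA in
theorem strS (hq : IsQuotientCoveringMap p G) (hS : E.Spl Q c x h ξ) (h1 : PlS E Q x h ξ)
    (h2 : HolS8 E Q x h) (h3 : ComS8 E Q x h) (h4 : PbS M) : StrS E Q x h ξ := by
  intro s L hL q
  have hp := lh hq
  obtain ⟨e, he, z, hz, t, ht, rfl⟩ := sec_ex hp M q
  have k1 := (h1 _ L hL).ev hp he hz ht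
  have k2 := (h2 _ L hL).ev hp he hz ht
  have k3 := Loc.ev h3 hp he hz ht
  have k4 := Loc.ev E.sm hp he hz ht
  have k5 := Loc.ev hS.aff.1 hp he hz ht
  obtain ⟨W, hW⟩ : ∃ W : V ι → Matrix ι r ℂ,
    W = fun w => vX Q (M.repF h e w) (dX (x ∘ t) w) := ⟨_, rfl⟩
  obtain ⟨Z, hZ⟩ : ∃ Z : V ι → V (Sg' s), Z = fun w => zM Q L (E.H (t w)) *ᵥ x (t w) := ⟨_, rfl⟩
  have aW : AnM W z := hW ▸ k2.self_of_nhds.1
  have aZ : AnalyticAt ℂ Z z := hZ ▸ k2.self_of_nhds.2.2
  obtain ⟨Ψ, hΨ, hP⟩ := ProdLoc.flow frob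
    (fun (a : Sg' s) w => W w *ᵥ (L *ᵥ Pi.single a 1)) z
    (fun a => analyticAt_pi_iff.2 fun i =>
      Finset.analyticAt_fun_sum _ fun j _ => (aW i j).mul analyticAt_const)
    (k3.mono fun w hw a b => by
      rw [hW]
      exact (hw _).2 _)
  obtain ⟨Θ, a1, a2, a3, a4⟩ := ProdLoc.box s (Z := fun w => Z w - Z z)
    (e := fun (a : Sg' s) w => W w *ᵥ (L *ᵥ Pi.single a 1))
    (aZ.sub analyticAt_const) (sub_self _) hΨ hP (by
      filter_upwards [k1, k1.eventually_nhds, k2, k3, k4, k5] with w b1 b1' b2 b3 b4 b5 b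
      rw [fderiv_sub_const, hZ, hW]
      refine (dZx (x := x ∘ t) b2.2.1 (smV_iff.2 b5).df b2.2.2 _).trans ?_
      have e0 : dF (fun w => zM Q L (E.H (t w))) w _ = 0 := dZ (H := E.H ∘ t) b4.df (AnM.df b2.2.1)
        (b1'.mono fun u hu => mu_unit hu.2.1) (b3 (L *ᵥ Pi.single b 1)).1
      rw [e0, zero_mulVec, zero_add, mulVec_mulVec, mulVec_mulVec, Matrix.mul_assoc, b1.2.1.zdw,
        one_mulVec])
  have tΘ : Tendsto Θ (𝓝 0) (𝓝 z) := a2 ▸ a1.continuousAt.tendsto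
  have a5 : ∀ᶠ w in 𝓝 (0 : V ι), Z (Θ w) - Z z = zp s w := by
    let zL : V ι →L[ℂ] V (Sg' s) := ContinuousLinearMap.pi fun i => ContinuousLinearMap.proj i.1
    obtain ⟨ε, hε, H⟩ := Metric.eventually_nhds_iff_ball.1
      ((a4.and a1.eventually_analyticAt).and (tΘ.eventually aZ.eventually_analyticAt))
    have hd : ∀ w ∈ ball (0 : V ι) ε, HasFDerivAt (fun w => Z (Θ w) - Z z) zL w := fun w hw => by
      obtain ⟨⟨b1, b2⟩, b3⟩ := H w hw
      refine ((HasFDerivAt.comp (f := Θ) w b3.differentiableAt.hasFDerivAt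
        b2.differentiableAt.hasFDerivAt).sub_const _).congr_fderiv ?_
      ext1 v
      have := b1.2 v
      rw [fderiv_sub_const] at this
      exact this
    refine Metric.eventually_nhds_iff_ball.2 ⟨ε, hε, fun w hw => ?_⟩
    exact isOpen_ball.eqOn_of_fderiv_eq (𝕜 := ℂ) (g := zL) (convex_ball _ _).isPreconnected
      (fun w hw => (hd w hw).differentiableAt.differentiableWithinAt)
      zL.differentiable.differentiableOn (fun w hw => (hd w hw).fderiv.trans zL.fderiv.symm)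
      (mem_ball_self hε) (by simp [a2]) hw
  obtain ⟨w₀, h0⟩ : ∃ w₀, w₀ = glue s (Z z) 0 := ⟨_, rfl⟩
  obtain ⟨T, hT⟩ : ∃ T : V ι → V ι, T = fun w => Θ (w - w₀) := ⟨_, rfl⟩
  have T0 : T w₀ = z := by rw [hT]; simp only [sub_self, a2]
  have aT : AnalyticAt ℂ T w₀ :=
    hT ▸ a1.comp_of_eq (analyticAt_id.sub analyticAt_const) (sub_self _)
  have dT : ∀ w, fderiv ℂ T w = fderiv ℂ Θ (w - w₀) := fun w => hT ▸ fderiv_comp_sub w₀
  have tT : Tendsto T (𝓝 w₀) (𝓝 z) := T0 ▸ aT.continuousAt.tendsto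
  have tS : Tendsto (fun w => w - w₀) (𝓝 w₀) (𝓝 0) :=
    sub_self w₀ ▸ (continuous_sub_right w₀).tendsto w₀
  obtain ⟨e', he', hw₀, ee⟩ := (h4.comp (e.symm ∘ T) e.symm T w₀ ⟨e, he, T0 ▸ hz, .rfl⟩ aT
    .rfl).2.2 (by rwa [jac, dT, sub_self])
  refine ⟨e', he', w₀, hw₀, t ∘ T, ⟨(T0 ▸ ht.1 : ContinuousAt t (T w₀)).comp aT.continuousAt, ?_⟩,
    congrArg t T0, ?_, ?_⟩
  · filter_upwards [ee, tT.eventually ht.2] with w b1 b2
    exact b2.trans b1.symm
  · funext i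
    simp [h0, yp, glue, i.2]
  filter_upwards [tS.eventually a4, tS.eventually a5, tT.eventually k1, tT.eventually k3,
    tT.eventually k4, aT.eventually_analyticAt, (h4.rep e' he' w₀ hw₀ _ ee).2 h,
    (h4.rep e' he' w₀ hw₀ _ ee).2 ξ, tT.eventually (e.open_target.mem_nhds hz)]
    with w b1 b2 b3 b4 b5 b6 b7 b8 b9
  have c1 : ∀ a : Sg' s, fderiv ℂ T w (Pi.single a.1 1) = W (T w) *ᵥ (L *ᵥ Pi.single a 1) :=
    fun a => by
    rw [dT, b1.1 a, hT]
  refine ⟨?_, fun a ha => ⟨fun τ => ?_, fun j => ?_⟩⟩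
  · have : Z (T w) = zp s w := by
      rw [hT, sub_eq_iff_eq_add.1 b2]
      funext i
      simp [h0, zp, glue, i.2]
    rwa [hZ] at this
  · have e1 : (Pi.single a τ : V ι) = τ • Pi.single a 1 := by
      rw [← Pi.single_smul', smul_eq_mul, mul_one]
    rw [← Function.comp_assoc, dF_comp b5.df b6.differentiableAt, e1, map_smul, c1 ⟨a, ha⟩,
      ← mulVec_smul, hW]
    exact (b4 _).1
  · have e1 := (h4.comp (e.symm ∘ T) e.symm T w ⟨e, he, b9, .rfl⟩ b6 .rfl).2.1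
    have e2 := fun B => ((h4.rep e he _ b9 _ .rfl).2 B).self_of_nhds
    have e3 : ∀ k, ((jac T w)ᵀ * (M.repF h e (T w) - M.repF ξ e (T w))) a k = 0 := fun k => by
      have e4 : (W (T w) *ᵥ (L *ᵥ Pi.single ⟨a, ha⟩ 1)) ᵥ*
          (M.repF h e (T w) - M.repF ξ e (T w)) = 0 := by
        rw [← vecMul_transpose, vecMul_vecMul, b3.2.2, hW, b3.2.1.ker, vecMul_zero]
      rw [← c1] at e4
      exact congrFun e4 k
    rw [b7, b8, e1, e1, ← e2, ← e2, pull, pull, ← Matrix.sub_mul, ← Matrix.mul_sub, mul_apply]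
    simp only [e3, zero_mul, Finset.sum_const_zero]

end Pool.Agent.Lib.MP_813db1_ag.VH.S8
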