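import Pool.Agent.Lib.MP_813db1_ag.VH.S8.PG

/-! A ball of leaves without holonomy; the case of one leaf. -/

namespace Pool.Agent.Lib.MP_813db1_ag.VH.S8.PG

open Set Filter Topology Metric

variable {G F W : Type} [Group G] [NormedAddCommGroup F] [NormedSpace ℝ F]
  [NormedAddCommGroup W] [NormedSpace ℂ W] [NormedSpace ℝ W] {P : PG G F W}

theorem TubeAux.shrink (hA : P.AllS) {k : P.κ} {S : Set G} (hS : S.Finite)
    {O : Set W} (h1 : IsOpen O) (h2 : O.Nonempty) (h3 : O ⊆ P.B k) :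
    ∃ O' ⊆ O, IsOpen O' ∧ O'.Nonempty ∧ ∀ γ ∈ S, ∀ y ∈ O', ∀ y' ∈ O', P.Rel k k γ y y' →
      P.Fx γ := by
  induction S, hS using Set.Finite.induction_on with
  | empty => exact ⟨O, Subset.rfl, h1, h2, fun _ h => h.elim⟩
  | @insert γ S _ _ ih =>
    obtain ⟨O', a1, a2, ⟨y, hy⟩, a4⟩ := ih
    by_cases hγ : P.Fx γ
    · exact ⟨O', a1, a2, ⟨y, hy⟩, forall_mem_insert.2 ⟨fun _ _ _ _ _ => hγ, a4⟩⟩
    obtain ⟨y0, hy0, hn⟩ : ∃ y0 ∈ O', ¬ P.Rel k k γ y0 y0 := by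
      by_contra hc
      push Not at hc
      exact hγ (by simpa using hA k γ y (mem_of_superset (a2.mem_nhds hy) hc) 1)
    have he : ∀ᶠ q : W × W in 𝓝 (y0, y0), ¬ P.Rel k k γ q.1 q.2 := by
      by_contra hc
      exact hn (P.clos (h3 (a1 hy0)) (h3 (a1 hy0)) hc)
    obtain ⟨ε, hε, hb⟩ := Metric.eventually_nhds_iff_ball.1 he
    refine ⟨O' ∩ ball y0 ε, inter_subset_left.trans a1, a2.inter isOpen_ball,
      ⟨y0, hy0, mem_ball_self hε⟩, forall_mem_insert.2 ⟨fun u hu u' hu' hr => ?_,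
        fun δ hδ u hu u' hu' => a4 δ hδ u hu.1 u' hu'.1⟩⟩
    exact (hb (u, u') (by rw [← ball_prod_same]; exact ⟨hu.2, hu'.2⟩) hr).elim

theorem tubeS (hA : P.AllS) : P.TubeS := by
  intro N hL k O h1 ⟨y1, hy1⟩ h3
  obtain ⟨R, hR⟩ := hL.cpt
  obtain ⟨R1, q1, q2⟩ := exists_between (show dist y1 (P.yc k) < P.yr k from h3 hy1)
  obtain ⟨O', a1, a2, ⟨y₀, hy₀⟩, a4⟩ := TubeAux.shrink hA (P.disc k k R1 R1 R q2 q2)
    (h1.inter isOpen_ball) ⟨y1, hy1, q1⟩ (inter_subset_left.trans h3)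
  obtain ⟨ρ, hρ, hb⟩ := nhds_basis_closedBall.mem_iff.1 (a2.mem_nhds hy₀)
  have hO : closedBall y₀ ρ ⊆ O := hb.trans (a1.trans inter_subset_left)
  refine ⟨y₀, ρ, hO, hρ, hO.trans h3, fun γ y hy y' hy' h => ?_⟩
  obtain ⟨t, t1, t2, t3⟩ := hR (P.c γ)
  have hy1 := hb (ball_subset_closedBall hy)
  have hy2 := hb (ball_subset_closedBall hy')
  have h4 := P.trans h (t1 k _ (P.mem h).2)
  have h5 := a4 _ ⟨by rw [P.coc, t2, add_comm]; exact t3, y,
    ball_subset_closedBall (a1 hy1).2, y', ball_subset_closedBall (a1 hy2).2, h4⟩ y hy1 y' hy2 h4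
  simpa using t1.inv.mul h5

theorem abS : P.AbS := by
  intro hW
  have hall : ∀ γ, P.Fx γ := fun γ k y hy =>
    P.conn (fun l δ => P.Rel l k δ y y) (fun l l' α δ u u' h h' => by
      have := P.trans (P.symm h) (show P.Rel l k (α * δ) u y by rwa [Subsingleton.elim u y])
      rwa [mul_inv_cancel_right, Subsingleton.elim u' y] at this) k 1 k γ (P.refl hy)
  refine ⟨fun k => ⟨1, one_pos, fun γ _ _ => hall γ k⟩, fun N hL => ⟨P.A.ker, ?_, ?_⟩⟩
  · obtain ⟨k⟩ := P.ne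
    obtain ⟨R, hR⟩ := hL.cpt
    have hf := (P.disc k k 0 0 R (P.pos k) (P.pos k)).image (fun γ : G => (γ : G ⧸ P.A.ker))
    have : Finite (G ⧸ P.A.ker) := by
      refine Set.finite_univ_iff.1 (hf.subset fun q _ => ?_)
      obtain ⟨γ, rfl⟩ := QuotientGroup.mk_surjective q
      obtain ⟨t, -, t2, t3⟩ := hR (P.c γ)
      refine ⟨t * γ, ⟨by rw [P.coc, t2, add_comm]; exact t3, _, mem_closedBall_self le_rfl, _,
        mem_closedBall_self le_rfl, hall _ k _ (yc_mem k)⟩, QuotientGroup.eq.2 ?_⟩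
      rw [MonoidHom.mem_ker, map_mul, show P.A γ = P.A (t * γ) by rw [map_mul, t2, one_mul],
        A_inv_mul]
    exact Subgroup.finiteIndex_of_finite_quotient
  · intro a ha b hb
    obtain ⟨k⟩ := P.ne
    have h1 : (b * a)⁻¹ ∈ P.A.ker := inv_mem (mul_mem hb ha)
    have h2 : (b * a)⁻¹ * (a * b) = 1 := by
      refine P.faith (hall _ k _ (yc_mem k)) (mul_mem h1 (mul_mem ha hb)) ?_
      rw [MonoidHom.mem_ker] at ha hb h1
      rw [P.coc, c_inv, h1, P.coc, P.coc, ha, hb]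
      simp only [ContinuousLinearMap.one_apply]
      abel
    exact (inv_mul_eq_one.1 h2).symm

end Pool.Agent.Lib.MP_813db1_ag.VH.S8.PG
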