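import Pool.Agent.Lib.MP_813db1_ag.VH.S8.PG
import Pool.Agent.Lib.MP_813db1_ag.HS.E.Jet
import Pool.Agent.Lib.MP_813db1_ag.HS.E.Gron

/-! Uniform domains of the holonomy maps, and extension of small holonomy. -/

namespace Pool.Agent.Lib.MP_813db1_ag.VH.S8.PG

open Pool.Agent.Lib.MP_813db1_ag.HS.E (jet gron)
open Set Filter Topology Metric

variable {G F W : Type} [Group G] [NormedAddCommGroup F] [NormedSpace ℝ F]
  [NormedAddCommGroup W] [NormedSpace ℂ W] [NormedSpace ℝ W] {P : PG G F W}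

theorem allS (hE : P.ExtS) : P.AllS := by
  intro k γ y h δ l
  have := P.conn (fun k ε => P.Fk k (ε⁻¹ * γ * ε)) (fun k l ε δ y y' hr ht => ?_) k 1 l δ⁻¹
    (by simpa using fix_all hE h)
  · rwa [inv_inv] at this
  · refine fix_all (y := y') hE ((loc' (P.symm hr)).2.mono fun w hw => ?_)
    have := P.trans (P.trans hw (ht _ (P.mem hw).2)) (P.symm hw)
    rwa [show δ⁻¹⁻¹ * ((ε * δ)⁻¹ * γ * (ε * δ) * δ⁻¹) = ε⁻¹ * γ * ε by group] at this

variable [FiniteDimensional ℂ W]

theorem unifS : P.UnifS := by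
  intro k l R R' hR hR'
  have : ProperSpace W := FiniteDimensional.proper ℂ W
  obtain ⟨R1, hR1, hR2⟩ := exists_between hR
  obtain ⟨S1, hS1, hS2⟩ := exists_between hR'
  obtain ⟨C, hC, hb⟩ := (P.met k).iso_bound (P.met l) hR2 hS2
  have hC1 : 0 < C + 1 := by linarith
  refine ⟨min (R1 - R) ((S1 - R') / (C + 1)), lt_min (by linarith) (div_pos (by linarith) hC1),
    C, hC, fun γ y hy y' hy' h => ?_⟩
  set ρ := min (R1 - R) ((S1 - R') / (C + 1)) with hρ
  have m1 : ∀ w ∈ ball y ρ, w ∈ closedBall (P.yc k) R1 := fun w hw => by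
    have a1 := (mem_ball.1 hw).trans_le (min_le_left _ _)
    have a2 := mem_closedBall.1 hy
    have a3 := dist_triangle w y (P.yc k)
    rw [mem_closedBall]
    linarith
  have m2 : ∀ w ∈ ball y ρ, ∀ v, ‖v - y'‖ ≤ (C + 1) * ‖w - y‖ → v ∈ closedBall (P.yc l) S1 :=
    fun w hw v hv => by
      have a1 := (lt_div_iff₀' hC1).1 ((mem_ball.1 hw).trans_le (min_le_right _ _))
      have a2 := mem_closedBall.1 hy'
      have a3 := dist_triangle v y' (P.yc l)
      rw [dist_eq_norm] at a1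
      rw [dist_eq_norm v y'] at a3
      rw [mem_closedBall]
      linarith
  have key : ∀ w ∈ ball y ρ, P.Rel k l γ w (P.rm k l γ w) ∧
      ‖P.rm k l γ w - y'‖ ≤ (C + 1) * ‖w - y‖ := by
    intro w hw
    have hy0 : y ∈ ball y ρ := mem_ball_self (dist_nonneg.trans_lt hw)
    set p : ℝ → W := fun t => y + t • (w - y) with hp
    have pc : Continuous p := by fun_prop
    have pm : ∀ t ∈ Icc (0 : ℝ) 1, p t ∈ ball y ρ := fun t ht =>
      (convex_ball y ρ).add_smul_sub_mem hy0 hw ht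
    have pn : ∀ t ∈ Icc (0 : ℝ) 1, (C + 1) * (t * ‖w - y‖) ≤ (C + 1) * ‖w - y‖ := fun t ht =>
      mul_le_mul_of_nonneg_left (mul_le_of_le_one_left (norm_nonneg _) ht.2) hC1.le
    have hs : Icc (0 : ℝ) 1 ⊆ {t | P.Rel k l γ (p t) (P.rm k l γ (p t)) ∧
        ‖P.rm k l γ (p t) - y'‖ ≤ (C + 1) * (t * ‖w - y‖)} := by
      refine IsClosed.Icc_subset_of_forall_mem_nhdsWithin ?_ ?_ ?_
      · refine isClosed_iff_ultrafilter.2 fun t u hu hm => ?_
        have ht : t ∈ Icc (0 : ℝ) 1 :=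
          isClosed_iff_ultrafilter.1 isClosed_Icc t u hu (mem_of_superset hm inter_subset_right)
        obtain ⟨v, hv, hlim⟩ := (isCompact_closedBall y' ((C + 1) * ‖w - y‖)).ultrafilter_le_nhds
          (u.map fun τ => P.rm k l γ (p τ)) (le_principal_iff.2 (mem_map.2 (mem_of_superset hm
            fun τ hτ => mem_closedBall_iff_norm.2 (hτ.1.2.trans (pn τ hτ.2)))))
        have hlim' : Tendsto (fun τ => P.rm k l γ (p τ)) u (𝓝 v) := hlim
        have hr : P.Rel k l γ (p t) v := closed (𝓕 := u) (pc.continuousAt.tendsto.mono_left hu)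
          hlim' (closedBall_subset_ball hR2 (m1 _ (pm t ht)))
          (closedBall_subset_ball hS2 (m2 w hw v (mem_closedBall_iff_norm.1 hv)))
          (mem_of_superset hm fun τ hτ => hτ.1.1)
        refine ⟨⟨rel_rm hr, ?_⟩, ht⟩
        rw [rm_eq hr]
        have c2 : Continuous fun τ : ℝ => (C + 1) * (τ * ‖w - y‖) := by fun_prop
        exact le_of_tendsto_of_tendsto (hlim'.sub_const y').norm
          (c2.continuousAt.tendsto.mono_left hu) (mem_of_superset hm fun τ hτ => hτ.1.2)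
      · have e : p 0 = y := by simp [hp]
        refine ⟨by rw [e]; exact rel_rm h, ?_⟩
        rw [e, rm_eq h]
        simp
      · rintro t ⟨⟨h1, h2⟩, ht⟩
        have ht' := Ico_subset_Icc_self ht
        obtain ⟨l1, l2⟩ := loc' h1
        have b1 := (hb _ _ (m1 _ (pm t ht')) (m2 w hw _ (h2.trans (pn t ht'))) l1).1
        have b2 := l1.diff.hasFDerivAt.isLittleO.bound one_pos
        filter_upwards [nhdsWithin_le_nhds (pc.continuousAt.eventually (l2.and b2)),
          self_mem_nhdsWithin] with τ hτ hgt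
        refine ⟨hτ.1, ?_⟩
        have e : ‖p τ - p t‖ = (τ - t) * ‖w - y‖ := by
          rw [hp]
          simp only [add_sub_add_left_eq_sub, ← sub_smul]
          rw [norm_smul, Real.norm_of_nonneg (sub_nonneg.2 (le_of_lt hgt))]
        have b3 := ((fderiv ℂ (P.rm k l γ) (p t)).le_opNorm (p τ - p t)).trans
          (mul_le_mul_of_nonneg_right b1 (norm_nonneg _))
        have b4 := hτ.2
        have b5 := norm_add₃_le (a := P.rm k l γ (p τ) - P.rm k l γ (p t) -
          fderiv ℂ (P.rm k l γ) (p t) (p τ - p t))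
          (b := fderiv ℂ (P.rm k l γ) (p t) (p τ - p t)) (c := P.rm k l γ (p t) - y')
        rw [sub_add_cancel, sub_add_sub_cancel] at b5
        rw [e] at b3 b4
        linarith
    have := hs (right_mem_Icc.2 zero_le_one)
    simpa [hp] using this
  refine ⟨fun w hw => (key w hw).1, fun w hw w' hw' => ?_⟩
  exact (convex_ball y ρ).norm_image_sub_le_of_norm_fderiv_le (𝕜 := ℂ)
    (fun x hx => (liso (key x hx).1).diff)
    (fun x hx => (hb _ _ (m1 x hx) (m2 x hx _ (key x hx).2) (liso (key x hx).1)).1) hw' hw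

theorem extS [IsScalarTower ℝ ℂ W] (hU : P.UnifS) : P.ExtS := by
  intro k y₀ ρ R hρ hsub hR
  obtain ⟨d, hd, hRd⟩ : ∃ d, 0 < d ∧ R + d < P.yr k := ⟨(P.yr k - R) / 2, by linarith, by linarith⟩
  obtain ⟨K, hK, hJ, -⟩ := jet (P.g k) (P.yc k) (R + d) (P.yr k) hRd (P.met k)
  obtain ⟨C0, hC0, hG⟩ := gron (Y := W) K (2 * R) hK
  obtain ⟨ρU, hρU, CU, hCU, hU⟩ := hU k k R (R + d) hR hRd
  have hy₀ : y₀ ∈ closedBall (P.yc k) R := hsub (mem_ball_self hρ)
  have hC : 1 ≤ C0 * (1 + 4 / ρ) :=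
    one_le_mul_of_one_le_of_one_le hC0 (le_add_of_nonneg_right (by positivity))
  set C := C0 * (1 + 4 / ρ) with hCd
  refine ⟨d / 2 / C, by positivity, C, hC, fun γ δ hδ hη hS => ?_⟩
  have hCδ : C * δ ≤ d / 2 := by rwa [le_div_iff₀ (by positivity), mul_comm] at hη
  set φ := P.rm k k γ
  let S : Set W := {w | P.Rel k k γ w (φ w) ∧ ‖φ w - w‖ ≤ d}
  have tri : ∀ w ∈ closedBall (P.yc k) R, ‖φ w - w‖ ≤ d → φ w ∈ closedBall (P.yc k) (R + d) :=
    fun w hw h => by
      rw [mem_closedBall_iff_norm] at hw ⊢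
      linarith [norm_sub_le_norm_sub_add_norm_sub (φ w) w (P.yc k)]
  have d0 : ‖fderiv ℂ (fun w => φ w - w) y₀‖ ≤ 2 * δ / ρ := by
    refine Complex.norm_fderiv_le_div_of_mapsTo_ball (c := y₀)
      ((hS.diff).sub differentiableOn_id) (fun x hx => ?_) hρ
    rw [mem_closedBall_iff_norm]
    have h1 := (hS.rm hx).2
    have h2 := (hS.rm (mem_ball_self hρ)).2
    exact (norm_sub_le _ _).trans (by linarith)
  have key : ∀ w ∈ closedBall (P.yc k) R, segment ℝ y₀ w ⊆ S → ‖φ w - w‖ ≤ C * δ := by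
    intro w hw hs
    have h1 := hG (fun w => φ w - w) y₀ w (by
      rw [mem_closedBall_iff_norm] at hw hy₀
      have := norm_sub_le_norm_sub_add_norm_sub w (P.yc k) y₀
      rw [norm_sub_rev (P.yc k)] at this
      linarith) fun y hy => by
      have hl := liso (hs hy).1
      have hyR := (convex_closedBall (P.yc k) R).segment_subset hy₀ hw hy
      have e : fderiv ℂ (fun w => φ w - w) =ᶠ[𝓝 y] fun w => fderiv ℂ φ w - 1 := by
        filter_upwards [hl] with x hx
        exact (hx.1.hasFDerivAt.sub (hasFDerivAt_id x)).fderiv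
      refine ⟨hl.mono fun x hx => hx.1.sub differentiableAt_id, ?_⟩
      rw [e.fderiv_eq, e.self_of_nhds, fderiv_sub_const]
      exact hJ φ y (closedBall_subset_closedBall (by linarith) hyR) (tri y hyR (hs hy).2) hl
    have h2 := (hS.rm (mem_ball_self hρ)).2
    have h3 := norm_nonneg (fderiv ℂ (fun w => φ w - w) w)
    have h4 : ‖φ y₀ - y₀‖ + ‖fderiv ℂ (fun w => φ w - w) y₀‖ ≤ (1 + 4 / ρ) * δ := by
      have : 2 * δ / ρ ≤ 4 / ρ * δ := by
        rw [div_mul_eq_mul_div]
        exact div_le_div_of_nonneg_right (by linarith) hρ.le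
      linarith
    have h5 := mul_le_mul_of_nonneg_left h4 (zero_le_one.trans hC0)
    rw [hCd, mul_assoc]
    linarith
  obtain ⟨σ, hσ, hσ1, hσ2⟩ : ∃ σ, 0 < σ ∧ σ ≤ ρU ∧ (CU + 1) * σ ≤ d / 2 :=
    ⟨min ρU (d / 2 / (CU + 1)), by positivity, min_le_left _ _, by
      rw [mul_comm, ← le_div_iff₀ (by positivity)]; exact min_le_right _ _⟩
  have step : ∀ w ∈ closedBall (P.yc k) R, P.Rel k k γ w (φ w) → ‖φ w - w‖ ≤ d / 2 →
      ball w σ ⊆ S := fun w hw hr hn x hx => by
    obtain ⟨h1, h2⟩ := hU γ w hw (φ w) (tri w hw (by linarith)) hr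
    have hx' := ball_subset_ball hσ1 hx
    refine ⟨h1 x hx', ?_⟩
    have h3 := h2 x hx' w (mem_ball_self hρU)
    have h4 : ‖x - w‖ ≤ σ := (mem_ball_iff_norm.1 hx).le
    have h5 : φ x - x = (φ x - φ w) + (φ w - w) - (x - w) := by abel
    have h6 := norm_sub_le ((φ x - φ w) + (φ w - w)) (x - w)
    have h7 := norm_add_le (φ x - φ w) (φ w - w)
    rw [h5]
    nlinarith
  have seg : ∀ r, (∀ w ∈ closedBall (P.yc k) R, ‖w - y₀‖ ≤ r → w ∈ S) →
      ∀ w ∈ closedBall (P.yc k) R, ‖w - y₀‖ ≤ r → segment ℝ y₀ w ⊆ S := fun r h w hw hr x hx =>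
    h x ((convex_closedBall (P.yc k) R).segment_subset hy₀ hw hx)
      (mem_closedBall_iff_norm.1 ((convex_closedBall y₀ r).segment_subset
        (mem_closedBall_self ((norm_nonneg _).trans hr)) (mem_closedBall_iff_norm.2 hr) hx))
  have ind : ∀ n : ℕ, ∀ w ∈ closedBall (P.yc k) R, ‖w - y₀‖ ≤ n * (σ / 2) → w ∈ S := by
    intro n
    induction n with
    | zero =>
      intro w _ h
      rw [Nat.cast_zero, zero_mul, norm_le_zero_iff, sub_eq_zero] at h
      have := hS.rm (mem_ball_self hρ)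
      rw [h]
      exact ⟨this.1, this.2.trans (by nlinarith)⟩
    | succ n ih =>
      intro w hw h
      push_cast at h
      have n0 : (0 : ℝ) < n + 1 := by positivity
      have t0 : (0 : ℝ) ≤ n / (n + 1) := by positivity
      have t1 : (n : ℝ) / (n + 1) ≤ 1 := by rw [div_le_one n0]; linarith
      set x := y₀ + ((n : ℝ) / (n + 1)) • (w - y₀) with hx
      have h1 : x ∈ closedBall (P.yc k) R :=
        (convex_closedBall (P.yc k) R).add_smul_sub_mem hy₀ hw ⟨t0, t1⟩
      have h2 : ‖x - y₀‖ ≤ n * (σ / 2) := by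
        rw [hx, add_sub_cancel_left, norm_smul, Real.norm_of_nonneg t0, div_mul_eq_mul_div,
          div_le_iff₀ n0]
        have := mul_le_mul_of_nonneg_left h (Nat.cast_nonneg (α := ℝ) n)
        linarith
      refine step x h1 (ih x h1 h2).1 ((key x h1 (seg _ ih x h1 h2)).trans hCδ) ?_
      have e : w - x = (1 / (n + 1) : ℝ) • (w - y₀) := by
        rw [hx, show (1 / (n + 1) : ℝ) = 1 - n / (n + 1) by field_simp; ring, sub_smul, one_smul]
        abel
      rw [mem_ball_iff_norm, e, norm_smul, Real.norm_of_nonneg (by positivity), div_mul_eq_mul_div,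
        div_lt_iff₀ n0]
      nlinarith
  intro w hw
  have hw' := ball_subset_closedBall hw
  obtain ⟨n, hn⟩ := exists_nat_ge (‖w - y₀‖ / (σ / 2))
  rw [div_le_iff₀ (by positivity)] at hn
  exact ⟨φ w, (ind n w hw' hn).1, key w hw' (seg _ (ind n) w hw' hn)⟩

end Pool.Agent.Lib.MP_813db1_ag.VH.S8.PG
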