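import Pool.Agent.Lib.MP_813db1_ag.VH.S8.PG

/-! A nonzero central limit field. -/

namespace Pool.Agent.Lib.MP_813db1_ag.VH.S8.PG

open Set Filter Topology Metric

variable {G F W : Type} [Group G] [NormedAddCommGroup F] [NormedSpace ℝ F] [NormedAddCommGroup W]
  [NormedSpace ℂ W] [NormedSpace ℝ W] [IsScalarTower ℝ ℂ W] {P : PG G F W} {k : P.κ}

namespace ZasA

theorem diff {γ : G} {c : W} {R : ℝ} (a : ℝ)
    (h : ∀ y ∈ ball c R, P.Rel k k γ y (P.rm k k γ y)) :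
    DifferentiableOn ℂ (fun y => a • (P.rm k k γ y - y)) (ball c R) := fun y hy =>
  (((liso (h y hy)).diff.sub differentiableAt_id).const_smul a).differentiableWithinAt

omit [IsScalarTower ℝ ℂ W] in
theorem size (hE : P.ExtS) {α : G} {ε : ℝ} (ht : P.Sm k (P.yc k) (P.yr k / 2) ε α)
    (hn : ¬ P.Fk k α) : ∃ s, 0 < s ∧ s ≤ ε ∧ P.Sm k (P.yc k) (P.yr k / 2) (1 * s) α ∧
      ∃ y ∈ ball (P.yc k) (P.yr k / 2), s / 2 < ‖P.rm k k α y - y‖ := by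
  have hr2 : 0 < P.yr k / 2 := half_pos (P.pos k)
  set S : Set ℝ := (fun y => ‖P.rm k k α y - y‖) '' ball (P.yc k) (P.yr k / 2) with hS
  have hne : S.Nonempty := ⟨_, _, mem_ball_self hr2, rfl⟩
  have hub : ∀ x ∈ S, x ≤ ε := by
    rintro _ ⟨y, hy, rfl⟩
    exact (ht.rm hy).2
  have hle : ∀ y ∈ ball (P.yc k) (P.yr k / 2), ‖P.rm k k α y - y‖ ≤ sSup S :=
    fun y hy => le_csSup ⟨_, hub⟩ ⟨y, hy, rfl⟩
  have hpos : 0 < sSup S := by
    by_contra hc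
    refine hn (fix_all hE (y := P.yc k) ?_)
    filter_upwards [ball_mem_nhds (P.yc k) hr2] with w hw
    have h3 := (hle w hw).trans (not_lt.1 hc)
    rw [norm_le_zero_iff, sub_eq_zero] at h3
    have h4 := (ht.rm hw).1
    rwa [h3] at h4
  refine ⟨sSup S, hpos, csSup_le hne hub, fun y hy => ⟨_, (ht.rm hy).1, ?_⟩, ?_⟩
  · rw [one_mul]
    exact hle y hy
  · obtain ⟨_, ⟨y, hy, rfl⟩, h5⟩ := exists_lt_of_lt_csSup hne (half_lt_self hpos)
    exact ⟨y, hy, h5⟩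

omit [IsScalarTower ℝ ℂ W] in
theorem pick [FiniteDimensional ℂ W] (hL : P.LimS) {ζ : W → W} (h : P.Lim k ζ) {η ε R : ℝ}
    (hη : 0 < η) (hε : 0 < ε) (hR : R < P.yr k) : ∃ (β : G) (t : ℝ), 0 < t ∧ t ≤ ε ∧
      (P.Sm k (P.yc k) (P.yr k / 2) η β ∧ ‖P.A β - 1‖ ≤ η) ∧ ∀ y ∈ ball (P.yc k) R,
        P.Rel k k β y (P.rm k k β y) ∧ dist (ζ y) (t⁻¹ • (P.rm k k β y - y)) < ε := by
  have := FiniteDimensional.proper ℂ W
  have hr := half_lt_self (P.pos k)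
  obtain ⟨M, hM⟩ := (isCompact_closedBall (P.yc k) (P.yr k / 2)).exists_bound_of_continuousOn
    (((hL k).1 ζ (Submodule.subset_span h)).1.continuousOn.mono (closedBall_subset_ball hr))
  obtain ⟨-, 𝓤, γ, s, h0, h1, h2, h3⟩ := h
  have h4 : Tendsto (fun j => s j * (M + 1)) 𝓤 (𝓝 0) := by simpa using h1.mul_const (M + 1)
  obtain ⟨j, ⟨⟨a1, a2⟩, a3⟩, ⟨a4, a5⟩, a6, a7⟩ := (((h1.eventually (ge_mem_nhds hε)).and
    (h4.eventually (ge_mem_nhds hη))).and (h2.eventually (closedBall_mem_nhds _ hη)) |>.and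
    ((((h3 _ hr).1.and (Metric.tendstoUniformlyOn_iff.1 (h3 _ hr).2 1 one_pos))).and
    ((h3 R hR).1.and (Metric.tendstoUniformlyOn_iff.1 (h3 R hR).2 ε hε)))).exists
  refine ⟨γ j, s j, h0 j, a1, ⟨fun y hy => ⟨_, a4 y hy, le_trans ?_ a2⟩, mem_closedBall_iff_norm.1 a3⟩,
    fun y hy => ⟨a6 y hy, a7 y hy⟩⟩
  have e2 := a5 y hy
  rw [dist_eq_norm'] at e2
  have e3 := norm_le_norm_add_norm_sub' ((s j)⁻¹ • (P.rm k k (γ j) y - y)) (ζ y)
  rw [norm_smul, norm_inv, Real.norm_of_nonneg (h0 j).le] at e3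
  rw [← inv_mul_le_iff₀ (h0 j)]
  linarith [hM y (ball_subset_closedBall hy)]

omit [NormedSpace ℂ W] [IsScalarTower ℝ ℂ W] in
theorem near {𝓕 : Filter ℕ} {f : ℕ → W} {s : ℕ → ℝ} {y z : W} (h0 : ∀ j, 0 < s j)
    (h1 : Tendsto s 𝓕 (𝓝 0)) (h2 : Tendsto (fun j => (s j)⁻¹ • (f j - y)) 𝓕 (𝓝 z)) :
    Tendsto f 𝓕 (𝓝 y) := by
  simpa [smul_inv_smul₀ (h0 _).ne'] using (h1.smul h2).add_const y

end ZasA

open ZasA in
theorem zasS [FiniteDimensional ℂ W] (hE : P.ExtS) (hL : P.LimS) (hM : P.MkS) (h1 : P.Zas1S)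
    (hB : BrS W) : P.ZasS := by
  intro k hT
  have hr := P.pos k
  obtain ⟨η, hη, hZ⟩ := h1 k hT
  obtain ⟨B, hB1, hB2⟩ := (Submodule.fg_span_iff_fg_span_finset_subset _).1
    ((Submodule.fg_iff_finiteDimensional (P.NN k)).2 (hL k).2)
  obtain ⟨R, -, hR1, hR2⟩ := exists_seq_strictMono_tendsto (P.yr k)
  have hp : ∀ j : ℕ, (0 : ℝ) < 1 / ((j : ℝ) + 1) := fun j => by positivity
  have hu := Nat.hyperfilter_le_atTop
  have h0 := (tendsto_one_div_add_atTop_nhds_zero_nat (𝕜 := ℝ)).mono_left hu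
  choose β t t0 t1 t2 t3 using fun (ζ : B) (j : ℕ) => pick hL (hB1 ζ.2) hη (hp j) (hR1 j)
  choose α a1 a2 a3 a4 using fun j : ℕ => hZ (range fun ζ : B => β ζ j) (finite_range _)
    (by rintro _ ⟨ζ, rfl⟩; exact t2 ζ j) _ (hp j)
  choose s s0 s1 s2 s3 using fun j => size hE (a1 j) (a3 j)
  have hl : Tendsto s (hyperfilter ℕ) (𝓝 0) := squeeze_zero (fun j => (s0 j).le) s1 h0
  obtain ⟨ξ, a, b⟩ := hM k _ _ _ 1 (half_pos hr) ball_subset_closedBall (half_lt_self hr)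
    zero_le_one (hyperfilter ℕ) α s s0 hl (Eventually.of_forall s2)
  refine ⟨ξ, Submodule.subset_span ⟨a, hyperfilter ℕ, α, s, s0, hl,
    tendsto_iff_norm_sub_tendsto_zero.2 (squeeze_zero (fun _ => norm_nonneg _) a2 h0), b⟩,
    fun hc => ?_, fun ζ hζ y hy => ?_⟩
  · obtain ⟨j, hj⟩ := (Metric.tendstoUniformlyOn_iff.1 (b _ (half_lt_self hr)).2 (1 / 2)
      (by norm_num)).exists
    obtain ⟨y, hy1, hy2⟩ := s3 j
    have h8 := hj y hy1
    rw [hc, Pi.zero_apply, dist_zero_left, norm_smul, norm_inv, Real.norm_of_nonneg (s0 j).le,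
      inv_mul_lt_iff₀ (s0 j)] at h8
    linarith
  have hd : ∀ ζ ∈ Submodule.span ℝ (B : Set (W → W)), DifferentiableAt ℂ ζ y := fun ζ h =>
    ((hL k).1 ζ (hB2.ge h)).1.differentiableAt ((B_open k).mem_nhds hy)
  replace hζ := hB2.le hζ
  induction hζ using Submodule.span_induction with
  | zero => simp
  | add a b ha hb e1 e2 =>
    rw [fderiv_add (hd a ha) (hd b hb), _root_.add_apply, Pi.add_apply, map_add, e1, e2]
  | smul c a ha e =>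
    rw [fderiv_const_smul (hd a ha), _root_.smul_apply, Pi.smul_apply,
      ContinuousLinearMap.map_smul_of_tower, e]
  | mem ζ hζ =>
    obtain ⟨r, r1, r2⟩ := exists_between (show dist y (P.yc k) < P.yr k from hy)
    obtain ⟨b1, b2⟩ := b r r2
    have hj := (hR2.mono_left hu).eventually (lt_mem_nhds r2)
    have tl := squeeze_zero (fun j => (t0 ⟨ζ, hζ⟩ j).le) (t1 ⟨ζ, hζ⟩) h0
    have c1 := hj.mono fun j h w (hw : w ∈ ball (P.yc k) r) =>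
      (t3 ⟨ζ, hζ⟩ j w (ball_subset_ball h.le hw)).1
    have c2 : TendstoUniformlyOn (fun j w => (t ⟨ζ, hζ⟩ j)⁻¹ • (P.rm k k (β ⟨ζ, hζ⟩ j) w - w)) ζ
        (hyperfilter ℕ) (ball (P.yc k) r) := Metric.tendstoUniformlyOn_iff.2 fun ε hε => by
      filter_upwards [hj, h0.eventually (gt_mem_nhds hε)] with j h h' w hw
      exact (t3 ⟨ζ, hζ⟩ j w (ball_subset_ball h.le hw)).2.trans h'
    refine hB (hyperfilter ℕ) _ _ s _ ξ ζ _ r s0 (t0 ⟨ζ, hζ⟩) hl tl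
      ((b1.and c1).mono fun j h => ⟨diff _ h.1, diff _ h.2⟩) b2 c2 y r1 ?_
    filter_upwards [b1, c1, (near s0 hl (b2.tendsto_at r1)).eventually (isOpen_ball.mem_nhds r1),
      (near (t0 _) tl (c2.tendsto_at r1)).eventually (isOpen_ball.mem_nhds r1)] with j d1 d2 d3 d4
    simp only [smul_inv_smul₀ (s0 j).ne', smul_inv_smul₀ (t0 _ j).ne', add_sub_cancel]
    have e1 := P.trans (d1 y r1) (d2 _ d3)
    have e2 := P.trans e1 (a4 j _ ⟨⟨ζ, hζ⟩, rfl⟩ _ (P.mem e1).2)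
    rw [← mul_assoc, inv_mul_cancel_right, inv_mul_cancel_right] at e2
    exact P.uniq (P.trans (d2 y r1) (d1 _ d4)) e2

end Pool.Agent.Lib.MP_813db1_ag.VH.S8.PG
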