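import Pool.Agent.Lib.MP_813db1_ag.VH.S8.PG

/-! A small element whose holonomy commutes with that of finitely many small elements. -/

namespace Pool.Agent.Lib.MP_813db1_ag.VH.S8

open Set Filter Topology Metric

namespace Zas1Aux

variable {R : Type} [NormedRing R] {a a' b b' : R} {ε η : ℝ}

theorem inv_le (h1 : ‖(1 : R)‖ ≤ 1) (ha : a' * a = 1) (h : ‖a - 1‖ ≤ 1 / 16) : ‖a'‖ ≤ 2 := by
  have e : a' = 1 - a' * (a - 1) := by rw [mul_sub, ha, mul_one, sub_sub_cancel]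
  have h2 : ‖a'‖ ≤ ‖(1 : R)‖ + ‖a'‖ * ‖a - 1‖ :=
    (congrArg norm e).le.trans ((norm_sub_le _ _).trans (add_le_add le_rfl (norm_mul_le _ _)))
  nlinarith [norm_nonneg a']

theorem comm_le (ha : a * a' = 1) (hb : b * b' = 1) (h1 : ‖a'‖ ≤ 2) (h2 : ‖b'‖ ≤ 2)
    (h3 : ‖a - 1‖ ≤ ε) (h4 : ‖b - 1‖ ≤ 1 / 16) : ‖a * b * a' * b' - 1‖ ≤ ε / 2 := by
  have e : a * b * a' * b' - 1 = ((a - 1) * (b - 1) - (b - 1) * (a - 1)) * a' * b' := by
    have : (a - 1) * (b - 1) - (b - 1) * (a - 1) = a * b - b * a := by noncomm_ring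
    rw [this, sub_mul, sub_mul, mul_assoc b a a', ha, mul_one, hb]
  have h0 : 0 ≤ ε := (norm_nonneg _).trans h3
  have h5 : ‖(a - 1) * (b - 1) - (b - 1) * (a - 1)‖ ≤ ε * (1 / 16) + (1 / 16) * ε :=
    (norm_sub_le _ _).trans (add_le_add (norm_mul_le_of_le h3 h4) (norm_mul_le_of_le h4 h3))
  rw [e]
  exact (norm_mul_le_of_le (norm_mul_le_of_le h5 h1) h2).trans (by linarith)

theorem conj_le (h0 : ‖(1 : R)‖ ≤ 1) (ha : a * a' = 1) (h1 : ‖a'‖ ≤ 2) (h3 : ‖a - 1‖ ≤ 1 / 16)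
    (h4 : ‖b - 1‖ ≤ 1 / 16) : ‖1 - a * b * a'‖ ≤ 1 / 2 := by
  have e : 1 - a * b * a' = a * (1 - b) * a' := by rw [mul_sub, mul_one, sub_mul, ha]
  have h5 : ‖a‖ ≤ 2 := by
    have := norm_add_le (a - 1) 1
    rw [sub_add_cancel] at this
    linarith
  rw [norm_sub_rev] at h4
  rw [e]
  exact (norm_mul_le_of_le (norm_mul_le_of_le h5 h4) h1).trans (by norm_num)

end Zas1Aux

namespace PG

variable {G F W : Type} [Group G] [NormedAddCommGroup F] [NormedSpace ℝ F]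
  [NormedAddCommGroup W] [NormedSpace ℂ W] [NormedSpace ℝ W] {P : PG G F W}

theorem zas1_lin {α β : G} {ε T : ℝ} (hε : ε ≤ 1 / 16) (hα : ‖P.A α - 1‖ ≤ ε)
    (hβ : ‖P.A β - 1‖ ≤ 1 / 16) (h1 : ‖P.c α‖ ≤ T) (h2 : ‖P.c β‖ ≤ T) :
    ‖P.A (α * β * α⁻¹ * β⁻¹) - 1‖ ≤ ε ∧ ‖P.c (α * β * α⁻¹ * β⁻¹)‖ ≤ T := by
  have o : ‖(1 : F →L[ℝ] F)‖ ≤ 1 := ContinuousLinearMap.norm_id_le
  have i1 := Zas1Aux.inv_le o (A_inv_mul (P := P) α) (hα.trans hε)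
  have i2 := Zas1Aux.inv_le o (A_inv_mul (P := P) β) hβ
  have c1 := Zas1Aux.comm_le (A_mul_inv α) (A_mul_inv β) i1 i2 hα hβ
  have c2 := Zas1Aux.conj_le o (A_mul_inv α) i1 (hα.trans hε) hβ
  have h0 : 0 ≤ ε := (norm_nonneg _).trans hα
  refine ⟨by simp only [map_mul]; linarith, ?_⟩
  have c3 : ‖P.A α - P.A α * P.A β * P.A α⁻¹ * P.A β⁻¹‖ ≤ 1 / 2 := by
    have := norm_sub_le (P.A α - 1) (P.A α * P.A β * P.A α⁻¹ * P.A β⁻¹ - 1)
    rw [sub_sub_sub_cancel_right] at this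
    linarith
  have e : P.c (α * β * α⁻¹ * β⁻¹) = (1 - P.A α * P.A β * P.A α⁻¹) (P.c α) +
      (P.A α - P.A α * P.A β * P.A α⁻¹ * P.A β⁻¹) (P.c β) := by
    simp only [P.coc, map_mul, c_inv, map_neg, sub_apply, mul_apply_eq_comp, one_apply_eq_self]
    abel
  rw [e]
  refine (norm_add_le _ _).trans ((add_le_add (ContinuousLinearMap.le_of_opNorm_le_of_le _ c2 h1)
    (ContinuousLinearMap.le_of_opNorm_le_of_le _ c3 h2)).trans (by linarith))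

theorem zas1_not (hE : P.ExtS) {k : P.κ} {α : G} {ε : ℝ} (h : ¬ P.Fk k α) :
    ∀ᶠ n : ℕ in atTop, ¬ P.Sm k (P.yc k) (P.yr k / 2) (ε * (1 / 2) ^ n) α := by
  by_contra hn
  refine h (fix_all hE (y := P.yc k) ?_)
  filter_upwards [ball_mem_nhds (P.yc k) (half_pos (P.pos k))] with y hy
  have hf := not_eventually.1 hn
  have t : Tendsto (fun n : ℕ => ε * (1 / 2 : ℝ) ^ n) atTop (𝓝 0) := by
    simpa using (tendsto_pow_atTop_nhds_zero_of_lt_one (r := (1 / 2 : ℝ)) (by norm_num)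
      (by norm_num)).const_mul ε
  have h1 : ‖P.rm k k α y - y‖ ≤ 0 :=
    isClosed_Ici.mem_of_frequently_of_tendsto (hf.mono fun n hn => ((not_not.1 hn).rm hy).2) t
  obtain ⟨n, h2⟩ := hf.exists
  have h3 := ((not_not.1 h2).rm hy).1
  rwa [sub_eq_zero.1 (norm_le_zero_iff.1 h1)] at h3

theorem zas1S (hE : P.ExtS) (hC : P.CommS) : P.Zas1S := by
  intro k hk
  obtain ⟨η₀, p0, r0, C, hC1, hc⟩ := hC k
  have C0 : 0 < C := by linarith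
  obtain ⟨η, p, l0, l1, l2⟩ : ∃ η > 0, η ≤ η₀ ∧ η ≤ 1 / 16 ∧ C * η ≤ 1 / 2 := by
    refine ⟨min η₀ (min (1 / 16) (1 / (2 * C))), by positivity, min_le_left _ _,
      (min_le_right _ _).trans (min_le_left _ _), ?_⟩
    refine (mul_le_mul_of_nonneg_left ((min_le_right _ _).trans (min_le_right _ _)) C0.le).trans ?_
    exact le_of_eq (by field_simp)
  refine ⟨η, p, fun S hS hβ ε' hε' => ?_⟩
  obtain ⟨ε, q, m0, m1⟩ : ∃ ε > 0, ε ≤ ε' ∧ ε ≤ η :=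
    ⟨min ε' η, lt_min hε' p, min_le_left _ _, min_le_right _ _⟩
  by_contra hn
  obtain ⟨α₀, a1, a2, a3⟩ : ∃ α, P.Sm k (P.yc k) (P.yr k / 2) ε α ∧ ‖P.A α - 1‖ ≤ ε ∧
      ¬ P.Fk k α := by
    by_contra h
    exact hk ⟨ε, q, fun γ h1 h2 => by_contra fun h3 => h ⟨γ, h1, h2, h3⟩⟩
  obtain ⟨T, hT⟩ := ((hS.insert α₀).image fun γ => ‖P.c γ‖).bddAbove
  have hT' : ∀ γ ∈ insert α₀ S, ‖P.c γ‖ ≤ T := fun γ h => hT ⟨γ, h, rfl⟩
  set X := {α | P.Sm k (P.yc k) (P.yr k / 2) ε α ∧ ‖P.A α - 1‖ ≤ ε ∧ ‖P.c α‖ ≤ T ∧ ¬ P.Fk k α}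
  have hX : X.Finite := by
    have := P.pos k
    refine (P.disc k k 0 ε T this (by linarith)).subset fun α h => ⟨h.2.2.1, P.yc k, by simp, ?_⟩
    obtain ⟨y', h1, h2⟩ := h.1 _ (mem_ball_self (half_pos this))
    exact ⟨y', mem_closedBall_iff_norm.2 h2, h1⟩
  have key : ∀ n : ℕ, ∃ α ∈ X, P.Sm k (P.yc k) (P.yr k / 2) (ε * (1 / 2) ^ n) α := by
    intro n
    induction n with
    | zero => exact ⟨α₀, ⟨a1, a2, hT' _ (mem_insert _ _), a3⟩, by simpa using a1⟩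
    | succ n ih =>
      obtain ⟨α, ⟨b1, b2, b3, b4⟩, b5⟩ := ih
      obtain ⟨β, hb, hf⟩ : ∃ β ∈ S, ¬ P.Fk k (α * β * α⁻¹ * β⁻¹) := by
        by_contra h
        exact hn ⟨α, b1.mono Subset.rfl m0, b2.trans m0, b4,
          fun β hb => by_contra fun h3 => h ⟨β, hb, h3⟩⟩
      have d0 : 0 ≤ ε * (1 / 2) ^ n := by positivity
      have d1 : ε * (1 / 2) ^ n ≤ ε :=
        mul_le_of_le_one_right q.le (pow_le_one₀ (by norm_num) (by norm_num))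
      have d2 : C * (ε * (1 / 2) ^ n) * η ≤ ε * (1 / 2) ^ (n + 1) := by
        rw [pow_succ, mul_right_comm, mul_comm, ← mul_assoc ε]
        exact mul_le_mul_of_nonneg_left l2 d0
      have s := (hc α β _ η d0 ((d1.trans m1).trans l0) p.le l0 b5 (hβ β hb).1).mono Subset.rfl d2
      have t := zas1_lin (m1.trans l1) b2 ((hβ β hb).2.trans l1) b3 (hT' β (mem_insert_of_mem _ hb))
      refine ⟨_, ⟨s.mono Subset.rfl ?_, t.1, t.2, hf⟩, s⟩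
      exact mul_le_of_le_one_right q.le (pow_le_one₀ (by norm_num) (by norm_num))
  obtain ⟨n, h⟩ := ((eventually_all_finite hX).2 fun α h => zas1_not (ε := ε) hE h.2.2.2).exists
  obtain ⟨α, h1, h2⟩ := key n
  exact h α h1 h2

end PG

end Pool.Agent.Lib.MP_813db1_ag.VH.S8
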