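import Pool.Agent.Lib.MP_813db1_ag.VH.S8.Fb
import Pool.Agent.Lib.MP_813db1_ag.VH.S8.Ac
import Pool.Agent.Lib.MP_813db1_ag.VH.S8.Alg
import Pool.Agent.Lib.MP_813db1_ag.VH.S8.Ch
import Pool.Agent.Lib.MP_813db1_ag.VH.S8.Str
import Pool.Agent.Lib.MP_813db1_ag.VH.S8.Com
import Pool.Agent.Lib.MP_813db1_ag.VH.S8.Hol
import Pool.Agent.Lib.MP_813db1_ag.VH.S8.Pt
import Pool.Agent.Lib.MP_813db1_ag.VH.S8.Lag
import Pool.Agent.Lib.MP_813db1_ag.VH.S8.Gm
import Pool.Agent.Lib.MP_813db1_ag.VH.S8.Mod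
import Pool.Agent.Lib.MP_813db1_ag.VH.S8.Liso
import Pool.Agent.Lib.MP_813db1_ag.VH.S8.Nil
import Pool.Agent.Lib.MP_813db1_ag.VH.S8.Sec0
import Pool.Agent.Lib.MP_813db1_ag.VH.S8.Kill
import Pool.Agent.Lib.MP_813db1_ag.VH.S8.Zas
import Pool.Agent.Lib.MP_813db1_ag.VH.S8.Zas1
import Pool.Agent.Lib.MP_813db1_ag.VH.S8.Br
import Pool.Agent.Lib.MP_813db1_ag.VH.S8.Lat
import Pool.Agent.Lib.MP_813db1_ag.VH.S8.Lim
import Pool.Agent.Lib.MP_813db1_ag.VH.S8.Mk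
import Pool.Agent.Lib.MP_813db1_ag.VH.S8.Rec
import Pool.Agent.Lib.MP_813db1_ag.VH.S8.Unif
import Pool.Agent.Lib.MP_813db1_ag.VH.S8.Tube
import Pool.Agent.Lib.MP_813db1_ag.VH.S8.Comm
import Pool.Agent.Lib.MP_813db1_ag.VH.S8.Ahl
import Pool.Agent.Lib.MP_813db1_ag.VH.S8.Num

/-! Section 8: the formal part of the assembly. -/

namespace Pool.Agent.Lib.MP_813db1_ag.VH.S8

open Pool.Agent.Lib.MP_813db1_ag.HS Pool.Agent.Lib.MP_813db1_ag.AS
open MeasureTheory Complex Matrix Filter Topology Set Metric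
open scoped ContDiff ComplexOrder

namespace PG

variable {G F W : Type} [Group G] [NormedAddCommGroup F] [NormedSpace ℝ F] [FiniteDimensional ℝ F]
  [NormedAddCommGroup W] [NormedSpace ℂ W] [NormedSpace ℝ W] [IsScalarTower ℝ ℂ W]
  [FiniteDimensional ℂ W] (P : PG G F W)

omit [FiniteDimensional ℝ F] in
theorem all' : P.AllS := allS (extS unifS)

omit [FiniteDimensional ℝ F] in
theorem kill' : P.KillS :=
  killS limS (tpS unifS (extS unifS)) (zasS (extS unifS) limS (mkS (extS unifS))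
    (zas1S (extS unifS) (commS unifS (extS unifS))) brS)

theorem lat' : P.LatS := latS P.all' (recS unifS (extS unifS))

end PG

variable {ι X Y G : Type} [Fintype ι] [DecidableEq ι] [TopologicalSpace X] [TopologicalSpace Y]
  [Group G] [MulAction G Y] {M : Atl ι X} {p : Y → X}

theorem ahlV' (hq : IsQuotientCoveringMap p G) : AhlV M p G :=
  ahlV algS lagS (fun _ _ _ _ _ _ _ hS => plS (ptS algS) hS)
    (fun _ _ _ _ _ _ _ hS => holS8 algS hq hS) hq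

theorem exAc [CompactSpace X] [Nonempty X] {m : ℕ} {E : Dt M p G (Fin (2 * m))}
    {Q : Mat (Fin (2 * m))} {c : G → V (Fin (2 * m))} {x : Y → V (Fin (2 * m))} {h ξ : X → Mat ι}
    (hq : IsQuotientCoveringMap p G) (hS : E.Spl Q c x h ξ) (hP : PbS M) :
    ∃ (s : Finset ι) (L : Matrix (Fin (2 * m)) (Sg' s) ℂ), s.card = m ∧
      Nonempty (Ac E Q c x h s L) := by
  obtain ⟨y, -⟩ := hq.surjective (Classical.arbitrary X)
  have hQ : Q.det ≠ 0 := fun h0 => by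
    have := congrArg det (hS.pol.sq y)
    rw [det_mul, Dt.J, det_mul, h0, mul_zero, mul_zero, det_neg, det_one, mul_one] at this
    exact pow_ne_zero _ (neg_ne_zero.2 one_ne_zero) this.symm
  have h1 := plS (ptS algS) hS
  have h2 := holS8 algS hq hS
  obtain ⟨L0, hL0⟩ := lagS (Fin (2 * m)) (Fin m) Q hS.pol.re hS.pol.alt hQ (by simp)
  obtain ⟨e, he, z, hz, t, ht, -⟩ := sec_ex (lh hq) M y
  have hm := (h1 _ L0 hL0 e he z hz t ht).2.1.card
  obtain ⟨s, -, hs⟩ := Finset.exists_subset_card_eq (s := (Finset.univ : Finset ι)) (n := m)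
    (by simpa using hm)
  obtain ⟨L, hL⟩ := lagS (Fin (2 * m)) (Sg' s) Q hS.pol.re hS.pol.alt hQ (by simp [hs])
  exact ⟨s, L, hs, acS hq hS algS (gmS algS _ _) lisoS tvS bdS (chS algS (modS _ _ algS)
    (gmS algS _ _) (strS hq hS h1 h2 (comS8 hq hS L hL h1 h2) hP) h2 hq hS) s L hL⟩

namespace Fb

variable {r : Type} [Fintype r] [DecidableEq r] {E : Dt M p G r} {Q : Mat r} {c : G → V r}
  {x : Y → V r} {h : X → Mat ι} {s : Finset ι} {L : Matrix r (Sg' s) ℂ} {B : Fb E Q c x h s L}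
  (ok : B.Ok)

theorem lat (h1 : B.EucS ok) (h2 : B.FixS ok) (h3 : B.BochS8 ok) : ∃ N, (B.pg ok).Lat N := by
  obtain ⟨n, hn⟩ := h1
  refine (B.pg ok).lat' n hn ((B.pg ok).kill'.resolve_right ?_)
  rintro ⟨q, ξ, hf⟩
  exact h3 q ξ hf (h2 q ξ hf)

theorem ab (h1 : B.EucS ok) (hs : Fintype.card ι ≤ s.card) :
    ∃ H : Subgroup G, H.FiniteIndex ∧ ∀ a ∈ H, ∀ b ∈ H, a * b = b * a := by
  have : IsEmpty (Ta s) := Fintype.card_eq_zero_iff.1 (by rw [card_ta]; omega)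
  obtain ⟨n, hn⟩ := h1
  obtain ⟨a1, a2⟩ := PG.abS (P := B.pg ok) inferInstance
  obtain ⟨N, hN⟩ := (B.pg ok).lat' n hn a1
  exact a2 N hN

theorem sec [T2Space X] [CompactSpace X] [MeasurableSpace X] [BorelSpace X] (hh : M.IsK h) {N : ℕ}
    (hN : (B.pg ok).Lat N) (h1 : B.PeakV ok) (h2 : B.GapS) (h3 : B.BoxS) (h4 : B.HolB ok)
    (h5 : B.ResS8 ok) : ∃ c0 : ℝ, 0 < c0 ∧ ∀ᶠ a : ℕ in atTop, ∃ (q : ℕ) (σ : Fin q → X → ℂ),
      c0 * (a : ℝ) ^ (Fintype.card ι - s.card) ≤ q ∧ (∀ j, M.HolS (N * a) (σ j)) ∧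
        LinearIndependent ℂ σ := by
  obtain ⟨μ, hμ⟩ := (AY.volS' ι X M h hh).1
  obtain ⟨c0, hc0, hp⟩ := h1 μ hμ N hN
  have N0 := hN.pos
  refine ⟨c0 * (1 / 2) ^ (Fintype.card ι - s.card), by positivity, ?_⟩
  have hge : ∀ a : ℕ, a - 1 ≤ N * a - 1 := fun a =>
    Nat.sub_le_sub_right (Nat.le_mul_of_pos_left a N0) 1
  have htd : Tendsto (fun a : ℕ => N * a - 1) atTop atTop :=
    tendsto_atTop_mono hge (tendsto_sub_atTop_nat 1)
  filter_upwards [htd.eventually hp, eventually_ge_atTop 2] with a k1 ha2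
  have hga := hge a
  have e : N * a - 1 + 1 = N * a := by omega
  generalize N * a - 1 = b at k1 e hga
  obtain ⟨q, f, hQ, f1, f2, f3⟩ := k1 (e ▸ dvd_mul_right N a)
  have hb0 : (0 : ℝ) < b := by exact_mod_cast (by omega : 0 < b)
  obtain ⟨σ, s1, s2⟩ := sec0S ι X M h μ (b + 1) q (b / 2) (B.SB (b + 1)) f hh hμ (by positivity)
    (fun σ hσ => ⟨hσ.1, h3.2 _ σ hσ, by
      have := h2 μ hμ b σ hσ
      rwa [show (b : ℝ) = 2 * (b / 2) by ring] at this⟩)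
    (h4 N hN _) (h5 N hN _) f1 f2 fun d => (f3 d).trans (by
      have : 0 ≤ ∑ j, ‖d j‖ ^ 2 := by positivity
      nlinarith)
  refine ⟨q, σ, le_trans ?_ hQ, e ▸ s1, s2⟩
  have hab : (1 / 2 : ℝ) * a ≤ b := by
    have : (a : ℝ) ≤ 2 * b := by exact_mod_cast (by omega : a ≤ 2 * b)
    linarith
  have k6 := pow_le_pow_left₀ (by positivity) hab (Fintype.card ι - s.card)
  rw [mul_pow] at k6
  nlinarith

end Fb

end Pool.Agent.Lib.MP_813db1_ag.VH.S8
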