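import Pool.Agent.Lib.MP_813db1_ag.HS.E.Basic

/-! A group acting on a flat factor by affine maps and on a transversal by holomorphic isometries. -/

namespace Pool.Agent.Lib.MP_813db1_ag.VH.S8

open Pool.Agent.Lib.MP_813db1_ag.HS.E (Bil LIso Kil Met)
open Set Filter Topology Metric

noncomputable section

/-- `Rel k l γ y y'` says that `γ` maps the leaf `y` of the chart `k` to the leaf `y'` of the
chart `l`; on the leaves `γ` acts by `v ↦ A γ v + c γ`. -/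
structure PG (G F W : Type) [Group G] [NormedAddCommGroup F] [NormedSpace ℝ F]
    [NormedAddCommGroup W] [NormedSpace ℂ W] [NormedSpace ℝ W] where
  κ : Type
  fin : Finite κ
  ne : Nonempty κ
  yc : κ → W
  yr : κ → ℝ
  pos : ∀ k, 0 < yr k
  g : κ → W → Bil W
  met : ∀ k, Met (g k) (ball (yc k) (yr k))
  A : G →* (F →L[ℝ] F)
  c : G → F
  coc : ∀ a b, c (a * b) = c a + A a (c b)
  Rel : κ → κ → G → W → W → Prop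
  mem : ∀ {k l γ y y'}, Rel k l γ y y' → y ∈ ball (yc k) (yr k) ∧ y' ∈ ball (yc l) (yr l)
  refl : ∀ {k y}, y ∈ ball (yc k) (yr k) → Rel k k 1 y y
  symm : ∀ {k l γ y y'}, Rel k l γ y y' → Rel l k γ⁻¹ y' y
  trans : ∀ {k l m γ δ y y' y''}, Rel k l γ y y' → Rel l m δ y' y'' → Rel k m (δ * γ) y y''
  uniq : ∀ {k l γ y y' y''}, Rel k l γ y y' → Rel k l γ y y'' → y' = y''
  loc : ∀ {k l γ y y'}, Rel k l γ y y' →
    ∃ φ, φ y = y' ∧ LIso (g k) (g l) φ y ∧ ∀ᶠ w in 𝓝 y, Rel k l γ w (φ w)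
  clos : ∀ {k l γ y y'}, y ∈ ball (yc k) (yr k) → y' ∈ ball (yc l) (yr l) →
    (∃ᶠ q : W × W in 𝓝 (y, y'), Rel k l γ q.1 q.2) → Rel k l γ y y'
  conn : ∀ Q : κ → G → Prop, (∀ k l γ δ y y', Rel k l δ y y' → Q k (γ * δ) → Q l γ) →
    ∀ k γ l δ, Q k γ → Q l δ
  disc : ∀ k l R R' T, R < yr k → R' < yr l → {γ | ‖c γ‖ ≤ T ∧ ∃ y ∈ closedBall (yc k) R,
    ∃ y' ∈ closedBall (yc l) R', Rel k l γ y y'}.Finite
  bd : ∀ k l R R', R < yr k → R' < yr l → ∃ C, ∀ γ, ∀ y ∈ closedBall (yc k) R,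
    ∀ y' ∈ closedBall (yc l) R', Rel k l γ y y' → ‖A γ‖ ≤ C
  cpt : ∃ θ < (1 : ℝ), ∃ T, ∀ k, ∀ y ∈ ball (yc k) (yr k), ∀ v, ∃ l γ,
    ∃ y' ∈ closedBall (yc l) (θ * yr l), Rel k l γ y y' ∧ ‖A γ v + c γ‖ ≤ T
  faith : ∀ {k γ y}, Rel k k γ y y → A γ = 1 → c γ = 0 → γ = 1

variable {G F W : Type} [Group G] [NormedAddCommGroup F] [NormedSpace ℝ F]
  [NormedAddCommGroup W] [NormedSpace ℂ W] [NormedSpace ℝ W]

namespace PG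

variable (P : PG G F W)

/-- the ball of a chart. -/
def B (k : P.κ) : Set W := ball (P.yc k) (P.yr k)

open Classical in
/-- the holonomy map of `γ`. -/
def rm (k l : P.κ) (γ : G) (y : W) : W := if h : ∃ y', P.Rel k l γ y y' then h.choose else y

/-- the holonomy map is defined and `δ`-close to the identity on `ball y₀ ρ`. -/
def Sm (k : P.κ) (y₀ : W) (ρ δ : ℝ) (γ : G) : Prop :=
  ∀ y ∈ ball y₀ ρ, ∃ y', P.Rel k k γ y y' ∧ ‖y' - y‖ ≤ δ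

/-- `γ` fixes all leaves of the chart `k`. -/
def Fk (k : P.κ) (γ : G) : Prop := ∀ y ∈ P.B k, P.Rel k k γ y y

/-- `γ` fixes all leaves. -/
def Fx (γ : G) : Prop := ∀ k, P.Fk k γ

/-- small elements have trivial holonomy. -/
def Triv (k : P.κ) : Prop :=
  ∃ η > 0, ∀ γ, P.Sm k (P.yc k) (P.yr k / 2) η γ → ‖P.A γ - 1‖ ≤ η → P.Fk k γ

/-- limits of rescaled holonomy maps. -/
def Lim (k : P.κ) (ξ : W → W) : Prop :=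
  (∀ y, y ∉ P.B k → ξ y = 0) ∧
  ∃ (𝓤 : Ultrafilter ℕ) (γ : ℕ → G) (s : ℕ → ℝ), (∀ j, 0 < s j) ∧ Tendsto s 𝓤 (𝓝 0) ∧
    Tendsto (fun j => P.A (γ j)) 𝓤 (𝓝 1) ∧ ∀ R < P.yr k,
      (∀ᶠ j in (𝓤 : Filter ℕ), ∀ y ∈ ball (P.yc k) R, P.Rel k k (γ j) y (P.rm k k (γ j) y)) ∧
      TendstoUniformlyOn (fun j y => (s j)⁻¹ • (P.rm k k (γ j) y - y)) ξ 𝓤 (ball (P.yc k) R)

/-- the span of the limit fields. -/
def NN (k : P.κ) : Submodule ℝ (W → W) := Submodule.span ℝ {ξ | P.Lim k ξ}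

/-- a nonzero invariant family of commuting holomorphic Killing fields. -/
structure Fields (q : ℕ) (ξ : P.κ → Fin q → W → W) : Prop where
  pos : 0 < q
  hol : ∀ k a, DifferentiableOn ℂ (ξ k a) (P.B k)
  comm : ∀ k a b, ∀ y ∈ P.B k, fderiv ℂ (ξ k a) y (ξ k b y) = fderiv ℂ (ξ k b) y (ξ k a y)
  kil : ∀ k a, ∀ y ∈ P.B k, Kil (P.g k) (ξ k a) y
  lim : ∀ k a, ξ k a ∈ P.NN k
  ind : ∀ k (O : Set W), IsOpen O → O.Nonempty → O ⊆ P.B k →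
    ∃ y ∈ O, LinearIndependent ℝ fun a => ξ k a y
  cov : ∀ k l γ y y', P.Rel k l γ y y' → ∃ C : Matrix (Fin q) (Fin q) ℝ, C.det ≠ 0 ∧
    ∀ᶠ w in 𝓝 y, ∀ a, fderiv ℂ (P.rm k l γ) w (ξ k a w) = ∑ b, C a b • ξ l b (P.rm k l γ w)

/-- the elements which fix all leaves act on them by unitary motions. -/
def Euc (n : ℕ) : Prop := ∃ j : F ≃L[ℝ] EuclideanSpace ℂ (Fin n), ∀ γ, P.Fx γ →
  ∃ u : EuclideanSpace ℂ (Fin n) ≃ₗᵢ[ℂ] EuclideanSpace ℂ (Fin n), ∀ v, j (P.A γ v) = u (j v)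

/-- the translations among the elements which fix all leaves form a lattice. -/
structure Lat (N : ℕ) : Prop where
  pos : 0 < N
  nrm : ∀ γ δ, P.Fx γ → P.Fx (δ * γ * δ⁻¹)
  span : Submodule.span ℝ (P.c '' {γ | P.Fx γ ∧ P.A γ = 1}) = ⊤
  cpt : ∃ R, ∀ v, ∃ γ, P.Fx γ ∧ P.A γ = 1 ∧ ‖v + P.c γ‖ ≤ R
  ord : ∀ γ, P.Fx γ → P.A γ ^ N = 1

/-- a ball of leaves without holonomy. -/
def Tube (k : P.κ) (y₀ : W) (ρ : ℝ) : Prop :=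
  0 < ρ ∧ closedBall y₀ ρ ⊆ P.B k ∧
    ∀ γ, ∀ y ∈ ball y₀ ρ, ∀ y' ∈ ball y₀ ρ, P.Rel k k γ y y' → P.Fx γ

variable {P} {k l m : P.κ} {γ δ : G} {y y' y'' : W}

theorem B_open (k : P.κ) : IsOpen (P.B k) := isOpen_ball

theorem yc_mem (k : P.κ) : P.yc k ∈ P.B k := mem_ball_self (P.pos k)

theorem c_one : P.c 1 = 0 := by simpa using P.coc 1 1

theorem A_inv_mul (γ : G) : P.A γ⁻¹ * P.A γ = 1 := by rw [← map_mul, inv_mul_cancel, map_one]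

theorem A_mul_inv (γ : G) : P.A γ * P.A γ⁻¹ = 1 := by rw [← map_mul, mul_inv_cancel, map_one]

theorem c_inv (γ : G) : P.c γ⁻¹ = -P.A γ⁻¹ (P.c γ) := by
  have := P.coc γ⁻¹ γ
  rw [inv_mul_cancel, c_one] at this
  exact eq_neg_of_add_eq_zero_left this.symm

theorem rm_eq (h : P.Rel k l γ y y') : P.rm k l γ y = y' := by
  have he : ∃ y', P.Rel k l γ y y' := ⟨y', h⟩
  unfold rm
  rw [dif_pos he]
  exact P.uniq he.choose_spec h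

theorem rel_rm (h : P.Rel k l γ y y') : P.Rel k l γ y (P.rm k l γ y) := by
  rw [rm_eq h]
  exact h

theorem loc' (h : P.Rel k l γ y y') : LIso (P.g k) (P.g l) (P.rm k l γ) y ∧
    ∀ᶠ w in 𝓝 y, P.Rel k l γ w (P.rm k l γ w) := by
  obtain ⟨φ, -, h3, h5⟩ := P.loc h
  exact ⟨h3.congr (h5.mono fun w hw => rm_eq hw), h5.mono fun w hw => rel_rm hw⟩

theorem liso (h : P.Rel k l γ y y') : LIso (P.g k) (P.g l) (P.rm k l γ) y := (loc' h).1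

theorem tendsto (h : P.Rel k l γ y y') : Tendsto (P.rm k l γ) (𝓝 y) (𝓝 y') := by
  rw [← rm_eq h]
  exact (liso h).cont

theorem rm_rm (h : P.Rel k l γ y y') : ∀ᶠ w in 𝓝 y, P.rm l k γ⁻¹ (P.rm k l γ w) = w :=
  (loc' h).2.mono fun _ hw => rm_eq (P.symm hw)

theorem closed {α : Type} {𝓕 : Filter α} [𝓕.NeBot] {a b : α → W} (ha : Tendsto a 𝓕 (𝓝 y))
    (hb : Tendsto b 𝓕 (𝓝 y')) (hy : y ∈ P.B k) (hy' : y' ∈ P.B l)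
    (h : ∀ᶠ n in 𝓕, P.Rel k l γ (a n) (b n)) : P.Rel k l γ y y' :=
  P.clos hy hy' ((ha.prodMk_nhds hb).frequently h.frequently)

theorem conn' (Q : P.κ → Prop) (h0 : Q k) (h : ∀ k l γ y y', P.Rel k l γ y y' → Q k → Q l)
    (l : P.κ) : Q l :=
  P.conn (fun k _ => Q k) (fun k l _ δ y y' => h k l δ y y') k 1 l 1 h0

theorem Sm.mono {y₀ y₁ : W} {ρ ρ' η η' : ℝ} (h : P.Sm k y₀ ρ η γ) (hs : ball y₁ ρ' ⊆ ball y₀ ρ)
    (hη : η ≤ η') : P.Sm k y₁ ρ' η' γ := fun y hy => by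
  obtain ⟨y', h1, h2⟩ := h y (hs hy)
  exact ⟨y', h1, h2.trans hη⟩

theorem Sm.rm {y₀ : W} {ρ η : ℝ} (h : P.Sm k y₀ ρ η γ) (hy : y ∈ ball y₀ ρ) :
    P.Rel k k γ y (P.rm k k γ y) ∧ ‖P.rm k k γ y - y‖ ≤ η := by
  obtain ⟨y', h1, h2⟩ := h y hy
  rw [rm_eq h1]
  exact ⟨h1, h2⟩

theorem Sm.diff {y₀ : W} {ρ η : ℝ} (h : P.Sm k y₀ ρ η γ) :
    DifferentiableOn ℂ (P.rm k k γ) (ball y₀ ρ) := fun _ hy =>
  (liso (h.rm hy).1).diff.differentiableWithinAt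

theorem Fx.one : P.Fx 1 := fun _ _ hy => P.refl hy

theorem Fx.mul (h : P.Fx γ) (h' : P.Fx δ) : P.Fx (γ * δ) := fun k y hy =>
  P.trans (h' k y hy) (h k y hy)

theorem Fx.inv (h : P.Fx γ) : P.Fx γ⁻¹ := fun k y hy => P.symm (h k y hy)

variable (P)

/-- uniform domains and Lipschitz constants. -/
def UnifS : Prop := ∀ k l R R', R < P.yr k → R' < P.yr l → ∃ ρ > 0, ∃ C ≥ 1, ∀ γ,
  ∀ y ∈ closedBall (P.yc k) R, ∀ y' ∈ closedBall (P.yc l) R', P.Rel k l γ y y' →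
    (∀ w ∈ ball y ρ, P.Rel k l γ w (P.rm k l γ w)) ∧
      ∀ w ∈ ball y ρ, ∀ w' ∈ ball y ρ, ‖P.rm k l γ w - P.rm k l γ w'‖ ≤ C * ‖w - w'‖

/-- small holonomy on a small ball gives small holonomy on a large ball. -/
def ExtS : Prop := ∀ k y₀ ρ R, 0 < ρ → ball y₀ ρ ⊆ closedBall (P.yc k) R → R < P.yr k →
  ∃ η > 0, ∃ C ≥ 1, ∀ γ δ, 0 ≤ δ → δ ≤ η → P.Sm k y₀ ρ δ γ → P.Sm k (P.yc k) R (C * δ) γ

/-- commutators. -/
def CommS : Prop := ∀ k, ∃ η > 0, η ≤ P.yr k / 4 ∧ ∃ C ≥ 1, ∀ α β δ δ', 0 ≤ δ → δ ≤ η → 0 ≤ δ' →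
  δ' ≤ η → P.Sm k (P.yc k) (P.yr k / 2) δ α → P.Sm k (P.yc k) (P.yr k / 2) δ' β →
    P.Sm k (P.yc k) (P.yr k / 2) (C * δ * δ') (α * β * α⁻¹ * β⁻¹)

/-- recurrence along rays. -/
def RecS : Prop := ∀ k (u : F), ‖u‖ = 1 → ∀ ε > 0, ∃ γ, P.Sm k (P.yc k) (P.yr k / 2) ε γ ∧
  ‖P.A γ - 1‖ ≤ ε ∧ P.c γ ≠ 0 ∧ ‖‖P.c γ‖⁻¹ • P.c γ - u‖ ≤ ε

/-- the limit fields are holomorphic Killing fields; their span has finite dimension. -/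
def LimS : Prop := ∀ k, (∀ ξ ∈ P.NN k, DifferentiableOn ℂ ξ (P.B k) ∧
  (∀ y ∈ P.B k, Kil (P.g k) ξ y) ∧ (∀ y, y ∉ P.B k → ξ y = 0) ∧
    ∀ y ∈ P.B k, ξ y = 0 → fderiv ℂ ξ y = 0 → ξ = 0) ∧ FiniteDimensional ℝ (P.NN k)

/-- existence of limit fields. -/
def MkS : Prop := ∀ k y₀ (ρ R₀ C₀ : ℝ), 0 < ρ → ball y₀ ρ ⊆ closedBall (P.yc k) R₀ → R₀ < P.yr k →
  0 ≤ C₀ → ∀ (𝓤 : Ultrafilter ℕ) (γ : ℕ → G) (s : ℕ → ℝ), (∀ j, 0 < s j) → Tendsto s 𝓤 (𝓝 0) →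
  (∀ᶠ j in (𝓤 : Filter ℕ), P.Sm k y₀ ρ (C₀ * s j) (γ j)) →
  ∃ ξ : W → W, (∀ y, y ∉ P.B k → ξ y = 0) ∧ ∀ R < P.yr k,
    (∀ᶠ j in (𝓤 : Filter ℕ), ∀ y ∈ ball (P.yc k) R, P.Rel k k (γ j) y (P.rm k k (γ j) y)) ∧
    TendstoUniformlyOn (fun j y => (s j)⁻¹ • (P.rm k k (γ j) y - y)) ξ 𝓤 (ball (P.yc k) R)

/-- transport of the limit fields. -/
def TpS : Prop := ∀ k l γ y y', P.Rel k l γ y y' → ∀ ξ ∈ P.NN k, ∃ ξ' ∈ P.NN l,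
  ∀ᶠ w in 𝓝 y, fderiv ℂ (P.rm k l γ) w (ξ w) = ξ' (P.rm k l γ w)

/-- a small element whose holonomy commutes with that of finitely many small elements. -/
def Zas1S : Prop := ∀ k, ¬ P.Triv k → ∃ η > 0, ∀ S : Set G, S.Finite →
  (∀ β ∈ S, P.Sm k (P.yc k) (P.yr k / 2) η β ∧ ‖P.A β - 1‖ ≤ η) → ∀ ε > 0,
    ∃ α, P.Sm k (P.yc k) (P.yr k / 2) ε α ∧ ‖P.A α - 1‖ ≤ ε ∧ ¬ P.Fk k α ∧
      ∀ β ∈ S, P.Fk k (α * β * α⁻¹ * β⁻¹)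

/-- a nonzero central limit field. -/
def ZasS : Prop := ∀ k, ¬ P.Triv k → ∃ ξ ∈ P.NN k, ξ ≠ 0 ∧
  ∀ η ∈ P.NN k, ∀ y ∈ P.B k, fderiv ℂ ξ y (η y) = fderiv ℂ η y (ξ y)

/-- the alternative. -/
def KillS : Prop := (∀ k, P.Triv k) ∨ ∃ q ξ, P.Fields q ξ

/-- an element which fixes an open set of leaves fixes all leaves, and so do its conjugates. -/
def AllS : Prop := ∀ k γ y, (∀ᶠ w in 𝓝 y, P.Rel k k γ w w) → ∀ δ, P.Fx (δ * γ * δ⁻¹)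

/-- the lattice. -/
def LatS : Prop := ∀ n, P.Euc n → (∀ k, P.Triv k) → ∃ N, P.Lat N

/-- the tube. -/
def TubeS : Prop := ∀ N, P.Lat N → ∀ k (O : Set W), IsOpen O → O.Nonempty → O ⊆ P.B k →
  ∃ y₀ ρ, closedBall y₀ ρ ⊆ O ∧ P.Tube k y₀ ρ

/-- the case of one leaf. -/
def AbS : Prop := Subsingleton W → (∀ k, P.Triv k) ∧ ∀ N, P.Lat N →
  ∃ H : Subgroup G, H.FiniteIndex ∧ ∀ a ∈ H, ∀ b ∈ H, a * b = b * a

variable {P}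

theorem fix_all (hE : P.ExtS) (h : ∀ᶠ w in 𝓝 y, P.Rel k k γ w w) : P.Fk k γ := by
  intro w hw
  have hy : y ∈ P.B k := (P.mem h.self_of_nhds).1
  have h1 : max (dist y (P.yc k)) (dist w (P.yc k)) < P.yr k := max_lt hy hw
  obtain ⟨R, hR1, hR2⟩ := exists_between h1
  have hyR : y ∈ ball (P.yc k) R := (le_max_left _ _).trans_lt hR1
  obtain ⟨ρ, hρ, hb⟩ := Metric.eventually_nhds_iff_ball.1 (h.and (isOpen_ball.mem_nhds hyR))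
  obtain ⟨η, hη, C, -, hC⟩ := hE k y ρ R hρ (fun v hv => ball_subset_closedBall (hb v hv).2) hR2
  obtain ⟨w', h2, h3⟩ := hC γ 0 le_rfl hη.le (fun v hv => ⟨v, (hb v hv).1, by simp⟩) w
    ((le_max_right _ _).trans_lt hR1)
  rw [mul_zero, norm_le_zero_iff, sub_eq_zero] at h3
  rwa [h3] at h2

end PG

/-- limits of commuting maps near the identity commute infinitesimally. -/
def BrS (W : Type) [NormedAddCommGroup W] [NormedSpace ℂ W] [NormedSpace ℝ W] : Prop :=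
  ∀ (𝓕 : Filter ℕ) [𝓕.NeBot] (u v : ℕ → W → W) (s t : ℕ → ℝ) (ξ η : W → W) (c : W) (R : ℝ),
    (∀ j, 0 < s j) → (∀ j, 0 < t j) → Tendsto s 𝓕 (𝓝 0) → Tendsto t 𝓕 (𝓝 0) →
    (∀ᶠ j in 𝓕, DifferentiableOn ℂ (u j) (ball c R) ∧ DifferentiableOn ℂ (v j) (ball c R)) →
    TendstoUniformlyOn u ξ 𝓕 (ball c R) → TendstoUniformlyOn v η 𝓕 (ball c R) →
    ∀ y ∈ ball c R, (∀ᶠ j in 𝓕, y + t j • v j y + s j • u j (y + t j • v j y) =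
      y + s j • u j y + t j • v j (y + s j • u j y)) →
    fderiv ℂ ξ y (η y) = fderiv ℂ η y (ξ y)

end

end Pool.Agent.Lib.MP_813db1_ag.VH.S8
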