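import Pool.Agent.Lib.MP_813db1_ag.VH.Cov
import Pool.Agent.Lib.MP_813db1_ag.VH.Stmt
import Pool.Agent.Lib.MP_813db1_ag.VH.S8.PG
import Pool.Agent.Lib.MP_813db1_ag.HS.StmtE

/-! Families of complex structures on a symplectic space, and the local model. -/

namespace Pool.Agent.Lib.MP_813db1_ag.VH.S8

open Pool.Agent.Lib.MP_813db1_ag.HS Pool.Agent.Lib.MP_813db1_ag.AS
open MeasureTheory Complex Matrix Filter Topology Set Metric
open scoped ContDiff ComplexOrder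

noncomputable section

section alg

variable {r σ τ ι α β : Type}

/-- real vectors as complex vectors. -/
def cv (v : r → ℝ) : V r := fun i => (v i : ℂ)

/-- the real part. -/
def rv (v : V r) : r → ℝ := fun i => (v i).re

/-- the imaginary part. -/
def iv (v : V r) : r → ℝ := fun i => (v i).im

/-- real matrices. -/
def Rl (A : Matrix α β ℂ) : Prop := A.map star = A

theorem rv_cv (v : r → ℝ) : rv (cv v) = v := funext fun _ => ofReal_re _

theorem cv_rv {v : V r} (h : star v = v) : cv (rv v) = v :=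
  funext fun i => conj_eq_iff_re.1 (congrFun h i)

theorem star_cv (v : r → ℝ) : star (cv v) = cv v := funext fun _ => conj_ofReal _

theorem cv_add (u v : r → ℝ) : cv (u + v) = cv u + cv v := funext fun _ => ofReal_add _ _

theorem rv_add (u v : V r) : rv (u + v) = rv u + rv v := funext fun _ => add_re _ _

theorem Rl.star_mulVec [Fintype β] {A : Matrix α β ℂ} (h : Rl A) (v : V β) :
    star (A *ᵥ v) = A *ᵥ star v := by
  funext i
  have e : ∀ j, star (A i j) = A i j := fun j => congrFun (congrFun h i) j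
  simp only [Pi.star_apply, mulVec, dotProduct, star_sum, star_mul', e]

theorem Rl.cv_rv [Fintype β] {A : Matrix α β ℂ} (h : Rl A) (v : β → ℝ) :
    cv (rv (A *ᵥ cv v)) = A *ᵥ cv v := S8.cv_rv (by rw [h.star_mulVec, star_cv])

/-- entrywise analytic matrices. -/
def AnM [Fintype ι] (F : V ι → Matrix α β ℂ) (z : V ι) : Prop :=
  ∀ i j, AnalyticAt ℂ (fun w => F w i j) z

/-- the entrywise real derivative. -/
def dF [Fintype ι] (F : V ι → Matrix α β ℂ) (z v : V ι) : Matrix α β ℂ :=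
  Matrix.of fun i j => fderiv ℝ (fun w => F w i j) z v

variable [Fintype r] [DecidableEq r] [Fintype σ] [DecidableEq σ] [Fintype ι] [DecidableEq ι]

/-- a real matrix as a real linear map. -/
def rL (A : Mat r) : (r → ℝ) →L[ℝ] (r → ℝ) :=
  LinearMap.toContinuousLinearMap
    { toFun := fun v => rv (A *ᵥ cv v)
      map_add' := fun u v => by rw [cv_add, mulVec_add, rv_add]
      map_smul' := fun t v => by
        have e : cv (t • v) = (t : ℂ) • cv v := funext fun _ => ofReal_mul _ _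
        rw [e, mulVec_smul]
        exact funext fun _ => re_ofReal_mul _ _ }

omit [DecidableEq r] in
theorem rL_apply (A : Mat r) (v : r → ℝ) : rL A v = rv (A *ᵥ cv v) := rfl

/-- a real representation on the real space. -/
def rA {G : Type} [Group G] (ρ : G →* Mat r) (h : RealR ρ) : G →* ((r → ℝ) →L[ℝ] (r → ℝ)) where
  toFun g := rL (ρ g)
  map_one' := by
    ext1 v
    rw [rL_apply, map_one, one_mulVec, rv_cv]
    rfl
  map_mul' a b := by
    ext1 v
    rw [mul_apply_eq_comp, rL_apply, rL_apply, rL_apply, Rl.cv_rv (h b), map_mul, mulVec_mulVec]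

theorem rA_apply {G : Type} [Group G] (ρ : G →* Mat r) (h : RealR ρ) (g : G) (v : r → ℝ) :
    rA ρ h g v = rv (ρ g *ᵥ cv v) := rfl

/-- the columns of `L` are a basis of a real Lagrangian subspace. -/
structure Lag (Q : Mat r) (L : Matrix r σ ℂ) : Prop where
  reQ : Rl Q
  alt : Qᵀ = -Q
  reL : Rl L
  iso : Lᵀ * Q * L = 0
  inj : ∀ v, L *ᵥ v = 0 → v = 0
  card : Fintype.card r = 2 * Fintype.card σ

/-- the complex structure. -/
def jM (Q H : Mat r) : Mat r := H⁻¹ * Q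

/-- metrics which are compatible with `Q`. -/
structure Sg (Q H : Mat r) : Prop where
  re : Rl H
  pos : H.PosDef
  sq : jM Q H * jM Q H = -1

/-- the infinitesimal automorphisms of `Q`. -/
def Sp (Q A : Mat r) : Prop := Rl A ∧ Aᵀ * Q + Q * A = 0

/-- the metric on the Lagrangian subspace. -/
def muM (L : Matrix r σ ℂ) (H : Mat r) : Mat σ := Lᵀ * H * L

/-- the period matrix. -/
def zM (Q : Mat r) (L : Matrix r σ ℂ) (H : Mat r) : Matrix σ r ℂ :=
  (muM L H)⁻¹ * Lᵀ * (H - I • Q)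

/-- the real vector with complex coordinates `z`. -/
def xM (Q : Mat r) (L : Matrix r σ ℂ) (H : Mat r) (z : V σ) : V r :=
  L *ᵥ cv (rv z) + (jM Q H * L) *ᵥ cv (iv z)

/-- the holomorphic differential. -/
def dX (x : V ι → V r) (z : V ι) : Matrix r ι ℂ := Matrix.of fun a i => dV x i z a

/-- the columns are the vector fields along the leaves. -/
def vX (Q : Mat r) (G : Mat ι) (D : Matrix r ι ℂ) : Matrix ι r ℂ := (-I) • ((G⁻¹)ᵀ * Dᴴ * Q)

/-- the pull back of `H`. -/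
def xiM (H : Mat r) (D : Matrix r ι ℂ) : Mat ι := Dᵀ * H * D.map star

structure Alg (Q : Mat r) (L : Matrix r σ ℂ) (H : Mat r) : Prop where
  detQ : Q.det ≠ 0
  reJ : Rl (jM Q H)
  hj : H * jM Q H = Q
  qj : Q * jM Q H = -H
  jh : (jM Q H)ᵀ * H = -Q
  trJ : trace (jM Q H) = 0
  mu : (muM L H).PosDef
  reMu : Rl (muM L H)
  zl : zM Q L H * L = 1
  zj : zM Q L H * jM Q H = I • zM Q L H
  pe : (1 - I • jM Q H) * (1 - L * zM Q L H) = 0
  xz : ∀ v, xM Q L H (zM Q L H *ᵥ cv v) = cv v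
  zx : ∀ z, zM Q L H *ᵥ xM Q L H z = z
  rx : ∀ z, star (xM Q L H z) = xM Q L H z
  inj : ∀ A : Mat r, Rl A → zM Q L H * A = 0 → A = 0
  muz : (muM L H)⁻¹ = (I / 2) • (zM Q L H * Q⁻¹ * (zM Q L H)ᴴ)
  eqv : ∀ ρ ρ' : Mat r, Rl ρ → ρ' * ρ = 1 → ρᵀ * Q * ρ = Q → Sg Q (ρ'ᵀ * H * ρ') ∧
    jM Q (ρ'ᵀ * H * ρ') = ρ * jM Q H * ρ' ∧
    zM Q L (ρ'ᵀ * H * ρ') * ρ = zM Q L (ρ'ᵀ * H * ρ') * ρ * L * zM Q L H ∧
    (zM Q L (ρ'ᵀ * H * ρ') * ρ * L).det ≠ 0 ∧
    muM L H = pull (zM Q L (ρ'ᵀ * H * ρ') * ρ * L) (muM L (ρ'ᵀ * H * ρ'))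

structure Pt (Q : Mat r) (L : Matrix r σ ℂ) (H : Mat r) (G : Mat ι) (D : Matrix r ι ℂ) : Prop where
  uh : vX Q G D = (G⁻¹)ᵀ * Dᴴ * H
  du : (2 : ℂ) • (D * (G⁻¹)ᵀ * Dᴴ) = H⁻¹ + I • Q⁻¹
  dx : (2 : ℂ) • (D * vX Q G D) = 1 - I • jM Q H
  xj : vX Q G D * jM Q H = I • vX Q G D
  xl : vX Q G D * L * zM Q L H = vX Q G D
  zdw : zM Q L H * D * (vX Q G D * L) = 1
  ww : (vX Q G D * L)ᵀ * G * (vX Q G D * L).map star = (1 / 2 : ℂ) • muM L H
  ker : (vX Q G D)ᵀ * (G - xiM H D) = 0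
  pr : G - xiM H D = pull (1 - vX Q G D * D) G
  psd : (G - xiM H D).PosSemidef
  card : Fintype.card σ ≤ Fintype.card ι
  det : ∀ t : ℝ, 0 < t → (G - xiM H D + (t : ℂ) • G).det =
    (t : ℂ) ^ Fintype.card σ * (1 + t) ^ (Fintype.card ι - Fintype.card σ) * G.det

end alg

/-! ### the local model -/

section model

variable {ι r : Type} [Fintype ι] [DecidableEq ι] [Fintype r] [DecidableEq r] (s : Finset ι)

/-- the indices along the leaves. -/
abbrev Sg' (s : Finset ι) : Type := {i // i ∈ s}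

/-- the transversal indices. -/
abbrev Ta (s : Finset ι) : Type := {i // i ∉ s}

/-- block matrices. -/
def bk (A : Mat (Sg' s)) (B : Matrix (Sg' s) (Ta s) ℂ) (C : Matrix (Ta s) (Sg' s) ℂ)
    (D : Mat (Ta s)) : Mat ι :=
  (fromBlocks A B C D).submatrix (Equiv.sumCompl (· ∈ s)).symm (Equiv.sumCompl (· ∈ s)).symm

section bk

variable {s} (A A' : Mat (Sg' s)) (B B' : Matrix (Sg' s) (Ta s) ℂ)
  (C C' : Matrix (Ta s) (Sg' s) ℂ) (D D' : Mat (Ta s))

omit [Fintype ι]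

theorem bk11 (i j : Sg' s) : bk s A B C D i j = A i j := by simp [bk, i.2, j.2]

theorem bk12 (i : Sg' s) (j : Ta s) : bk s A B C D i j = B i j := by simp [bk, i.2, j.2]

theorem bk21 (i : Ta s) (j : Sg' s) : bk s A B C D i j = C i j := by simp [bk, i.2, j.2]

theorem bk22 (i j : Ta s) : bk s A B C D i j = D i j := by simp [bk, i.2, j.2]

theorem bk_ext {N N' : Mat ι} (h1 : ∀ (i j : Sg' s), N i j = N' i j)
    (h2 : ∀ (i : Sg' s) (j : Ta s), N i j = N' i j) (h3 : ∀ (i : Ta s) (j : Sg' s), N i j = N' i j)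
    (h4 : ∀ (i j : Ta s), N i j = N' i j) : N = N' := by
  ext i j
  by_cases hi : i ∈ s <;> by_cases hj : j ∈ s
  exacts [h1 ⟨i, hi⟩ ⟨j, hj⟩, h2 ⟨i, hi⟩ ⟨j, hj⟩, h3 ⟨i, hi⟩ ⟨j, hj⟩, h4 ⟨i, hi⟩ ⟨j, hj⟩]

theorem bk_one : bk s 1 0 0 1 = 1 := by rw [bk, fromBlocks_one, submatrix_one_equiv]

theorem bk_zero : bk s 0 0 0 0 = 0 := by rw [bk, fromBlocks_zero, submatrix_zero]; rfl

theorem bk_add : bk s A B C D + bk s A' B' C' D' = bk s (A + A') (B + B') (C + C') (D + D') := by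
  rw [bk, bk, bk, ← fromBlocks_add]; rfl

theorem bk_neg : -bk s A B C D = bk s (-A) (-B) (-C) (-D) := by rw [bk, bk, ← fromBlocks_neg]; rfl

theorem bk_smul (t : ℂ) : t • bk s A B C D = bk s (t • A) (t • B) (t • C) (t • D) := by
  rw [bk, bk, ← fromBlocks_smul]; rfl

theorem bk_tr : (bk s A B C D)ᵀ = bk s Aᵀ Cᵀ Bᵀ Dᵀ := by
  rw [bk, bk, transpose_submatrix, fromBlocks_transpose]

theorem bk_star : (bk s A B C D).map star =
    bk s (A.map star) (B.map star) (C.map star) (D.map star) := by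
  rw [bk, bk, ← fromBlocks_map]; rfl

end bk

section bk2

variable {s} (A A' : Mat (Sg' s)) (B B' : Matrix (Sg' s) (Ta s) ℂ)
  (C C' : Matrix (Ta s) (Sg' s) ℂ) (D D' : Mat (Ta s))

theorem bk_mul : bk s A B C D * bk s A' B' C' D' =
    bk s (A * A' + B * C') (A * B' + B * D') (C * A' + D * C') (C * B' + D * D') := by
  rw [bk, bk, bk, submatrix_mul_equiv, fromBlocks_multiply]

theorem bk_det : (bk s A B 0 D).det = A.det * D.det := by
  rw [bk, det_submatrix_equiv_self, det_fromBlocks_zero₂₁]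

theorem bk_sum_split {M : Type} [AddCommMonoid M] (f : ι → M) :
    ∑ i, f i = ∑ i : Sg' s, f i + ∑ i : Ta s, f i :=
  ((Equiv.sumCompl (· ∈ s)).sum_comp f).symm.trans (Fintype.sum_sum_type _)

theorem bk_trace : trace (bk s A B C D) = trace A + trace D := by
  simp only [trace, diag_apply]
  rw [bk_sum_split (s := s)]
  simp only [bk11, bk22]

theorem bk_mulVec (w : V ι) : bk s A B C D *ᵥ w =
    glue s (A *ᵥ zp s w + B *ᵥ yp s w) (C *ᵥ zp s w + D *ᵥ yp s w) := by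
  funext i
  rw [mulVec, dotProduct, bk_sum_split (s := s)]
  by_cases hi : i ∈ s
  · simp only [glue, dif_pos hi, ← bk11 A B C D ⟨i, hi⟩, ← bk12 A B C D ⟨i, hi⟩, Pi.add_apply,
      mulVec, dotProduct, zp, yp]
  · simp only [glue, dif_neg hi, ← bk21 A B C D ⟨i, hi⟩, ← bk22 A B C D ⟨i, hi⟩, Pi.add_apply,
      mulVec, dotProduct, zp, yp]

theorem card_ta (s : Finset ι) : Fintype.card (Ta s) = Fintype.card ι - s.card := by
  simp [Fintype.card_subtype_compl]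

end bk2

variable (Q : Mat r) (L : Matrix r (Sg' s) ℂ) (H : V (Ta s) → Mat r) (β : V (Ta s) → Mat (Ta s))

/-- the affine coordinate on the model. -/
def xm (w : V ι) : V r := xM Q L (H (yp s w)) (zp s w)

/-- the connection of the model. -/
def tM (w : V ι) : Mat ι :=
  bk s 1 (Matrix.of fun i j => -(dR (fun y => zM Q L (H y)) j (yp s w) *ᵥ xm s Q L H w) i) 0 1

/-- the metric of the model. -/
def gM (w : V ι) : Mat ι :=
  pull (tM s Q L H w) (bk s ((1 / 2 : ℂ) • muM L (H (yp s w))) 0 0 (β (yp s w)))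

/-- the logarithm of the volume form of the model. -/
def psi (y : V (Ta s)) : ℝ :=
  Real.log ((1 / 2 : ℂ) • muM L (H y)).det.re + Real.log (β y).det.re

/-- translations along the leaves. -/
def shf (t : r → ℝ) (w : V ι) : V ι := glue s (zp s w + zM Q L (H (yp s w)) *ᵥ cv t) (yp s w)

/-- the change of models given by an affine map and a transversal map. -/
def trM (H' : V (Ta s) → Mat r) (ρ : Mat r) (c : V r) (φ : V (Ta s) → V (Ta s)) (w : V ι) : V ι :=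
  glue s (zM Q L (H' (φ (yp s w))) *ᵥ (ρ *ᵥ xm s Q L H w + c)) (φ (yp s w))

/-- a holomorphic family of complex structures over a ball. -/
structure Mo0 (R : ℝ) : Prop where
  lag : Lag Q L
  pos : 0 < R
  sg : ∀ y ∈ ball (0 : V (Ta s)) R, Sg Q (H y)
  sm : ∀ y ∈ ball (0 : V (Ta s)) R, SmR H y
  an : ∀ y ∈ ball (0 : V (Ta s)) R, AnM (fun w => zM Q L (H w)) y

/-- the data of a model. -/
structure Mo (R : ℝ) : Prop extends Mo0 s Q L H R where
  kon : KOn β (ball 0 R)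
  lev : ∀ y ∈ ball (0 : V (Ta s)) R, levi (fun w => (psi s L H β w : ℂ)) y = β y

end model

/-! ### pull backs -/

section pb

variable {ι X : Type} [Fintype ι] [DecidableEq ι] [TopologicalSpace X] (M : Atl ι X)

/-- the pull back of a section. -/
def pb (a : ℕ) (σ : X → ℂ) (Θ : V ι → X) (w : V ι) : ℂ :=
  (jac (M.ch (Θ w) ∘ Θ) w).det ^ a * σ (Θ w)

/-- the pull back of a form. -/
def pbF (B : X → Mat ι) (Θ : V ι → X) (w : V ι) : Mat ι :=
  pull (jac (M.ch (Θ w) ∘ Θ) w) (B (Θ w))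

/-- `Θ` is near `w` the inverse of a chart. -/
def Lh (Θ : V ι → X) (w : V ι) : Prop := ∃ e ∈ M.A, w ∈ e.target ∧ e.symm =ᶠ[𝓝 w] Θ

end pb

/-! ### local product structures -/

/-- finitely many product charts on a space with an affine map `x`. -/
structure LP (Y G F W T : Type) [TopologicalSpace Y] [Group G] [MulAction G Y]
    [NormedAddCommGroup F] [NormedSpace ℝ F] [NormedAddCommGroup W] [NormedSpace ℂ W]
    [NormedSpace ℝ W] where
  κ : Type
  fin : Finite κ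
  e : κ → OpenPartialHomeomorph Y (F × W)
  vc : κ → F
  vr : κ → ℝ
  yr : κ → ℝ
  vpos : ∀ k, 0 < vr k
  ypos : ∀ k, 0 < yr k
  tgt : ∀ k, (e k).target = ball (vc k) (vr k) ×ˢ ball 0 (yr k)
  A : G →* (F →L[ℝ] F)
  c : G → F
  x : Y → F
  eqv : ∀ (γ : G) q, x (γ • q) = A γ (x q) + c γ
  fst : ∀ k, ∀ q ∈ (e k).source, (e k q).1 = x q
  g : κ → W → E.Bil W
  tr : ∀ k l (γ : G), ∀ q ∈ (e k).source, γ • q ∈ (e l).source →
    ∃ φ, E.LIso (g k) (g l) φ (e k q).2 ∧ ∀ᶠ q' in 𝓝 q, (e l (γ • q')).2 = φ (e k q').2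
  cov : ∃ θ < (1 : ℝ), ∀ q, ∃ (γ : G) (k : κ), γ • q ∈ (e k).source ∧
    dist (e k (γ • q)).1 (vc k) ≤ θ * vr k ∧ ‖(e k (γ • q)).2‖ ≤ θ * yr k
  H : Y → T
  Hc : ∀ (γ : G) k, ∀ v ∈ ball (vc k) (vr k), ∀ v' ∈ ball (vc k) (vr k), ∀ w ∈ ball (0 : W) (yr k),
    H (γ • (e k).symm (v, w)) = H (γ • (e k).symm (v', w))
  bd : ∀ t, ∃ C, ∀ q (γ : G) k, H q = t → γ • q ∈ (e k).source → ‖A γ‖ ≤ C

/-- `Ψ k` develops the chart `k` along the leaves. -/
structure Dv {Y G F W T : Type} [TopologicalSpace Y] [Group G] [MulAction G Y]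
    [NormedAddCommGroup F] [NormedSpace ℝ F] [NormedAddCommGroup W] [NormedSpace ℂ W]
    [NormedSpace ℝ W] (P : LP Y G F W T) (Ψ : P.κ → F → W → Y) : Prop where
  box : ∀ k, ∀ v ∈ ball (P.vc k) (P.vr k), ∀ w ∈ ball (0 : W) (P.yr k),
    Ψ k v w = (P.e k).symm (v, w)
  x : ∀ k v, ∀ w ∈ ball (0 : W) (P.yr k), P.x (Ψ k v w) = v
  H : ∀ k v v', ∀ w ∈ ball (0 : W) (P.yr k), P.H (Ψ k v w) = P.H (Ψ k v' w)
  cont : ∀ k, ContinuousOn (fun q : F × W => Ψ k q.1 q.2) (univ ×ˢ ball 0 (P.yr k))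
  inj : ∀ k v, ∀ w ∈ ball (0 : W) (P.yr k), ∀ w' ∈ ball (0 : W) (P.yr k),
    Ψ k v w = Ψ k v w' → w = w'
  lt : ∀ k l (γ : G) v v', ∀ w ∈ ball (0 : W) (P.yr k), ∀ w' ∈ ball (0 : W) (P.yr l),
    γ • Ψ k v w = Ψ l v' w' → ∃ φ, φ w = w' ∧ E.LIso (P.g k) (P.g l) φ w ∧
      ∀ᶠ u in 𝓝 w, ∀ ζ, Ψ l (P.A γ ζ + P.c γ) (φ u) = γ • Ψ k ζ u
  opn : ∀ k v, ∀ w ∈ ball (0 : W) (P.yr k), ∀ᶠ q in 𝓝 (Ψ k v w),
    ∃ v', ∃ w' ∈ ball (0 : W) (P.yr k), q = Ψ k v' w'

end

end Pool.Agent.Lib.MP_813db1_ag.VH.S8
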