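import Pool.Agent.Lib.MP_813db1_ag.VH.S8.StL
import Pool.Agent.Lib.MP_813db1_ag.HS.AY0

/-! Section 8: the developed charts, and the global statements. -/

namespace Pool.Agent.Lib.MP_813db1_ag.VH.S8

open Pool.Agent.Lib.MP_813db1_ag.HS Pool.Agent.Lib.MP_813db1_ag.AS
open MeasureTheory Complex Matrix Filter Topology Set Metric
open scoped ContDiff ComplexOrder ENNReal

noncomputable section

variable {ι X Y G r : Type} [Fintype ι] [DecidableEq ι] [TopologicalSpace X] [TopologicalSpace Y]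
  [Group G] [MulAction G Y] [Fintype r] [DecidableEq r] {M : Atl ι X} {p : Y → X}

/-- finitely many models which are developed along the leaves. -/
structure Fb (E : Dt M p G r) (Q : Mat r) (c : G → V r) (x : Y → V r) (h : X → Mat ι)
    (s : Finset ι) (L : Matrix r (Sg' s) ℂ) where
  κ : Type
  fin : Finite κ
  R : κ → ℝ
  H : κ → V (Ta s) → Mat r
  β : κ → V (Ta s) → Mat (Ta s)
  Ψ : κ → (r → ℝ) → V (Ta s) → Y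
  mo : ∀ k, Mo s Q L (H k) (β k) (R k)
  xΨ : ∀ k v, ∀ y ∈ ball (0 : V (Ta s)) (R k), x (Ψ k v y) = cv v
  HΨ : ∀ k v, ∀ y ∈ ball (0 : V (Ta s)) (R k), E.H (Ψ k v y) = H k y
  cont : ∀ k, ContinuousOn (fun q : (r → ℝ) × V (Ta s) => Ψ k q.1 q.2) (univ ×ˢ ball 0 (R k))
  inj : ∀ k v, ∀ y ∈ ball (0 : V (Ta s)) (R k), ∀ y' ∈ ball (0 : V (Ta s)) (R k),
    Ψ k v y = Ψ k v y' → y = y'
  lt : ∀ k l (g : G) v v', ∀ y ∈ ball (0 : V (Ta s)) (R k), ∀ y' ∈ ball (0 : V (Ta s)) (R l),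
    g • Ψ k v y = Ψ l v' y' → ∃ φ, φ y = y' ∧
      HS.E.LIso (fun u => rb (β k u)) (fun u => rb (β l u)) φ y ∧
      ∀ᶠ u in 𝓝 y, ∀ ζ, Ψ l (rA E.ρ E.reR g ζ + rv (c g)) (φ u) = g • Ψ k ζ u
  opn : ∀ k v, ∀ y ∈ ball (0 : V (Ta s)) (R k), ∀ᶠ q in 𝓝 (Ψ k v y),
    ∃ v', ∃ y' ∈ ball (0 : V (Ta s)) (R k), q = Ψ k v' y'
  cov : ∃ θ < (1 : ℝ), ∃ T : ℝ, ∀ q : Y, ∃ (g : G) (k : κ) (v : r → ℝ) (y : V (Ta s)),
    ‖v‖ ≤ T ∧ ‖y‖ ≤ θ * R k ∧ g • q = Ψ k v y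
  lh : ∀ k w, yp s w ∈ ball (0 : V (Ta s)) (R k) →
    Lh M (fun u => p (Ψ k (rv (xm s Q L (H k) u)) (yp s u))) w
  met : ∀ k w, yp s w ∈ ball (0 : V (Ta s)) (R k) →
    pbF M h (fun u => p (Ψ k (rv (xm s Q L (H k) u)) (yp s u))) w = gM s Q L (H k) (β k) w

namespace Fb

variable {E : Dt M p G r} {Q : Mat r} {c : G → V r} {x : Y → V r} {h : X → Mat ι} {s : Finset ι}
  {L : Matrix r (Sg' s) ℂ} (B : Fb E Q c x h s L)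

/-- the transversal ball. -/
def Bl (k : B.κ) : Set (V (Ta s)) := ball 0 (B.R k)

/-- the developed chart of the covering space. -/
def Θt (k : B.κ) (w : V ι) : Y := B.Ψ k (rv (xm s Q L (B.H k) w)) (yp s w)

/-- the developed chart. -/
def Θ (k : B.κ) (w : V ι) : X := p (B.Θt k w)

/-- the metric in the developed chart. -/
def g (k : B.κ) : V ι → Mat ι := gM s Q L (B.H k) (B.β k)

/-- the logarithm of its determinant. -/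
def ψ (k : B.κ) : V (Ta s) → ℝ := psi s L (B.H k) (B.β k)

/-- the translations. -/
def sh (k : B.κ) : (r → ℝ) → V ι → V ι := shf s Q L (B.H k)

/-- the complex structure. -/
def J (k : B.κ) (y : V (Ta s)) : Mat r := jM Q (B.H k y)

/-- the leaf relation. -/
def Rel (k l : B.κ) (γ : G) (y y' : V (Ta s)) : Prop :=
  y ∈ B.Bl k ∧ y' ∈ B.Bl l ∧ ∀ u, B.Ψ l (rA E.ρ E.reR γ u + rv (c γ)) y' = γ • B.Ψ k u y

/-- the axioms of the pseudogroup, first part. -/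
structure Ok1 : Prop where
  ne : Nonempty B.κ
  met : ∀ k, HS.E.Met (fun u => rb (B.β k u)) (ball 0 (B.R k))
  coc : ∀ a b, rv (c (a * b)) = rv (c a) + rA E.ρ E.reR a (rv (c b))
  refl : ∀ {k y}, y ∈ B.Bl k → B.Rel k k 1 y y
  symm : ∀ {k l γ y y'}, B.Rel k l γ y y' → B.Rel l k γ⁻¹ y' y
  trans : ∀ {k l m γ δ y y' y''}, B.Rel k l γ y y' → B.Rel l m δ y' y'' → B.Rel k m (δ * γ) y y''
  uniq : ∀ {k l γ y y' y''}, B.Rel k l γ y y' → B.Rel k l γ y y'' → y' = y''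
  loc : ∀ {k l γ y y'}, B.Rel k l γ y y' → ∃ φ, φ y = y' ∧
    HS.E.LIso (fun u => rb (B.β k u)) (fun u => rb (B.β l u)) φ y ∧ ∀ᶠ w in 𝓝 y, B.Rel k l γ w (φ w)
  clos : ∀ {k l γ y y'}, y ∈ B.Bl k → y' ∈ B.Bl l →
    (∃ᶠ q : V (Ta s) × V (Ta s) in 𝓝 (y, y'), B.Rel k l γ q.1 q.2) → B.Rel k l γ y y'
  faith : ∀ {k γ y}, B.Rel k k γ y y → rA E.ρ E.reR γ = 1 → rv (c γ) = 0 → γ = 1

/-- the axioms of the pseudogroup, second part. -/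
structure Ok2 : Prop where
  conn : ∀ S : B.κ → G → Prop, (∀ k l γ δ y y', B.Rel k l δ y y' → S k (γ * δ) → S l γ) →
    ∀ k γ l δ, S k γ → S l δ
  disc : ∀ k l R R' T, R < B.R k → R' < B.R l → {γ | ‖rv (c γ)‖ ≤ T ∧
    ∃ y ∈ closedBall (0 : V (Ta s)) R, ∃ y' ∈ closedBall (0 : V (Ta s)) R', B.Rel k l γ y y'}.Finite
  bd : ∀ k l R R', R < B.R k → R' < B.R l → ∃ C, ∀ γ, ∀ y ∈ closedBall (0 : V (Ta s)) R,
    ∀ y' ∈ closedBall (0 : V (Ta s)) R', B.Rel k l γ y y' → ‖rA E.ρ E.reR γ‖ ≤ C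
  cpt : ∃ θ < (1 : ℝ), ∃ T, ∀ k, ∀ y ∈ B.Bl k, ∀ v, ∃ l γ,
    ∃ y' ∈ closedBall (0 : V (Ta s)) (θ * B.R l), B.Rel k l γ y y' ∧
      ‖rA E.ρ E.reR γ v + rv (c γ)‖ ≤ T

/-- the axioms of the pseudogroup. -/
structure Ok : Prop extends B.Ok1, B.Ok2

/-- the pseudogroup. -/
def pg (ok : B.Ok) : PG G (r → ℝ) (V (Ta s)) where
  κ := B.κ
  fin := B.fin
  ne := ok.ne
  yc := fun _ => 0
  yr := B.R
  pos := fun k => (B.mo k).pos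
  g := fun k u => rb (B.β k u)
  met := ok.met
  A := rA E.ρ E.reR
  c := fun γ => rv (c γ)
  coc := ok.coc
  Rel := B.Rel
  mem := fun h => ⟨h.1, h.2.1⟩
  refl := ok.refl
  symm := ok.symm
  trans := ok.trans
  uniq := ok.uniq
  loc := ok.loc
  clos := ok.clos
  conn := ok.conn
  disc := ok.disc
  bd := ok.bd
  cpt := ok.cpt
  faith := ok.faith

/-- smooth basic sections. -/
def SB (a : ℕ) : Submodule ℂ (X → ℂ) where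
  carrier := {σ | M.CkS ∞ a σ ∧ ∀ k w t, yp s w ∈ B.Bl k →
    pb M a σ (B.Θ k) (B.sh k t w) = pb M a σ (B.Θ k) w}
  add_mem' := by
    rintro σ τ ⟨h1, h2⟩ ⟨h3, h4⟩
    refine ⟨ckS_add h1 h3, fun k w t hw => ?_⟩
    have e : ∀ u, pb M a (σ + τ) (B.Θ k) u = pb M a σ (B.Θ k) u + pb M a τ (B.Θ k) u :=
      fun u => mul_add _ _ _
    rw [e, e, h2 k w t hw, h4 k w t hw]
  zero_mem' := by
    have e : ∀ e, M.rep a (0 : X → ℂ) e = fun _ => 0 := fun e => rep_zero e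
    refine ⟨fun e' _ z _ => ?_, fun k w t _ => by simp [pb]⟩
    rw [e]
    exact contDiffAt_const
  smul_mem' := by
    rintro d σ ⟨h1, h2⟩
    refine ⟨ckS_cmul d h1, fun k w t hw => ?_⟩
    have e : ∀ u, pb M a (d • σ) (B.Θ k) u = d * pb M a σ (B.Θ k) u :=
      fun u => mul_left_comm _ _ _
    rw [e, e, h2 k w t hw]

variable (ok : B.Ok)

/-- the change of developed charts. -/
def tr (k l : B.κ) (γ : G) : V ι → V ι :=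
  trM s Q L (B.H k) (B.H l) (E.ρ γ) (c γ) ((B.pg ok).rm k l γ)

/-- overlaps of the developed charts. -/
structure OvS : Prop where
  surj : ∀ a : X, ∃ k w, yp s w ∈ B.Bl k ∧ B.Θ k w = a
  cont : ∀ k w, yp s w ∈ B.Bl k → ContinuousAt (B.Θt k) w
  ex : ∀ k l w w', yp s w ∈ B.Bl k → yp s w' ∈ B.Bl l → B.Θ k w = B.Θ l w' →
    ∃ γ, B.Rel k l γ (yp s w) (yp s w') ∧ B.tr ok k l γ w = w'
  hol : ∀ k l γ y y', B.Rel k l γ y y' → AnalyticAt ℂ ((B.pg ok).rm k l γ) y ∧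
    B.H l y' = (E.ρ γ⁻¹)ᵀ * B.H k y * E.ρ γ⁻¹ ∧ B.J l y' = E.ρ γ * B.J k y * E.ρ γ⁻¹ ∧
    B.β k y = pull (jac ((B.pg ok).rm k l γ) y) (B.β l y') ∧ (jac ((B.pg ok).rm k l γ) y).det ≠ 0 ∧
    (zM Q L (B.H l y') * E.ρ γ * L).det ≠ 0
  tr : ∀ k l γ w y', B.Rel k l γ (yp s w) y' → AnalyticAt ℂ (B.tr ok k l γ) w ∧
    yp s (B.tr ok k l γ w) = y' ∧ B.Θ k =ᶠ[𝓝 w] B.Θ l ∘ B.tr ok k l γ ∧
    (jac (B.tr ok k l γ) w).det =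
      (zM Q L (B.H l y') * E.ρ γ * L).det * (jac ((B.pg ok).rm k l γ) (yp s w)).det ∧
    ∀ t, B.tr ok k l γ (B.sh k t w) = B.sh l ((B.pg ok).A γ t) (B.tr ok k l γ w)
  per : ∀ k γ, (B.pg ok).Fk k γ → (B.pg ok).A γ = 1 → ∀ w, yp s w ∈ B.Bl k →
    B.Θ k (B.sh k ((B.pg ok).c γ) w) = B.Θ k w

/-- the dictionary between the manifold and the developed charts. -/
structure DiS : Prop where
  sm : ∀ a σ k w, yp s w ∈ B.Bl k → M.CkS ∞ a σ → ContDiffAt ℝ ∞ (pb M a σ (B.Θ k)) w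
  sm' : ∀ a σ, (∀ u, ∃ k w, yp s w ∈ B.Bl k ∧ B.Θ k w = u ∧ ContDiffAt ℝ ∞ (pb M a σ (B.Θ k)) w) →
    M.CkS ∞ a σ
  hol : ∀ a σ k w, yp s w ∈ B.Bl k → M.HolS a σ → DifferentiableAt ℂ (pb M a σ (B.Θ k)) w
  ext : ∀ a σ σ', (∀ k w, yp s w ∈ B.Bl k → pb M a σ (B.Θ k) w = pb M a σ' (B.Θ k) w) → σ = σ'
  gsm : ∀ k w, yp s w ∈ B.Bl k → SmR (B.g k) w
  box : ∀ a σ k w, yp s w ∈ B.Bl k → M.CkS ∞ a σ →
    pb M a (M.box a h σ) (B.Θ k) w = boxL a (B.g k) (pb M a σ (B.Θ k)) w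
  ip0 : ∀ a σ τ k w, yp s w ∈ B.Bl k →
    σ (B.Θ k w) * star (τ (B.Θ k w)) * (wt a h h (B.Θ k w) : ℝ) =
      pb M a σ (B.Θ k) w * star (pb M a τ (B.Θ k) w) * (Real.exp (-a * B.ψ k (yp s w)) : ℝ)
  ip1 : ∀ a σ τ k w (F : X → Mat ι), yp s w ∈ B.Bl k → M.CkS ∞ a σ → M.CkS ∞ a τ →
    ipV (F (B.Θ k w)) (M.shpX a h σ (B.Θ k w)) (M.shpX a h τ (B.Θ k w)) *
        (wt a h h (B.Θ k w) : ℝ) =
      ipV (pbF M F (B.Θ k) w) (shp (B.g k) (pb M a σ (B.Θ k)) w)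
        (shp (B.g k) (pb M a τ (B.Θ k)) w) * (Real.exp (-a * B.ψ k (yp s w)) : ℝ)
  ric : ∀ k w, yp s w ∈ B.Bl k →
    pbF M (fun u => -M.ricF h u) (B.Θ k) w = bk s 0 0 0 (B.β k (yp s w))

/-- descent of sections. -/
def DescS : Prop := ∀ (a : ℕ) (F : B.κ → V ι → ℂ), (∀ k l γ w y', B.Rel k l γ (yp s w) y' →
  F k w = (jac (B.tr ok k l γ) w).det ^ a * F l (B.tr ok k l γ w)) →
  ∃ σ, ∀ k w, yp s w ∈ B.Bl k → pb M a σ (B.Θ k) w = F k w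

/-- the elements which fix the leaves are unitary. -/
def EucS : Prop := ∃ n, (B.pg ok).Euc n

/-! ### the fields preserve the period map -/

/-- the elements which fix the period map. -/
def K0 (k : B.κ) (A : Mat r) : Prop := Sp Q A ∧ ∀ y ∈ B.Bl k, A * B.J k y = B.J k y * A

/-- the elements which act as one of the fields. -/
def Zc {q : ℕ} (ξ : B.κ → Fin q → V (Ta s) → V (Ta s)) (k : B.κ) (A : Mat r) : Prop :=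
  Sp Q A ∧ ∃ t : Fin q → ℝ, ∀ y ∈ B.Bl k,
    dF (B.J k) y (∑ a, t a • ξ k a y) = A * B.J k y - B.J k y * A

def LxS : Prop := ∀ k, ∀ η ∈ (B.pg ok).NN k, ∃ A, Sp Q A ∧
  ∀ y ∈ B.Bl k, dF (B.J k) y (η y) = A * B.J k y - B.J k y * A

def ZcS : Prop := ∀ q ξ, (B.pg ok).Fields q ξ → ∀ k l γ y y', B.Rel k l γ y y' → ∀ A,
  (B.Zc ξ k A → B.Zc ξ l (E.ρ γ * A * E.ρ γ⁻¹)) ∧ (B.K0 k A → B.K0 l (E.ρ γ * A * E.ρ γ⁻¹))

def AbZS : Prop := ∀ q ξ, (B.pg ok).Fields q ξ → ∀ k A A', B.Zc ξ k A →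
  (B.Zc ξ k A' → B.K0 k (A * A' - A' * A)) ∧ (B.K0 k A' → B.K0 k (A * A' - A' * A))

def InvB : Prop := ∀ n : Submodule ℂ (Mat r), (∀ γ, ∀ A ∈ n, E.ρ γ * A * E.ρ γ⁻¹ ∈ n) →
  ∀ k, ∀ y ∈ B.Bl k, ∀ v, ∀ A ∈ n,
    (B.H k y)⁻¹ * dF (B.H k) y v * A - A * ((B.H k y)⁻¹ * dF (B.H k) y v) ∈ n

/-- the fields preserve the metric on the leaves. -/
def Fix {q : ℕ} (ξ : B.κ → Fin q → V (Ta s) → V (Ta s)) : Prop :=
  ∀ k a, ∀ y ∈ B.Bl k, ∀ t : ℂ, dF (B.H k) y (t • ξ k a y) = 0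

def FixS : Prop := ∀ q ξ, (B.pg ok).Fields q ξ → B.Fix ξ

/-! ### the Bochner argument -/

def GenS8 : Prop := ∀ q ξ, (B.pg ok).Fields q ξ → B.Fix ξ → ∀ k,
  (∀ O : Set (V (Ta s)), IsOpen O → O.Nonempty → O ⊆ B.Bl k →
    ∃ y ∈ O, LinearIndependent ℂ fun a => ξ k a y) ∧
  ∀ y ∈ B.Bl k, ∀ a, ξ k a y ᵥ* (ric (B.β k) y + B.β k y) = 0

def BochS8 : Prop := ∀ q ξ, (B.pg ok).Fields q ξ → ¬ B.Fix ξ

/-! ### sections -/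

def BoxS : Prop := (∀ a k t w (F : V ι → ℂ), yp s w ∈ B.Bl k → ContDiffAt ℝ 2 F (B.sh k t w) →
    boxL a (B.g k) (fun u => F (B.sh k t u)) w = boxL a (B.g k) F (B.sh k t w)) ∧
  ∀ a, ∀ σ ∈ B.SB a, M.box a h σ ∈ B.SB a

/-- averages over the points of order `n` of the leaves. -/
def AvS : Prop := ∀ N, (B.pg ok).Lat N → ∀ a n : ℕ, 0 < n → ∃ S : Finset (r → ℝ), S.Nonempty ∧
  ∀ σ : X → ℂ, (∃ σ', ∀ k w, yp s w ∈ B.Bl k →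
      pb M a σ' (B.Θ k) w = ∑ t ∈ S, pb M a σ (B.Θ k) (B.sh k t w)) ∧
    ∀ γ t₀, (B.pg ok).Fx γ → (B.pg ok).A γ = 1 → (n : ℝ) • t₀ = (B.pg ok).c γ →
      ∀ k w, yp s w ∈ B.Bl k → ∑ t ∈ S, pb M a σ (B.Θ k) (B.sh k (t + t₀) w) =
        ∑ t ∈ S, pb M a σ (B.Θ k) (B.sh k t w)

def ResS8 : Prop := ∀ N, (B.pg ok).Lat N → ∀ a, ∀ η ∈ Ioc (0 : ℝ) 1, ∀ σ, M.CkS ∞ a σ →
  (fun u => (η : ℂ) * σ u - M.box a h σ u) ∈ B.SB a → σ ∈ B.SB a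

def HolB : Prop := ∀ N, (B.pg ok).Lat N → ∀ a σ, M.CkS ∞ a σ → M.HolS a σ → σ ∈ B.SB a

/-- sections with support in a tube. -/
def ExtS8 : Prop := ∀ N, (B.pg ok).Lat N → ∀ k y₀ ρ, (B.pg ok).Tube k y₀ ρ → ∀ a, N ∣ a →
  ∀ f : V (Ta s) → ℂ, ContDiff ℝ ∞ f → tsupport f ⊆ ball y₀ ρ → ∃ σ ∈ B.SB a,
    (∀ w, yp s w ∈ ball y₀ ρ → pb M a σ (B.Θ k) w = f (yp s w)) ∧
    ∀ u, (∀ w, yp s w ∈ tsupport f → B.Θ k w ≠ u) → ∀ᶠ u' in 𝓝 u, σ u' = 0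

variable [MeasurableSpace X]

def GapS : Prop := ∀ μ, M.IsVol h μ → ∀ b : ℕ, ∀ σ ∈ B.SB (b + 1),
  b * (M.ip1 μ (b + 1) h h σ σ).re ≤
    (M.ip0 μ (b + 1) h h (M.box (b + 1) h σ) (M.box (b + 1) h σ)).re

/-- integrals over a tube. -/
def MeasS : Prop := ∀ μ, M.IsVol h μ → ∀ N, (B.pg ok).Lat N → ∀ k, ∀ y₀ ∈ B.Bl k, ∀ ρ > 0,
  ∃ δ > 0, δ ≤ ρ ∧ ∃ c₁ > 0, ∃ c₂ > 0, closedBall y₀ δ ⊆ B.Bl k ∧
    ∀ (φ : X → ℝ≥0∞) (f : V (Ta s) → ℝ≥0∞), Measurable f → (∀ w, yp s w ∈ ball y₀ δ → φ (B.Θ k w) = f (yp s w)) →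
    ENNReal.ofReal c₁ * ∫⁻ y in ball y₀ δ, ENNReal.ofReal (Real.exp (B.ψ k y)) * f y ≤
      ∫⁻ u, φ u ∂μ ∧
    ((∀ u, (∀ w, yp s w ∈ ball y₀ δ → B.Θ k w ≠ u) → φ u = 0) → ∫⁻ u, φ u ∂μ ≤
      ENNReal.ofReal c₂ * ∫⁻ y in ball y₀ δ, ENNReal.ofReal (Real.exp (B.ψ k y)) * f y)

/-- many peak sections. -/
def PeakV : Prop := ∀ μ, M.IsVol h μ → ∀ N, (B.pg ok).Lat N → ∃ c₀ > 0, ∀ᶠ b : ℕ in atTop,
  N ∣ b + 1 → ∃ (q : ℕ) (f : Fin q → X → ℂ), c₀ * (b : ℝ) ^ (Fintype.card ι - s.card) ≤ q ∧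
    (∀ j, f j ∈ B.SB (b + 1)) ∧
    (∀ i j, M.ip0 μ (b + 1) h h (f i) (f j) = if i = j then 1 else 0) ∧
    ∀ d : Fin q → ℂ, (M.ip1 μ (b + 1) h h (fun u => ∑ j, d j * f j u)
      fun u => ∑ j, d j * f j u).re ≤ b / 16 * ∑ j, ‖d j‖ ^ 2

end Fb

/-- adapted charts develop. -/
def FbS (E : Dt M p G r) (Q : Mat r) (c : G → V r) (x : Y → V r) (h : X → Mat ι) : Prop :=
  ∀ (s : Finset ι) (L : Matrix r (Sg' s) ℂ), Nonempty (Ac E Q c x h s L) →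
    Nonempty (Fb E Q c x h s L)

end

end Pool.Agent.Lib.MP_813db1_ag.VH.S8
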