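import Pool.Agent.Lib.MP_813db1_ag.VH.S8.PG
import Pool.Agent.Lib.MP_813db1_ag.HS.E.Montel

/-! Existence and transport of the limit fields. -/

namespace Pool.Agent.Lib.MP_813db1_ag.VH.S8.PG

open Pool.Agent.Lib.MP_813db1_ag.HS.E (montel)
open Set Filter Topology Metric

noncomputable section

variable {G F W : Type} [Group G] [NormedAddCommGroup F] [NormedSpace ℝ F]
  [NormedAddCommGroup W] [NormedSpace ℂ W] [NormedSpace ℝ W] [IsScalarTower ℝ ℂ W]
  [FiniteDimensional ℂ W] {P : PG G F W}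

namespace MkAux

variable {k l : P.κ}

omit [FiniteDimensional ℂ W] in
theorem diff {γ : G} {c : W} {R : ℝ} (a : ℝ)
    (h : ∀ y ∈ ball c R, P.Rel k k γ y (P.rm k k γ y)) :
    DifferentiableOn ℂ (fun y => a • (P.rm k k γ y - y)) (ball c R) := fun y hy =>
  (((liso (h y hy)).diff.sub differentiableAt_id).const_smul a).differentiableWithinAt

end MkAux

open MkAux in
theorem mkS (hE : P.ExtS) : P.MkS := by
  intro k y₀ ρ R₀ C₀ hρ hs hR hC 𝓤 t s h0 hl h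
  have key : ∀ R < P.yr k, ∃ C, ∀ᶠ j in (𝓤 : Filter ℕ), P.Sm k (P.yc k) R (C * s j) (t j) :=
    fun R hR' => by
    obtain ⟨η, hη, C, -, hC'⟩ := hE k y₀ ρ (max R R₀) hρ
      (hs.trans (closedBall_subset_closedBall (le_max_right _ _))) (max_lt hR' hR)
    have h1 : Tendsto (fun j => C₀ * s j) 𝓤 (𝓝 0) := by simpa using hl.const_mul C₀
    refine ⟨C * C₀, ?_⟩
    filter_upwards [h, h1.eventually (ge_mem_nhds hη)] with j a b
    exact (hC' _ _ (mul_nonneg hC (h0 j).le) b a).mono (ball_subset_ball (le_max_left _ _))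
      (by rw [mul_assoc])
  obtain ⟨ξ, h1, h2⟩ := (montel (Y := W)).1 𝓤 (fun j y => (s j)⁻¹ • (P.rm k k (t j) y - y))
    (P.yc k) (P.yr k) fun R hR' => by
      obtain ⟨C, hC'⟩ := key R hR'
      refine ⟨C, hC'.mono fun j a => ⟨diff _ fun y hy => (a.rm hy).1, fun y hy => ?_⟩⟩
      rw [norm_smul, norm_inv, Real.norm_of_nonneg (h0 j).le, inv_mul_le_iff₀ (h0 j), mul_comm]
      exact (a.rm hy).2
  refine ⟨ξ, h1, fun R hR' => ⟨?_, h2 R hR'⟩⟩
  obtain ⟨C, hC'⟩ := key R hR'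
  exact hC'.mono fun j a y hy => (a.rm hy).1

namespace MkAux

variable {k l : P.κ}

theorem tp (hU : P.UnifS) (hE : P.ExtS) {γ : G} {y y' : W} {ξ : W → W} (h : P.Rel k l γ y y')
    (hξ : P.Lim k ξ) : ∃ ξ', P.Lim l ξ' ∧
      ∀ᶠ w in 𝓝 y, fderiv ℂ (P.rm k l γ) w (ξ w) = ξ' (P.rm k l γ w) := by
  obtain ⟨-, 𝓤, t, s, h0, hl, hA, hL⟩ := hξ
  obtain ⟨R, hR1, hR2⟩ := exists_between (show dist y (P.yc k) < P.yr k from (P.mem h).1)
  obtain ⟨R', hR1', hR2'⟩ := exists_between (show dist y' (P.yc l) < P.yr l from (P.mem h).2)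
  obtain ⟨ρ, hρ, C, hC, hUn⟩ := hU k l R R' hR2 hR2'
  obtain ⟨u1, u2⟩ := hUn γ y hR1.le y' hR1'.le h
  obtain ⟨l1, l2⟩ := hL R hR2
  have hc : ContinuousAt ξ y :=
    ((montel (Y := W)).2 𝓤 _ ξ _ R (l1.mono fun j a => diff _ a) l2).1.continuousOn.continuousAt
      (isOpen_ball.mem_nhds hR1)
  have hN : ∀ᶠ w in 𝓝 y, w ∈ ball (P.yc k) R ∧ w ∈ ball y (ρ / 2) ∧ ‖ξ w‖ < ‖ξ y‖ + 1 :=
    (isOpen_ball.eventually_mem hR1).and ((isOpen_ball.eventually_mem
      (mem_ball_self (half_pos hρ))).and (hc.norm.eventually (gt_mem_nhds (lt_add_one _))))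
  have h1 : Tendsto (fun j => (‖ξ y‖ + 2) * s j) 𝓤 (𝓝 0) := by simpa using hl.const_mul _
  have hA' : Tendsto (fun j => P.A (γ * t j * γ⁻¹)) 𝓤 (𝓝 1) := by
    have := (hA.const_mul (P.A γ)).mul_const (P.A γ⁻¹)
    rw [mul_one, A_mul_inv] at this
    simpa only [map_mul] using this
  have hJ : ∀ᶠ j in (𝓤 : Filter ℕ), ∀ w, w ∈ ball (P.yc k) R ∧ w ∈ ball y (ρ / 2) ∧
      ‖ξ w‖ < ‖ξ y‖ + 1 → ‖P.rm k k (t j) w - w‖ ≤ (‖ξ y‖ + 2) * s j ∧
        P.rm k k (t j) w ∈ ball y ρ ∧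
        P.Rel l l (γ * t j * γ⁻¹) (P.rm k l γ w) (P.rm k l γ (P.rm k k (t j) w)) := by
    filter_upwards [l1, Metric.tendstoUniformlyOn_iff.1 l2 1 one_pos,
      h1.eventually (gt_mem_nhds (half_pos hρ))] with j a b c w hw
    have e1 : ‖P.rm k k (t j) w - w‖ ≤ (‖ξ y‖ + 2) * s j := by
      have e2 := b w hw.1
      rw [dist_eq_norm'] at e2
      have e3 := norm_le_norm_add_norm_sub' ((s j)⁻¹ • (P.rm k k (t j) w - w)) (ξ w)
      rw [norm_smul, norm_inv, Real.norm_of_nonneg (h0 j).le] at e3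
      rw [mul_comm, ← inv_mul_le_iff₀ (h0 j)]
      linarith [hw.2.2]
    have e4 : P.rm k k (t j) w ∈ ball y ρ := by
      have e5 := dist_triangle (P.rm k k (t j) w) w y
      have e6 : dist w y < ρ / 2 := hw.2.1
      rw [dist_eq_norm (P.rm k k (t j) w) w] at e5
      rw [mem_ball]
      linarith
    refine ⟨e1, e4, ?_⟩
    rw [mul_assoc]
    exact P.trans (P.trans (P.symm (u1 w (ball_subset_ball (half_lt_self hρ).le hw.2.1)))
      (a w hw.1)) (u1 _ e4)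
  obtain ⟨ρ', hρ', hb⟩ := Metric.eventually_nhds_iff_ball.1
    (((loc' (P.symm h)).2.and ((tendsto (P.symm h)).eventually hN)).and
      (isOpen_ball.eventually_mem hR1'))
  obtain ⟨ξ', a, b⟩ := mkS hE l y' ρ' R' (C * (‖ξ y‖ + 2)) hρ'
    (fun v hv => ball_subset_closedBall (hb v hv).2) hR2' (by positivity) 𝓤
    (fun j => γ * t j * γ⁻¹) s h0 hl (hJ.mono fun j c w' hw' => by
      obtain ⟨⟨d1, d2⟩, -⟩ := hb w' hw'
      obtain ⟨c1, c2, c3⟩ := c _ d2
      have e : P.rm k l γ (P.rm l k γ⁻¹ w') = w' := by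
        have := rm_eq (P.symm d1)
        rwa [inv_inv] at this
      have f := u2 _ c2 _ (ball_subset_ball (half_lt_self hρ).le d2.2.1)
      rw [e] at c3 f
      refine ⟨_, c3, f.trans ?_⟩
      rw [mul_assoc]
      gcongr)
  refine ⟨ξ', ⟨a, 𝓤, fun j => γ * t j * γ⁻¹, s, h0, hl, hA', b⟩, ?_⟩
  filter_upwards [hN, (tendsto h).eventually (isOpen_ball.eventually_mem hR1'),
    (liso h).eventually] with w hw hw' hd
  have d1 : Tendsto (fun j => P.rm k k (t j) w - w) 𝓤 (𝓝 0) :=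
    squeeze_zero_norm' (hJ.mono fun j c => (c w hw).1) h1
  have d2 := (hd.diff.hasFDerivAt.restrictScalars ℝ).hasFDerivWithinAt.lim (s := univ) d1
    (Eventually.of_forall fun _ => mem_univ _) (l2.tendsto_at hw.1)
  refine tendsto_nhds_unique d2 (((b R' hR2').2.tendsto_at hw').congr' ?_)
  filter_upwards [hJ] with j c
  rw [rm_eq (c w hw).2.2, add_sub_cancel]

end MkAux

theorem tpS (hU : P.UnifS) (hE : P.ExtS) : P.TpS := by
  intro k l γ y y' h ξ hξ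
  induction hξ using Submodule.span_induction with
  | mem x hx =>
    obtain ⟨ξ', a, b⟩ := MkAux.tp hU hE h hx
    exact ⟨ξ', Submodule.subset_span a, b⟩
  | zero => exact ⟨0, zero_mem _, Eventually.of_forall fun w => by simp⟩
  | add a b _ _ e1 e2 =>
    obtain ⟨a', a1, a2⟩ := e1
    obtain ⟨b', b1, b2⟩ := e2
    exact ⟨a' + b', add_mem a1 b1, (a2.and b2).mono fun w hw => by
      rw [Pi.add_apply, map_add, hw.1, hw.2, Pi.add_apply]⟩
  | smul c a _ e =>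
    obtain ⟨a', a1, a2⟩ := e
    exact ⟨c • a', Submodule.smul_mem _ c a1, a2.mono fun w hw => by
      rw [Pi.smul_apply, ContinuousLinearMap.map_smul_of_tower, hw, Pi.smul_apply]⟩

end

end Pool.Agent.Lib.MP_813db1_ag.VH.S8.PG
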