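import Pool.Agent.Lib.MP_813db1_ag.VH.S8.Defs

/-! Section 8: local statements, and the construction of adapted charts. -/

namespace Pool.Agent.Lib.MP_813db1_ag.VH.S8

open Pool.Agent.Lib.MP_813db1_ag.HS Pool.Agent.Lib.MP_813db1_ag.AS
open MeasureTheory Complex Matrix Filter Topology Set Metric
open scoped ContDiff ComplexOrder

/-! ### algebra -/

def AlgS : Prop := ∀ (r σ : Type) [Fintype r] [DecidableEq r] [Fintype σ] [DecidableEq σ]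
  (Q : Mat r) (L : Matrix r σ ℂ) (H : Mat r), Lag Q L → Sg Q H → Alg Q L H

def LagS : Prop := ∀ (r σ : Type) [Fintype r] [DecidableEq r] [Fintype σ] [DecidableEq σ]
  (Q : Mat r), Rl Q → Qᵀ = -Q → Q.det ≠ 0 → Fintype.card r = 2 * Fintype.card σ →
  ∃ L : Matrix r σ ℂ, Lag Q L

def PtS : Prop := ∀ (ι r σ : Type) [Fintype ι] [DecidableEq ι] [Fintype r] [DecidableEq r]
  [Fintype σ] [DecidableEq σ] (Q : Mat r) (L : Matrix r σ ℂ) (H : Mat r) (G : Mat ι)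
  (D : Matrix r ι ℂ), Lag Q L → Sg Q H → G.PosDef → jM Q H * D = I • D →
  (2 : ℂ) • (D * (G⁻¹)ᵀ * Dᴴ * H) = 1 - I • jM Q H → Pt Q L H G D

/-- abelian subspaces which are stable under the Higgs field commute with `J`. -/
def NilS : Prop := ∀ (r : Type) [Fintype r] [DecidableEq r] (Q H A D : Mat r)
  (n : Submodule ℂ (Mat r)), Rl Q → Qᵀ = -Q → Sg Q H → Sp Q A → A ∈ n →
  (∀ B ∈ n, ∀ B' ∈ n, B * B' = B' * B) → D = A * jM Q H - jM Q H * A →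
  jM Q H * D * A - A * (jM Q H * D) ∈ n → D * A - A * D ∈ n → D = 0

/-- the trace form is definite on the elements which commute with `J`. -/
def TfS : Prop := ∀ (r : Type) [Fintype r] [DecidableEq r] (Q H : Mat r)
  (k z : Submodule ℝ (Mat r)), Rl Q → Qᵀ = -Q → Sg Q H → k ≤ z → (∀ A ∈ z, Rl A) →
  (∀ K ∈ k, Sp Q K ∧ K * jM Q H = jM Q H * K) →
  (∀ K ∈ k, trace (K * K) = 0 → K = 0) ∧
    ∀ A ∈ z, ∃ K ∈ k, ∀ K' ∈ k, trace ((A - K) * K') = 0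

/-- isometries between compact families of metrics are bounded. -/
def BdS : Prop := ∀ (r : Type) [Fintype r] [DecidableEq r] (K K' : Set (Mat r)), IsCompact K →
  IsCompact K' → (∀ H ∈ K, H.PosDef) → (∀ H ∈ K', H.PosDef) → ∃ C, ∀ H ∈ K, ∀ H' ∈ K',
  ∀ ρ : Mat r, Rl ρ → ρᵀ * H' * ρ = H → ‖rL ρ‖ ≤ C

/-- representatives of the points of order `n` of a torus. -/
def AvL : Prop := ∀ (F : Type) [NormedAddCommGroup F] [NormedSpace ℝ F] (Λ : AddSubgroup F) (R : ℝ),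
  (∀ T : ℝ, {v ∈ (Λ : Set F) | ‖v‖ ≤ T}.Finite) → (∀ v, ∃ u ∈ Λ, ‖v + u‖ ≤ R) →
  (∀ n : ℕ, 0 < n → ∃ S : Finset F, S.Nonempty ∧ ∀ f : F → ℂ, (∀ v, ∀ u ∈ Λ, f (v + u) = f v) →
    (∀ A A' : F →L[ℝ] F, A * A' = 1 → A' * A = 1 → (∀ u ∈ Λ, A u ∈ Λ ∧ A' u ∈ Λ) →
      ∑ t ∈ S, f (A t) = ∑ t ∈ S, f t) ∧
    ∀ t₀, (n : ℝ) • t₀ ∈ Λ → ∑ t ∈ S, f (t + t₀) = ∑ t ∈ S, f t) ∧
  ∀ f : F → ℂ, Continuous f → (∀ (n : ℕ) t, 0 < n → (n : ℝ) • t ∈ Λ → f t = f 0) → ∀ t, f t = f 0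

/-! ### the model -/

section model

variable (ι r : Type) [Fintype ι] [DecidableEq ι] [Fintype r] [DecidableEq r]

/-- derivatives of the complex structure and of the period matrix. -/
def JzS : Prop := ∀ (s : Finset ι) (Q : Mat r) (L : Matrix r (Sg' s) ℂ) (H : V (Ta s) → Mat r)
  (R : ℝ), Mo0 s Q L H R → ∀ y ∈ ball (0 : V (Ta s)) R, SmR (fun w => jM Q (H w)) y ∧ ∀ v,
    dF (fun w => jM Q (H w)) y (I • v) = jM Q (H y) * dF (fun w => jM Q (H w)) y v ∧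
    (H y)⁻¹ * dF H y v = -(jM Q (H y) * dF (fun w => jM Q (H w)) y v) ∧
    ∀ A : Mat r, Rl A → (dF (fun w => jM Q (H w)) y v = A * jM Q (H y) - jM Q (H y) * A ↔
      dF (fun w => zM Q L (H w)) y v = -(zM Q L (H y) * A * (1 - L * zM Q L (H y))))

/-- the form of the affine coordinate. -/
def ModS : Prop := ∀ (s : Finset ι) (Q : Mat r) (L : Matrix r (Sg' s) ℂ) (H : V (Ta s) → Mat r)
  (R : ℝ), Mo0 s Q L H R → ∀ w, yp s w ∈ ball (0 : V (Ta s)) R → SmV (xm s Q L H) w ∧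
    ∀ β, gM s Q L H β w = xiL (fun u => H (yp s u)) (xm s Q L H) w + bk s 0 0 0 (β (yp s w))

/-- changes of models. -/
def TrS : Prop := ∀ (s : Finset ι) (Q : Mat r) (L : Matrix r (Sg' s) ℂ) (H H' : V (Ta s) → Mat r)
  (R R' : ℝ) (ρ ρ' : Mat r) (c : V r) (φ : V (Ta s) → V (Ta s)) (w : V ι), Mo0 s Q L H R →
  Mo0 s Q L H' R' → Rl ρ → ρ' * ρ = 1 → ρᵀ * Q * ρ = Q → star c = c →
  yp s w ∈ ball (0 : V (Ta s)) R → φ (yp s w) ∈ ball (0 : V (Ta s)) R' →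
  AnalyticAt ℂ φ (yp s w) → (∀ᶠ u in 𝓝 (yp s w), H' (φ u) = ρ'ᵀ * H u * ρ') →
  AnalyticAt ℂ (trM s Q L H H' ρ c φ) w ∧
    xm s Q L H' (trM s Q L H H' ρ c φ w) = ρ *ᵥ xm s Q L H w + c ∧
    (jac (trM s Q L H H' ρ c φ) w).det =
      (zM Q L (H' (φ (yp s w))) * ρ * L).det * (jac φ (yp s w)).det ∧
    (zM Q L (H' (φ (yp s w))) * ρ * L).det ≠ 0 ∧
    (∀ t, trM s Q L H H' ρ c φ (shf s Q L H t w) =
      shf s Q L H' (rv (ρ *ᵥ cv t)) (trM s Q L H H' ρ c φ w)) ∧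
    ∀ β β' : V (Ta s) → Mat (Ta s), β (yp s w) = pull (jac φ (yp s w)) (β' (φ (yp s w))) →
      gM s Q L H β w = pull (jac (trM s Q L H H' ρ c φ) w) (gM s Q L H' β' (trM s Q L H H' ρ c φ w))

/-- translations. -/
def ShfS : Prop := ∀ (s : Finset ι) (Q : Mat r) (L : Matrix r (Sg' s) ℂ) (H : V (Ta s) → Mat r)
  (R : ℝ), Mo0 s Q L H R → ∀ w, yp s w ∈ ball (0 : V (Ta s)) R →
  shf s Q L H 0 w = w ∧ Continuous (fun t => shf s Q L H t w) ∧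
  (∀ z, ∃ t, shf s Q L H t w = glue s z (yp s w)) ∧ ∀ t, AnalyticAt ℂ (shf s Q L H t) w ∧
    yp s (shf s Q L H t w) = yp s w ∧ xm s Q L H (shf s Q L H t w) = xm s Q L H w + cv t ∧
    (jac (shf s Q L H t) w).det = 1 ∧
    (∀ t', shf s Q L H t (shf s Q L H t' w) = shf s Q L H (t + t') w) ∧
    ∀ β, gM s Q L H β w = pull (jac (shf s Q L H t) w) (gM s Q L H β (shf s Q L H t w))

/-- the metric of the model. -/
def GmS : Prop := ∀ (s : Finset ι) (Q : Mat r) (L : Matrix r (Sg' s) ℂ) (H : V (Ta s) → Mat r)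
  (β : V (Ta s) → Mat (Ta s)) (R : ℝ), Mo0 s Q L H R → KOn β (ball 0 R) →
  ∀ w, yp s w ∈ ball (0 : V (Ta s)) R → (gM s Q L H β w).PosDef ∧
    (gM s Q L H β w).det = (Real.exp (psi s L H β (yp s w)) : ℝ) ∧
    ContDiffAt ℝ ∞ (psi s L H β) (yp s w) ∧
    ContDiffAt ℝ ∞ (fun y => Real.log ((1 / 2 : ℂ) • muM L (H y)).det.re) (yp s w) ∧
    ric (gM s Q L H β) w = -bk s 0 0 0 (levi (fun y => (psi s L H β y : ℂ)) (yp s w)) ∧
    (∀ f : V (Ta s) → ℂ, ContDiffAt ℝ 2 f (yp s w) →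
      lapL (gM s Q L H β) (fun u => f (yp s u)) w = lapL β f (yp s w)) ∧
    ∀ f f' : V (Ta s) → ℂ, DifferentiableAt ℝ f (yp s w) → DifferentiableAt ℝ f' (yp s w) →
      ipV (gM s Q L H β w) (shp (gM s Q L H β) (fun u => f (yp s u)) w)
        (shp (gM s Q L H β) (fun u => f' (yp s u)) w) =
          ipV (β (yp s w)) (shp β f (yp s w)) (shp β f' (yp s w)) ∧
      ipV (bk s 0 0 0 (β (yp s w))) (shp (gM s Q L H β) (fun u => f (yp s u)) w)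
        (shp (gM s Q L H β) (fun u => f' (yp s u)) w) =
          ipV (β (yp s w)) (shp β f (yp s w)) (shp β f' (yp s w))

end model

/-- Hermitian and Riemannian language. -/
def LisoS : Prop := ∀ (τ : Type) [Fintype τ] [DecidableEq τ] (β β' : V τ → Mat τ),
  (∀ R, KOn β (ball 0 R) → E.Met (fun y => rb (β y)) (ball 0 R)) ∧
  ∀ φ y, E.LIso (fun y => rb (β y)) (fun y => rb (β' y)) φ y ↔
    AnalyticAt ℂ φ y ∧ ∀ᶠ w in 𝓝 y, β w = pull (jac φ w) (β' (φ w))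

/-- maps which preserve transversal forms preserve the leaves. -/
def TvS : Prop := ∀ (ι : Type) [Fintype ι] [DecidableEq ι] (s : Finset ι)
  (β β' : V (Ta s) → Mat (Ta s)) (T : V ι → V ι) (w : V ι), AnalyticAt ℂ T w →
  (∀ᶠ u in 𝓝 w, (β' (yp s (T u))).PosDef ∧
    bk s 0 0 0 (β (yp s u)) = pull (jac T u) (bk s 0 0 0 (β' (yp s (T u))))) →
  ∃ φ, AnalyticAt ℂ φ (yp s w) ∧ (∀ᶠ u in 𝓝 w, yp s (T u) = φ (yp s u)) ∧
    ∀ᶠ y in 𝓝 (yp s w), β y = pull (jac φ y) (β' (φ y))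

/-- curvature of holomorphic subbundles. -/
def Sub8S : Prop := ∀ (τ : Type) [Fintype τ] [DecidableEq τ] (q : ℕ) (U : Set (V τ))
  (H : V τ → Mat τ) (ξ : Fin q → V τ → V τ), IsOpen U → KOn H U →
  (∀ j, AnalyticOnNhd ℂ (ξ j) U) → ∀ z ∈ U, (LinearIndependent ℂ fun j => ξ j z) →
  (∀ j, ξ j z ᵥ* (ric H z + H z) = 0) → (q : ℝ) ≤ (lapL H (fun w =>
    (Real.log (Matrix.of fun a b => ipV (H w) (ξ a w) (ξ b w)).det.re : ℂ)) z).re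

/-- calculus of pull backs. -/
structure PbS {ι X : Type} [Fintype ι] [DecidableEq ι] [TopologicalSpace X] (M : Atl ι X) :
    Prop where
  rep : ∀ e ∈ M.A, ∀ w ∈ e.target, ∀ Θ, e.symm =ᶠ[𝓝 w] Θ →
    (∀ a σ, M.rep a σ e =ᶠ[𝓝 w] pb M a σ Θ) ∧ ∀ B, M.repF B e =ᶠ[𝓝 w] pbF M B Θ
  ev : ∀ Θ w, Lh M Θ w → (∀ᶠ u in 𝓝 w, Lh M Θ u) ∧ ContinuousAt Θ w ∧ map Θ (𝓝 w) = 𝓝 (Θ w) ∧
    (∀ᶠ q : V ι × V ι in 𝓝 (w, w), Θ q.1 = Θ q.2 → q.1 = q.2) ∧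
    (jac (M.ch (Θ w) ∘ Θ) w).det ≠ 0
  comp : ∀ Θ Θ' (T : V ι → V ι) w, Lh M Θ' (T w) → AnalyticAt ℂ T w → Θ =ᶠ[𝓝 w] Θ' ∘ T →
    (∀ a σ, pb M a σ Θ w = (jac T w).det ^ a * pb M a σ Θ' (T w)) ∧
    (∀ B, pbF M B Θ w = pull (jac T w) (pbF M B Θ' (T w))) ∧ ((jac T w).det ≠ 0 → Lh M Θ w)
  ctr : ∀ Θ w (O : Set (V ι)), Lh M Θ w → O ∈ 𝓝 w → ∃ e ∈ M.A, Θ w ∈ e.source ∧ e (Θ w) = 0 ∧
    ∀ u ∈ e.target, u + w ∈ O ∧ e.symm u = Θ (u + w)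

/-- holomorphic sections from a space of sections with a spectral gap. -/
def Sec0S : Prop := ∀ (ι X : Type) [Fintype ι] [DecidableEq ι] [TopologicalSpace X] [T2Space X]
  [CompactSpace X] [MeasurableSpace X] [BorelSpace X] (M : Atl ι X) (h : X → Mat ι) (μ : Measure X)
  (a q : ℕ) (θ : ℝ) (S : Submodule ℂ (X → ℂ)) (f : Fin q → X → ℂ), M.IsK h → M.IsVol h μ → 0 < θ →
  (∀ σ ∈ S, M.CkS ∞ a σ ∧ M.box a h σ ∈ S ∧
    2 * θ * (M.ip1 μ a h h σ σ).re ≤ (M.ip0 μ a h h (M.box a h σ) (M.box a h σ)).re) →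
  (∀ σ, M.CkS ∞ a σ → M.HolS a σ → σ ∈ S) →
  (∀ η ∈ Ioc (0 : ℝ) 1, ∀ σ, M.CkS ∞ a σ → (fun x => (η : ℂ) * σ x - M.box a h σ x) ∈ S → σ ∈ S) →
  (∀ j, f j ∈ S) → (∀ i j, M.ip0 μ a h h (f i) (f j) = if i = j then 1 else 0) →
  (∀ d : Fin q → ℂ, (M.ip1 μ a h h (fun x => ∑ j, d j * f j x) fun x => ∑ j, d j * f j x).re ≤
    θ / 4 * ∑ j, ‖d j‖ ^ 2) →
  ∃ σ : Fin q → X → ℂ, (∀ j, M.HolS a (σ j)) ∧ LinearIndependent ℂ σ

/-- the charts develop along the leaves. -/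
def DevS : Prop := ∀ (Y G F W T : Type) [TopologicalSpace Y] [T2Space Y] [Group G] [MulAction G Y]
  [ContinuousConstSMul G Y] [NormedAddCommGroup F] [NormedSpace ℝ F] [NormedAddCommGroup W]
  [NormedSpace ℂ W] [NormedSpace ℝ W] (P : LP Y G F W T), ∃ Ψ, Dv P Ψ

/-! ### adapted charts -/

section glob

variable {ι X Y G r : Type} [Fintype ι] [DecidableEq ι] [TopologicalSpace X] [TopologicalSpace Y]
  [Group G] [MulAction G Y] [Fintype r] [DecidableEq r] {M : Atl ι X} {p : Y → X}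
  (E : Dt M p G r) (Q : Mat r) (c : G → V r) (x : Y → V r) (h ξ : X → Mat ι)

/-- a chart in which the geometry is that of the model. -/
structure Bx (s : Finset ι) (L : Matrix r (Sg' s) ℂ) (q : Y) where
  e : Ch ι X
  sh : V ι → Y
  z0 : V (Sg' s)
  R : ℝ
  H : V (Ta s) → Mat r
  β : V (Ta s) → Mat (Ta s)
  mem : e ∈ M.A
  mo : Mo s Q L H β R
  ctr : sh (glue s z0 0) = q
  box : ∀ w, ‖zp s w - z0‖ < R → ‖yp s w‖ < R → w ∈ e.target ∧ F12.Sec p e w sh ∧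
    E.H (sh w) = H (yp s w) ∧ x (sh w) = xm s Q L H w ∧ M.repF h e w = gM s Q L H β w

/-- finitely many adapted charts. -/
structure Ac (s : Finset ι) (L : Matrix r (Sg' s) ℂ) where
  P : LP Y G (r → ℝ) (V (Ta s)) (Mat r)
  e : P.κ → Ch ι X
  H : P.κ → V (Ta s) → Mat r
  β : P.κ → V (Ta s) → Mat (Ta s)
  mo : ∀ k, Mo s Q L (H k) (β k) (P.yr k)
  eA : P.A = rA E.ρ E.reR
  ec : P.c = fun g => rv (c g)
  ex : ∀ q, cv (P.x q) = x q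
  eH : P.H = E.H
  eg : ∀ k, P.g k = fun y => rb (β k y)
  mem : ∀ k, e k ∈ M.A
  box : ∀ k, ∀ v ∈ ball (P.vc k) (P.vr k), ∀ y ∈ ball (0 : V (Ta s)) (P.yr k),
    glue s (zM Q L (H k y) *ᵥ cv v) y ∈ (e k).target ∧
    p ((P.e k).symm (v, y)) = (e k).symm (glue s (zM Q L (H k y) *ᵥ cv v) y) ∧
    E.H ((P.e k).symm (v, y)) = H k y ∧ M.repF h (e k) (glue s (zM Q L (H k y) *ᵥ cv v) y) =
      gM s Q L (H k) (β k) (glue s (zM Q L (H k y) *ᵥ cv v) y)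

/-- the pointwise identities on the sheets. -/
def PlS : Prop := ∀ (σ : Type) [Fintype σ] [DecidableEq σ] (L : Matrix r σ ℂ), Lag Q L →
  Loc M p fun e z s => Sg Q (E.H (s z)) ∧ Pt Q L (E.H (s z)) (M.repF h e z) (dX (x ∘ s) z) ∧
    M.repF ξ e z = xiM (E.H (s z)) (dX (x ∘ s) z)

/-- the fields along the leaves, the period matrix and the leaf coordinate are holomorphic. -/
def HolS8 : Prop := ∀ (σ : Type) [Fintype σ] [DecidableEq σ] (L : Matrix r σ ℂ), Lag Q L →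
  Loc M p fun e z s => AnM (fun w => vX Q (M.repF h e w) (dX (x ∘ s) w)) z ∧
    AnM (fun w => zM Q L (E.H (s w))) z ∧ AnalyticAt ℂ (fun w => zM Q L (E.H (s w)) *ᵥ x (s w)) z

/-- the fields commute, and the metric is constant along them. -/
def ComS8 : Prop := Loc M p fun e z s => ∀ u : V r,
  dF (E.H ∘ s) z (vX Q (M.repF h e z) (dX (x ∘ s) z) *ᵥ u) = 0 ∧ ∀ v : V r,
    fderiv ℂ (fun w => vX Q (M.repF h e w) (dX (x ∘ s) w) *ᵥ v) z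
        (vX Q (M.repF h e z) (dX (x ∘ s) z) *ᵥ u) =
      fderiv ℂ (fun w => vX Q (M.repF h e w) (dX (x ∘ s) w) *ᵥ u) z
        (vX Q (M.repF h e z) (dX (x ∘ s) z) *ᵥ v)

/-- straightening of the leaves. -/
def StrS : Prop := ∀ (s : Finset ι) (L : Matrix r (Sg' s) ℂ), Lag Q L → ∀ q : Y, ∃ e ∈ M.A,
  ∃ w₀ ∈ e.target, ∃ sh, F12.Sec p e w₀ sh ∧ sh w₀ = q ∧ yp s w₀ = 0 ∧ ∀ᶠ w in 𝓝 w₀,
    zM Q L (E.H (sh w)) *ᵥ x (sh w) = zp s w ∧ ∀ a ∈ s,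
      (∀ t : ℂ, dF (E.H ∘ sh) w (Pi.single a t) = 0) ∧
      ∀ j, (M.repF h e w - M.repF ξ e w) a j = 0

def ChS : Prop := ∀ (s : Finset ι) (L : Matrix r (Sg' s) ℂ), Lag Q L → ∀ q : Y,
  Nonempty (Bx E Q x h s L q)

def AcS : Prop := ∀ (s : Finset ι) (L : Matrix r (Sg' s) ℂ), Lag Q L → Nonempty (Ac E Q c x h s L)

/-- invariant spaces of endomorphisms are stable under the Higgs field. -/
def InvS8 : Prop := ∀ n : Submodule ℂ (Mat r), (∀ g, ∀ B ∈ n, E.ρ g * B * E.ρ g⁻¹ ∈ n) →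
  Loc M p fun _ z s => ∀ v, ∀ B ∈ n,
    (E.H (s z))⁻¹ * dF (E.H ∘ s) z v * B - B * ((E.H (s z))⁻¹ * dF (E.H ∘ s) z v) ∈ n

end glob

end Pool.Agent.Lib.MP_813db1_ag.VH.S8
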