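import Pool.Agent.Lib.MP_813db1_ag.VH.S8.Fb
import Pool.Agent.Lib.MP_813db1_ag.VH.S8.Jz
import Pool.Agent.Lib.MP_813db1_ag.VH.S8.Alg
import Pool.Agent.Lib.MP_caab05_ag.GB.Osg

/-! The matrices which act on the period map as one of the fields. -/

namespace Pool.Agent.Lib.MP_813db1_ag.VH.S8

open Pool.Agent.Lib.MP_813db1_ag.HS Pool.Agent.Lib.MP_813db1_ag.AS
open Complex Matrix Filter Topology Set Metric
open scoped ContDiff ComplexOrder

set_option linter.unusedSectionVars false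

namespace ZcAux

open JzAux

section calc1

variable {ι τ α β : Type} [Fintype ι] [DecidableEq ι] [Fintype τ] [DecidableEq τ]

theorem dF_zero (F : V ι → Matrix α β ℂ) (z : V ι) : dF F z 0 = 0 := by
  ext i j
  simp [dF_apply]

theorem dF_comp {F : V τ → Matrix α β ℂ} {φ : V ι → V τ} {φ' : V ι →L[ℝ] V τ} {z : V ι}
    (h : DfR F (φ z)) (hφ : HasFDerivAt φ φ' z) (v : V ι) :
    dF (fun w => F (φ w)) z v = dF F (φ z) (φ' v) := by
  ext i j
  have e := ((h i j).hasFDerivAt.comp z hφ).fderiv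
  exact congrArg (fun T => T v) e

theorem dF_sub {F F' : V ι → Matrix α β ℂ} {z : V ι} (h : DfR F z) (h' : DfR F' z) (v : V ι) :
    dF (fun w => F w - F' w) z v = dF F z v - dF F' z v := by
  simp only [sub_eq_add_neg]
  rw [dF_add h h'.neg, dF_neg]

theorem second {F : V ι → Matrix α β ℂ} {η η' : V ι → V ι} {y : V ι} (h : SmR F y)
    (hη : DifferentiableAt ℂ η y) (hη' : DifferentiableAt ℂ η' y)
    (hc : fderiv ℂ η y (η' y) = fderiv ℂ η' y (η y)) :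
    dF (fun w => dF F w (η w)) y (η' y) = dF (fun w => dF F w (η' w)) y (η y) := by
  ext i j
  have h2 := sm_two (h i j)
  have h1 : DifferentiableAt ℝ (fderiv ℝ fun w => F w i j) y :=
    (h2.fderiv_right (m := 1) (by norm_num)).differentiableAt (by simp)
  have e1 := (h1.hasFDerivAt.clm_apply (hη.hasFDerivAt.restrictScalars ℝ)).fderiv
  have e2 := (h1.hasFDerivAt.clm_apply (hη'.hasFDerivAt.restrictScalars ℝ)).fderiv
  simp only [dF_apply]
  rw [e1, e2]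
  simp only [_root_.add_apply, ContinuousLinearMap.comp_apply,
    ContinuousLinearMap.coe_restrictScalars', ContinuousLinearMap.flip_apply, hc]
  rw [h2.isSymmSndFDerivAt (by simp) (η y) (η' y)]

theorem comb {q : ℕ} {ξ : Fin q → V ι → V ι} {y : V ι} (t : Fin q → ℝ)
    (h : ∀ a, DifferentiableAt ℂ (ξ a) y) :
    HasFDerivAt (fun w => ∑ a, t a • ξ a w) (∑ a, t a • fderiv ℂ (ξ a) y) y :=
  HasFDerivAt.fun_sum fun a _ => (h a).hasFDerivAt.const_smul (t a)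

theorem comb_comm {q : ℕ} {ξ : Fin q → V ι → V ι} {y : V ι} (t t' : Fin q → ℝ)
    (h : ∀ a, DifferentiableAt ℂ (ξ a) y)
    (hc : ∀ a b, fderiv ℂ (ξ a) y (ξ b y) = fderiv ℂ (ξ b) y (ξ a y)) :
    fderiv ℂ (fun w => ∑ a, t a • ξ a w) y (∑ a, t' a • ξ a y) =
      fderiv ℂ (fun w => ∑ a, t' a • ξ a w) y (∑ a, t a • ξ a y) := by
  rw [(comb t h).fderiv, (comb t' h).fderiv]
  simp only [_root_.sum_apply, _root_.smul_apply, map_sum,
    ContinuousLinearMap.map_smul_of_tower]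
  refine Finset.sum_comm.trans ?_
  exact Finset.sum_congr rfl fun a _ => Finset.sum_congr rfl fun b _ => by
    rw [hc, smul_comm]

end calc1

section alg

variable {r : Type} [Fintype r] [DecidableEq r] {Q A A' ρ ρ' : Mat r}

theorem sp_br (h : Sp Q A) (h' : Sp Q A') : Sp Q (A * A' - A' * A) := by
  refine ⟨rl_sub (rl_mul h.1 h'.1) (rl_mul h'.1 h.1), ?_⟩
  have e := eq_neg_of_add_eq_zero_left h.2
  have e' := eq_neg_of_add_eq_zero_left h'.2
  rw [transpose_sub, transpose_mul, transpose_mul, Matrix.sub_mul, Matrix.mul_assoc,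
    Matrix.mul_assoc, e, e', Matrix.mul_neg, Matrix.mul_neg, ← Matrix.mul_assoc,
    ← Matrix.mul_assoc, e, e']
  noncomm_ring

theorem sp_conj (h : Sp Q A) (h1 : Rl ρ) (h2 : Rl ρ') (h3 : ρ * ρ' = 1) (h4 : ρᵀ * Q * ρ = Q) :
    Sp Q (ρ * A * ρ') := by
  refine ⟨rl_mul (rl_mul h1 h.1) h2, ?_⟩
  have e1 : ρᵀ * Q = Q * ρ' := by
    calc ρᵀ * Q = ρᵀ * Q * (ρ * ρ') := by rw [h3, Matrix.mul_one]
      _ = Q * ρ' := by rw [← Matrix.mul_assoc, h4]
  have e2 : Q * ρ = ρ'ᵀ * Q := by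
    calc Q * ρ = (ρ * ρ')ᵀ * Q * ρ := by rw [h3, transpose_one, Matrix.one_mul]
      _ = ρ'ᵀ * (ρᵀ * Q * ρ) := by rw [transpose_mul]; noncomm_ring
      _ = ρ'ᵀ * Q := by rw [h4]
  calc (ρ * A * ρ')ᵀ * Q + Q * (ρ * A * ρ') = ρ'ᵀ * Aᵀ * (ρᵀ * Q) + Q * ρ * A * ρ' := by
        rw [transpose_mul, transpose_mul]; noncomm_ring
    _ = ρ'ᵀ * (Aᵀ * Q + Q * A) * ρ' := by rw [e1, e2]; noncomm_ring
    _ = 0 := by rw [h.2, Matrix.mul_zero, Matrix.zero_mul]

end alg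

section model

variable {ι r : Type} [Fintype ι] [DecidableEq ι] [Fintype r] [DecidableEq r] {s : Finset ι}
  {Q A A' : Mat r} {L : Matrix r (Sg' s) ℂ} {H : V (Ta s) → Mat r} {R : ℝ}
  {η η' : V (Ta s) → V (Ta s)}

theorem ident (hA : AlgS) (hM : Mo0 s Q L H R) (hη : DifferentiableOn ℂ η (ball 0 R)) (hr : Rl A)
    {y : V (Ta s)} (hy : y ∈ ball (0 : V (Ta s)) R)
    (h : ∀ᶠ w in 𝓝 y, dF (fun u => jM Q (H u)) w (η w) = A * jM Q (H w) - jM Q (H w) * A) :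
    ∀ w ∈ ball (0 : V (Ta s)) R,
      dF (fun u => jM Q (H u)) w (η w) = A * jM Q (H w) - jM Q (H w) * A := by
  have hJ := jzS ι r hA s Q L H R hM
  intro w hw
  refine (((hJ w hw).2 (η w)).2.2 A hr).2 ?_
  ext i j
  have e : ∀ u ∈ ball (0 : V (Ta s)) R, dF (fun u => zM Q L (H u)) u (η u) i j =
      fderiv ℂ (fun u => zM Q L (H u) i j) u (η u) := fun u hu => by
    rw [dF_apply, (hM.an u hu i j).differentiableAt.fderiv_restrictScalars ℝ]
    rfl
  have a1 : AnalyticOnNhd ℂ (fun u => fderiv ℂ (fun u => zM Q L (H u) i j) u (η u)) (ball 0 R) :=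
    MP_caab05_ag.GB.osg _ _ _ _ isOpen_ball fun u hu =>
      (hM.an u hu i j).fderiv.differentiableAt.differentiableWithinAt.clm_apply (hη u hu)
  have a2 : AnalyticOnNhd ℂ (fun u : V (Ta s) =>
      (-(zM Q L (H u) * A * (1 - L * zM Q L (H u))) : Matrix (Sg' s) r ℂ) i j) (ball 0 R) := by
    intro u hu
    simp only [Matrix.neg_apply, mul_apply, Matrix.sub_apply]
    exact (Finset.analyticAt_fun_sum _ fun a _ => (Finset.analyticAt_fun_sum _ fun b _ =>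
      (hM.an u hu _ _).mul analyticAt_const).mul (analyticAt_const.sub
        (Finset.analyticAt_fun_sum _ fun b _ => analyticAt_const.mul (hM.an u hu _ _)))).neg
  rw [e w hw]
  refine a1.eqOn_of_preconnected_of_eventuallyEq a2 (convex_ball 0 R).isPreconnected hy ?_ hw
  filter_upwards [h, isOpen_ball.mem_nhds hy] with u h1 hu
  rw [← e u hu, (((hJ u hu).2 (η u)).2.2 A hr).1 h1]

theorem brk (hA : AlgS) (hM : Mo0 s Q L H R) {y : V (Ta s)} (hy : y ∈ ball (0 : V (Ta s)) R)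
    (hη : DifferentiableAt ℂ η y) (hη' : DifferentiableAt ℂ η' y)
    (hc : fderiv ℂ η y (η' y) = fderiv ℂ η' y (η y))
    (h : ∀ w ∈ ball (0 : V (Ta s)) R,
      dF (fun u => jM Q (H u)) w (η w) = A * jM Q (H w) - jM Q (H w) * A)
    (h' : ∀ w ∈ ball (0 : V (Ta s)) R,
      dF (fun u => jM Q (H u)) w (η' w) = A' * jM Q (H w) - jM Q (H w) * A') :
    (A * A' - A' * A) * jM Q (H y) = jM Q (H y) * (A * A' - A' * A) := by
  have hJ := (jzS ι r hA s Q L H R hM y hy).1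
  have hb : ∀ᶠ w in 𝓝 y, w ∈ ball (0 : V (Ta s)) R := isOpen_ball.mem_nhds hy
  have e := second hJ hη hη' hc
  rw [dF_congr (hb.mono h), dF_congr (hb.mono h'),
    dF_sub ((DfR.const A).mul hJ.df) (hJ.df.mul (DfR.const A)),
    dF_sub ((DfR.const A').mul hJ.df) (hJ.df.mul (DfR.const A')), dF_cmul _ hJ.df,
    dF_cmul _ hJ.df, dF_mulc hJ.df, dF_mulc hJ.df, h y hy, h' y hy] at e
  rw [← sub_eq_zero] at e ⊢
  rw [← e]
  noncomm_ring

end model

end ZcAux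

namespace Fb

open JzAux ZcAux

variable {ι X Y G r : Type} [Fintype ι] [DecidableEq ι] [TopologicalSpace X] [TopologicalSpace Y]
  [Group G] [MulAction G Y] [Fintype r] [DecidableEq r] {M : Atl ι X} {p : Y → X}
  {E : Dt M p G r} {Q : Mat r} {c : G → V r} {x : Y → V r} {h ξ : X → Mat ι} {s : Finset ι}
  {L : Matrix r (Sg' s) ℂ} {B : Fb E Q c x h s L}

theorem zc_move (hA : AlgS) (ok : B.Ok) (hO : B.OvS ok) {k l : B.κ} {γ : G} {y y' : V (Ta s)}
    (hR : B.Rel k l γ y y') {η η' : V (Ta s) → V (Ta s)} (hη' : DifferentiableOn ℂ η' (B.Bl l))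
    (hc : ∀ᶠ w in 𝓝 y, fderiv ℂ ((B.pg ok).rm k l γ) w (η w) = η' ((B.pg ok).rm k l γ w))
    {A : Mat r} (hr : Rl A) (h1 : ∀ w ∈ B.Bl k, dF (B.J k) w (η w) = A * B.J k w - B.J k w * A) :
    ∀ w ∈ B.Bl l, dF (B.J l) w (η' w) =
      E.ρ γ * A * E.ρ γ⁻¹ * B.J l w - B.J l w * (E.ρ γ * A * E.ρ γ⁻¹) := by
  have hR' : (B.pg ok).Rel k l γ y y' := hR
  have hJ : ∀ k, ∀ w ∈ B.Bl k, DfR (B.J k) w := fun k w hw =>
    (jzS ι r hA s Q L _ _ (B.mo k).toMo0 w hw).1.df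
  refine ident hA (B.mo l).toMo0 hη' (rl_mul (rl_mul (E.reR γ) hr) (E.reR γ⁻¹)) hR.2.1 ?_
  have h2 := (PG.loc' hR').2
  have h3 : ∀ᶠ w in 𝓝 y, dF (B.J l) ((B.pg ok).rm k l γ w) (η' ((B.pg ok).rm k l γ w)) =
      E.ρ γ * A * E.ρ γ⁻¹ * B.J l ((B.pg ok).rm k l γ w) -
        B.J l ((B.pg ok).rm k l γ w) * (E.ρ γ * A * E.ρ γ⁻¹) := by
    filter_upwards [h2.eventually_nhds, hc] with w hw hcw
    have h4 : B.Rel k l γ w _ := hw.self_of_nhds
    obtain ⟨a1, -, a2, -⟩ := hO.hol k l γ w _ h4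
    have e : (fun u => B.J l ((B.pg ok).rm k l γ u)) =ᶠ[𝓝 w] fun u => E.ρ γ * B.J k u * E.ρ γ⁻¹ :=
      hw.mono fun u hu => (hO.hol k l γ u _ hu).2.2.1
    have e1 := dF_comp (hJ l _ h4.2.1) (a1.differentiableAt.hasFDerivAt.restrictScalars ℝ) (η w)
    rw [dF_congr e, dF_mulc ((DfR.const _).mul (hJ k w h4.1)), dF_cmul _ (hJ k w h4.1),
      h1 w h4.1, ContinuousLinearMap.coe_restrictScalars', hcw] at e1
    rw [← e1, a2]
    calc E.ρ γ * (A * B.J k w - B.J k w * A) * E.ρ γ⁻¹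
        = E.ρ γ * A * 1 * B.J k w * E.ρ γ⁻¹ - E.ρ γ * B.J k w * 1 * A * E.ρ γ⁻¹ := by noncomm_ring
      _ = _ := by rw [← E.inv_mul γ]; noncomm_ring
  have h5 := PG.rm_rm ((B.pg ok).symm hR')
  rw [inv_inv] at h5
  filter_upwards [(PG.tendsto ((B.pg ok).symm hR')).eventually h3, h5] with u h6 h7
  rw [h7] at h6
  exact h6

theorem zcS' (hA : AlgS) (hS : E.Spl Q c x h ξ) (ok : B.Ok) (hO : B.OvS ok) : B.ZcS ok := by
  intro q η hF k l γ y y' hR A
  have hsp : Sp Q A → Sp Q (E.ρ γ * A * E.ρ γ⁻¹) := fun h1 =>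
    sp_conj h1 (E.reR γ) (E.reR γ⁻¹) (E.mul_inv γ) (hS.pol.inv γ)
  refine ⟨fun ⟨h1, t, h2⟩ => ⟨hsp h1, ?_⟩, fun ⟨h1, h2⟩ => ⟨hsp h1, fun w hw => ?_⟩⟩
  · obtain ⟨C, -, hC⟩ := hF.cov k l γ y y' hR
    refine ⟨fun b => ∑ a, t a * C a b, zc_move hA ok hO hR (η := fun w => ∑ a, t a • η k a w)
      (η' := fun w => ∑ b, (∑ a, t a * C a b) • η l b w) (fun w hw => ?_) ?_ h1.1 h2⟩
    · exact (comb _ fun b => (hF.hol l b).differentiableAt
        (isOpen_ball.mem_nhds hw)).differentiableAt.differentiableWithinAt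
    · filter_upwards [hC] with w hw
      simp only [map_sum, ContinuousLinearMap.map_smul_of_tower, hw, Finset.smul_sum,
        Finset.sum_smul, smul_smul]
      exact Finset.sum_comm
  · have h3 := zc_move hA ok hO hR (η := fun _ => 0) (η' := fun _ => 0) (differentiableOn_const _)
      (Eventually.of_forall fun w => map_zero _) h1.1
      (fun w hw => by rw [dF_zero, h2 w hw, sub_self]) w hw
    rw [dF_zero] at h3
    exact sub_eq_zero.1 h3.symm

theorem abZS' (hA : AlgS) (ok : B.Ok) : B.AbZS ok := by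
  rintro q η hF k A A' ⟨h1, t, h2⟩
  have hd : ∀ y ∈ B.Bl k, ∀ a, DifferentiableAt ℂ (η k a) y := fun y hy a =>
    (hF.hol k a).differentiableAt (isOpen_ball.mem_nhds hy)
  refine ⟨fun ⟨h3, t', h4⟩ => ⟨sp_br h1 h3, fun y hy => ?_⟩,
    fun ⟨h3, h4⟩ => ⟨sp_br h1 h3, fun y hy => ?_⟩⟩
  · exact brk hA (B.mo k).toMo0 hy (η := fun w => ∑ a, t a • η k a w)
      (η' := fun w => ∑ a, t' a • η k a w) (comb t (hd y hy)).differentiableAt
      (comb t' (hd y hy)).differentiableAt (comb_comm t t' (hd y hy) fun a b => hF.comm k a b y hy)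
      h2 h4
  · exact brk hA (B.mo k).toMo0 hy (η := fun w => ∑ a, t a • η k a w) (η' := fun _ => 0)
      (comb t (hd y hy)).differentiableAt (differentiableAt_const _) (by simp) h2
      fun w hw => by rw [dF_zero]; exact (sub_eq_zero.2 (h4 w hw)).symm

theorem zcS (hS : E.Spl Q c x h ξ) (ok : B.Ok) (hO : B.OvS ok) : B.ZcS ok := zcS' algS hS ok hO

theorem abZS (ok : B.Ok) : B.AbZS ok := abZS' algS ok

theorem invB (_hq : IsQuotientCoveringMap p G) (ok : B.Ok) (hI : InvS8 E) (hO : B.OvS ok) :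
    B.InvB := by
  intro n hn k y hy v A hA
  have hg : ∀ u : V (Ta s), yp s (glue s 0 u) = u := fun u => funext fun i => dif_neg i.2
  have hw : yp s (glue s 0 y) ∈ B.Bl k := by rw [hg]; exact hy
  obtain ⟨e, he, hz, hev⟩ := B.lh k _ hw
  have h1 := hI n hn e he _ hz (B.Θt k) ⟨hO.cont k _ hw, hev.symm⟩ (glue s 0 v) A hA
  let T : V ι →L[ℝ] V (Ta s) := ContinuousLinearMap.pi fun i => ContinuousLinearMap.proj i.1
  have hT : HasFDerivAt (yp s) T (glue s 0 y) := T.hasFDerivAt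
  have e1 : E.H ∘ B.Θt k =ᶠ[𝓝 (glue s 0 y)] fun u => B.H k (yp s u) := by
    filter_upwards [hT.continuousAt.eventually (isOpen_ball.mem_nhds hw)] with u hu
    exact B.HΨ k _ _ hu
  have e2 : E.H (B.Θt k (glue s 0 y)) = B.H k y := by
    rw [← hg y]
    exact (congrArg (fun u => E.H (B.Θt k (glue s 0 u))) (hg y)).trans e1.self_of_nhds
  have e3 : T (glue s 0 v) = v := hg v
  rw [dF_congr e1, dF_comp ((B.mo k).sm _ hw).df hT, e2, e3, hg] at h1
  exact h1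

end Fb

end Pool.Agent.Lib.MP_813db1_ag.VH.S8
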